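import Mathlib

/-!
Analytic sets have the Baire property.
-/

set_option autoImplicit false

open Set Topology Filter MeasureTheory

namespace Pool.Agent.H71.DST

/-- The set of points near which `s` is nowhere meagre. -/
def heavy {X : Type*} [TopologicalSpace X] (s : Set X) : Set X :=
  {x | ∀ U ∈ 𝓝 x, ¬ IsMeagre (U ∩ s)}

lemma isClosed_heavy {X : Type*} [TopologicalSpace X] (s : Set X) : IsClosed (heavy s) := by
  rw [← isOpen_compl_iff, isOpen_iff_mem_nhds]
  intro x hx
  simp only [heavy, mem_compl_iff, mem_ofPred_eq, not_forall, not_not] at hx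
  obtain ⟨U, hU, hm⟩ := hx
  obtain ⟨V, hVU, hV, hxV⟩ := mem_nhds_iff.1 hU
  refine mem_of_superset (hV.mem_nhds hxV) ?_
  intro y hy
  simp only [heavy, mem_compl_iff, mem_ofPred_eq, not_forall, not_not]
  exact ⟨V, hV.mem_nhds hy, IsMeagre.mono (inter_subset_inter_left _ hVU) hm⟩

lemma isMeagre_diff_heavy {X : Type*} [TopologicalSpace X] [SecondCountableTopology X]
    (s : Set X) : IsMeagre (s \ heavy s) := by
  let B := TopologicalSpace.countableBasis X
  have hB : B.Countable := TopologicalSpace.countable_countableBasis X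
  have hBb := TopologicalSpace.isBasis_countableBasis X
  let B' := {b ∈ B | IsMeagre (b ∩ s)}
  have hB' : B'.Countable := hB.mono (fun _ h => h.1)
  have hsub : s \ heavy s ⊆ ⋃ b ∈ B', b ∩ s := by
    rintro x ⟨hxs, hx⟩
    simp only [heavy, mem_ofPred_eq, not_forall, not_not] at hx
    obtain ⟨U, hU, hm⟩ := hx
    obtain ⟨b, hb, hxb, hbU⟩ := hBb.mem_nhds_iff.1 hU
    exact mem_biUnion (show b ∈ B' from ⟨hb, IsMeagre.mono (inter_subset_inter_left _ hbU) hm⟩)
      ⟨hxb, hxs⟩
  refine IsMeagre.mono hsub ?_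
  rw [IsMeagre, compl_iUnion₂, countable_bInter_mem hB']
  intro b hb
  exact hb.2

/-- envelope: a set with the Baire property containing `s`, minimal mod meagre sets -/
lemma exists_envelope {X : Type*} [TopologicalSpace X] [SecondCountableTopology X] (s : Set X) :
    ∃ e : Set X, BaireMeasurableSet e ∧ s ⊆ e ∧ e ⊆ closure s ∧
      ∀ t : Set X, BaireMeasurableSet t → t ⊆ e \ s → IsMeagre t := by
  refine ⟨closure s ∩ (heavy s ∪ (s \ heavy s)), ?_, ?_, inter_subset_left, ?_⟩
  · exact (isClosed_closure.isOpen_compl.baireMeasurableSet.of_compl).inter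
      (((isClosed_heavy s).isOpen_compl.baireMeasurableSet.of_compl).union
        (isMeagre_diff_heavy s).baireMeasurableSet)
  · intro x hx
    refine ⟨subset_closure hx, ?_⟩
    by_cases h : x ∈ heavy s
    · exact Or.inl h
    · exact Or.inr ⟨hx, h⟩
  · intro t ht hts
    obtain ⟨U, hU, htU⟩ := ht.residualEq_isOpen
    -- U \ t is meagre, so U ∩ s is meagre, so U avoids `heavy s`
    have hUt : IsMeagre (U \ t) := by
      change (U \ t)ᶜ ∈ residual _
      filter_upwards [htU] with p hp hps
      exact hps.2 (hp.to_iff.2 hps.1)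
    have htU' : IsMeagre (t \ U) := by
      change (t \ U)ᶜ ∈ residual _
      filter_upwards [htU] with p hp hps
      exact hps.2 (hp.to_iff.1 hps.1)
    have hUs : IsMeagre (U ∩ s) := by
      refine IsMeagre.mono ?_ hUt
      rintro p ⟨hpU, hps⟩
      exact ⟨hpU, fun hpt => (hts hpt).2 hps⟩
    refine IsMeagre.mono ?_ htU'
    intro x hx
    refine ⟨hx, fun hxU => ?_⟩
    obtain ⟨⟨-, h | h⟩, hxs⟩ := hts hx
    · exact h U (hU.mem_nhds hxU) hUs
    · exact hxs h.1

/-- cylinder of a list (reversed) -/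
def cyl (l : List ℕ) : Set (ℕ → ℕ) := {σ | PiNat.res σ l.length = l}

lemma cyl_nil : cyl [] = univ := by
  ext σ; simp [cyl]

lemma cyl_eq_iUnion (l : List ℕ) : cyl l = ⋃ n, cyl (n :: l) := by
  ext σ
  simp only [cyl, mem_ofPred_eq, List.length_cons, mem_iUnion]
  constructor
  · intro h
    exact ⟨σ l.length, by rw [PiNat.res_succ, h]⟩
  · rintro ⟨n, hn⟩
    rw [PiNat.res_succ] at hn
    exact (List.cons.inj hn).2

/-- analytic sets have the Baire property. -/
theorem analyticSet_baireMeasurableSet {X : Type*} [TopologicalSpace X] [PolishSpace X]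
    {s : Set X} (hs : AnalyticSet s) : BaireMeasurableSet s := by
  rw [AnalyticSet] at hs
  rcases hs with rfl | ⟨f, hf, rfl⟩
  · exact (isOpen_empty).baireMeasurableSet
  choose E hE1 hE2 hE3 hE4 using fun l : List ℕ => exists_envelope (f '' cyl l)
  let M : List ℕ → Set X := fun l => E l \ ⋃ n, E (n :: l)
  have hM : ∀ l, IsMeagre (M l) := by
    intro l
    refine hE4 l (M l) ((hE1 l).inter (BaireMeasurableSet.iUnion fun n => hE1 _).compl) ?_
    rintro x ⟨hx, hx'⟩
    refine ⟨hx, fun hmem => hx' ?_⟩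
    rw [cyl_eq_iUnion, image_iUnion, mem_iUnion] at hmem
    obtain ⟨n, hn⟩ := hmem
    exact mem_iUnion.2 ⟨n, hE2 _ hn⟩
  have hbig : IsMeagre (⋃ l, M l) := by
    rw [IsMeagre, compl_iUnion]
    exact countable_iInter_mem.2 hM
  have hsub : E [] \ range f ⊆ ⋃ l, M l := by
    rintro x ⟨hx, hxf⟩
    by_contra hcon
    apply hxf
    have hstep : ∀ l, x ∈ E l → ∃ n, x ∈ E (n :: l) := by
      intro l hl
      by_contra hno
      apply hcon
      refine mem_iUnion.2 ⟨l, hl, ?_⟩
      intro hmem
      obtain ⟨n, hn⟩ := mem_iUnion.1 hmem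
      exact hno ⟨n, hn⟩
    have hch : ∀ l, ∃ n, x ∈ E l → x ∈ E (n :: l) := by
      intro l
      by_cases hl : x ∈ E l
      · obtain ⟨n, hn⟩ := hstep l hl
        exact ⟨n, fun _ => hn⟩
      · exact ⟨0, fun h => absurd h hl⟩
    choose nx hnx using hch
    let L : ℕ → List ℕ := fun k => Nat.rec [] (fun _ l => nx l :: l) k
    have hL : ∀ k, L (k + 1) = nx (L k) :: L k := fun k => rfl
    let σ : ℕ → ℕ := fun k => nx (L k)
    have hres : ∀ k, PiNat.res σ k = L k := by
      intro k
      induction k with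
      | zero => rfl
      | succ k ih => rw [PiNat.res_succ, ih, hL]
    have hxE : ∀ k, x ∈ E (L k) := by
      intro k
      induction k with
      | zero => exact hx
      | succ k ih => rw [hL]; exact hnx _ ih
    refine ⟨σ, ?_⟩
    by_contra hne
    obtain ⟨U, V, hU, hV, hxU, hfV, hUV⟩ := t2_separation (Ne.symm hne : x ≠ f σ)
    have hpre : f ⁻¹' V ∈ 𝓝 σ := (hV.preimage hf).mem_nhds hfV
    obtain ⟨_, ⟨τ, n, rfl⟩, hσ, hcylV⟩ := (PiNat.isTopologicalBasis_cylinders (fun _ : ℕ => ℕ)).mem_nhds_iff.1 hpre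
    have hc : f '' cyl (L n) ⊆ V := by
      rintro _ ⟨ρ, hρ, rfl⟩
      apply hcylV
      have h1 : PiNat.res ρ n = PiNat.res σ n := by
        have : (L n).length = n := by rw [← hres, PiNat.res_length]
        have h2 : PiNat.res ρ (L n).length = L n := hρ
        rw [this] at h2
        rw [h2, hres]
      have h3 : PiNat.res σ n = PiNat.res τ n := by
        rw [PiNat.cylinder_eq_res] at hσ
        exact hσ
      rw [PiNat.cylinder_eq_res]
      exact h1.trans h3
    have hxc : x ∈ closure V := closure_mono hc (hE3 _ (hxE n))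
    obtain ⟨y, hyU, hyV⟩ := mem_closure_iff.1 hxc U hU hxU
    exact hUV.le_bot ⟨hyU, hyV⟩
  have hcl : range f ⊆ E [] := by
    have := hE2 []
    rwa [cyl_nil, image_univ] at this
  have hdiff : IsMeagre (E [] \ range f) := IsMeagre.mono hsub hbig
  have : range f = E [] \ (E [] \ range f) := by
    rw [sdiff_sdiff_right_self]
    exact (inter_eq_self_of_subset_right hcl).symm
  rw [this]
  exact (hE1 []).inter hdiff.baireMeasurableSet.compl

end Pool.Agent.H71.DST
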