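import Mathlib

/-!
# The Kuratowski-Ulam theorem (helper59, for the DST library of helper71)
-/

open Set Filter Topology

namespace Pool.Agent.H71.DST

/-- the sections of a dense open set are dense and open over a residual set -/
lemma eventually_dense_section {X Y : Type*} [TopologicalSpace X] [TopologicalSpace Y]
    [SecondCountableTopology Y] {t : Set (X × Y)} (ho : IsOpen t) (hd : Dense t) :
    ∀ᶠ x in residual X, IsOpen {y | (x, y) ∈ t} ∧ Dense {y | (x, y) ∈ t} := by
  have hopen : ∀ x : X, IsOpen {y | (x, y) ∈ t} := fun x =>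
    ho.preimage (Continuous.prodMk_right x)
  have hB := TopologicalSpace.isBasis_countableBasis Y
  have hcount := TopologicalSpace.countable_countableBasis Y
  have key : ∀ b ∈ TopologicalSpace.countableBasis Y, ∀ᶠ x in residual X,
      ∃ y ∈ b, (x, y) ∈ t := by
    intro b hb
    have hbne : b.Nonempty := TopologicalSpace.nonempty_of_mem_countableBasis hb
    have hbo : IsOpen b := hB.isOpen hb
    have hset : {x | ∃ y ∈ b, (x, y) ∈ t} = Prod.fst '' (t ∩ Prod.snd ⁻¹' b) := by
      ext x
      constructor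
      · rintro ⟨y, hy, hxy⟩
        exact ⟨(x, y), ⟨hxy, hy⟩, rfl⟩
      · rintro ⟨⟨x', y⟩, ⟨hxy, hy⟩, rfl⟩
        exact ⟨y, hy, hxy⟩
    have h1 : IsOpen {x | ∃ y ∈ b, (x, y) ∈ t} := by
      rw [hset]
      exact isOpenMap_fst _ (ho.inter (hbo.preimage continuous_snd))
    have h2 : Dense {x | ∃ y ∈ b, (x, y) ∈ t} := by
      rw [dense_iff_inter_open]
      intro U hU hUne
      obtain ⟨⟨x, y⟩, hxy⟩ := hd.inter_open_nonempty (U ×ˢ b) (hU.prod hbo) (hUne.prod hbne)
      exact ⟨x, hxy.1.1, y, hxy.1.2, hxy.2⟩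
    exact residual_of_dense_open h1 h2
  have hall : ∀ᶠ x in residual X, ∀ b ∈ TopologicalSpace.countableBasis Y,
      ∃ y ∈ b, (x, y) ∈ t := (eventually_countable_ball hcount).2 key
  filter_upwards [hall] with x hx
  refine ⟨hopen x, ?_⟩
  rw [hB.dense_iff]
  intro b hb hbne
  obtain ⟨y, hy, hxy⟩ := hx b hb
  exact ⟨y, hy, hxy⟩

/-- the easy half: almost all sections of a residual set are residual -/
lemma eventually_residual_section {X Y : Type*} [TopologicalSpace X] [TopologicalSpace Y]
    [SecondCountableTopology Y] {s : Set (X × Y)} (hs : s ∈ residual (X × Y)) :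
    ∀ᶠ x in residual X, {y | (x, y) ∈ s} ∈ residual Y := by
  rw [mem_residual_iff] at hs
  obtain ⟨S, hSo, hSd, hSc, hSs⟩ := hs
  have hall : ∀ᶠ x in residual X, ∀ t ∈ S, IsOpen {y | (x, y) ∈ t} ∧ Dense {y | (x, y) ∈ t} :=
    (eventually_countable_ball hSc).2 fun t ht => eventually_dense_section (hSo t ht) (hSd t ht)
  filter_upwards [hall] with x hx
  have h1 : ∀ t ∈ S, {y | (x, y) ∈ t} ∈ residual Y := fun t ht =>
    residual_of_dense_open (hx t ht).1 (hx t ht).2
  have h2 : (⋂ t ∈ S, {y | (x, y) ∈ t}) ∈ residual Y := (countable_bInter_mem hSc).2 h1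
  refine mem_of_superset h2 fun y hy => ?_
  refine hSs ?_
  rw [mem_sInter]
  intro t ht
  exact mem_iInter₂.1 hy t ht

/-- the easy half of the Kuratowski-Ulam theorem: almost all sections of a meagre set are
meagre. -/
theorem kuratowskiUlam' {X Y : Type*} [TopologicalSpace X] [TopologicalSpace Y]
    [SecondCountableTopology Y] {s : Set (X × Y)} (hs : IsMeagre s) :
    ∀ᶠ x in residual X, IsMeagre {y | (x, y) ∈ s} :=
  eventually_residual_section (s := sᶜ) hs

/-- the hard half of the Kuratowski-Ulam theorem: a set with the Baire property almost all of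
whose sections are meagre is meagre. -/
theorem kuratowskiUlam {X Y : Type*} [TopologicalSpace X] [TopologicalSpace Y] [BaireSpace X]
    [BaireSpace Y] [SecondCountableTopology Y] {s : Set (X × Y)} (hs : BaireMeasurableSet s)
    (h : ∀ᶠ x in residual X, IsMeagre {y | (x, y) ∈ s}) : IsMeagre s := by
  obtain ⟨U, hU, hsU⟩ := hs.residualEq_isOpen
  have hM : {p | p ∈ s ↔ p ∈ U} ∈ residual (X × Y) := by
    filter_upwards [hsU] with p hp
    exact iff_of_eq hp
  have hM' := eventually_residual_section hM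
  -- the open set is empty
  have hUe : U = ∅ := by
    by_contra hne
    obtain ⟨⟨x0, y0⟩, h0⟩ := nonempty_iff_ne_empty.2 hne
    obtain ⟨A, B, hA, hB, hxA, hyB, hAB⟩ := isOpen_prod_iff.1 hU x0 y0 h0
    have hdense := dense_of_mem_residual (inter_mem h hM')
    obtain ⟨x, hxA', hx1, hx2⟩ := hdense.inter_open_nonempty A hA ⟨x0, hxA⟩
    have hBm : IsMeagre B := by
      have h3 : ({y | (x, y) ∈ s}ᶜ ∩ {y | (x, y) ∈ s ↔ (x, y) ∈ U}) ∈ residual Y :=
        inter_mem hx1 hx2
      refine mem_of_superset h3 fun y hy hyB' => ?_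
      exact hy.1 (hy.2.2 (hAB ⟨hxA', hyB'⟩))
    exact not_isMeagre_of_isOpen hB ⟨y0, hyB⟩ hBm
  refine mem_of_superset hM fun p hp hps => ?_
  have : p ∈ U := hp.1 hps
  rw [hUe] at this
  exact this

end Pool.Agent.H71.DST
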