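import Pool.Agent.H71.DST1
import Pool.Agent.H71.DST2
import Pool.Agent.H71.DST3

/-!
Analytic relations with countable (or meagre) sections have perfect independent sets.
-/

set_option autoImplicit false

open Set Topology Filter MeasureTheory

namespace Pool.Agent.H71.DST

instance polishSpace_cantor : PolishSpace (ℕ → Bool) := by
  have h1 : SecondCountableTopology (ℕ → Bool) := inferInstance
  have h2 : TopologicalSpace.IsCompletelyMetrizableSpace (ℕ → Bool) := inferInstance
  exact { h1, h2 with }

instance perfectSpace_cantor : PerfectSpace (ℕ → Bool) := by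
  constructor
  rw [preperfect_iff_nhds]
  intro x _ U hU
  obtain ⟨_, ⟨τ, n, rfl⟩, hσ, hcyl⟩ :=
    (PiNat.isTopologicalBasis_cylinders (fun _ : ℕ => Bool)).mem_nhds_iff.1 hU
  refine ⟨Function.update x n (!x n), ⟨hcyl ?_, mem_univ _⟩, ?_⟩
  · intro i hi
    rw [Function.update_of_ne (by omega)]
    exact hσ i hi
  · intro h
    have := congrFun h n
    simp at this

lemma isMeagre_of_countable {X : Type*} [TopologicalSpace X] [T1Space X] [PerfectSpace X]
    {s : Set X} (hs : s.Countable) : IsMeagre s := by
  have : s ⊆ ⋃ x ∈ s, {x} := by intro x hx; exact mem_biUnion hx rfl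
  refine IsMeagre.mono this ?_
  rw [IsMeagre, compl_iUnion₂, countable_bInter_mem hs]
  intro x _
  apply residual_of_dense_open isOpen_compl_singleton
  exact dense_compl_singleton x

/-- Meagre sections. -/
theorem exists_perfect_of_meagre_sections {X : Type*} [TopologicalSpace X] [PolishSpace X]
    [PerfectSpace X] [Nonempty X] {R : Set (X × X)} (hR : AnalyticSet R)
    (h : ∀ x, IsMeagre {y | (x, y) ∈ R}) :
    ∃ f : (ℕ → Bool) → X, Continuous f ∧ Function.Injective f ∧
      ∀ x y, x ≠ y → (f x, f y) ∉ R :=
  mycielski R (kuratowskiUlam (analyticSet_baireMeasurableSet hR) (Eventually.of_forall h))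

/-- Countable sections. -/
theorem exists_perfect_of_countable_sections {X : Type*} [TopologicalSpace X] [PolishSpace X]
    [PerfectSpace X] [Nonempty X] {R : Set (X × X)} (hR : AnalyticSet R)
    (h : ∀ x, {y | (x, y) ∈ R}.Countable) :
    ∃ f : (ℕ → Bool) → X, Continuous f ∧ Function.Injective f ∧
      ∀ x y, x ≠ y → (f x, f y) ∉ R :=
  exists_perfect_of_meagre_sections hR (fun x => isMeagre_of_countable (h x))

/-- The projection of a measurable set along a standard Borel space is analytic. -/
lemma analyticSet_proj {X Y : Type*} [TopologicalSpace X] [PolishSpace X] [MeasurableSpace X]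
    [BorelSpace X] [MeasurableSpace Y] [StandardBorelSpace Y] {M : Set (X × Y)}
    (hM : MeasurableSet M) : AnalyticSet {x | ∃ y, (x, y) ∈ M} := by
  have : {x | ∃ y, (x, y) ∈ M} = Prod.fst '' M := by
    ext x; simp
  rw [this]
  exact hM.analyticSet_image measurable_fst

end Pool.Agent.H71.DST
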