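import Mathlib

/-!
The Polish group `Equiv.Perm ℕ` (topology of pointwise convergence of `g` and `g⁻¹`).
-/

set_option autoImplicit false

open Set Topology

namespace Pool.Agent.H71

/-- the map `g ↦ (g, g⁻¹)` -/
def permEmb (g : Equiv.Perm ℕ) : (ℕ → ℕ) × (ℕ → ℕ) := (⇑g, ⇑g.symm)

/-- The permutation topology on `Equiv.Perm ℕ`. -/
@[reducible] def permTop : TopologicalSpace (Equiv.Perm ℕ) := TopologicalSpace.induced permEmb inferInstance

attribute [local instance] permTop

lemma isEmbedding_permEmb : IsEmbedding permEmb := by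
  refine ⟨⟨rfl⟩, ?_⟩
  intro g h hgh
  have := congrArg Prod.fst hgh
  exact Equiv.ext (fun n => congrFun this n)

lemma continuous_apply_apply {X : Type*} [TopologicalSpace X] {f : X → ℕ → ℕ} {m : X → ℕ}
    (hf : Continuous f) (hm : Continuous m) : Continuous fun x => f x (m x) := by
  have h : Continuous fun p : (ℕ → ℕ) × ℕ => p.1 p.2 := by
    rw [continuous_prod_of_discrete_right]
    intro n
    exact continuous_apply n
  exact h.comp (hf.prodMk hm)

lemma range_permEmb : Set.range permEmb =
    {p : (ℕ → ℕ) × (ℕ → ℕ) | (∀ n, p.1 (p.2 n) = n) ∧ ∀ n, p.2 (p.1 n) = n} := by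
  ext p
  constructor
  · rintro ⟨g, rfl⟩
    exact ⟨fun n => g.apply_symm_apply n, fun n => g.symm_apply_apply n⟩
  · rintro ⟨h1, h2⟩
    exact ⟨⟨p.1, p.2, h2, h1⟩, rfl⟩

lemma isClosedEmbedding_permEmb : IsClosedEmbedding permEmb := by
  refine ⟨isEmbedding_permEmb, ?_⟩
  rw [range_permEmb]
  have h1 : ∀ n, IsClosed {p : (ℕ → ℕ) × (ℕ → ℕ) | p.1 (p.2 n) = n} := fun n =>
    isClosed_eq (continuous_apply_apply continuous_fst ((continuous_apply n).comp continuous_snd))
      continuous_const
  have h2 : ∀ n, IsClosed {p : (ℕ → ℕ) × (ℕ → ℕ) | p.2 (p.1 n) = n} := fun n =>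
    isClosed_eq (continuous_apply_apply continuous_snd ((continuous_apply n).comp continuous_fst))
      continuous_const
  have : {p : (ℕ → ℕ) × (ℕ → ℕ) | (∀ n, p.1 (p.2 n) = n) ∧ ∀ n, p.2 (p.1 n) = n} =
      (⋂ n, {p : (ℕ → ℕ) × (ℕ → ℕ) | p.1 (p.2 n) = n}) ∩
        ⋂ n, {p : (ℕ → ℕ) × (ℕ → ℕ) | p.2 (p.1 n) = n} := by
    ext p; simp
  rw [this]
  exact (isClosed_iInter h1).inter (isClosed_iInter h2)

lemma polishSpace_perm : PolishSpace (Equiv.Perm ℕ) := isClosedEmbedding_permEmb.polishSpace

attribute [local instance] polishSpace_perm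

lemma continuous_perm_coe : Continuous fun g : Equiv.Perm ℕ => (g : ℕ → ℕ) :=
  continuous_fst.comp isEmbedding_permEmb.continuous

lemma continuous_perm_symm_coe : Continuous fun g : Equiv.Perm ℕ => (g.symm : ℕ → ℕ) :=
  continuous_snd.comp isEmbedding_permEmb.continuous

lemma continuous_perm_apply (n : ℕ) : Continuous fun g : Equiv.Perm ℕ => g n :=
  (continuous_apply n).comp continuous_perm_coe

lemma continuous_perm_symm_apply (n : ℕ) : Continuous fun g : Equiv.Perm ℕ => g.symm n :=
  (continuous_apply n).comp continuous_perm_symm_coe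

lemma continuous_to_perm {X : Type*} [TopologicalSpace X] {f : X → Equiv.Perm ℕ}
    (h1 : ∀ n, Continuous fun x => f x n) (h2 : ∀ n, Continuous fun x => (f x).symm n) :
    Continuous f := by
  rw [isEmbedding_permEmb.continuous_iff]
  exact (continuous_pi h1).prodMk (continuous_pi h2)

lemma isTopologicalGroup_perm : IsTopologicalGroup (Equiv.Perm ℕ) where
  continuous_mul := by
    apply continuous_to_perm
    · intro n
      exact continuous_apply_apply
        (f := fun p : Equiv.Perm ℕ × Equiv.Perm ℕ => (p.1 : ℕ → ℕ))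
        (m := fun p : Equiv.Perm ℕ × Equiv.Perm ℕ => p.2 n)
        (continuous_perm_coe.comp continuous_fst)
        ((continuous_perm_apply n).comp continuous_snd)
    · intro n
      exact continuous_apply_apply
        (f := fun p : Equiv.Perm ℕ × Equiv.Perm ℕ => (p.2.symm : ℕ → ℕ))
        (m := fun p : Equiv.Perm ℕ × Equiv.Perm ℕ => p.1.symm n)
        (continuous_perm_symm_coe.comp continuous_snd)
        ((continuous_perm_symm_apply n).comp continuous_fst)
  continuous_inv := by
    apply continuous_to_perm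
    · intro n
      exact continuous_perm_symm_apply n
    · intro n
      exact continuous_perm_apply n

attribute [local instance] isTopologicalGroup_perm

/-- the Borel σ-algebra of `Equiv.Perm ℕ` -/
@[reducible] def permMeas : MeasurableSpace (Equiv.Perm ℕ) := borel (Equiv.Perm ℕ)

attribute [local instance] permMeas

lemma borelSpace_perm : BorelSpace (Equiv.Perm ℕ) := ⟨rfl⟩

attribute [local instance] borelSpace_perm

lemma isOpen_apply_eq (a b : ℕ) : IsOpen {g : Equiv.Perm ℕ | g a = b} :=
  (isOpen_discrete {b}).preimage (continuous_perm_apply a)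

lemma measurable_to_perm {X : Type*} [MeasurableSpace X] {f : X → Equiv.Perm ℕ}
    (h : ∀ a b, MeasurableSet {x | f x a = b}) : Measurable f := by
  have e : Measurable (fun x => permEmb (f x)) := by
    refine Measurable.prodMk ?_ ?_
    · refine measurable_pi_lambda _ (fun n => ?_)
      exact measurable_to_countable' (fun b => h n b)
    · refine measurable_pi_lambda _ (fun n => ?_)
      refine measurable_to_countable' (fun b => ?_)
      have : (fun x => (f x).symm n) ⁻¹' {b} = {x | f x b = n} := by
        ext x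
        simp only [mem_preimage, mem_singleton_iff, mem_ofPred_eq]
        rw [Equiv.symm_apply_eq, eq_comm]
      rw [this]
      exact h b n
  exact (isClosedEmbedding_permEmb.measurableEmbedding.measurable_comp_iff).1 e

lemma tendsto_perm {h : ℕ → Equiv.Perm ℕ} {g : Equiv.Perm ℕ}
    (h1 : ∀ a, ∀ᶠ n in Filter.atTop, h n a = g a)
    (h2 : ∀ a, ∀ᶠ n in Filter.atTop, (h n).symm a = g.symm a) :
    Filter.Tendsto h Filter.atTop (𝓝 g) := by
  rw [isEmbedding_permEmb.tendsto_nhds_iff]
  refine Filter.Tendsto.prodMk_nhds ?_ ?_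
  · rw [tendsto_pi_nhds]
    intro a
    exact tendsto_const_nhds.congr' ((h1 a).mono fun n hn => hn.symm)
  · rw [tendsto_pi_nhds]
    intro a
    exact tendsto_const_nhds.congr' ((h2 a).mono fun n hn => hn.symm)

/-- closed sets are closed in the combinatorial sense -/
lemma mem_of_isClosed {H : Set (Equiv.Perm ℕ)} (hH : IsClosed H) (g : Equiv.Perm ℕ)
    (h : ∀ F : Finset ℕ, ∃ h ∈ H, ∀ a ∈ F, h a = g a) : g ∈ H := by
  classical
  choose φ hφ hφ' using fun n : ℕ => h (Finset.range n ∪ (Finset.range n).image g.symm)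
  refine hH.mem_of_tendsto (tendsto_perm (h := φ) (g := g) ?_ ?_)
    (Filter.Eventually.of_forall hφ)
  · intro a
    filter_upwards [Filter.eventually_gt_atTop a] with n hn
    exact hφ' n a (Finset.mem_union_left _ (Finset.mem_range.2 hn))
  · intro a
    filter_upwards [Filter.eventually_gt_atTop a] with n hn
    have := hφ' n (g.symm a) (Finset.mem_union_right _
      (Finset.mem_image_of_mem _ (Finset.mem_range.2 hn)))
    rw [Equiv.apply_symm_apply] at this
    rw [Equiv.symm_apply_eq, this]

end Pool.Agent.H71
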