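import Mathlib

/-!
Mycielski's theorem: a meagre relation on a nonempty perfect Polish space has a perfect
independent set.
-/

set_option autoImplicit false

open Set Topology Filter

namespace Pool.Agent.H71.DST

/-- one pair -/
lemma avoid_pair {X J : Type*} [TopologicalSpace X] [DecidableEq J] {N : Set (X × X)}
    (hN : IsClosed N) (hNi : interior N = ∅) (V : J → Set X) (hV : ∀ j, IsOpen (V j))
    (hVn : ∀ j, (V j).Nonempty) {i j : J} (hij : i ≠ j) :
    ∃ V' : J → Set X, (∀ k, IsOpen (V' k)) ∧ (∀ k, (V' k).Nonempty) ∧ (∀ k, V' k ⊆ V k) ∧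
      ∀ a ∈ V' i, ∀ b ∈ V' j, (a, b) ∉ N := by
  have hne : ((V i ×ˢ V j) ∩ Nᶜ).Nonempty := by
    exact (interior_eq_empty_iff_dense_compl.1 hNi).inter_open_nonempty _ ((hV i).prod (hV j))
      ((hVn i).prod (hVn j))
  obtain ⟨⟨a, b⟩, hab, habN⟩ := hne
  have ho : IsOpen ((V i ×ˢ V j) ∩ Nᶜ) := ((hV i).prod (hV j)).inter hN.isOpen_compl
  obtain ⟨A, B, hA, hB, haA, hbB, hAB⟩ := isOpen_prod_iff.1 ho a b ⟨hab, habN⟩
  refine ⟨fun k => if k = i then A else if k = j then B else V k, ?_, ?_, ?_, ?_⟩
  · intro k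
    dsimp only
    split_ifs
    · exact hA
    · exact hB
    · exact hV k
  · intro k
    dsimp only
    split_ifs
    · exact ⟨a, haA⟩
    · exact ⟨b, hbB⟩
    · exact hVn k
  · intro k
    dsimp only
    split_ifs with h1 h2
    · subst h1
      intro x hx
      exact (hAB (show (x, b) ∈ A ×ˢ B from ⟨hx, hbB⟩)).1.1
    · subst h2
      intro x hx
      exact (hAB (show (a, x) ∈ A ×ˢ B from ⟨haA, hx⟩)).1.2
    · exact subset_rfl
  · intro x hx y hy
    simp only [if_true] at hx
    simp only [hij.symm, if_false, if_true] at hy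
    exact (hAB (show (x, y) ∈ A ×ˢ B from ⟨hx, hy⟩)).2

/-- finitely many pairs -/
lemma avoid_pairs {X J : Type*} [TopologicalSpace X] [DecidableEq J] {N : Set (X × X)}
    (hN : IsClosed N) (hNi : interior N = ∅) (P : Finset (J × J)) (hP : ∀ p ∈ P, p.1 ≠ p.2)
    (V : J → Set X) (hV : ∀ j, IsOpen (V j)) (hVn : ∀ j, (V j).Nonempty) :
    ∃ V' : J → Set X, (∀ k, IsOpen (V' k)) ∧ (∀ k, (V' k).Nonempty) ∧ (∀ k, V' k ⊆ V k) ∧
      ∀ p ∈ P, ∀ a ∈ V' p.1, ∀ b ∈ V' p.2, (a, b) ∉ N := by
  induction P using Finset.induction_on with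
  | empty => exact ⟨V, hV, hVn, fun _ => subset_rfl, by simp⟩
  | insert p P hp ih =>
    obtain ⟨V₁, h1, h2, h3, h4⟩ := ih (fun q hq => hP q (Finset.mem_insert_of_mem hq))
    obtain ⟨V₂, k1, k2, k3, k4⟩ := avoid_pair hN hNi V₁ h1 h2 (hP p (Finset.mem_insert_self _ _))
    refine ⟨V₂, k1, k2, fun k => (k3 k).trans (h3 k), ?_⟩
    intro q hq a ha b hb
    rcases Finset.mem_insert.1 hq with rfl | hq
    · exact k4 a ha b hb
    · exact h4 q hq a (k3 _ ha) b (k3 _ hb)

lemma shrink_one {X : Type*} [PseudoMetricSpace X] {V : Set X} (hV : IsOpen V) (hn : V.Nonempty)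
    {ε : ℝ} (hε : 0 < ε) : ∃ W : Set X, IsOpen W ∧ W.Nonempty ∧ closure W ⊆ V ∧
      Metric.ediam W ≤ ENNReal.ofReal ε := by
  obtain ⟨x, hx⟩ := hn
  obtain ⟨δ, hδ, hball⟩ := Metric.isOpen_iff.1 hV x hx
  refine ⟨Metric.ball x (min (δ / 2) (ε / 2)), Metric.isOpen_ball,
    ⟨x, Metric.mem_ball_self (by positivity)⟩, ?_, ?_⟩
  · refine Metric.closure_ball_subset_closedBall.trans ?_
    refine (Metric.closedBall_subset_ball ?_).trans hball
    have := min_le_left (δ / 2) (ε / 2)
    linarith
  · refine Metric.ediam_le_of_forall_dist_le ?_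
    intro y hy z hz
    have h1 : dist y x < ε / 2 := lt_of_lt_of_le hy (min_le_right _ _)
    have h2 : dist z x < ε / 2 := lt_of_lt_of_le hz (min_le_right _ _)
    have := dist_triangle_right y z x
    linarith

open CantorScheme

/-- Mycielski's theorem, for an increasing sequence of closed nowhere dense sets containing
the diagonal. -/
lemma mycielski_aux {X : Type*} [MetricSpace X] [CompleteSpace X] [Nonempty X]
    (N : ℕ → Set (X × X)) (hN : ∀ n, IsClosed (N n)) (hNi : ∀ n, interior (N n) = ∅)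
    (hmono : Monotone N) (hdiag : ∀ x, (x, x) ∈ N 0) :
    ∃ f : (ℕ → Bool) → X, Continuous f ∧ Function.Injective f ∧
      ∀ x y, x ≠ y → ∀ n, (f x, f y) ∉ N n := by
  classical
  have hlen : ∀ n : ℕ, {l : List Bool | l.length = n}.Finite := fun n => List.finite_length_eq Bool n
  -- one step
  have hstep : ∀ (n : ℕ) (W : List Bool → Set X), (∀ l, IsOpen (W l)) → (∀ l, (W l).Nonempty) →
      ∃ W' : List Bool → Set X, (∀ l, IsOpen (W' l)) ∧ (∀ l, (W' l).Nonempty) ∧
        (∀ b l, closure (W' (b :: l)) ⊆ W l) ∧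
        (∀ b l, Metric.ediam (W' (b :: l)) ≤ ENNReal.ofReal ((1 / 2) ^ n)) ∧
        ∀ l l', l.length = n + 1 → l'.length = n + 1 → l ≠ l' → ∀ a ∈ W' l, ∀ b ∈ W' l',
          (a, b) ∉ N n := by
    intro n W hW hWn
    choose S hS1 hS2 hS3 hS4 using fun l => shrink_one (hW l) (hWn l)
      (show (0 : ℝ) < (1 / 2) ^ n by positivity)
    let V : List Bool → Set X := fun l => match l with
      | [] => univ
      | _ :: l => S l
    have hV : ∀ l, IsOpen (V l) := by
      intro l
      cases l with
      | nil => exact isOpen_univ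
      | cons b l => exact hS1 l
    have hVn : ∀ l, (V l).Nonempty := by
      intro l
      cases l with
      | nil => exact univ_nonempty
      | cons b l => exact hS2 l
    let P : Finset (List Bool × List Bool) :=
      ((hlen (n + 1)).toFinset ×ˢ (hlen (n + 1)).toFinset).filter (fun p => p.1 ≠ p.2)
    obtain ⟨W', h1, h2, h3, h4⟩ := avoid_pairs (hN n) (hNi n) P
      (fun p hp => (Finset.mem_filter.1 hp).2) V hV hVn
    refine ⟨W', h1, h2, ?_, ?_, ?_⟩
    · intro b l
      exact (closure_mono (h3 (b :: l))).trans (hS3 l)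
    · intro b l
      exact (Metric.ediam_mono (h3 (b :: l))).trans (hS4 l)
    · intro l l' hl hl' hne
      refine h4 (l, l') ?_
      simp only [P, Finset.mem_filter, Finset.mem_product, Set.Finite.mem_toFinset,
        mem_ofPred_eq]
      exact ⟨⟨hl, hl'⟩, hne⟩
  choose! step st1 st2 st3 st4 st5 using hstep
  let W : ℕ → List Bool → Set X := fun n => Nat.rec (fun _ => univ) (fun n w => step n w) n
  have hW0 : W 0 = fun _ => univ := rfl
  have hWs : ∀ n, W (n + 1) = step n (W n) := fun n => rfl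
  have hW : ∀ n, (∀ l, IsOpen (W n l)) ∧ ∀ l, (W n l).Nonempty := by
    intro n
    induction n with
    | zero => exact ⟨fun _ => isOpen_univ, fun _ => univ_nonempty⟩
    | succ n ih =>
      rw [hWs]
      exact ⟨st1 n (W n) ih.1 ih.2, st2 n (W n) ih.1 ih.2⟩
  let A : List Bool → Set X := fun l => W l.length l
  have hA1 : ∀ l, (A l).Nonempty := fun l => (hW _).2 l
  have hA2 : ClosureAntitone A := by
    intro l b
    change closure (W (l.length + 1) (b :: l)) ⊆ W l.length l
    rw [hWs]
    exact st3 _ _ (hW _).1 (hW _).2 b l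
  have hA3 : VanishingDiam A := by
    intro x
    rw [← tendsto_add_atTop_iff_nat 1]
    have hle : ∀ n, Metric.ediam (A (PiNat.res x (n + 1))) ≤ ENNReal.ofReal ((1 / 2) ^ n) := by
      intro n
      change Metric.ediam (W (PiNat.res x (n + 1)).length (PiNat.res x (n + 1))) ≤ _
      rw [PiNat.res_length, hWs, PiNat.res_succ]
      exact st4 _ _ (hW _).1 (hW _).2 _ _
    refine tendsto_of_tendsto_of_tendsto_of_le_of_le tendsto_const_nhds ?_
      (fun n => bot_le) hle
    have : Tendsto (fun n : ℕ => ((1 : ℝ) / 2) ^ n) atTop (𝓝 0) :=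
      tendsto_pow_atTop_nhds_zero_of_lt_one (by norm_num) (by norm_num)
    have h2 := ENNReal.tendsto_ofReal this
    rwa [ENNReal.ofReal_zero] at h2
  have hA4 : ∀ n l l', l.length = n + 1 → l'.length = n + 1 → l ≠ l' → ∀ a ∈ A l, ∀ b ∈ A l',
      (a, b) ∉ N n := by
    intro n l l' hl hl' hne a ha b hb
    change a ∈ W l.length l at ha
    change b ∈ W l'.length l' at hb
    rw [hl, hWs] at ha
    rw [hl', hWs] at hb
    exact st5 n _ (hW _).1 (hW _).2 l l' hl hl' hne a ha b hb
  have hdom := hA2.map_of_vanishingDiam hA3 hA1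
  let f : (ℕ → Bool) → X := fun x => (inducedMap A).2 ⟨x, by rw [hdom]; trivial⟩
  have hf : Continuous f := by
    refine hA3.map_continuous.comp ?_
    exact Continuous.subtype_mk continuous_id _
  have hmem : ∀ x n, f x ∈ A (PiNat.res x n) := fun x n => map_mem _ n
  have havoid : ∀ x y, x ≠ y → ∀ n, (f x, f y) ∉ N n := by
    intro x y hxy n
    -- choose a level where x and y differ
    obtain ⟨m, hm⟩ : ∃ m, x m ≠ y m := Function.ne_iff.1 hxy
    have hne : PiNat.res x (max n m + 1) ≠ PiNat.res y (max n m + 1) := by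
      intro h
      rw [PiNat.res_eq_res] at h
      exact hm (h (by omega))
    have := hA4 (max n m) _ _ (PiNat.res_length x _) (PiNat.res_length y _) hne
      (f x) (hmem x (max n m + 1)) (f y) (hmem y (max n m + 1))
    exact fun h => this (hmono (le_max_left n m) h)
  refine ⟨f, hf, ?_, havoid⟩
  intro x y hxy
  by_contra hne
  have := havoid x y hne 0
  rw [hxy] at this
  exact this (hdiag _)

/-- Mycielski's theorem. -/
theorem mycielski {X : Type*} [TopologicalSpace X] [PolishSpace X] [PerfectSpace X] [Nonempty X]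
    (R : Set (X × X)) (hR : IsMeagre R) :
    ∃ f : (ℕ → Bool) → X, Continuous f ∧ Function.Injective f ∧
      ∀ x y, x ≠ y → (f x, f y) ∉ R := by
  let _ := TopologicalSpace.upgradeIsCompletelyMetrizable X
  rw [isMeagre_iff_countable_union_isNowhereDense] at hR
  obtain ⟨S, hS, hSc, hsub⟩ := hR
  -- enumerate
  obtain ⟨T, hT⟩ := (hSc.insert ∅).exists_eq_range (Set.insert_nonempty ∅ S)
  have hTn : ∀ n, interior (closure (T n)) = ∅ := by
    intro n
    have h1 : T n ∈ insert ∅ S := by rw [hT]; exact mem_range_self n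
    rcases h1 with h1 | h1
    · rw [h1]; simp
    · exact hS _ h1
  let N : ℕ → Set (X × X) := fun n => {p | p.1 = p.2} ∪ ⋃ m ∈ Finset.range n, closure (T m)
  have hN : ∀ n, IsClosed (N n) := by
    intro n
    refine (isClosed_eq continuous_fst continuous_snd).union ?_
    exact isClosed_biUnion_finset (fun i _ => isClosed_closure)
  have hdiag : interior {p : X × X | p.1 = p.2} = ∅ := by
    rw [Set.eq_empty_iff_forall_notMem]
    rintro ⟨x, y⟩ hxy
    have h0 : x = y := by
      have : (x, y) ∈ {p : X × X | p.1 = p.2} := interior_subset hxy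
      exact this
    subst h0
    obtain ⟨U, V, hU, hV, hxU, hxV, hUV⟩ := isOpen_prod_iff.1 isOpen_interior x x hxy
    have hp : Preperfect (univ : Set X) := PerfectSpace.univ_preperfect
    rw [preperfect_iff_nhds] at hp
    obtain ⟨y, hy, hne⟩ := hp x (mem_univ x) (U ∩ V) ((hU.inter hV).mem_nhds ⟨hxU, hxV⟩)
    have h1 : (x, y) ∈ interior {p : X × X | p.1 = p.2} :=
      hUV (show (x, y) ∈ U ×ˢ V from ⟨hxU, hy.1.2⟩)
    have h2 : x = y := by
      have : (x, y) ∈ {p : X × X | p.1 = p.2} := interior_subset h1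
      exact this
    exact hne h2.symm
  have hNi : ∀ n, interior (N n) = ∅ := by
    intro n
    induction n with
    | zero =>
      simp only [N, Finset.range_zero, Finset.notMem_empty, iUnion_of_empty, iUnion_empty,
        union_empty]
      exact hdiag
    | succ n ih =>
      have : N (n + 1) = N n ∪ closure (T n) := by
        simp only [N, Finset.range_add_one, Finset.set_biUnion_insert]
        rw [union_assoc, union_comm (closure (T n))]
      rw [this, interior_union_isClosed_of_interior_empty (hN n) (hTn n)]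
      exact ih
  have hmono : Monotone N := by
    intro n m hnm
    refine union_subset_union_right _ ?_
    exact biUnion_subset_biUnion_left (fun i hi => Finset.range_subset_range.2 hnm hi)
  obtain ⟨f, hf, hfi, hav⟩ := mycielski_aux N hN hNi hmono (fun x => Or.inl rfl)
  refine ⟨f, hf, hfi, fun x y hxy hR => ?_⟩
  obtain ⟨t, ht, htR⟩ := hsub hR
  have : t ∈ insert ∅ S := Or.inr ht
  rw [hT] at this
  obtain ⟨n, rfl⟩ := this
  refine hav x y hxy (n + 1) (Or.inr ?_)
  exact mem_biUnion (Finset.mem_coe.2 (Finset.self_mem_range_succ n)) (subset_closure htR)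

end Pool.Agent.H71.DST
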