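import Mathlib

/-!
Explicit codings of `σ : ℕ → Bool` by subsets and by permutations of the countable dense
linear order `T = ℤ ×ₗ WithBot ℚ`.
-/

set_option autoImplicit false

open Set

namespace Pool.Agent.H71

/-- a concrete countable dense linear order without endpoints -/
abbrev T := ℤ ×ₗ WithBot ℚ

instance : DenselyOrdered T := inferInstance
instance : NoMaxOrder T := inferInstance
instance : NoMinOrder T := inferInstance
instance : Countable T := inferInstanceAs (Countable (ℤ × WithBot ℚ))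

lemma T_lt {n m : ℤ} {x y : WithBot ℚ} :
    (toLex (n, x) : T) < toLex (m, y) ↔ n < m ∨ (n = m ∧ x < y) := Prod.Lex.toLex_lt_toLex

lemma strictMono_nat_id {m : ℕ → ℕ} (h : StrictMono m) (hs : Function.Surjective m) : ∀ n, m n = n := by
  intro n
  induction n using Nat.strong_induction_on with
  | _ n ih =>
    have h1 : n ≤ m n := h.le_apply
    obtain ⟨k, hk⟩ := hs n
    rcases lt_trichotomy k n with h2 | h2 | h2
    · have := ih k h2
      omega
    · rw [← h2, hk, h2]
    · have := h h2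
      omega

/-- an order isomorphism preserving the range of an increasing sequence fixes it pointwise -/
lemma rigid {L : Type*} [LinearOrder L] (π : L ≃o L) (p : ℕ → L) (hp : StrictMono p)
    (h : ∀ t, π t ∈ range p ↔ t ∈ range p) (n : ℕ) : π (p n) = p n := by
  choose m hm using fun n => (h (p n)).2 ⟨n, rfl⟩
  have hmono : StrictMono m := by
    intro a b hab
    have := π.strictMono (hp hab)
    rw [← hm, ← hm] at this
    exact hp.lt_iff_lt.1 this
  have hsurj : Function.Surjective m := by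
    intro k
    obtain ⟨j, hj⟩ := (h (π.symm (p k))).1 (by rw [π.apply_symm_apply]; exact ⟨k, rfl⟩)
    refine ⟨j, hp.injective ?_⟩
    rw [hm, hj, π.apply_symm_apply]
  rw [← hm, strictMono_nat_id hmono hsurj]

/-- isolated points of a set in a linear order -/
def iso {L : Type*} [LinearOrder L] (A : Set L) : Set L :=
  {t | t ∈ A ∧ ∃ u v, u < t ∧ t < v ∧ ∀ s ∈ A, u < s → s < v → s = t}

lemma iso_map {L : Type*} [LinearOrder L] (π : L ≃o L) {A B : Set L}
    (h : ∀ t, π t ∈ B ↔ t ∈ A) (t : L) : π t ∈ iso B ↔ t ∈ iso A := by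
  constructor
  · rintro ⟨h1, u, v, hu, hv, hs⟩
    refine ⟨(h t).1 h1, π.symm u, π.symm v, ?_, ?_, ?_⟩
    · rwa [π.symm_apply_lt]
    · rwa [π.lt_symm_apply]
    · intro s hsA h2 h3
      rw [π.symm_apply_lt] at h2
      rw [π.lt_symm_apply] at h3
      exact π.injective (hs _ ((h s).2 hsA) h2 h3)
  · rintro ⟨h1, u, v, hu, hv, hs⟩
    refine ⟨(h t).2 h1, π u, π v, π.lt_iff_lt.2 hu, π.lt_iff_lt.2 hv, ?_⟩
    intro s hsB h2 h3
    have h4 : π (π.symm s) = s := π.apply_symm_apply s
    have := hs (π.symm s) ((h _).1 (by rwa [h4])) (by rwa [π.lt_symm_apply])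
      (by rwa [π.symm_apply_lt])
    rw [← this, h4]

/-! ### coding by subsets -/

/-- the set coding `σ` -/
def codeA (σ : ℕ → Bool) : Set T :=
  {t | 0 ≤ (ofLex t).1 ∧ ((ofLex t).2 = ⊥ ∨
    (σ (ofLex t).1.toNat = true ∧ ∃ q : ℚ, (ofLex t).2 = (q : WithBot ℚ) ∧ 0 < q ∧ q < 1))}

lemma mem_codeA {σ : ℕ → Bool} {n : ℤ} {x : WithBot ℚ} : (toLex (n, x) : T) ∈ codeA σ ↔
    0 ≤ n ∧ (x = ⊥ ∨ (σ n.toNat = true ∧ ∃ q : ℚ, x = (q : WithBot ℚ) ∧ 0 < q ∧ q < 1)) := Iff.rfl

lemma bot_mem_codeA {σ : ℕ → Bool} {n : ℤ} : (toLex (n, ⊥) : T) ∈ codeA σ ↔ 0 ≤ n := by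
  rw [mem_codeA]; simp

lemma iso_codeA (σ : ℕ → Bool) : iso (codeA σ) = range (fun n : ℕ => (toLex ((n : ℤ), ⊥) : T)) := by
  ext t
  obtain ⟨⟨n, x⟩, rfl⟩ := toLex.surjective t
  constructor
  · rintro ⟨h1, u, v, hu, hv, hs⟩
    rw [mem_codeA] at h1
    obtain ⟨hn, rfl | ⟨hσ, q, rfl, hq0, hq1⟩⟩ := h1
    · exact ⟨n.toNat, by simp [hn]⟩
    · exfalso
      have h1 : (toLex (n, (q : WithBot ℚ)) : T) < toLex (n, ((1 : ℚ) : WithBot ℚ)) := by
        rw [T_lt]; right; exact ⟨rfl, by exact_mod_cast hq1⟩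
      obtain ⟨w, hw1, hw2⟩ := exists_between (lt_min hv h1)
      obtain ⟨⟨m, y⟩, rfl⟩ := toLex.surjective w
      have hw3 := lt_of_lt_of_le hw2 (min_le_right _ _)
      rw [T_lt] at hw1 hw3
      have hm : m = n := by
        rcases hw1 with h | h
        · rcases hw3 with h' | h'
          · omega
          · omega
        · exact h.1.symm
      subst hm
      have hy1 : (q : WithBot ℚ) < y := by
        rcases hw1 with h | h
        · omega
        · exact h.2
      have hy2 : y < ((1 : ℚ) : WithBot ℚ) := by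
        rcases hw3 with h | h
        · omega
        · exact h.2
      have hyne : y ≠ ⊥ := fun h => by rw [h] at hy1; exact not_lt_bot hy1
      obtain ⟨q', rfl⟩ := WithBot.ne_bot_iff_exists.1 hyne
      have hq1' : q < q' := by exact_mod_cast hy1
      have hq2' : q' < 1 := by exact_mod_cast hy2
      have hmem : (toLex (m, (q' : WithBot ℚ)) : T) ∈ codeA σ := by
        rw [mem_codeA]
        exact ⟨hn, Or.inr ⟨hσ, q', rfl, by linarith, hq2'⟩⟩
      have hlt : (toLex (m, (q : WithBot ℚ)) : T) < toLex (m, (q' : WithBot ℚ)) := by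
        rw [T_lt]; right; exact ⟨rfl, hy1⟩
      have := hs _ hmem (hu.trans hlt) (lt_of_lt_of_le hw2 (min_le_left _ _))
      exact absurd this hlt.ne'
  · rintro ⟨k, hk⟩
    simp only [toLex_inj, Prod.mk.injEq] at hk
    obtain ⟨rfl, rfl⟩ := hk
    refine ⟨bot_mem_codeA.2 (by omega), toLex ((k : ℤ) - 1, ((1 : ℚ) : WithBot ℚ)),
      toLex ((k : ℤ), ((0 : ℚ) : WithBot ℚ)), ?_, ?_, ?_⟩
    · rw [T_lt]; left; omega
    · rw [T_lt]; right; exact ⟨rfl, WithBot.bot_lt_coe _⟩
    · intro s hs h1 h2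
      obtain ⟨⟨m, y⟩, rfl⟩ := toLex.surjective s
      rw [T_lt] at h1 h2
      rw [mem_codeA] at hs
      obtain ⟨hm, rfl | ⟨hσ, q, rfl, hq0, hq1⟩⟩ := hs
      · have : m = k := by
          rcases h1 with h1 | h1
          · rcases h2 with h2 | h2 <;> omega
          · exact absurd h1.2 not_lt_bot
        rw [this]
      · exfalso
        rcases h1 with h1 | ⟨-, h1⟩
        · rcases h2 with h2 | ⟨-, h2⟩
          · omega
          · have : q < 0 := by exact_mod_cast h2
            linarith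
        · have : 1 < q := by exact_mod_cast h1
          linarith

lemma strictMono_bots (k : ℤ) : StrictMono (fun n : ℕ => (toLex ((n : ℤ) + k, ⊥) : T)) := by
  intro a b hab
  change (toLex ((a : ℤ) + k, ⊥) : T) < toLex ((b : ℤ) + k, ⊥)
  rw [T_lt]; left
  omega

lemma decodeA {σ τ : ℕ → Bool} (π : T ≃o T) (h : ∀ t, π t ∈ codeA τ ↔ t ∈ codeA σ) : σ = τ := by
  have hfix : ∀ n : ℕ, π (toLex ((n : ℤ), ⊥)) = toLex ((n : ℤ), ⊥) := by
    have hs : StrictMono (fun n : ℕ => (toLex ((n : ℤ), ⊥) : T)) := by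
      simpa using strictMono_bots 0
    intro n
    refine rigid π (fun n : ℕ => (toLex ((n : ℤ), ⊥) : T)) hs ?_ n
    intro t
    have := iso_map π h t
    rwa [iso_codeA, iso_codeA] at this
  have key : ∀ (ρ : ℕ → Bool) (n : ℕ), ρ n = true ↔ ∃ t ∈ codeA ρ, toLex ((n : ℤ), ⊥) < t ∧
      t < toLex (((n + 1 : ℕ) : ℤ), ⊥) := by
    intro ρ n
    constructor
    · intro hρ
      refine ⟨toLex ((n : ℤ), ((1 / 2 : ℚ) : WithBot ℚ)), ?_, ?_, ?_⟩
      · rw [mem_codeA]
        exact ⟨by omega, Or.inr ⟨by simpa using hρ, 1 / 2, rfl, by norm_num, by norm_num⟩⟩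
      · rw [T_lt]; right; exact ⟨rfl, WithBot.bot_lt_coe _⟩
      · rw [T_lt]; left; push_cast; omega
    · rintro ⟨t, ht, h1, h2⟩
      obtain ⟨⟨m, y⟩, rfl⟩ := toLex.surjective t
      rw [T_lt] at h1 h2
      rw [mem_codeA] at ht
      push_cast at h2
      obtain ⟨hm, rfl | ⟨hρ, -⟩⟩ := ht
      · exfalso
        rcases h1 with h1 | h1
        · rcases h2 with h2 | h2
          · omega
          · exact absurd h2.2 not_lt_bot
        · exact absurd h1.2 not_lt_bot
      · have : m = n := by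
          rcases h2 with h2 | h2
          · rcases h1 with h1 | h1 <;> omega
          · exact absurd h2.2 not_lt_bot
        rw [this] at hρ
        simpa using hρ
  funext n
  have : σ n = true ↔ τ n = true := by
    rw [key σ n, key τ n]
    constructor
    · rintro ⟨t, ht, h1, h2⟩
      refine ⟨π t, (h t).2 ht, ?_, ?_⟩
      · rw [← hfix n]; exact π.lt_iff_lt.2 h1
      · rw [← hfix (n + 1)]; exact π.lt_iff_lt.2 h2
    · rintro ⟨t, ht, h1, h2⟩
      refine ⟨π.symm t, (h _).1 (by rwa [π.apply_symm_apply]), ?_, ?_⟩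
      · rw [π.lt_symm_apply, hfix n]; exact h1
      · rw [π.symm_apply_lt, hfix (n + 1)]; exact h2
  exact Bool.eq_iff_iff.2 this

lemma infinite_codeA (σ : ℕ → Bool) : (codeA σ).Infinite := by
  have : range (fun n : ℕ => (toLex ((n : ℤ), ⊥) : T)) ⊆ codeA σ := by
    rintro _ ⟨n, rfl⟩
    exact bot_mem_codeA.2 (by omega)
  refine Set.Infinite.mono this (Set.infinite_range_of_injective ?_)
  intro a b hab
  simpa using hab

lemma infinite_compl_codeA (σ : ℕ → Bool) : (codeA σ)ᶜ.Infinite := by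
  have : range (fun n : ℕ => (toLex (-(n : ℤ) - 1, ⊥) : T)) ⊆ (codeA σ)ᶜ := by
    rintro _ ⟨n, rfl⟩ h
    have := bot_mem_codeA.1 h
    omega
  refine Set.Infinite.mono this (Set.infinite_range_of_injective ?_)
  intro a b hab
  simp only [toLex_inj, Prod.mk.injEq] at hab
  omega


/-! ### coding by permutations -/

/-- `true`: reversal, `false`: swap of the two halves -/
def phi (b : Bool) (q : ℚ) : ℚ := if b then -q else -q⁻¹

lemma phi_phi (b : Bool) (q : ℚ) : phi b (phi b q) = q := by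
  unfold phi
  cases b <;> simp

/-- action on a block -/
def phiB (b : Bool) (x : WithBot ℚ) : WithBot ℚ := x.map (phi b)

lemma phiB_phiB (b : Bool) (x : WithBot ℚ) : phiB b (phiB b x) = x := by
  induction x with
  | bot => rfl
  | coe q => simp [phiB, phi_phi]

@[simp] lemma phiB_bot (b : Bool) : phiB b ⊥ = ⊥ := rfl
@[simp] lemma phiB_coe (b : Bool) (q : ℚ) : phiB b (q : WithBot ℚ) = ((phi b q : ℚ) : WithBot ℚ) := rfl

/-- the bit used in block `n ≥ 0` -/
def bit (σ : ℕ → Bool) (n : ℤ) : Bool := if n ≤ 0 then true else σ (n - 1).toNat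

/-- the permutation coding `σ` -/
def fT (σ : ℕ → Bool) (t : T) : T :=
  toLex ((ofLex t).1, if (ofLex t).1 < 0 then (ofLex t).2 else phiB (bit σ (ofLex t).1) (ofLex t).2)

lemma fT_neg {σ : ℕ → Bool} {n : ℤ} (hn : n < 0) (x : WithBot ℚ) :
    fT σ (toLex (n, x)) = toLex (n, x) := by
  simp [fT, hn]

lemma fT_nonneg {σ : ℕ → Bool} {n : ℤ} (hn : 0 ≤ n) (x : WithBot ℚ) :
    fT σ (toLex (n, x)) = toLex (n, phiB (bit σ n) x) := by
  simp [fT, not_lt.2 hn]

lemma fT_fst (σ : ℕ → Bool) (t : T) : (ofLex (fT σ t)).1 = (ofLex t).1 := rfl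

lemma fT_fT (σ : ℕ → Bool) (t : T) : fT σ (fT σ t) = t := by
  obtain ⟨⟨n, x⟩, rfl⟩ := toLex.surjective t
  by_cases hn : n < 0
  · rw [fT_neg hn, fT_neg hn]
  · rw [fT_nonneg (not_lt.1 hn), fT_nonneg (not_lt.1 hn), phiB_phiB]

lemma fT_injective (σ : ℕ → Bool) : Function.Injective (fT σ) := by
  intro a b h
  rw [← fT_fT σ a, h, fT_fT]

/-- disagreement -/
def Dis (σ : ℕ → Bool) (s t : T) : Prop := s < t ∧ fT σ t < fT σ s

/-- elements in no disagreement -/
def quiet (σ : ℕ → Bool) : Set T := {t | ∀ s, ¬ Dis σ s t ∧ ¬ Dis σ t s}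

lemma dis_fst {σ : ℕ → Bool} {s t : T} (h : Dis σ s t) : (ofLex s).1 = (ofLex t).1 := by
  obtain ⟨⟨n, x⟩, rfl⟩ := toLex.surjective s
  obtain ⟨⟨m, y⟩, rfl⟩ := toLex.surjective t
  obtain ⟨h1, h2⟩ := h
  rw [T_lt] at h1
  have h3 : (ofLex (fT σ (toLex (m, y)))).1 < (ofLex (fT σ (toLex (n, x)))).1 ∨
      (ofLex (fT σ (toLex (m, y)))).1 = (ofLex (fT σ (toLex (n, x)))).1 := by
    have h2' : (toLex ((ofLex (fT σ (toLex (m, y)))).1, (ofLex (fT σ (toLex (m, y)))).2) : T) <
      toLex ((ofLex (fT σ (toLex (n, x)))).1, (ofLex (fT σ (toLex (n, x)))).2) := h2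
    rw [T_lt] at h2'
    rcases h2' with h | h
    · exact Or.inl h
    · exact Or.inr h.1
  rw [fT_fst, fT_fst] at h3
  simp only [ofLex_toLex] at h3 ⊢
  rcases h1 with h1 | h1 <;> omega

lemma mem_quiet {σ : ℕ → Bool} {n : ℤ} {x : WithBot ℚ} :
    (toLex (n, x) : T) ∈ quiet σ ↔ n < 0 ∨ x = ⊥ := by
  constructor
  · intro h
    by_contra hcon
    push Not at hcon
    obtain ⟨hn, hx⟩ := hcon
    obtain ⟨q, rfl⟩ := WithBot.ne_bot_iff_exists.1 hx
    cases hb : bit σ n with
    | true =>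
      refine (h (toLex (n, ((q + 1 : ℚ) : WithBot ℚ)))).2 ⟨?_, ?_⟩
      · rw [T_lt]; right
        exact ⟨rfl, by exact_mod_cast lt_add_one q⟩
      · rw [fT_nonneg hn, fT_nonneg hn, hb, T_lt]
        right
        refine ⟨rfl, ?_⟩
        simp only [phiB_coe, phi, if_true]
        exact_mod_cast (by linarith : -(q + 1) < -q)
    | false =>
      rcases lt_or_ge q 0 with hq | hq
      · refine (h (toLex (n, ((1 : ℚ) : WithBot ℚ)))).2 ⟨?_, ?_⟩
        · rw [T_lt]; right
          exact ⟨rfl, by exact_mod_cast (by linarith : q < 1)⟩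
        · rw [fT_nonneg hn, fT_nonneg hn, hb, T_lt]
          right
          refine ⟨rfl, ?_⟩
          simp only [phiB_coe, phi]
          have : q⁻¹ < 0 := inv_lt_zero.2 hq
          norm_num
          exact_mod_cast (by linarith : q⁻¹ < (1 : ℚ))
      · refine (h (toLex (n, ((-1 : ℚ) : WithBot ℚ)))).1 ⟨?_, ?_⟩
        · rw [T_lt]; right
          exact ⟨rfl, by exact_mod_cast (by linarith : -1 < q)⟩
        · rw [fT_nonneg hn, fT_nonneg hn, hb, T_lt]
          right
          refine ⟨rfl, ?_⟩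
          simp only [phiB_coe, phi]
          have : 0 ≤ q⁻¹ := inv_nonneg.2 hq
          norm_num
          exact_mod_cast (by linarith : -q⁻¹ < (1 : ℚ))
  · intro h s
    obtain ⟨⟨m, y⟩, rfl⟩ := toLex.surjective s
    constructor
    · intro hd
      have hfst := dis_fst hd
      simp only [ofLex_toLex] at hfst
      subst hfst
      obtain ⟨h1, h2⟩ := hd
      rcases h with h | rfl
      · rw [fT_neg h, fT_neg h] at h2
        exact absurd h1 h2.le.not_gt
      · rw [T_lt] at h1
        rcases h1 with h1 | h1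
        · omega
        · exact not_lt_bot h1.2
    · intro hd
      have hfst := dis_fst hd
      simp only [ofLex_toLex] at hfst
      subst hfst
      obtain ⟨h1, h2⟩ := hd
      rcases h with h | rfl
      · rw [fT_neg h, fT_neg h] at h2
        exact absurd h1 h2.le.not_gt
      · by_cases hn : n < 0
        · rw [fT_neg hn, fT_neg hn] at h2
          exact absurd h1 h2.le.not_gt
        · rw [fT_nonneg (not_lt.1 hn), fT_nonneg (not_lt.1 hn), T_lt] at h2
          rcases h2 with h2 | h2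
          · omega
          · exact not_lt_bot h2.2

lemma iso_quiet (σ : ℕ → Bool) :
    iso (quiet σ) = range (fun n : ℕ => (toLex ((n : ℤ) + 1, ⊥) : T)) := by
  ext t
  obtain ⟨⟨n, x⟩, rfl⟩ := toLex.surjective t
  constructor
  · rintro ⟨h1, u, v, hu, hv, hs⟩
    rw [mem_quiet] at h1
    -- a quiet point above `(n,x)`
    by_cases hn : n < 0
    · exfalso
      have h2 : (toLex (n, x) : T) < toLex (0, ⊥) := by rw [T_lt]; left; exact hn
      obtain ⟨w, hw1, hw2⟩ := exists_between (lt_min hv h2)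
      have hw3 := lt_of_lt_of_le hw2 (min_le_right _ _)
      have hw4 := lt_of_lt_of_le hw2 (min_le_left _ _)
      obtain ⟨⟨m, y⟩, rfl⟩ := toLex.surjective w
      have hm : m < 0 := by
        rw [T_lt] at hw3
        rcases hw3 with h | h
        · exact h
        · exact absurd h.2 not_lt_bot
      have := hs _ (mem_quiet.2 (Or.inl hm)) (hu.trans hw1) hw4
      exact absurd this hw1.ne'
    · rcases h1 with h1 | rfl
      · exact absurd h1 hn
      · by_cases hn0 : n = 0
        · exfalso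
          subst hn0
          -- points below (0, ⊥)
          have h2 : (toLex (-1, ⊥) : T) < toLex (0, ⊥) := by rw [T_lt]; left; omega
          obtain ⟨w, hw1, hw2⟩ := exists_between (max_lt hu h2)
          have hw3 := lt_of_le_of_lt (le_max_left _ _) hw1
          obtain ⟨⟨m, y⟩, rfl⟩ := toLex.surjective w
          have hm : m < 0 := by
            rw [T_lt] at hw2
            rcases hw2 with h | h
            · exact h
            · exact absurd h.2 not_lt_bot
          have := hs _ (mem_quiet.2 (Or.inl hm)) hw3 (hw2.trans hv)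
          exact absurd this hw2.ne
        · refine ⟨(n - 1).toNat, ?_⟩
          have : (((n - 1).toNat : ℕ) : ℤ) + 1 = n := by omega
          simp only [this]
  · rintro ⟨k, hk⟩
    simp only [toLex_inj, Prod.mk.injEq] at hk
    obtain ⟨rfl, rfl⟩ := hk
    refine ⟨mem_quiet.2 (Or.inr rfl), toLex ((k : ℤ), ((0 : ℚ) : WithBot ℚ)),
      toLex ((k : ℤ) + 1, ((0 : ℚ) : WithBot ℚ)), ?_, ?_, ?_⟩
    · rw [T_lt]; left; omega
    · rw [T_lt]; right; exact ⟨rfl, WithBot.bot_lt_coe _⟩
    · intro s hs h1 h2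
      obtain ⟨⟨m, y⟩, rfl⟩ := toLex.surjective s
      rw [T_lt] at h1 h2
      rw [mem_quiet] at hs
      rcases hs with hm | rfl
      · rcases h1 with h1 | h1 <;> omega
      · have : m = k + 1 := by
          rcases h1 with h1 | h1
          · rcases h2 with h2 | h2 <;> omega
          · exact absurd h1.2 not_lt_bot
        rw [this]

lemma bit_succ (σ : ℕ → Bool) (n : ℕ) : bit σ ((n : ℤ) + 1) = σ n := by
  unfold bit
  rw [if_neg (by omega)]
  congr 1
  omega

lemma decodeF {σ τ : ℕ → Bool} (π : T ≃o T)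
    (h : ∀ s t, fT σ s < fT σ t ↔ fT τ (π s) < fT τ (π t)) : σ = τ := by
  have hdis : ∀ s t, Dis τ (π s) (π t) ↔ Dis σ s t := by
    intro s t
    unfold Dis
    rw [π.lt_iff_lt, h t s]
  have hq : ∀ t, π t ∈ quiet τ ↔ t ∈ quiet σ := by
    intro t
    constructor
    · intro ht s
      have := ht (π s)
      rwa [hdis, hdis] at this
    · intro ht s
      have := ht (π.symm s)
      rw [← hdis, ← hdis, π.apply_symm_apply] at this
      exact this
  have hfix : ∀ n : ℕ, π (toLex ((n : ℤ) + 1, ⊥)) = toLex ((n : ℤ) + 1, ⊥) := by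
    intro n
    refine rigid π (fun n : ℕ => (toLex ((n : ℤ) + 1, ⊥) : T)) (strictMono_bots 1) ?_ n
    intro t
    have := iso_map π hq t
    rwa [iso_quiet, iso_quiet] at this
  -- membership in block n + 1
  have hblock : ∀ (n : ℕ) (t : T), (∃ q : ℚ, t = toLex ((n : ℤ) + 1, (q : WithBot ℚ))) ↔
      toLex ((n : ℤ) + 1, ⊥) < t ∧ t < toLex (((n + 1 : ℕ) : ℤ) + 1, ⊥) := by
    intro n t
    constructor
    · rintro ⟨q, rfl⟩
      constructor
      · rw [T_lt]; right; exact ⟨rfl, WithBot.bot_lt_coe _⟩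
      · rw [T_lt]; left; push_cast; omega
    · rintro ⟨h1, h2⟩
      obtain ⟨⟨m, y⟩, rfl⟩ := toLex.surjective t
      rw [T_lt] at h1 h2
      push_cast at h2
      have hm : m = (n : ℤ) + 1 := by
        rcases h2 with h2 | h2
        · rcases h1 with h1 | h1 <;> omega
        · exact absurd h2.2 not_lt_bot
      subst hm
      have hy : (⊥ : WithBot ℚ) < y := by
        rcases h1 with h1 | h1
        · omega
        · exact h1.2
      obtain ⟨q, rfl⟩ := WithBot.ne_bot_iff_exists.1 hy.ne'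
      exact ⟨q, rfl⟩
  have hmap : ∀ (n : ℕ) (q : ℚ), ∃ q' : ℚ, π (toLex ((n : ℤ) + 1, (q : WithBot ℚ))) =
      toLex ((n : ℤ) + 1, (q' : WithBot ℚ)) := by
    intro n q
    have h1 := (hblock n _).1 ⟨q, rfl⟩
    rw [hblock]
    constructor
    · have := π.lt_iff_lt.2 h1.1
      rwa [hfix] at this
    · have := π.lt_iff_lt.2 h1.2
      rwa [hfix] at this
  have hmap' : ∀ (n : ℕ) (q : ℚ), ∃ q' : ℚ, π.symm (toLex ((n : ℤ) + 1, (q : WithBot ℚ))) =
      toLex ((n : ℤ) + 1, (q' : WithBot ℚ)) := by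
    intro n q
    have h1 := (hblock n _).1 ⟨q, rfl⟩
    rw [hblock]
    constructor
    · rw [π.lt_symm_apply, hfix]; exact h1.1
    · rw [π.symm_apply_lt, hfix]; exact h1.2
  -- in a reversed block all pairs disagree
  have hrev : ∀ (ρ : ℕ → Bool) (n : ℕ), ρ n = true → ∀ q q' : ℚ,
      (toLex ((n : ℤ) + 1, (q : WithBot ℚ)) : T) < toLex ((n : ℤ) + 1, (q' : WithBot ℚ)) →
      Dis ρ (toLex ((n : ℤ) + 1, (q : WithBot ℚ))) (toLex ((n : ℤ) + 1, (q' : WithBot ℚ))) := by
    intro ρ n hρ q q' hlt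
    refine ⟨hlt, ?_⟩
    rw [fT_nonneg (by omega), fT_nonneg (by omega), bit_succ, hρ]
    rw [T_lt] at hlt ⊢
    right
    refine ⟨rfl, ?_⟩
    have h2 : q < q' := by
      rcases hlt with h | h
      · omega
      · exact_mod_cast h.2
    simp only [phiB_coe, phi, if_true]
    exact_mod_cast (by linarith : -q' < -q)
  -- in a swapped block some pair agrees
  have hsw : ∀ (ρ : ℕ → Bool) (n : ℕ), ρ n = false →
      ¬ Dis ρ (toLex ((n : ℤ) + 1, ((-2 : ℚ) : WithBot ℚ))) (toLex ((n : ℤ) + 1, ((-1 : ℚ) : WithBot ℚ))) := by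
    intro ρ n hρ hd
    have h2 := hd.2
    rw [fT_nonneg (by omega), fT_nonneg (by omega), bit_succ, hρ, T_lt] at h2
    rcases h2 with h2 | h2
    · omega
    · have h3 := h2.2
      simp only [phiB_coe, phi] at h3
      norm_num at h3
  have hlt : ∀ n : ℕ, (toLex ((n : ℤ) + 1, ((-2 : ℚ) : WithBot ℚ)) : T) <
      toLex ((n : ℤ) + 1, ((-1 : ℚ) : WithBot ℚ)) := by
    intro n
    rw [T_lt]; right
    exact ⟨rfl, by exact_mod_cast (by norm_num : (-2 : ℚ) < -1)⟩
  funext n
  cases hσ : σ n with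
  | true =>
    cases hτ : τ n with
    | true => rfl
    | false =>
      exfalso
      obtain ⟨q, hq⟩ := hmap' n (-2)
      obtain ⟨q', hq'⟩ := hmap' n (-1)
      apply hsw τ n hτ
      have h1 := hrev σ n hσ q q' (by rw [← hq, ← hq']; exact π.symm.lt_iff_lt.2 (hlt n))
      rw [← hdis, ← hq, ← hq', π.apply_symm_apply, π.apply_symm_apply] at h1
      exact h1
  | false =>
    cases hτ : τ n with
    | false => rfl
    | true =>
      exfalso
      obtain ⟨q, hq⟩ := hmap n (-2)
      obtain ⟨q', hq'⟩ := hmap n (-1)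
      apply hsw σ n hσ
      rw [← hdis, hq, hq']
      exact hrev τ n hτ q q' (by rw [← hq, ← hq']; exact π.lt_iff_lt.2 (hlt n))

end Pool.Agent.H71
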