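import Pool.Agent.H71.Gen
import Pool.Agent.H71.Code

/-!
The order automorphism group of a countable dense linear order without endpoints satisfies the
two hypotheses of the general theorem.
-/

set_option autoImplicit false

open Set Topology Filter MeasureTheory

namespace Pool.Agent.H71

attribute [local instance] permTop polishSpace_perm isTopologicalGroup_perm permMeas borelSpace_perm

/-- permutations preserving the binary relation `lt` -/
def relAut (lt : ℕ → ℕ → Prop) : Subgroup (Equiv.Perm ℕ) where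
  carrier := {g | ∀ a b, lt (g a) (g b) ↔ lt a b}
  mul_mem' := by
    intro g h hg hh a b
    rw [Equiv.Perm.mul_apply, Equiv.Perm.mul_apply, hg, hh]
  one_mem' := fun _ _ => Iff.rfl
  inv_mem' := by
    intro g hg a b
    rw [← hg]
    simp

lemma mem_relAut {lt : ℕ → ℕ → Prop} {g : Equiv.Perm ℕ} :
    g ∈ relAut lt ↔ ∀ a b, lt (g a) (g b) ↔ lt a b := Iff.rfl

lemma isClosed_relAut (lt : ℕ → ℕ → Prop) : IsClosed (relAut lt : Set (Equiv.Perm ℕ)) := by
  have : (relAut lt : Set (Equiv.Perm ℕ)) = ⋂ a, ⋂ b, {g | lt (g a) (g b) ↔ lt a b} := by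
    ext g
    simp only [SetLike.mem_coe, mem_relAut, mem_iInter, mem_ofPred_eq]
  rw [this]
  refine isClosed_iInter fun a => isClosed_iInter fun b => ?_
  have h1 : Continuous fun g : Equiv.Perm ℕ => (g a, g b) :=
    (continuous_perm_apply a).prodMk (continuous_perm_apply b)
  exact (isClosed_discrete {p : ℕ × ℕ | lt p.1 p.2 ↔ lt a b}).preimage h1

/-! ### hypothesis (a) -/

/-- number of elements of `S` below `a` -/
noncomputable def cnt (S : Set ℕ) (a : ℕ) : ℕ := @Nat.count (· ∈ S) (Classical.decPred _) a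

lemma cnt_nth {S : Set ℕ} (hS : S.Infinite) (n : ℕ) : cnt S (Nat.nth (· ∈ S) n) = n :=
  @Nat.count_nth_of_infinite (· ∈ S) (Classical.decPred _) hS n

lemma nth_cnt {S : Set ℕ} {a : ℕ} (ha : a ∈ S) : Nat.nth (· ∈ S) (cnt S a) = a :=
  @Nat.nth_count (· ∈ S) (Classical.decPred _) a ha

open Classical in
lemma cnt_succ (S : Set ℕ) (a : ℕ) : cnt S (a + 1) = cnt S a + if a ∈ S then 1 else 0 := by
  unfold cnt
  rw [@Nat.count_succ]

lemma nth_mem' {S : Set ℕ} (hS : S.Infinite) (n : ℕ) : Nat.nth (· ∈ S) n ∈ S :=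
  Nat.nth_mem_of_infinite (p := (· ∈ S)) hS n

open Classical in
lemma exists_perm_moiety {A : Set ℕ} (hA : A.Infinite) (hA' : Aᶜ.Infinite)
    (B : (ℕ → Bool) → Set ℕ) (hB : ∀ σ, (B σ).Infinite) (hB' : ∀ σ, (B σ)ᶜ.Infinite)
    (hm : ∀ b, MeasurableSet {σ | b ∈ B σ}) :
    ∃ g : (ℕ → Bool) → Equiv.Perm ℕ, Measurable g ∧ ∀ σ a, g σ a ∈ B σ ↔ a ∈ A := by
  let tr : Set ℕ → Set ℕ → ℕ → ℕ := fun S R a =>
    if a ∈ S then Nat.nth (· ∈ R) (cnt S a) else Nat.nth (· ∈ Rᶜ) (cnt Sᶜ a)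
  have htr : ∀ S R : Set ℕ, S.Infinite → R.Infinite → Sᶜ.Infinite → Rᶜ.Infinite → ∀ a,
      (tr S R a ∈ R ↔ a ∈ S) ∧ tr R S (tr S R a) = a := by
    intro S R hS hR hS' hR' a
    by_cases ha : a ∈ S
    · have e : tr S R a = Nat.nth (· ∈ R) (cnt S a) := if_pos ha
      have h1 := nth_mem' hR (cnt S a)
      rw [e]
      refine ⟨iff_of_true h1 ha, ?_⟩
      have e2 : tr R S (Nat.nth (· ∈ R) (cnt S a)) = _ := if_pos h1
      rw [e2, cnt_nth hR, nth_cnt ha]
    · have e : tr S R a = Nat.nth (· ∈ Rᶜ) (cnt Sᶜ a) := if_neg ha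
      have h1 := nth_mem' hR' (cnt Sᶜ a)
      have h1' := (mem_compl_iff _ _).1 h1
      rw [e]
      refine ⟨iff_of_false h1' ha, ?_⟩
      have e2 : tr R S (Nat.nth (· ∈ Rᶜ) (cnt Sᶜ a)) = _ := if_neg h1'
      rw [e2, cnt_nth hR', nth_cnt (S := Sᶜ) ha]
  let g : (ℕ → Bool) → Equiv.Perm ℕ := fun σ =>
    { toFun := tr A (B σ)
      invFun := tr (B σ) A
      left_inv := fun a => (htr A (B σ) hA (hB σ) hA' (hB' σ) a).2
      right_inv := fun a => (htr (B σ) A (hB σ) hA (hB' σ) hA' a).2 }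
  refine ⟨g, ?_, fun σ a => (htr A (B σ) hA (hB σ) hA' (hB' σ) a).1⟩
  -- measurability
  have hcount : ∀ (D : (ℕ → Bool) → Set ℕ), (∀ b, MeasurableSet {σ | b ∈ D σ}) →
      ∀ b n, MeasurableSet {σ | cnt (D σ) b = n} := by
    intro D hD b
    induction b with
    | zero => intro n; simp [cnt]
    | succ b ih =>
      intro n
      have : {σ | cnt (D σ) (b + 1) = n} =
          ({σ | b ∈ D σ} ∩ ⋃ m ∈ {m : ℕ | m + 1 = n}, {σ | cnt (D σ) b = m}) ∪
          ({σ | b ∈ D σ}ᶜ ∩ {σ | cnt (D σ) b = n}) := by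
        ext σ
        simp only [mem_ofPred_eq, cnt_succ, mem_union, mem_inter_iff, mem_iUnion,
          mem_compl_iff, exists_prop]
        by_cases hb : b ∈ D σ
        · simp [hb]
        · simp [hb]
      rw [this]
      exact ((hD b).inter (MeasurableSet.biUnion (Set.to_countable _) fun m _ => ih m)).union
        ((hD b).compl.inter (ih n))
  have hnth : ∀ (D : (ℕ → Bool) → Set ℕ), (∀ σ, (D σ).Infinite) →
      (∀ b, MeasurableSet {σ | b ∈ D σ}) →
      ∀ b n, MeasurableSet {σ | Nat.nth (· ∈ D σ) n = b} := by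
    intro D hD hDm b n
    have : {σ | Nat.nth (· ∈ D σ) n = b} = {σ | b ∈ D σ} ∩ {σ | cnt (D σ) b = n} := by
      ext σ
      simp only [mem_ofPred_eq, mem_inter_iff]
      constructor
      · rintro rfl
        exact ⟨nth_mem' (hD σ) n, cnt_nth (hD σ) n⟩
      · rintro ⟨h1, rfl⟩
        exact nth_cnt h1
    rw [this]
    exact (hDm b).inter (hcount D hDm b n)
  refine measurable_to_perm fun a b => ?_
  by_cases ha : a ∈ A
  · have : {σ | g σ a = b} = {σ | Nat.nth (· ∈ B σ) (cnt A a) = b} := by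
      ext σ
      have e : g σ a = Nat.nth (· ∈ B σ) (cnt A a) := if_pos ha
      simp only [mem_ofPred_eq, e]
    rw [this]
    exact hnth B hB hm b _
  · have : {σ | g σ a = b} = {σ | Nat.nth (· ∈ (B σ)ᶜ) (cnt Aᶜ a) = b} := by
      ext σ
      have e : g σ a = Nat.nth (· ∈ (B σ)ᶜ) (cnt Aᶜ a) := if_neg ha
      simp only [mem_ofPred_eq, e]
    rw [this]
    exact hnth (fun σ => (B σ)ᶜ) hB' (fun b => (hm b).compl) b _

lemma measurableSet_mem_codeA (t : T) : MeasurableSet {σ | t ∈ codeA σ} := by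
  obtain ⟨⟨n, x⟩, rfl⟩ := toLex.surjective t
  have : {σ : ℕ → Bool | (toLex (n, x) : T) ∈ codeA σ} =
      (fun σ : ℕ → Bool => σ n.toNat) ⁻¹' {b | 0 ≤ n ∧ (x = ⊥ ∨
        (b = true ∧ ∃ q : ℚ, x = (q : WithBot ℚ) ∧ 0 < q ∧ q < 1))} := by
    ext σ
    simp only [mem_ofPred_eq, mem_codeA, mem_preimage]
  rw [this]
  exact (measurable_pi_apply _) (Set.to_countable _).measurableSet

lemma pmdc_moiety (e : ℕ ≃ T) {A : Set ℕ} (hA : A.Infinite) (hA' : Aᶜ.Infinite) :
    PMDC (relAut (fun a b => e a < e b)) (fun h => ∀ a, h a ∈ A ↔ a ∈ A) := by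
  obtain ⟨g, hg, hg'⟩ := exists_perm_moiety hA hA' (fun σ => e ⁻¹' codeA σ)
    (fun σ => (infinite_codeA σ).preimage (by simp))
    (fun σ => (infinite_compl_codeA σ).preimage (by simp))
    (fun b => measurableSet_mem_codeA (e b))
  refine ⟨g, hg, fun σ τ hne k hk h hh heq => hne ?_⟩
  let π : T ≃o T :=
    { toEquiv := (e.symm.trans k).trans e
      map_rel_iff' := by
        intro s t
        have := hk (e.symm t) (e.symm s)
        simp only [e.apply_symm_apply] at this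
        simp only [Equiv.trans_apply]
        rw [← not_lt, ← not_lt, this] }
  refine decodeA π (fun t => ?_)
  have h1 : ∀ a, k (g σ a) = g τ (h a) := fun a => by
    rw [← Equiv.Perm.mul_apply, heq, Equiv.Perm.mul_apply]
  have h2 := h1 ((g σ).symm (e.symm t))
  rw [Equiv.apply_symm_apply] at h2
  change e (k (e.symm t)) ∈ codeA τ ↔ t ∈ codeA σ
  have h3 := hg' τ (h ((g σ).symm (e.symm t)))
  have h4 := hg' σ ((g σ).symm (e.symm t))
  rw [← h2] at h3
  rw [Equiv.apply_symm_apply] at h4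
  change e (k (e.symm t)) ∈ codeA τ ↔ _ at h3
  change e (e.symm t) ∈ codeA σ ↔ _ at h4
  rw [e.apply_symm_apply] at h4
  rw [h3, h4, hh]

/-! ### hypothesis (b) -/

lemma measurableSet_fT (t t' : T) : MeasurableSet {σ | fT σ t = t'} := by
  obtain ⟨⟨n, x⟩, rfl⟩ := toLex.surjective t
  have : {σ : ℕ → Bool | fT σ (toLex (n, x)) = t'} =
      (fun σ : ℕ → Bool => σ (n - 1).toNat) ⁻¹' {b | (toLex (n, if n < 0 then x else
        phiB (if n ≤ 0 then true else b) x) : T) = t'} := by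
    ext σ
    rfl
  rw [this]
  exact (measurable_pi_apply _) (Set.to_countable _).measurableSet

/-- the permutation of `Fin r × T` acting as `fT σ` on level one -/
def GG (r : ℕ) (σ : ℕ → Bool) (s : Fin r × T) : Fin r × T :=
  (s.1, if (s.1 : ℕ) = 1 then fT σ s.2 else s.2)

lemma GG_GG (r : ℕ) (σ : ℕ → Bool) (s : Fin r × T) : GG r σ (GG r σ s) = s := by
  unfold GG
  by_cases h : (s.1 : ℕ) = 1
  · simp [h, fT_fT]
  · simp [h]

lemma codeB {r : ℕ} (hr : 2 ≤ r) {σ τ : ℕ → Bool} (κ : (Fin r ×ₗ T) ≃o (Fin r ×ₗ T))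
    (h : (Fin r × T) ≃ (Fin r × T)) (hh : ∀ s s', (h s).2 = (h s').2 ↔ s.2 = s'.2)
    (heq : ∀ s, κ (toLex (GG r σ s)) = toLex (GG r τ (h s))) : σ = τ := by
  -- `h` preserves levels
  have hlev : ∀ (t : T) (i : Fin r), (h (i, t)).1 = i := by
    intro t
    have hmono : StrictMono (fun i : Fin r => (h (i, t)).1) := by
      intro i j hij
      have h1 : (toLex (GG r σ (i, t)) : Fin r ×ₗ T) < toLex (GG r σ (j, t)) := by
        unfold GG
        rw [Prod.Lex.toLex_lt_toLex]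
        exact Or.inl hij
      have h2 := κ.strictMono h1
      rw [heq, heq, Prod.Lex.toLex_lt_toLex] at h2
      have h3 : (h (i, t)).1 ≤ (h (j, t)).1 := by
        rcases h2 with h2 | h2
        · exact le_of_lt h2
        · exact le_of_eq h2.1
      refine lt_of_le_of_ne h3 (fun h4 => ?_)
      have h5 : h (i, t) = h (j, t) := Prod.ext h4 ((hh _ _).2 rfl)
      have h6 := h.injective h5
      simp only [Prod.mk.injEq, and_true] at h6
      exact hij.ne h6
    have hid : (fun i : Fin r => (h (i, t)).1) = id := by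
      have hinj := hmono.injective
      have hbij : Function.Bijective (fun i : Fin r => (h (i, t)).1) :=
        Finite.injective_iff_bijective.1 hinj
      let e : Fin r ≃o Fin r := hmono.orderIsoOfSurjective _ hbij.2
      have : e = OrderIso.refl _ := Subsingleton.elim _ _
      funext i
      exact congrArg (fun e : Fin r ≃o Fin r => e i) this
    exact fun i => congrFun hid i
  let i0 : Fin r := ⟨0, by omega⟩
  let i1 : Fin r := ⟨1, by omega⟩
  let π : T → T := fun t => (h (i0, t)).2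
  have hπ : ∀ i t, h (i, t) = (i, π t) := by
    intro i t
    exact Prod.ext (hlev t i) ((hh _ _).2 rfl)
  have hlt : ∀ (i : Fin r) (s t : T), (toLex (i, s) : Fin r ×ₗ T) < toLex (i, t) ↔ s < t := by
    intro i s t
    rw [Prod.Lex.toLex_lt_toLex]
    simp
  have e0 : ∀ t, κ (toLex (i0, t)) = toLex (i0, π t) := by
    intro t
    have := heq (i0, t)
    rw [hπ] at this
    simpa [GG, i0] using this
  have e1 : ∀ t, κ (toLex (i1, fT σ t)) = toLex (i1, fT τ (π t)) := by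
    intro t
    have := heq (i1, t)
    rw [hπ] at this
    simpa [GG, i1] using this
  have hmono : ∀ s t, π s < π t ↔ s < t := by
    intro s t
    rw [← hlt i0, ← e0, ← e0, κ.lt_iff_lt, hlt]
  have hsurj : Function.Surjective π := by
    intro t
    obtain ⟨⟨i, s⟩, hs⟩ := h.surjective (i0, t)
    rw [hπ] at hs
    exact ⟨s, (Prod.ext_iff.1 hs).2⟩
  let πo : T ≃o T := StrictMono.orderIsoOfSurjective π (fun s t hst => (hmono s t).2 hst) hsurj
  refine decodeF πo (fun s t => ?_)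
  change _ ↔ fT τ (π s) < fT τ (π t)
  rw [← hlt i1, ← κ.lt_iff_lt, e1, e1, hlt]

/-- a partition into sets of size `r` is isomorphic to the standard one -/
lemma exists_beta {F₀ : Finset ℕ} {r : ℕ} {C : ℕ → Set ℕ}
    (hC : ∀ a, a ∉ F₀ → a ∈ C a ∧ (C a).Finite ∧ (C a).ncard = r ∧ ∀ b ∈ C a, b ∉ F₀ ∧ C b = C a) :
    ∃ β : {a : ℕ // a ∉ F₀} ≃ Fin r × T, ∀ a b, (β a).2 = (β b).2 ↔ C a = C b := by
  classical
  let f : {a : ℕ // a ∉ F₀} → Set.range (fun a : {a : ℕ // a ∉ F₀} => C a) :=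
    Set.rangeFactorization _
  have hf : ∀ a b, f a = f b ↔ C a = C b := fun a b => Subtype.ext_iff
  have hfs : Function.Surjective f := Set.rangeFactorization_surjective
  have hfib : ∀ q, Nonempty ({a // f a = q} ≃ Fin r) := by
    intro q
    obtain ⟨a, rfl⟩ := hfs q
    obtain ⟨h1, h2, h3, h4⟩ := hC a a.2
    have e : {b // f b = f a} ≃ C a :=
      { toFun := fun b => ⟨b.1, by
          have := (hf _ _).1 b.2
          rw [← this]
          exact (hC b.1 b.1.2).1⟩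
        invFun := fun b => ⟨⟨b.1, (h4 b.1 b.2).1⟩, (hf _ _).2 (h4 b.1 b.2).2⟩
        left_inv := fun b => rfl
        right_inv := fun b => rfl }
    haveI : Finite (C a) := h2
    have hcard : Nat.card (C a) = r := h3
    exact ⟨e.trans (Finite.equivFinOfCardEq hcard)⟩
  have hfib' := fun q => (hfib q).some
  have hinf : Infinite {a : ℕ // a ∉ F₀} := by
    have : (↑F₀ : Set ℕ)ᶜ.Infinite := F₀.finite_toSet.infinite_compl
    exact this.to_subtype
  have hQinf : Infinite (Set.range (fun a : {a : ℕ // a ∉ F₀} => C a)) := by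
    by_contra hcon
    rw [not_infinite_iff_finite] at hcon
    have : Finite (Σ y, {x // f x = y}) := by
      haveI : ∀ y, Finite {x // f x = y} := fun y => Finite.of_equiv _ (hfib' y).symm
      infer_instance
    have := Finite.of_equiv _ (Equiv.sigmaFiberEquiv f)
    exact not_finite {a : ℕ // a ∉ F₀}
  have hTinf : Infinite T := NoMaxOrder.infinite
  have hQc : Countable (Set.range (fun a : {a : ℕ // a ∉ F₀} => C a)) :=
    (Set.countable_range _).to_subtype
  obtain ⟨eQ⟩ : Nonempty (Set.range (fun a : {a : ℕ // a ∉ F₀} => C a) ≃ T) :=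
    nonempty_equiv_of_countable
  let β : {a : ℕ // a ∉ F₀} ≃ Fin r × T :=
    ((Equiv.sigmaFiberEquiv f).symm.trans (Equiv.sigmaCongrRight hfib')).trans
      ((Equiv.sigmaEquivProd _ _).trans ((Equiv.prodCongr eQ (Equiv.refl _)).trans (Equiv.prodComm _ _)))
  refine ⟨β, fun a b => ?_⟩
  have hβ : ∀ a, (β a).2 = eQ (f a) := fun a => rfl
  rw [hβ, hβ, eQ.injective.eq_iff, hf]

/-- the complement of a finite set (a type synonym without order) -/
def Om (F₀ : Finset ℕ) : Type := {a : ℕ // a ∉ F₀}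

lemma exists_theta (e : ℕ ≃ T) (F₀ : Finset ℕ) {r : ℕ} (hr : 2 ≤ r) :
    ∃ θ : {a : ℕ // a ∉ F₀} ≃ Fin r ×ₗ T, ∀ a b, θ a < θ b ↔ e a.1 < e b.1 := by
  classical
  letI : LinearOrder (Om F₀) := LinearOrder.lift' (fun a : Om F₀ => e a.1)
    (fun a b h => Subtype.ext (e.injective h))
  have hΩlt : ∀ a b : Om F₀, a < b ↔ e a.1 < e b.1 := fun a b => Iff.rfl
  have hout : ∀ S : Set T, S.Infinite → ∃ a : Om F₀, e a.1 ∈ S := by
    intro S hS
    have h1 : (S \ (F₀.image e : Finset T)).Infinite := hS.sdiff (Finset.finite_toSet _)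
    obtain ⟨t, ht, ht'⟩ := h1.nonempty
    refine ⟨⟨e.symm t, fun hmem => ht' ?_⟩, by simpa using ht⟩
    simp only [Finset.coe_image, mem_image, Finset.mem_coe]
    exact ⟨e.symm t, hmem, e.apply_symm_apply t⟩
  haveI : Countable (Om F₀) := inferInstanceAs (Countable {a : ℕ // a ∉ F₀})
  haveI : DenselyOrdered (Om F₀) := ⟨fun a b hab => by
    obtain ⟨c, hc⟩ := hout (Set.Ioo (e a.1) (e b.1)) (Set.Ioo_infinite hab)
    exact ⟨c, hc.1, hc.2⟩⟩
  haveI : NoMaxOrder (Om F₀) := ⟨fun a => by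
    obtain ⟨c, hc⟩ := hout (Set.Ioi (e a.1)) (Set.Ioi_infinite _)
    exact ⟨c, hc⟩⟩
  haveI : NoMinOrder (Om F₀) := ⟨fun a => by
    obtain ⟨c, hc⟩ := hout (Set.Iio (e a.1)) (Set.Iio_infinite _)
    exact ⟨c, hc⟩⟩
  haveI : Nonempty (Om F₀) := by
    have : Infinite T := NoMaxOrder.infinite
    obtain ⟨c, -⟩ := hout Set.univ Set.infinite_univ
    exact ⟨c⟩
  haveI : Nonempty T := ⟨toLex (0, ⊥)⟩
  haveI : Nonempty (Fin r ×ₗ T) := ⟨toLex (⟨0, by omega⟩, toLex (0, ⊥))⟩
  haveI : Countable (Fin r ×ₗ T) := inferInstanceAs (Countable (Fin r × T))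
  obtain ⟨θ⟩ : Nonempty (Om F₀ ≃o (Fin r ×ₗ T)) := Order.iso_of_countable_dense _ _
  exact ⟨θ.toEquiv, fun a b => θ.lt_iff_lt⟩

lemma pmdc_partition (e : ℕ ≃ T) (F₀ : Finset ℕ) (r : ℕ) (C : ℕ → Set ℕ) (hr : 2 ≤ r)
    (hC : ∀ a, a ∉ F₀ → a ∈ C a ∧ (C a).Finite ∧ (C a).ncard = r ∧ ∀ b ∈ C a, b ∉ F₀ ∧ C b = C a) :
    PMDC (relAut (fun a b => e a < e b))
      (fun h => (∀ a, h a ∈ F₀ ↔ a ∈ F₀) ∧ ∀ a, a ∉ F₀ → C (h a) = h '' (C a)) := by
  classical
  obtain ⟨β, hβ⟩ := exists_beta hC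
  obtain ⟨θ, hθ⟩ := exists_theta e F₀ hr
  let Ω := {a : ℕ // a ∉ F₀}
  let G : (ℕ → Bool) → ((Fin r × T) ≃ (Fin r × T)) := fun σ =>
    ⟨GG r σ, GG r σ, GG_GG r σ, GG_GG r σ⟩
  let gΩ : (ℕ → Bool) → Equiv.Perm Ω := fun σ =>
    (β.trans (G σ)).trans (toLex.trans θ.symm)
  have hgΩ : ∀ σ a, θ (gΩ σ a) = toLex (GG r σ (β a)) := by
    intro σ a
    change θ (θ.symm (toLex (GG r σ (β a)))) = _
    rw [θ.apply_symm_apply]
  let g : (ℕ → Bool) → Equiv.Perm ℕ := fun σ => Equiv.Perm.ofSubtype (gΩ σ)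
  refine ⟨g, ?_, ?_⟩
  · refine measurable_to_perm fun a b => ?_
    by_cases ha : a ∉ F₀
    · by_cases hb : b ∉ F₀
      · have : {σ | g σ a = b} = {σ | GG r σ (β ⟨a, ha⟩) = ofLex (θ ⟨b, hb⟩)} := by
          ext σ
          simp only [mem_ofPred_eq, g]
          rw [Equiv.Perm.ofSubtype_apply_of_mem (gΩ σ) ha]
          have e1 : ((gΩ σ ⟨a, ha⟩ : Ω) : ℕ) = b ↔ gΩ σ ⟨a, ha⟩ = ⟨b, hb⟩ :=
            ⟨fun h => Subtype.ext h, fun h => by rw [h]⟩
          rw [e1, ← θ.injective.eq_iff, hgΩ]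
          rfl
        rw [this]
        by_cases h1 : ((β ⟨a, ha⟩).1 : ℕ) = 1
        · have : {σ | GG r σ (β ⟨a, ha⟩) = ofLex (θ ⟨b, hb⟩)} =
              {σ | (β ⟨a, ha⟩).1 = (ofLex (θ ⟨b, hb⟩)).1} ∩
              {σ | fT σ (β ⟨a, ha⟩).2 = (ofLex (θ ⟨b, hb⟩)).2} := by
            ext σ
            simp only [GG, h1, if_true, mem_ofPred_eq, mem_inter_iff, Prod.ext_iff]
          rw [this]
          exact (MeasurableSet.const _).inter (measurableSet_fT _ _)
        · have : {σ | GG r σ (β ⟨a, ha⟩) = ofLex (θ ⟨b, hb⟩)} =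
              {σ | β ⟨a, ha⟩ = ofLex (θ ⟨b, hb⟩)} := by
            ext σ
            simp only [GG, h1, if_false, mem_ofPred_eq]
          rw [this]
          exact MeasurableSet.const _
      · have : {σ | g σ a = b} = ∅ := by
          ext σ
          simp only [mem_ofPred_eq, mem_empty_iff_false, iff_false]
          intro h
          apply hb
          rw [← h]
          exact (Equiv.Perm.ofSubtype_apply_mem_iff_mem (gΩ σ) a).2 ha
        rw [this]
        exact MeasurableSet.empty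
    · have : {σ | g σ a = b} = {σ | a = b} := by
        ext σ
        simp only [mem_ofPred_eq, g]
        rw [Equiv.Perm.ofSubtype_apply_of_not_mem (gΩ σ) ha]
      rw [this]
      exact MeasurableSet.const _
  · intro σ τ hne k hk h hh heq
    obtain ⟨hh1, hh2⟩ := hh
    apply hne
    have happ : ∀ a, k (g σ a) = g τ (h a) := fun a => by
      rw [← Equiv.Perm.mul_apply, heq, Equiv.Perm.mul_apply]
    have hgmem : ∀ ρ a, g ρ a ∉ F₀ ↔ a ∉ F₀ := fun ρ a =>
      Equiv.Perm.ofSubtype_apply_mem_iff_mem (gΩ ρ) a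
    have hkmem : ∀ a, a ∉ F₀ ↔ k a ∉ F₀ := by
      intro a
      have h1 := happ ((g σ).symm a)
      rw [Equiv.apply_symm_apply] at h1
      have h2 := hgmem σ ((g σ).symm a)
      rw [Equiv.apply_symm_apply] at h2
      rw [h1, hgmem, hh1]
      exact h2
    have hhmem : ∀ a, a ∉ F₀ ↔ h a ∉ F₀ := fun a => by rw [hh1]
    let kΩ : Ω ≃ Ω := k.subtypePerm (fun a => (hkmem a).symm)
    let hΩ : Ω ≃ Ω := h.subtypePerm (fun a => (hhmem a).symm)
    have hkΩ : ∀ a : Ω, ((kΩ a : Ω) : ℕ) = k a := fun a => rfl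
    have hhΩ : ∀ a : Ω, ((hΩ a : Ω) : ℕ) = h a := fun a => rfl
    let kO : (Fin r ×ₗ T) ≃o (Fin r ×ₗ T) :=
      { toEquiv := (θ.symm.trans kΩ).trans θ
        map_rel_iff' := by
          intro s t
          have h1 := hθ (kΩ (θ.symm t)) (kΩ (θ.symm s))
          have h2 : e (k (θ.symm t).1) < e (k (θ.symm s).1) ↔ e (θ.symm t).1 < e (θ.symm s).1 :=
            hk (θ.symm t).1 (θ.symm s).1
          have h3 := hθ (θ.symm t) (θ.symm s)
          rw [θ.apply_symm_apply, θ.apply_symm_apply] at h3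
          change θ (kΩ (θ.symm s)) ≤ θ (kΩ (θ.symm t)) ↔ s ≤ t
          rw [← not_lt, ← not_lt, h1, h3, hkΩ, hkΩ, h2] }
    refine codeB hr kO ((β.symm.trans hΩ).trans β) ?_ ?_
    · intro s s'
      change (β (hΩ (β.symm s))).2 = (β (hΩ (β.symm s'))).2 ↔ _
      rw [hβ, hhΩ, hhΩ, hh2 _ (β.symm s).2, hh2 _ (β.symm s').2,
        Set.image_injective.2 h.injective |>.eq_iff, ← hβ, β.apply_symm_apply, β.apply_symm_apply]
    · intro s
      change θ (kΩ (θ.symm (toLex (GG r σ s)))) = toLex (GG r τ (β (hΩ (β.symm s))))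
      have h1 : θ.symm (toLex (GG r σ s)) = gΩ σ (β.symm s) := by
        rw [θ.symm_apply_eq, hgΩ, β.apply_symm_apply]
      rw [h1, ← hgΩ]
      congr 1
      apply Subtype.ext
      rw [hkΩ]
      have h2 := happ (β.symm s).1
      have h3 : g σ (β.symm s).1 = ((gΩ σ (β.symm s) : Ω) : ℕ) :=
        Equiv.Perm.ofSubtype_apply_coe (gΩ σ) (β.symm s)
      have h4 : g τ (h (β.symm s).1) = ((gΩ τ (hΩ (β.symm s)) : Ω) : ℕ) :=
        Equiv.Perm.ofSubtype_apply_coe (gΩ τ) (hΩ (β.symm s))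
      rw [h3, h4] at h2
      exact h2

end Pool.Agent.H71
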