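import Mathlib

/-!
Trichotomy for closed permutation groups:
`H` is open, or a finite stabiliser leaves a moiety invariant, or a finite stabiliser leaves
invariant a partition of a cofinite set into sets of the same finite size `r ≥ 2`.
-/

set_option autoImplicit false

open Set

namespace Pool.Agent.H71

variable {α : Type*}

/-- pointwise stabiliser in `H` of the finite set `F` -/
def Fx (H : Subgroup (Equiv.Perm α)) (F : Finset α) : Subgroup (Equiv.Perm α) where
  carrier := {h | h ∈ H ∧ ∀ a ∈ F, h a = a}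
  mul_mem' := by
    rintro a b ⟨ha, ha'⟩ ⟨hb, hb'⟩
    refine ⟨H.mul_mem ha hb, fun c hc => ?_⟩
    rw [Equiv.Perm.mul_apply, hb' c hc, ha' c hc]
  one_mem' := ⟨H.one_mem, fun _ _ => rfl⟩
  inv_mem' := by
    rintro a ⟨ha, ha'⟩
    refine ⟨H.inv_mem ha, fun c hc => ?_⟩
    rw [Equiv.Perm.inv_eq_iff_eq, ha' c hc]

lemma mem_Fx {H : Subgroup (Equiv.Perm α)} {F : Finset α} {h : Equiv.Perm α} :
    h ∈ Fx H F ↔ h ∈ H ∧ ∀ a ∈ F, h a = a := Iff.rfl

lemma Fx_anti {H : Subgroup (Equiv.Perm α)} {F F' : Finset α} (h : F ⊆ F') :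
    Fx H F' ≤ Fx H F := fun _ hg => ⟨hg.1, fun a ha => hg.2 a (h ha)⟩

/-- orbit of `a` under the pointwise stabiliser of `F` -/
def orb (H : Subgroup (Equiv.Perm α)) (F : Finset α) (a : α) : Set α :=
  {b | ∃ h ∈ Fx H F, h a = b}

lemma self_mem_orb (H : Subgroup (Equiv.Perm α)) (F : Finset α) (a : α) : a ∈ orb H F a :=
  ⟨1, (Fx H F).one_mem, rfl⟩

lemma orb_symm {H : Subgroup (Equiv.Perm α)} {F : Finset α} {a b : α} (h : b ∈ orb H F a) :
    a ∈ orb H F b := by
  obtain ⟨g, hg, rfl⟩ := h
  exact ⟨g⁻¹, (Fx H F).inv_mem hg, by simp⟩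

lemma orb_trans {H : Subgroup (Equiv.Perm α)} {F : Finset α} {a b c : α} (h : b ∈ orb H F a)
    (h' : c ∈ orb H F b) : c ∈ orb H F a := by
  obtain ⟨g, hg, rfl⟩ := h
  obtain ⟨g', hg', rfl⟩ := h'
  exact ⟨g' * g, (Fx H F).mul_mem hg' hg, by simp⟩

lemma orb_eq {H : Subgroup (Equiv.Perm α)} {F : Finset α} {a b : α} (h : b ∈ orb H F a) :
    orb H F b = orb H F a :=
  Set.Subset.antisymm (fun _ hc => orb_trans h hc) (fun _ hc => orb_trans (orb_symm h) hc)

lemma apply_mem_orb {H : Subgroup (Equiv.Perm α)} {F : Finset α} {g : Equiv.Perm α}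
    (hg : g ∈ Fx H F) (a : α) : g a ∈ orb H F a := ⟨g, hg, rfl⟩

lemma orb_anti {H : Subgroup (Equiv.Perm α)} {F F' : Finset α} (h : F ⊆ F') (a : α) :
    orb H F' a ⊆ orb H F a := by
  rintro b ⟨g, hg, rfl⟩
  exact ⟨g, Fx_anti h hg, rfl⟩

/-- algebraic closure: elements with a finite orbit -/
def acl (H : Subgroup (Equiv.Perm α)) (F : Finset α) : Set α := {a | (orb H F a).Finite}

lemma acl_mono {H : Subgroup (Equiv.Perm α)} {F F' : Finset α} (h : F ⊆ F') :
    acl H F ⊆ acl H F' := fun a ha => Set.Finite.subset ha (orb_anti h a)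

lemma subset_acl (H : Subgroup (Equiv.Perm α)) (F : Finset α) : (F : Set α) ⊆ acl H F := by
  intro a ha
  have : orb H F a ⊆ {a} := by
    rintro b ⟨g, hg, rfl⟩
    exact hg.2 a ha
  exact (Set.finite_singleton a).subset this

lemma mem_acl_of_mem_orb {H : Subgroup (Equiv.Perm α)} {F : Finset α} {a b : α}
    (h : b ∈ orb H F a) (ha : a ∈ acl H F) : b ∈ acl H F := by
  change (orb H F b).Finite
  rw [orb_eq h]
  exact ha

/-- idempotence of `acl` -/
lemma acl_subset_acl {H : Subgroup (Equiv.Perm α)} {F E : Finset α}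
    (hE : (E : Set α) ⊆ acl H F) : acl H E ⊆ acl H F := by
  classical
  intro d hd
  change (orb H F d).Finite
  -- restrictions of elements of the stabiliser to `E`
  let T : Set (E → α) := {t | ∃ h ∈ Fx H F, ∀ e : E, h e = t e}
  have hT : T.Finite := by
    have : (Set.univ.pi (fun e : E => orb H F (e : α))).Finite :=
      Set.Finite.pi' (fun e => hE e.2)  |>.subset (by
        intro t ht e
        exact ht e (Set.mem_univ e))
    refine this.subset ?_
    rintro t ⟨h, hh, ht⟩ e -
    exact ⟨h, hh, ht e⟩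
  have hch : ∀ t : E → α, ∃ h : Equiv.Perm α, t ∈ T → h ∈ Fx H F ∧ ∀ e : E, h e = t e := by
    intro t
    by_cases ht : t ∈ T
    · obtain ⟨h, hh, h2⟩ := ht
      exact ⟨h, fun _ => ⟨hh, h2⟩⟩
    · exact ⟨1, fun h => absurd h ht⟩
  choose φ hφ using hch
  have hfin : (⋃ t ∈ T, (φ t) '' (orb H E d)).Finite :=
    hT.biUnion (fun t _ => Set.Finite.image _ hd)
  refine hfin.subset ?_
  rintro b ⟨h, hh, rfl⟩
  have ht : (fun e : E => h e) ∈ T := ⟨h, hh, fun e => rfl⟩
  obtain ⟨h1, h2⟩ := hφ _ ht
  refine Set.mem_biUnion ht ⟨((φ fun e : E => h e)⁻¹ * h) d, ⟨_, ⟨?_, ?_⟩, rfl⟩, ?_⟩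
  · exact H.mul_mem (H.inv_mem h1.1) hh.1
  · intro a ha
    rw [Equiv.Perm.mul_apply, Equiv.Perm.inv_eq_iff_eq]
    exact (h2 ⟨a, ha⟩).symm
  · simp

lemma infinite_split {β : Type*} {s : Set β} (hs : s.Infinite) :
    ∃ t ⊆ s, t.Infinite ∧ (s \ t).Infinite := by
  classical
  let f := hs.natEmbedding
  refine ⟨Set.range (fun n : ℕ => (f (2 * n) : β)), ?_, ?_, ?_⟩
  · rintro _ ⟨n, rfl⟩
    exact (f (2 * n)).2
  · apply Set.infinite_range_of_injective
    intro a b h
    have := f.injective (Subtype.ext h)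
    omega
  · have : Set.range (fun n : ℕ => (f (2 * n + 1) : β)) ⊆ s \ Set.range (fun n : ℕ => (f (2 * n) : β)) := by
      rintro _ ⟨n, rfl⟩
      refine ⟨(f (2 * n + 1)).2, ?_⟩
      rintro ⟨m, hm⟩
      have := f.injective (Subtype.ext hm)
      omega
    refine Set.Infinite.mono this ?_
    apply Set.infinite_range_of_injective
    intro a b h
    have := f.injective (Subtype.ext h)
    omega

/-- case (2) -/
def HasMoiety (H : Subgroup (Equiv.Perm α)) : Prop :=
  ∃ (F : Finset α) (A : Set α), A.Infinite ∧ Aᶜ.Infinite ∧ ∀ h ∈ Fx H F, ∀ a, h a ∈ A ↔ a ∈ A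

lemma invariant_iff {H : Subgroup (Equiv.Perm α)} {F : Finset α} {A : Set α}
    (h : ∀ a ∈ A, orb H F a ⊆ A) : ∀ g ∈ Fx H F, ∀ a, g a ∈ A ↔ a ∈ A := by
  intro g hg a
  constructor
  · intro hga
    exact h _ hga (orb_symm (apply_mem_orb hg a))
  · intro ha
    exact h _ ha (apply_mem_orb hg a)

/-- if there is no invariant moiety, there is exactly one infinite orbit and it is cofinite -/
lemma acl_finite [Infinite α] {H : Subgroup (Equiv.Perm α)} (hno : ¬ HasMoiety H)
    (F : Finset α) : (acl H F).Finite := by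
  classical
  by_contra hinf
  have hinf : (acl H F).Infinite := hinf
  -- the family of orbits inside acl
  let Q : Set (Set α) := (fun a => orb H F a) '' (acl H F)
  have hQ : Q.Infinite := by
    intro hQf
    apply hinf
    have : acl H F ⊆ ⋃ s ∈ Q, s := by
      intro a ha
      exact Set.mem_biUnion (Set.mem_image_of_mem _ ha) (self_mem_orb H F a)
    refine Set.Finite.subset (hQf.biUnion ?_) this
    rintro s ⟨a, ha, rfl⟩
    exact ha
  obtain ⟨t, htQ, ht, ht'⟩ := infinite_split hQ
  apply hno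
  refine ⟨F, ⋃ s ∈ t, s, ?_, ?_, ?_⟩
  · intro hfin
    apply ht
    have : t ⊆ (fun a => orb H F a) '' (⋃ s ∈ t, s) := by
      intro s hs
      obtain ⟨a, ha, rfl⟩ := htQ hs
      exact ⟨a, Set.mem_biUnion hs (self_mem_orb H F a), rfl⟩
    exact (hfin.image _).subset this
  · intro hfin
    apply ht'
    have : Q \ t ⊆ (fun a => orb H F a) '' (⋃ s ∈ t, s)ᶜ := by
      rintro s ⟨hs, hst⟩
      obtain ⟨a, ha, rfl⟩ := hs
      refine ⟨a, ?_, rfl⟩
      intro hmem
      rw [Set.mem_iUnion₂] at hmem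
      obtain ⟨s', hs', has'⟩ := hmem
      obtain ⟨b, hb, rfl⟩ := htQ hs'
      have e := orb_eq has'
      exact hst (by
        change orb H F a ∈ t
        rw [e]; exact hs')
    exact (hfin.image _).subset this
  · apply invariant_iff
    intro a ha
    rw [Set.mem_iUnion₂] at ha
    obtain ⟨s, hs, has⟩ := ha
    obtain ⟨b, hb, rfl⟩ := htQ hs
    rw [orb_eq has]
    exact Set.subset_biUnion_of_mem hs

lemma orb_of_not_mem_acl [Infinite α] {H : Subgroup (Equiv.Perm α)} (hno : ¬ HasMoiety H)
    (F : Finset α) {a b : α} (ha : a ∉ acl H F) (hb : b ∉ acl H F) : b ∈ orb H F a := by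
  classical
  have key : ∀ c, c ∉ acl H F → (orb H F c)ᶜ.Finite := by
    intro c hc
    by_contra hinf
    exact hno ⟨F, orb H F c, hc, hinf, invariant_iff (fun d hd => by rw [orb_eq hd])⟩
  have h1 := key a ha
  have h2 := key b hb
  have h3 : ((orb H F a)ᶜ ∪ (orb H F b)ᶜ).Finite := h1.union h2
  obtain ⟨c, hc⟩ := h3.exists_notMem
  simp only [mem_union, mem_compl_iff, not_or, not_not] at hc
  rw [← orb_eq hc.1, orb_eq hc.2]
  exact self_mem_orb H F b

/-- case (3): a finite pointwise stabiliser leaves invariant a partition of a cofinite set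
(given by the map `C`) into sets of the same finite size `r ≥ 2` -/
def HasPartition (H : Subgroup (Equiv.Perm α)) : Prop :=
  ∃ (F F₀ : Finset α) (r : ℕ) (C : α → Set α), 2 ≤ r ∧
    (∀ h ∈ Fx H F, ∀ a, h a ∈ F₀ ↔ a ∈ F₀) ∧
    (∀ a, a ∉ F₀ → a ∈ C a ∧ (C a).Finite ∧ (C a).ncard = r ∧ ∀ b ∈ C a, b ∉ F₀ ∧ C b = C a) ∧
    (∀ h ∈ Fx H F, ∀ a, a ∉ F₀ → C (h a) = h '' (C a))

/-- a closed group -/
def Clsd (H : Subgroup (Equiv.Perm α)) : Prop :=
  ∀ g : Equiv.Perm α, (∀ F : Finset α, ∃ h ∈ H, ∀ a ∈ F, h a = g a) → g ∈ H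

/-- an open group -/
def Opn (H : Subgroup (Equiv.Perm α)) : Prop :=
  ∃ F : Finset α, ∀ g : Equiv.Perm α, (∀ a ∈ F, g a = a) → g ∈ H

/-- highly transitive off a finite set implies open, for closed groups -/
lemma opn_of_transitive {H : Subgroup (Equiv.Perm α)} (hcl : Clsd H) (F₀ : Finset α)
    (h : ∀ F : Finset α, F₀ ⊆ F → ∀ a b, a ∉ F → b ∉ F → b ∈ orb H F a) : Opn H := by
  classical
  refine ⟨F₀, fun g hg => hcl g ?_⟩
  -- for every finite F there is h ∈ H fixing F₀ pointwise and agreeing with g on F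
  suffices hs : ∀ F : Finset α, ∃ h ∈ Fx H F₀, ∀ a ∈ F, h a = g a by
    intro F
    obtain ⟨h, hh, h2⟩ := hs F
    exact ⟨h, hh.1, h2⟩
  intro F
  induction F using Finset.induction_on with
  | empty => exact ⟨1, (Fx H F₀).one_mem, by simp⟩
  | insert a F ha ih =>
    obtain ⟨h₁, hh₁, h₂⟩ := ih
    by_cases haF : a ∈ F₀
    · refine ⟨h₁, hh₁, ?_⟩
      intro c hc
      rcases Finset.mem_insert.1 hc with rfl | hc
      · rw [hh₁.2 c haF, hg c haF]
      · exact h₂ c hc
    · -- move `h₁ a` to `g a` fixing `F₀ ∪ g '' F`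
      let E : Finset α := F₀ ∪ F.image g
      have e1 : h₁ a ∉ E := by
        simp only [E, Finset.mem_union, Finset.mem_image, not_or, not_exists, not_and]
        constructor
        · intro hmem
          have := hh₁.2 _ hmem
          have := h₁.injective this
          exact haF (this ▸ hmem)
        · intro c hc hgc
          rw [← h₂ c hc] at hgc
          have := h₁.injective hgc
          exact ha (this ▸ hc)
      have e2 : g a ∉ E := by
        simp only [E, Finset.mem_union, Finset.mem_image, not_or, not_exists, not_and]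
        constructor
        · intro hmem
          have := hg _ hmem
          have := g.injective this
          exact haF (this ▸ hmem)
        · intro c hc hgc
          have := g.injective hgc
          exact ha (this ▸ hc)
      obtain ⟨k, hk, hk2⟩ := h E Finset.subset_union_left (h₁ a) (g a) e1 e2
      refine ⟨k * h₁, (Fx H F₀).mul_mem (Fx_anti Finset.subset_union_left hk) hh₁, ?_⟩
      intro c hc
      rcases Finset.mem_insert.1 hc with rfl | hc
      · rw [Equiv.Perm.mul_apply, hk2]
      · rw [Equiv.Perm.mul_apply, h₂ c hc]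
        exact hk.2 _ (Finset.mem_union_right _ (Finset.mem_image_of_mem g hc))

/-- The trichotomy. -/
theorem trichotomy [Infinite α] {H : Subgroup (Equiv.Perm α)} (hcl : Clsd H) :
    Opn H ∨ HasMoiety H ∨ HasPartition H := by
  classical
  by_cases hno : HasMoiety H
  · exact Or.inr (Or.inl hno)
  by_cases htriv : ∀ F : Finset α, acl H F ⊆ (F : Set α) ∪ acl H ∅
  · left
    have hfin := acl_finite hno (∅ : Finset α)
    refine opn_of_transitive hcl hfin.toFinset ?_
    intro F hF a b ha hb
    have h1 : ∀ c, c ∉ F → c ∉ acl H F := by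
      intro c hc hmem
      rcases htriv F hmem with h | h
      · exact hc h
      · exact hc (hF (by simpa using h))
    exact orb_of_not_mem_acl hno F (h1 a ha) (h1 b hb)
  · right; right
    -- a counterexample of minimal cardinality
    push Not at htriv
    have hex : ∃ n : ℕ, ∃ F : Finset α, F.card = n ∧ ¬ (acl H F ⊆ (F : Set α) ∪ acl H ∅) := by
      obtain ⟨F, hF⟩ := htriv
      exact ⟨F.card, F, rfl, hF⟩
    obtain ⟨F, hFc, hF⟩ := Nat.find_spec hex
    have hmin : ∀ F' : Finset α, F'.card < F.card → acl H F' ⊆ (F' : Set α) ∪ acl H ∅ := by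
      intro F' hF'
      by_contra hcon
      exact Nat.find_min hex (m := F'.card) (by omega) ⟨F', rfl, hcon⟩
    rw [Set.not_subset] at hF
    obtain ⟨d, hd, hd'⟩ := hF
    have hne : F.Nonempty := by
      rw [Finset.nonempty_iff_ne_empty]
      rintro rfl
      exact hd' (Or.inr hd)
    obtain ⟨e, he⟩ := hne
    set F₁ := F.erase e with hF₁
    have hF₁c := hmin F₁ (Finset.card_erase_lt_of_mem he)
    have hins : insert e F₁ = F := Finset.insert_erase he
    have hd1 : d ∉ acl H F₁ := by
      intro h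
      rcases hF₁c h with h | h
      · exact hd' (Or.inl (Finset.erase_subset _ _ h))
      · exact hd' (Or.inr h)
    have he1 : e ∉ acl H F₁ := by
      intro h
      apply hd1
      have : (F : Set α) ⊆ acl H F₁ := by
        rw [← hins]
        intro c hc
        rcases Finset.mem_insert.1 hc with rfl | hc
        · exact h
        · exact subset_acl H F₁ hc
      exact acl_subset_acl this hd
    have hde : d ≠ e := by
      rintro rfl
      exact hd' (Or.inl he)
    have hfin := acl_finite hno F₁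
    set F₀ := hfin.toFinset with hF₀
    have hmemF₀ : ∀ a, a ∈ F₀ ↔ a ∈ acl H F₁ := by intro a; simp [hF₀]
    let C : α → Set α := fun a => acl H (insert a F₁) \ acl H F₁
    have hCfin : ∀ a, (C a).Finite := fun a =>
      (acl_finite hno (insert a F₁)).subset Set.sdiff_subset
    -- equivariance
    have horb : ∀ h ∈ Fx H F₁, ∀ a, h a ∈ acl H F₁ ↔ a ∈ acl H F₁ := by
      apply invariant_iff
      intro a ha b hb
      exact mem_acl_of_mem_orb hb ha
    have hCeq : ∀ h ∈ Fx H F₁, ∀ a, C (h a) = h '' (C a) := by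
      have half : ∀ h ∈ Fx H F₁, ∀ a, h '' (C a) ⊆ C (h a) := by
        rintro h hh a _ ⟨b, ⟨hb1, hb2⟩, rfl⟩
        refine ⟨?_, fun hmem => hb2 ((horb h hh b).1 hmem)⟩
        change (orb H (insert (h a) F₁) (h b)).Finite
        have : orb H (insert (h a) F₁) (h b) ⊆ h '' (orb H (insert a F₁) b) := by
          rintro c ⟨k, hk, rfl⟩
          refine ⟨(h⁻¹ * k * h) b, ⟨h⁻¹ * k * h, ⟨?_, ?_⟩, rfl⟩, by simp⟩
          · exact H.mul_mem (H.mul_mem (H.inv_mem hh.1) hk.1) hh.1
          · intro x hx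
            have hx' : h x ∈ insert (h a) F₁ := by
              rcases Finset.mem_insert.1 hx with rfl | hx
              · exact Finset.mem_insert_self _ _
              · rw [hh.2 x hx]; exact Finset.mem_insert_of_mem hx
            have := hk.2 _ hx'
            simp only [Equiv.Perm.mul_apply, this]
            simp
        exact (Set.Finite.image _ hb1).subset this
      intro h hh a
      refine Set.Subset.antisymm ?_ (half h hh a)
      intro b hb
      have h1 := half h⁻¹ ((Fx H F₁).inv_mem hh) (h a) ⟨b, hb, rfl⟩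
      have h2 : h⁻¹ (h a) = a := by simp
      rw [h2] at h1
      exact ⟨_, h1, by simp⟩
    have hself : ∀ a, a ∉ acl H F₁ → a ∈ C a := fun a ha =>
      ⟨subset_acl H _ (Finset.mem_insert_self a F₁), ha⟩
    have hcard : ∀ a, a ∉ acl H F₁ → (C a).ncard = (C e).ncard := by
      intro a ha
      obtain ⟨h, hh, rfl⟩ := orb_of_not_mem_acl hno F₁ he1 ha
      rw [hCeq h hh e, Set.ncard_image_of_injective _ h.injective]
    have hmemC : ∀ a b, b ∈ C a → C b ⊆ C a := by
      rintro a b ⟨hb1, hb2⟩
      have : ((insert b F₁ : Finset α) : Set α) ⊆ acl H (insert a F₁) := by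
        intro c hc
        rcases Finset.mem_insert.1 hc with rfl | hc
        · exact hb1
        · exact subset_acl H _ (Finset.mem_insert_of_mem hc)
      exact Set.sdiff_subset_sdiff_left (acl_subset_acl this)
    refine ⟨F₁, F₀, (C e).ncard, C, ?_, ?_, ?_, ?_⟩
    · -- two elements
      have hsub : ({e, d} : Set α) ⊆ C e := by
        intro x hx
        rcases hx with rfl | hx
        · exact hself x he1
        · rw [Set.mem_singleton_iff] at hx
          subst hx
          refine ⟨?_, hd1⟩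
          rw [hins]; exact hd
      have := Set.ncard_le_ncard hsub (hCfin e)
      rwa [Set.ncard_pair hde.symm] at this
    · intro h hh a
      rw [hmemF₀, hmemF₀]
      exact horb h hh a
    · intro a ha
      rw [hmemF₀] at ha
      refine ⟨hself a ha, hCfin a, hcard a ha, ?_⟩
      intro b hb
      refine ⟨by rw [hmemF₀]; exact hb.2, ?_⟩
      refine Set.eq_of_subset_of_ncard_le (hmemC a b hb) ?_ (hCfin a)
      rw [hcard a ha, hcard b hb.2]
    · intro h hh a _
      exact hCeq h hh a

end Pool.Agent.H71
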