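import Pool.Agent.H71.Class3
import Pool.Agent.H59.TV.Cell2

/-!
The dichotomy for closed subgroups of `S_∞`.
-/

set_option autoImplicit false

open Set

namespace Pool.Agent.H71

attribute [local instance] permTop polishSpace_perm isTopologicalGroup_perm permMeas borelSpace_perm

universe u

/-- The subgroup `K` has only countably many orbits on the subsets of `ℕ`. -/
def CountableOnSubsets (K : Subgroup (Equiv.Perm ℕ)) : Prop :=
  ∃ R : Set (Set ℕ), R.Countable ∧ ∀ A : Set ℕ, ∃ B ∈ R, ∃ g ∈ K, g '' A = B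

/-- Every Borel action of `Perm ℕ` on an uncountable standard Borel space has perfectly many
`K`-orbits. -/
def PerfectOnAll (K : Subgroup (Equiv.Perm ℕ)) : Prop :=
  ∀ (X : Type u) [MeasurableSpace X] [StandardBorelSpace X] [MulAction (Equiv.Perm ℕ) X],
    (Measurable fun p : Equiv.Perm ℕ × X => p.1 • p.2) → Uncountable X →
      ∃ f : (ℕ → Bool) → X, Measurable f ∧ ∀ x y, x ≠ y → ∀ k ∈ K, k • f x ≠ f y

lemma isClosed_Fx {K : Subgroup (Equiv.Perm ℕ)} (hK : IsClosed (K : Set (Equiv.Perm ℕ)))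
    (F : Finset ℕ) : IsClosed (Fx K F : Set (Equiv.Perm ℕ)) := by
  have : (Fx K F : Set (Equiv.Perm ℕ)) =
      (K : Set (Equiv.Perm ℕ)) ∩ ⋂ a ∈ F, {g : Equiv.Perm ℕ | g a = a} := by
    ext g
    simp only [mem_inter_iff, mem_iInter]
    exact Iff.rfl
  rw [this]
  refine hK.inter (isClosed_biInter fun a _ => ?_)
  exact (isClosed_discrete {a}).preimage (continuous_perm_apply a)

/-- A closed group that fails to be perfect on one space is cellular over a finite set. -/
theorem exists_cell {X : Type*} [MeasurableSpace X] [StandardBorelSpace X]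
    [MulAction (Equiv.Perm ℕ) X] (hact : Measurable fun p : Equiv.Perm ℕ × X => p.1 • p.2)
    (hX : Uncountable X) {K : Subgroup (Equiv.Perm ℕ)} (hK : IsClosed (K : Set (Equiv.Perm ℕ)))
    (hno : ¬ ∃ f : (ℕ → Bool) → X, Measurable f ∧ ∀ x y, x ≠ y → ∀ k ∈ K, k • f x ≠ f y) :
    ∃ F0 : Finset ℕ,
      (∀ F : Finset ℕ, (acl (Fx K F0) F).Finite) ∧
      (∀ (F : Finset ℕ) (a : ℕ), a ∈ acl (Fx K F0) F →
        a ∈ acl (Fx K F0) ∅ ∨ ∃ b ∈ F, a ∈ acl (Fx K F0) {b}) ∧
      (∀ (F : Finset ℕ) (a b : ℕ), a ∉ acl (Fx K F0) F → b ∉ acl (Fx K F0) F →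
        b ∈ orb (Fx K F0) ∅ a → b ∈ orb (Fx K F0) F a) ∧
      (range (orb (Fx K F0) ∅)).Finite := by
  have hX' : ¬ Countable X := not_countable_iff.2 hX
  have hKm : MeasurableSet (K : Set (Equiv.Perm ℕ)) := hK.measurableSet
  have hidx : Countable (K ⧸ K.subgroupOf K) := by
    rw [Subgroup.subgroupOf_self]
    infer_instance
  have hO : ∀ F : Finset ℕ, (range (orb K F)).Finite := by
    intro F
    by_contra hF
    apply hno
    obtain ⟨E, hE1, hE2⟩ := Acc_orbits (H := Fx K F) hF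
    exact perfect_of_family hact E hE2 hKm (countable_index_mono (countable_Fx K F) hE1) hX'
  have hU : (freeUlt K).Countable := by
    by_contra hU
    exact hno (perfect_of_freeUlt hact hKm hidx hU hX')
  refine Cl.exists_F0 hO hU (fun F => ⟨fun G => hno ?_⟩)
  refine perfect_of_countable_index hact hKm (countable_Fx K F) ?_
  exact general hact (isClosed_Fx hK F).measurableSet (fun A hA hA' => GG0.pmdc_moiety_GF G hA hA')
    (fun F₀ r C hr hC => GG0.pmdc_partition_GF G F₀ r C hr hC) hX'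

lemma clsd_of_isClosed {K : Subgroup (Equiv.Perm ℕ)} (hK : IsClosed (K : Set (Equiv.Perm ℕ))) :
    Clsd K := fun g hg => mem_of_isClosed hK g hg

/-- **The dichotomy.** -/
theorem perfect_or_countable {X : Type*} [MeasurableSpace X] [StandardBorelSpace X]
    [MulAction (Equiv.Perm ℕ) X] (hact : Measurable fun p : Equiv.Perm ℕ × X => p.1 • p.2)
    (hX : Uncountable X) {K : Subgroup (Equiv.Perm ℕ)} (hK : IsClosed (K : Set (Equiv.Perm ℕ))) :
    (∃ f : (ℕ → Bool) → X, Measurable f ∧ ∀ x y, x ≠ y → ∀ k ∈ K, k • f x ≠ f y) ∨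
      CountableOnSubsets K := by
  by_cases hno : ∃ f : (ℕ → Bool) → X, Measurable f ∧ ∀ x y, x ≠ y → ∀ k ∈ K, k • f x ≠ f y
  · exact Or.inl hno
  right
  obtain ⟨F0, h1, h2, h3, h4⟩ := exists_cell hact hX hK hno
  obtain ⟨R, hR, hR'⟩ := Pool.Agent.H59.TV.countable_orbits_of_trivial (Fx K F0)
    (clsd_of_isClosed (isClosed_Fx hK F0)) h1 h2 h3 h4
  refine ⟨R, hR, fun A => ?_⟩
  obtain ⟨B, hB, g, hg, hgA⟩ := hR' A
  exact ⟨B, hB, g, hg.1, hgA⟩

end Pool.Agent.H71
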