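import Mathlib

/-!
Miller's theorem: stabilisers of points for Borel actions of Polish groups are closed.
-/

set_option autoImplicit false

open Set Topology Filter

namespace Pool.Agent.H71

/-- topological 0-1 law -/
lemma zero_one {L : Type*} [TopologicalSpace L] [Group L] [IsTopologicalGroup L]
    [SecondCountableTopology L] {D : Set L} (hD : Dense D) {S : Set L}
    (hS : BaireMeasurableSet S) (hinv : ∀ h ∈ D, ∀ g, g * h ∈ S ↔ g ∈ S) :
    (∀ᶠ g in residual L, g ∈ S) ∨ ∀ᶠ g in residual L, g ∉ S := by
  obtain ⟨U, hU, hSU⟩ := hS.residualEq_isOpen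
  rcases U.eq_empty_or_nonempty with rfl | hne
  · right
    filter_upwards [hSU] with g hg
    intro h
    exact (hg.to_iff.1 h).elim
  · left
    -- for every h in D, almost every g in U * h is in S
    have h1 : ∀ h ∈ D, ∀ᶠ g in residual L, g ∈ (fun x => x * h) ⁻¹' U → g ∈ S := by
      intro h hh
      have ht : Tendsto (fun x : L => x * h) (residual L) (residual L) :=
        tendsto_residual_of_isOpenMap (continuous_mul_const h) (isOpenMap_mul_right h)
      have := ht.eventually hSU
      filter_upwards [this] with g hg hgU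
      exact (hinv h hh g).1 (hg.to_iff.2 hgU)
    have hcov : ∀ g : L, ∃ h ∈ D, g ∈ (fun x => x * h) ⁻¹' U := by
      intro g
      have ho : IsOpen ((fun x => g * x) ⁻¹' U) := hU.preimage (continuous_const_mul g)
      have hn : ((fun x => g * x) ⁻¹' U).Nonempty := by
        obtain ⟨u, hu⟩ := hne
        exact ⟨g⁻¹ * u, by simpa using hu⟩
      obtain ⟨h, hh, hhD⟩ := hD.inter_open_nonempty _ ho hn
      exact ⟨h, hhD, hh⟩
    obtain ⟨T, hT, hTc⟩ := TopologicalSpace.isOpen_iUnion_countable
      (fun h : D => (fun x => x * (h : L)) ⁻¹' U) (fun h => hU.preimage (continuous_mul_const _))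
    have h2 : ∀ᶠ g in residual L, ∀ h ∈ T, g ∈ (fun x => x * (h : L)) ⁻¹' U → g ∈ S := by
      rw [eventually_countable_ball hT]
      intro h _
      exact h1 h h.2
    filter_upwards [h2] with g hg
    obtain ⟨h, hh, hgh⟩ := hcov g
    have : g ∈ ⋃ i ∈ T, (fun x => x * (i : L)) ⁻¹' U := by
      rw [hTc]
      exact mem_iUnion.2 ⟨⟨h, hh⟩, hgh⟩
    rw [mem_iUnion₂] at this
    obtain ⟨i, hi, hgi⟩ := this
    exact hg i hi hgi

/-- Miller's theorem -/
theorem isClosed_stabilizer {G X : Type*} [TopologicalSpace G] [Group G] [IsTopologicalGroup G]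
    [PolishSpace G] [MeasurableSpace G] [BorelSpace G] [MeasurableSpace X]
    [StandardBorelSpace X] [MulAction G X] (hact : Measurable fun p : G × X => p.1 • p.2) (x : X) :
    IsClosed (MulAction.stabilizer G x : Set G) := by
  set H := MulAction.stabilizer G x with hH
  let L : Subgroup G := H.topologicalClosure
  have hLc : IsClosed (L : Set G) := H.isClosed_topologicalClosure
  have : PolishSpace L := hLc.polishSpace
  have : BorelSpace L := Subtype.borelSpace _
  have hHL : H ≤ L := H.le_topologicalClosure
  let D : Set L := {g | (g : G) ∈ H}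
  have hD : Dense D := by
    intro g
    have hg : (g : G) ∈ closure (H : Set G) := g.2
    rw [mem_closure_iff_nhds] at hg ⊢
    intro t ht
    rw [mem_nhds_subtype] at ht
    obtain ⟨u, hu, hut⟩ := ht
    obtain ⟨y, hyu, hyH⟩ := hg u hu
    exact ⟨⟨y, hHL hyH⟩, hut hyu, hyH⟩
  obtain ⟨φ, hφ, hφi⟩ := MeasurableSpace.measurable_injection_nat_bool_of_countablySeparated X
  have hmeas : Measurable fun g : L => φ ((g : G) • x) :=
    hφ.comp (hact.comp (measurable_subtype_coe.prodMk measurable_const))
  have hcase : ∀ n, ∃ b : Bool, ∀ᶠ g : L in residual L, φ ((g : G) • x) n = b := by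
    intro n
    have hS : MeasurableSet {g : L | φ ((g : G) • x) n = true} :=
      (measurable_pi_apply n).comp hmeas (measurableSet_singleton true)
    rcases zero_one hD hS.baireMeasurableSet (S := {g : L | φ ((g : G) • x) n = true})
      (by
        intro h hh g
        have : (h : G) • x = x := hh
        simp only [mem_ofPred_eq, Subgroup.coe_mul, mul_smul, this]) with h | h
    · exact ⟨true, h⟩
    · refine ⟨false, ?_⟩
      filter_upwards [h] with g hg
      simpa using hg
  choose b hb using hcase
  have hall : ∀ᶠ g : L in residual L, φ ((g : G) • x) = b := by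
    have := eventually_countable_forall.2 hb
    filter_upwards [this] with g hg
    exact funext hg
  obtain ⟨g₀, hg₀⟩ : ∃ g₀ : L, φ ((g₀ : G) • x) = b := by
    obtain ⟨g, hg⟩ := (dense_of_mem_residual hall).nonempty
    exact ⟨g, hg⟩
  -- the stabiliser is comeager in L
  have hDres : ∀ᶠ g : L in residual L, g ∈ D := by
    have ht : Tendsto (fun y : L => g₀ * y) (residual L) (residual L) :=
      tendsto_residual_of_isOpenMap (continuous_const_mul g₀) (isOpenMap_mul_left g₀)
    filter_upwards [ht.eventually hall] with g hg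
    have h1 : ((g₀ * g : L) : G) • x = (g₀ : G) • x := hφi (hg.trans hg₀.symm)
    rw [Subgroup.coe_mul, mul_smul] at h1
    exact smul_left_cancel _ h1
  have hDuniv : ∀ l : L, l ∈ D := by
    intro l
    have ht : Tendsto (fun y : L => l * y) (residual L) (residual L) :=
      tendsto_residual_of_isOpenMap (continuous_const_mul l) (isOpenMap_mul_left l)
    obtain ⟨g, hg1, hg2⟩ := (dense_of_mem_residual (hDres.and (ht.eventually hDres))).nonempty
    have h1 : (g : G) ∈ H := hg1
    have h2 : (l : G) * (g : G) ∈ H := hg2
    change (l : G) ∈ H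
    simpa using H.mul_mem h2 (H.inv_mem h1)
  have : (H : Set G) = (L : Set G) := by
    apply Set.Subset.antisymm hHL
    intro l hl
    exact hDuniv ⟨l, hl⟩
  rw [this]
  exact hLc

end Pool.Agent.H71
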