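import Pool.Agent.H71.CC
import Pool.Agent.H71.PermTop
import Pool.Agent.H71.Miller
import Pool.Agent.H71.Tri

/-!
General theorem on restrictions of Borel actions of `Perm ℕ` to a subgroup `K`.
-/

set_option autoImplicit false

open Set Topology Filter MeasureTheory

namespace Pool.Agent.H71

attribute [local instance] permTop polishSpace_perm isTopologicalGroup_perm permMeas borelSpace_perm

/-- `K` has perfectly many double cosets modulo the permutations with property `P`. -/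
def PMDC (K : Subgroup (Equiv.Perm ℕ)) (P : Equiv.Perm ℕ → Prop) : Prop :=
  ∃ g : (ℕ → Bool) → Equiv.Perm ℕ, Measurable g ∧
    ∀ σ τ, σ ≠ τ → ∀ k ∈ K, ∀ h, P h → k * g σ ≠ g τ * h

lemma PMDC.mono {K : Subgroup (Equiv.Perm ℕ)} {P Q : Equiv.Perm ℕ → Prop} (h : PMDC K Q)
    (hPQ : ∀ g, P g → Q g) : PMDC K P := by
  obtain ⟨g, hg, hg'⟩ := h
  exact ⟨g, hg, fun σ τ hne k hk h hP => hg' σ τ hne k hk h (hPQ h hP)⟩

section

variable {X : Type*} [MeasurableSpace X] [StandardBorelSpace X] [MulAction (Equiv.Perm ℕ) X]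

lemma measurableSet_eq_fun' {α : Type*} [MeasurableSpace α] {f g : α → X} (hf : Measurable f)
    (hg : Measurable g) : MeasurableSet {x | f x = g x} := by
  obtain ⟨φ, hφ, hφi⟩ := MeasurableSpace.measurable_injection_nat_bool_of_countablySeparated X
  have : {x | f x = g x} = {x | φ (f x) = φ (g x)} := by
    ext x
    exact ⟨fun h => congrArg φ h, fun h => hφi h⟩
  rw [this]
  exact measurableSet_eq_fun (hφ.comp hf) (hφ.comp hg)

/-- key step: a Borel family of points, the `K`-orbit relation on it has countable sections. -/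
lemma perfect_of_countable (hact : Measurable fun p : Equiv.Perm ℕ × X => p.1 • p.2)
    {K : Subgroup (Equiv.Perm ℕ)} (hK : MeasurableSet (K : Set (Equiv.Perm ℕ)))
    (ι : (ℕ → Bool) → X) (hι : Measurable ι)
    (hc : ∀ σ, {τ | ∃ k ∈ K, k • ι σ = ι τ}.Countable) :
    ∃ f : (ℕ → Bool) → X, Measurable f ∧ ∀ x y, x ≠ y → ∀ k ∈ K, k • f x ≠ f y := by
  let M : Set (((ℕ → Bool) × (ℕ → Bool)) × Equiv.Perm ℕ) :=
    {p | p.2 ∈ K ∧ p.2 • ι p.1.1 = ι p.1.2}
  have hM : MeasurableSet M := by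
    apply MeasurableSet.inter
    · exact measurable_snd hK
    · apply measurableSet_eq_fun'
      · exact hact.comp (measurable_snd.prodMk (hι.comp (measurable_fst.comp measurable_fst)))
      · exact hι.comp (measurable_snd.comp measurable_fst)
  have hR : AnalyticSet {x : (ℕ → Bool) × (ℕ → Bool) | ∃ y, (x, y) ∈ M} := DST.analyticSet_proj hM
  obtain ⟨f, hf, -, hf'⟩ := DST.exists_perfect_of_countable_sections hR (by
    intro σ
    refine (hc σ).mono ?_
    rintro τ ⟨k, hk, hk'⟩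
    exact ⟨k, hk, hk'⟩)
  refine ⟨fun x => ι (f x), hι.comp hf.measurable, ?_⟩
  intro x y hxy k hk h
  exact hf' x y hxy ⟨k, hk, h⟩

/-- perfectly many double cosets modulo a finite stabiliser of the stabiliser of `x`. -/
lemma perfect_of_pmdc (hact : Measurable fun p : Equiv.Perm ℕ × X => p.1 • p.2)
    {K : Subgroup (Equiv.Perm ℕ)} (hK : MeasurableSet (K : Set (Equiv.Perm ℕ))) (x : X)
    (F : Finset ℕ) (h : PMDC K (fun h => h ∈ Fx (MulAction.stabilizer (Equiv.Perm ℕ) x) F)) :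
    ∃ f : (ℕ → Bool) → X, Measurable f ∧ ∀ x y, x ≠ y → ∀ k ∈ K, k • f x ≠ f y := by
  obtain ⟨g, hg, hg'⟩ := h
  refine perfect_of_countable hact hK (fun σ => g σ • x) (hact.comp (hg.prodMk measurable_const)) ?_
  intro σ
  -- injection into functions on `F`
  have hch : ∀ τ : ℕ → Bool, ∃ k : Equiv.Perm ℕ, (∃ k ∈ K, k • g σ • x = g τ • x) →
      k ∈ K ∧ k • g σ • x = g τ • x := by
    intro τ
    by_cases h : ∃ k ∈ K, k • g σ • x = g τ • x
    · obtain ⟨k, hk, hk'⟩ := h
      exact ⟨k, fun _ => ⟨hk, hk'⟩⟩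
    · exact ⟨1, fun h' => absurd h' h⟩
  choose κ hκ using hch
  let φ : (ℕ → Bool) → (F → ℕ) := fun τ a => (((g τ)⁻¹ * κ τ * g σ)⁻¹ : Equiv.Perm ℕ) a
  have hinj : Set.InjOn φ {τ | ∃ k ∈ K, k • g σ • x = g τ • x} := by
    intro τ hτ τ' hτ' heq
    obtain ⟨h1, h2⟩ := hκ τ hτ
    obtain ⟨h1', h2'⟩ := hκ τ' hτ'
    by_contra hne
    have hH : ∀ τ, κ τ • g σ • x = g τ • x →
        (g τ)⁻¹ * κ τ * g σ ∈ MulAction.stabilizer (Equiv.Perm ℕ) x := by
      intro τ h
      rw [MulAction.mem_stabilizer_iff, mul_smul, mul_smul, h, inv_smul_smul]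
    set u := (g τ)⁻¹ * κ τ * g σ with hu
    set u' := (g τ')⁻¹ * κ τ' * g σ with hu'
    have hF : u' * u⁻¹ ∈ Fx (MulAction.stabilizer (Equiv.Perm ℕ) x) F := by
      refine ⟨Subgroup.mul_mem _ (hH τ' h2') (Subgroup.inv_mem _ (hH τ h2)), ?_⟩
      intro a ha
      have := congrFun heq ⟨a, ha⟩
      change u⁻¹ a = u'⁻¹ a at this
      rw [Equiv.Perm.mul_apply, this]
      simp
    refine hg' τ τ' hne (κ τ' * (κ τ)⁻¹) (K.mul_mem h1' (K.inv_mem h1)) _ hF ?_
    rw [hu, hu']
    group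
  have hcount : (φ '' {τ | ∃ k ∈ K, k • g σ • x = g τ • x}).Countable := Set.to_countable _
  exact Set.countable_of_injective_of_countable_image hinj hcount

lemma clsd_stabilizer (hact : Measurable fun p : Equiv.Perm ℕ × X => p.1 • p.2) (x : X) :
    Clsd (MulAction.stabilizer (Equiv.Perm ℕ) x) :=
  fun g hg => mem_of_isClosed (isClosed_stabilizer hact x) g hg

/-- The general theorem. -/
theorem general (hact : Measurable fun p : Equiv.Perm ℕ × X => p.1 • p.2)
    {K : Subgroup (Equiv.Perm ℕ)} (hK : MeasurableSet (K : Set (Equiv.Perm ℕ)))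
    (ha : ∀ A : Set ℕ, A.Infinite → Aᶜ.Infinite → PMDC K (fun h => ∀ a, h a ∈ A ↔ a ∈ A))
    (hb : ∀ (F₀ : Finset ℕ) (r : ℕ) (C : ℕ → Set ℕ), 2 ≤ r →
      (∀ a, a ∉ F₀ → a ∈ C a ∧ (C a).Finite ∧ (C a).ncard = r ∧ ∀ b ∈ C a, b ∉ F₀ ∧ C b = C a) →
      PMDC K (fun h => (∀ a, h a ∈ F₀ ↔ a ∈ F₀) ∧ ∀ a, a ∉ F₀ → C (h a) = h '' (C a)))
    (hX : ¬ Countable X) :
    ∃ f : (ℕ → Bool) → X, Measurable f ∧ ∀ x y, x ≠ y → ∀ k ∈ K, k • f x ≠ f y := by
  by_cases hopen : ∀ x : X, Opn (MulAction.stabilizer (Equiv.Perm ℕ) x)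
  · -- all stabilisers open: all orbits are countable
    let e := PolishSpace.measurableEquivNatBoolOfNotCountable hX
    refine perfect_of_countable hact hK e.symm e.symm.measurable ?_
    intro σ
    obtain ⟨F, hF⟩ := hopen (e.symm σ)
    have horb : {y : X | ∃ k : Equiv.Perm ℕ, k • e.symm σ = y}.Countable := by
      have hch : ∀ y : X, ∃ k : Equiv.Perm ℕ, (∃ k : Equiv.Perm ℕ, k • e.symm σ = y) →
          k • e.symm σ = y := by
        intro y
        by_cases h : ∃ k : Equiv.Perm ℕ, k • e.symm σ = y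
        · obtain ⟨k, hk⟩ := h
          exact ⟨k, fun _ => hk⟩
        · exact ⟨1, fun h' => absurd h' h⟩
      choose κ hκ using hch
      let φ : X → (F → ℕ) := fun y a => κ y a
      have hinj : Set.InjOn φ {y : X | ∃ k : Equiv.Perm ℕ, k • e.symm σ = y} := by
        intro y hy y' hy' heq
        have h1 := hκ y hy
        have h2 := hκ y' hy'
        have h3 : (κ y')⁻¹ * κ y ∈ MulAction.stabilizer (Equiv.Perm ℕ) (e.symm σ) := by
          apply hF
          intro a ha
          have := congrFun heq ⟨a, ha⟩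
          change κ y a = κ y' a at this
          rw [Equiv.Perm.mul_apply, this]
          simp
        rw [MulAction.mem_stabilizer_iff, mul_smul, inv_smul_eq_iff] at h3
        rw [← h1, ← h2, h3]
      exact Set.countable_of_injective_of_countable_image hinj (Set.to_countable _)
    have : {τ | ∃ k ∈ K, k • e.symm σ = e.symm τ} ⊆ e.symm ⁻¹' {y : X | ∃ k : Equiv.Perm ℕ, k • e.symm σ = y} := by
      rintro τ ⟨k, -, hk⟩
      exact ⟨k, hk⟩
    exact (horb.preimage e.symm.injective).mono this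
  · push Not at hopen
    obtain ⟨x, hx⟩ := hopen
    rcases trichotomy (clsd_stabilizer hact x) with h | h | h
    · exact absurd h hx
    · obtain ⟨F, A, hA, hA', hinv⟩ := h
      exact perfect_of_pmdc hact hK x F ((ha A hA hA').mono hinv)
    · obtain ⟨F, F₀, r, C, hr, h1, h2, h3⟩ := h
      exact perfect_of_pmdc hact hK x F ((hb F₀ r C hr h2).mono fun g hg => ⟨h1 g hg, h3 g hg⟩)

end

end Pool.Agent.H71
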