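import Mathlib

/-!
Sets that are almost invariant with a uniform bound are almost equal to an invariant set.
-/

set_option autoImplicit false

open Set Topology

namespace Pool.Agent.H71

namespace AInv

variable {X : Type*}

/-- where two functions differ -/
def df (W V : X → Bool) : Set X := {x | W x ≠ V x}

/-- translate -/
def tr (g : Equiv.Perm X) (W : X → Bool) : X → Bool := fun x => W (g.symm x)

lemma df_comm (W V : X → Bool) : df W V = df V W := by
  ext x; exact ⟨fun h => Ne.symm h, fun h => Ne.symm h⟩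

lemma df_tr (g : Equiv.Perm X) (W V : X → Bool) : df (tr g W) (tr g V) = g '' df W V := by
  ext x
  constructor
  · intro h
    exact ⟨g.symm x, h, by simp⟩
  · rintro ⟨y, hy, rfl⟩
    change W (g.symm (g y)) ≠ V (g.symm (g y))
    rw [Equiv.symm_apply_apply]
    exact hy

lemma tr_tr (g h : Equiv.Perm X) (W : X → Bool) : tr g (tr h W) = tr (g * h) W := by
  funext x
  rfl

lemma tr_one (W : X → Bool) : tr 1 W = W := by
  funext x
  rfl

lemma continuous_tr (g : Equiv.Perm X) : Continuous (tr g) :=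
  continuous_pi fun x => continuous_apply (g.symm x)

lemma isClosed_le (V : X → Bool) (b : ℕ) : IsClosed {W : X → Bool | (df W V).encard ≤ b} := by
  have : {W : X → Bool | (df W V).encard ≤ b} =
      ⋂ T ∈ {T : Finset X | b < T.card}, ⋃ x ∈ T, {W : X → Bool | W x = V x} := by
    ext W
    simp only [mem_ofPred_eq, mem_iInter, mem_iUnion, exists_prop]
    constructor
    · intro h T hT
      by_contra hcon
      push Not at hcon
      have h1 : (T : Set X) ⊆ df W V := fun x hx => hcon x hx
      have h2 := Set.encard_le_encard h1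
      rw [Set.encard_coe_eq_coe_finsetCard] at h2
      have h3 := h2.trans h
      have h4 : T.card ≤ b := by exact_mod_cast h3
      omega
    · intro h
      by_contra hcon
      push Not at hcon
      have h1 : ((b + 1 : ℕ) : ℕ∞) ≤ (df W V).encard := by
        have := Order.add_one_le_of_lt hcon
        exact_mod_cast this
      obtain ⟨T, hT, hTc⟩ := Set.exists_subset_encard_eq h1
      have hTf : T.Finite := by
        apply Set.finite_of_encard_eq_coe hTc
      have h2 : hTf.toFinset.card = b + 1 := by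
        have := hTf.encard_eq_coe_toFinset_card
        rw [hTc] at this
        exact_mod_cast this.symm
      obtain ⟨x, hx, hx'⟩ := h hTf.toFinset (by omega)
      exact hT (by simpa using hx) hx'
  rw [this]
  refine isClosed_biInter fun T _ => ?_
  refine (Finset.finite_toSet T).isClosed_biUnion fun x _ => ?_
  have hc : Continuous fun W : X → Bool => W x := continuous_apply x
  exact (isClosed_discrete {V x}).preimage hc

end AInv

open AInv in
theorem exists_invariant_of_almost {X : Type*} (G : Subgroup (Equiv.Perm X))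
    (U : Set X) (b : ℕ) (h : ∀ g ∈ G, (symmDiff (g '' U) U).encard ≤ b) :
    ∃ V : Set X, (∀ g ∈ G, g '' V = V) ∧ (symmDiff V U).Finite := by
  classical
  let u : X → Bool := fun x => decide (x ∈ U)
  let O : Set (X → Bool) := {W | ∃ g ∈ G, W = tr g u}
  let C : Set (X → Bool) := closure O
  have hcomp : IsCompact C := isClosed_closure.isCompact
  have huO : u ∈ O := ⟨1, G.one_mem, (tr_one u).symm⟩
  have huC : u ∈ C := subset_closure huO
  have hu : ∀ g ∈ G, (df (tr g u) u).encard ≤ b := by
    intro g hg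
    have : df (tr g u) u = symmDiff (g '' U) U := by
      ext x
      have h1 : (x ∈ g '' U) ↔ g.symm x ∈ U := by
        constructor
        · rintro ⟨y, hy, rfl⟩
          simpa using hy
        · intro hx
          exact ⟨_, hx, by simp⟩
      simp only [df, tr, u, mem_ofPred_eq, ne_eq, decide_eq_decide, Set.mem_symmDiff, h1]
      tauto
    rw [this]
    exact h g hg
  -- bounded differences
  have h1 : ∀ g ∈ G, ∀ W ∈ C, (df W (tr g u)).encard ≤ b := by
    intro g hg
    have : C ⊆ {W : X → Bool | (df W (tr g u)).encard ≤ b} := by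
      refine closure_minimal ?_ (isClosed_le _ b)
      rintro _ ⟨k, hk, rfl⟩
      have h2 : df (tr k u) (tr g u) = g '' df (tr (g⁻¹ * k) u) u := by
        rw [← df_tr, tr_tr]
        congr 2
        group
      change (df (tr k u) (tr g u)).encard ≤ b
      rw [h2, g.injective.encard_image]
      exact hu _ (G.mul_mem (G.inv_mem hg) hk)
    exact this
  have h2 : ∀ W ∈ C, ∀ V ∈ C, (df W V).encard ≤ b := by
    intro W hW
    have : C ⊆ {V : X → Bool | (df V W).encard ≤ b} := by
      refine closure_minimal ?_ (isClosed_le _ b)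
      rintro _ ⟨k, hk, rfl⟩
      change (df _ _).encard ≤ b
      rw [df_comm]
      exact h1 k hk W hW
    intro V hV
    rw [df_comm]
    exact this hV
  have hfin : ∀ W ∈ C, ∀ V ∈ C, (df W V).Finite := fun W hW V hV =>
    Set.finite_of_encard_le_coe (h2 W hW V hV)
  have hcard : ∀ W ∈ C, ∀ V ∈ C, (df W V).ncard ≤ b := by
    intro W hW V hV
    have h3 := h2 W hW V hV
    rw [← (hfin W hW V hV).cast_ncard_eq] at h3
    exact_mod_cast h3
  -- invariance of C
  have hCinv : ∀ g ∈ G, ∀ W ∈ C, tr g W ∈ C := by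
    intro g hg W hW
    have h3 : tr g '' closure O ⊆ closure (tr g '' O) := image_closure_subset_closure_image (continuous_tr g)
    have h4 : tr g '' O ⊆ O := by
      rintro _ ⟨_, ⟨k, hk, rfl⟩, rfl⟩
      exact ⟨g * k, G.mul_mem hg hk, tr_tr _ _ _⟩
    exact closure_mono h4 (h3 (mem_image_of_mem _ hW))
  -- radius
  let S : (X → Bool) → Set ℕ := fun W => {n | ∃ V ∈ C, (df W V).ncard = n}
  let r : (X → Bool) → ℕ := fun W => sSup (S W)
  have hSne : ∀ W, (S W).Nonempty := fun W => ⟨_, u, huC, rfl⟩
  have hSb : ∀ W ∈ C, BddAbove (S W) := by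
    intro W hW
    refine ⟨b, ?_⟩
    rintro _ ⟨V, hV, rfl⟩
    exact hcard W hW V hV
  have hr1 : ∀ W ∈ C, ∃ V ∈ C, (df W V).ncard = r W := fun W hW => Nat.sSup_mem (hSne W) (hSb W hW)
  have hr2 : ∀ W ∈ C, ∀ V ∈ C, (df W V).ncard ≤ r W := fun W hW V hV =>
    le_csSup (hSb W hW) ⟨V, hV, rfl⟩
  have hrinv : ∀ g ∈ G, ∀ W ∈ C, r (tr g W) = r W := by
    have key : ∀ g ∈ G, ∀ W ∈ C, r (tr g W) ≤ r W := by
      intro g hg W hW
      obtain ⟨V, hV, hV'⟩ := hr1 _ (hCinv g hg W hW)
      rw [← hV']
      have h3 : df (tr g W) V = g '' df W (tr g⁻¹ V) := by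
        rw [← df_tr, tr_tr, mul_inv_cancel, tr_one]
      rw [h3, Set.ncard_image_of_injective _ g.injective]
      exact hr2 W hW _ (hCinv _ (G.inv_mem hg) V hV)
    intro g hg W hW
    refine le_antisymm (key g hg W hW) ?_
    have := key g⁻¹ (G.inv_mem hg) _ (hCinv g hg W hW)
    rwa [tr_tr, inv_mul_cancel, tr_one] at this
  -- minimal radius
  obtain ⟨W0, hW0, hmin⟩ : ∃ W0 ∈ C, ∀ W ∈ C, r W0 ≤ r W := by
    have hne : ∃ n, ∃ W ∈ C, r W = n := ⟨_, u, huC, rfl⟩
    obtain ⟨W0, hW0, h3⟩ := Nat.find_spec hne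
    refine ⟨W0, hW0, fun W hW => ?_⟩
    rw [h3]
    exact Nat.find_min' hne ⟨W, hW, rfl⟩
  let M : Set (X → Bool) := {W | W ∈ C ∧ r W = r W0}
  have hMfin : M.Finite := by
    have hV : ∀ W : X → Bool, ∃ V : X → Bool, W ∈ C → V ∈ C ∧ (df W V).ncard = r W := by
      intro W
      by_cases hW : W ∈ C
      · obtain ⟨V, h3, h4⟩ := hr1 W hW
        exact ⟨V, fun _ => ⟨h3, h4⟩⟩
      · exact ⟨W, fun h => absurd h hW⟩
    choose V hV using hV
    obtain ⟨t, ht, htC⟩ := hcomp.elim_nhds_subcover (fun W => {W' | ∀ x ∈ df W (V W), W' x = W x}) (by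
      intro W hW
      have hf := hfin W hW _ (hV W hW).1
      have h3 : {W' : X → Bool | ∀ x ∈ df W (V W), W' x = W x} =
          ⋂ x ∈ df W (V W), {W' : X → Bool | W' x = W x} := by
        ext W'; simp
      rw [h3, Filter.biInter_mem hf]
      intro x _
      have hc : Continuous fun W : X → Bool => W x := continuous_apply x
      exact ((isOpen_discrete {W x}).preimage hc).mem_nhds rfl)
    refine (Finset.finite_toSet t).subset ?_
    rintro W' ⟨hW', hrW'⟩
    obtain ⟨W, hWt, hWW'⟩ := mem_iUnion₂.1 (htC hW')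
    have hW := ht W hWt
    obtain ⟨hVC, hVr⟩ := hV W hW
    have h3 : df W (V W) ⊆ df W' (V W) := by
      intro x hx
      change W' x ≠ V W x
      rw [hWW' x hx]
      exact hx
    have h4 : (df W' (V W)).ncard ≤ (df W (V W)).ncard := by
      rw [hVr]
      refine (hr2 W' hW' _ hVC).trans ?_
      rw [hrW']
      exact hmin W hW
    have h5 : df W (V W) = df W' (V W) := Set.eq_of_subset_of_ncard_le h3 h4 (hfin W' hW' _ hVC)
    have h6 : W' = W := by
      funext x
      by_cases hx : x ∈ df W (V W)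
      · exact hWW' x hx
      · have hx' : x ∉ df W' (V W) := by rw [← h5]; exact hx
        have e1 : W x = V W x := not_not.1 hx
        have e2 : W' x = V W x := not_not.1 hx'
        rw [e1, e2]
    rw [h6]
    exact hWt
  refine ⟨{x | ∃ W ∈ M, W x = true}, ?_, ?_⟩
  · have key : ∀ g ∈ G, ∀ x, (∃ W ∈ M, W x = true) → ∃ W ∈ M, W (g x) = true := by
      rintro g hg x ⟨W, ⟨hW, hrW⟩, hx⟩
      refine ⟨tr g W, ⟨hCinv g hg W hW, ?_⟩, ?_⟩
      · rw [hrinv g hg W hW, hrW]
      · change W (g.symm (g x)) = true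
        rw [Equiv.symm_apply_apply]
        exact hx
    intro g hg
    ext x
    constructor
    · rintro ⟨y, hy, rfl⟩
      exact key g hg y hy
    · intro hx
      refine ⟨g⁻¹ x, key g⁻¹ (G.inv_mem hg) x hx, by simp⟩
  · refine (hMfin.biUnion fun W hW => hfin W hW.1 u huC).subset ?_
    intro x hx
    rw [mem_iUnion₂]
    rcases hx with ⟨⟨W, hW, hWx⟩, hxU⟩ | ⟨hxU, hx⟩
    · refine ⟨W, hW, ?_⟩
      change W x ≠ u x
      rw [hWx]
      simp [u, hxU]
    · refine ⟨W0, ⟨hW0, rfl⟩, ?_⟩
      change W0 x ≠ u x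
      intro hcon
      apply hx
      refine ⟨W0, ⟨hW0, rfl⟩, ?_⟩
      rw [hcon]
      simp [u, hxU]

end Pool.Agent.H71
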