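import Mathlib

/-!
Perfectly many homeomorphism types of closed subsets of the Cantor space, distinguished by an
explicit invariant built from iterated derived sets.
-/

set_option autoImplicit false

open Set Topology Filter

namespace Pool.Agent.H71

namespace CB

/-- the Cantor space -/
abbrev Z : Type := ℕ → Bool

/-- iterated derived sets -/
def D (C : Set Z) : ℕ → Set Z
  | 0 => C
  | n + 1 => {x | x ∈ D C n ∧ ∀ m : ℕ, ∃ y ∈ D C n, y ≠ x ∧ ∀ i < m, y i = x i}

/-- closure, in terms of initial segments -/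
def cl (S : Set Z) : Set Z := {x | ∀ m : ℕ, ∃ y ∈ S, ∀ i < m, y i = x i}

/-- points of infinite rank -/
def P (C : Set Z) : Set Z := {x | ∀ n, x ∈ D C n}

/-- the invariant -/
def Inv (C : Set Z) : Set ℕ :=
  {n | ∃ x ∈ P C, x ∈ cl (D C n \ P C) ∧ x ∉ cl (D C (n + 1) \ P C)}

lemma D_succ_subset (C : Set Z) (n : ℕ) : D C (n + 1) ⊆ D C n := fun _ h => h.1

lemma D_anti (C : Set Z) {m n : ℕ} (h : m ≤ n) : D C n ⊆ D C m := by
  induction n with
  | zero =>
    have : m = 0 := by omega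
    subst this; exact subset_rfl
  | succ n ih =>
    rcases Nat.lt_or_ge n m with h' | h'
    · have : m = n + 1 := by omega
      subst this; exact subset_rfl
    · exact (D_succ_subset C n).trans (ih h')

lemma P_subset_D (C : Set Z) (n : ℕ) : P C ⊆ D C n := fun _ h => h n

lemma D_subset (C : Set Z) (n : ℕ) : D C n ⊆ C := D_anti C (Nat.zero_le n)

/-! ### invariance under homeomorphisms -/

lemma cyl_of_continuous {C C' : Set Z} {h : C → C'} (hc : Continuous h) (x : C) (n : ℕ) :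
    ∃ m : ℕ, ∀ y : C, (∀ i < m, y.1 i = x.1 i) → ∀ i < n, (h y).1 i = (h x).1 i := by
  have h1 : IsOpen {y : C | ∀ i < n, (h y).1 i = (h x).1 i} := by
    have : {y : C | ∀ i < n, (h y).1 i = (h x).1 i} =
        ⋂ i ∈ Finset.range n, {y : C | (h y).1 i = (h x).1 i} := by
      ext y; simp
    rw [this]
    refine isOpen_biInter_finset fun i _ => ?_
    have h2 : Continuous fun y : C => (h y).1 i :=
      (continuous_apply i).comp (continuous_subtype_val.comp hc)
    exact (isOpen_discrete {(h x).1 i}).preimage h2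
  obtain ⟨V, hV, hVe⟩ := isOpen_induced_iff.1 h1
  have hx : x.1 ∈ V := by
    have : x ∈ Subtype.val ⁻¹' V := by rw [hVe]; exact fun i _ => rfl
    exact this
  obtain ⟨_, ⟨τ, m, rfl⟩, hσ, hcyl⟩ :=
    (PiNat.isTopologicalBasis_cylinders (fun _ : ℕ => Bool)).exists_subset_of_mem_open hx hV
  refine ⟨m, fun y hy => ?_⟩
  have h3 : y.1 ∈ V := hcyl (fun i hi => (hy i hi).trans (hσ i hi))
  have h4 : y ∈ Subtype.val ⁻¹' V := h3
  rw [hVe] at h4
  exact h4

lemma D_map {C C' : Set Z} (h : C ≃ₜ C') (n : ℕ) (x : C) : x.1 ∈ D C n → (h x).1 ∈ D C' n := by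
  induction n generalizing x with
  | zero => intro _; exact (h x).2
  | succ n ih =>
    rintro ⟨h1, h2⟩
    refine ⟨ih x h1, fun m => ?_⟩
    obtain ⟨m', hm'⟩ := cyl_of_continuous h.continuous x m
    obtain ⟨y, hy, hyx, hyn⟩ := h2 m'
    have hyC : y ∈ C := D_subset C n hy
    refine ⟨(h ⟨y, hyC⟩).1, ih ⟨y, hyC⟩ hy, ?_, hm' ⟨y, hyC⟩ hyn⟩
    intro heq
    have := h.injective (Subtype.ext heq)
    exact hyx (congrArg Subtype.val this)

lemma D_map_iff {C C' : Set Z} (h : C ≃ₜ C') (n : ℕ) (x : C) :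
    (h x).1 ∈ D C' n ↔ x.1 ∈ D C n := by
  refine ⟨fun hx => ?_, D_map h n x⟩
  have := D_map h.symm n (h x) hx
  rwa [h.symm_apply_apply] at this

lemma P_map_iff {C C' : Set Z} (h : C ≃ₜ C') (x : C) : (h x).1 ∈ P C' ↔ x.1 ∈ P C :=
  ⟨fun hx n => (D_map_iff h n x).1 (hx n), fun hx n => (D_map_iff h n x).2 (hx n)⟩

lemma cl_map {C C' : Set Z} (h : C ≃ₜ C') (n : ℕ) (x : C) (hx : x.1 ∈ cl (D C n \ P C)) :
    (h x).1 ∈ cl (D C' n \ P C') := by
  intro m
  obtain ⟨m', hm'⟩ := cyl_of_continuous h.continuous x m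
  obtain ⟨y, ⟨hy, hyP⟩, hyn⟩ := hx m'
  have hyC : y ∈ C := D_subset C n hy
  exact ⟨(h ⟨y, hyC⟩).1, ⟨D_map h n ⟨y, hyC⟩ hy, fun hP => hyP ((P_map_iff h ⟨y, hyC⟩).1 hP)⟩,
    hm' ⟨y, hyC⟩ hyn⟩

lemma cl_map_iff {C C' : Set Z} (h : C ≃ₜ C') (n : ℕ) (x : C) :
    (h x).1 ∈ cl (D C' n \ P C') ↔ x.1 ∈ cl (D C n \ P C) := by
  refine ⟨fun hx => ?_, cl_map h n x⟩
  have := cl_map h.symm n (h x) hx
  rwa [h.symm_apply_apply] at this

lemma Inv_subset {C C' : Set Z} (h : C ≃ₜ C') : Inv C ⊆ Inv C' := by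
  rintro n ⟨x, hx, h1, h2⟩
  have hxC : x ∈ C := hx 0
  refine ⟨(h ⟨x, hxC⟩).1, (P_map_iff h ⟨x, hxC⟩).2 hx, (cl_map_iff h n ⟨x, hxC⟩).2 h1, ?_⟩
  intro h3
  exact h2 ((cl_map_iff h (n + 1) ⟨x, hxC⟩).1 h3)

theorem Inv_eq {C C' : Set Z} (h : C ≃ₜ C') : Inv C = Inv C' :=
  Subset.antisymm (Inv_subset h) (Inv_subset h.symm)

/-! ### the operation `star` -/

/-- the zero sequence -/
def zero : Z := fun _ => false

/-- `k` zeros, a one, then `y` -/
def pre (k : ℕ) (y : Z) : Z := fun i => if i < k then false else if i = k then true else y (i - (k + 1))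

lemma pre_lt {k i : ℕ} (y : Z) (h : i < k) : pre k y i = false := by simp [pre, h]

lemma pre_self (k : ℕ) (y : Z) : pre k y k = true := by simp [pre]

lemma pre_add (k : ℕ) (y : Z) (i : ℕ) : pre k y (k + 1 + i) = y i := by
  unfold pre
  rw [if_neg (by omega), if_neg (by omega)]
  congr 1
  omega

lemma pre_ne_zero (k : ℕ) (y : Z) : pre k y ≠ zero := by
  intro h
  have := congrFun h k
  rw [pre_self] at this
  exact absurd this (by simp [zero])

lemma pre_near {k k' m : ℕ} {y y' : Z} (hm : k < m) (h : ∀ i < m, pre k' y' i = pre k y i) :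
    k' = k := by
  have h1 := h k hm
  rw [pre_self] at h1
  have h2 : ¬ k < k' := fun h' => by rw [pre_lt _ h'] at h1; exact absurd h1 (by simp)
  by_contra hne
  have h3 : k' < k := by omega
  have h4 := h k' (by omega)
  rw [pre_self, pre_lt _ h3] at h4
  exact absurd h4 (by simp)

lemma pre_near_iff {k m : ℕ} {y y' : Z} :
    (∀ i < k + 1 + m, pre k y' i = pre k y i) ↔ ∀ i < m, y' i = y i := by
  constructor
  · intro h i hi
    have := h (k + 1 + i) (by omega)
    rwa [pre_add, pre_add] at this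
  · intro h i hi
    by_cases h1 : i < k
    · rw [pre_lt _ h1, pre_lt _ h1]
    · by_cases h2 : i = k
      · rw [h2, pre_self, pre_self]
      · obtain ⟨j, rfl⟩ : ∃ j, i = k + 1 + j := ⟨i - (k + 1), by omega⟩
        rw [pre_add, pre_add]
        exact h j (by omega)

lemma pre_injective (k : ℕ) : Function.Injective (pre k) := by
  intro y y' h
  funext i
  rw [← pre_add k y i, h, pre_add]

lemma pre_near_zero {k m : ℕ} {y : Z} : (∀ i < m, pre k y i = zero i) ↔ m ≤ k := by
  constructor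
  · intro h
    by_contra hcon
    have := h k (by omega)
    rw [pre_self] at this
    exact absurd this (by simp [zero])
  · intro h i hi
    rw [pre_lt _ (by omega)]
    rfl

/-- the one-point compactification of the disjoint union of the `G k` -/
def star (G : ℕ → Set Z) : Set Z := {x | x = zero ∨ ∃ k, ∃ y ∈ G k, x = pre k y}

lemma zero_mem_star (G : ℕ → Set Z) : zero ∈ star G := Or.inl rfl

lemma pre_mem_star {G : ℕ → Set Z} {k : ℕ} {y : Z} : pre k y ∈ star G ↔ y ∈ G k := by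
  constructor
  · rintro (h | ⟨k', y', hy', h⟩)
    · exact absurd h (pre_ne_zero _ _)
    · have : k = k' := pre_near (m := k' + 1) (by omega) (fun i _ => by rw [h])
      subst this
      rwa [pre_injective k h]
  · intro h
    exact Or.inr ⟨k, y, h, rfl⟩

lemma pre_mem_D {G : ℕ → Set Z} {n k : ℕ} {y : Z} : pre k y ∈ D (star G) n ↔ y ∈ D (G k) n := by
  induction n generalizing y with
  | zero => exact pre_mem_star
  | succ n ih =>
    constructor
    · rintro ⟨h1, h2⟩
      refine ⟨ih.1 h1, fun m => ?_⟩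
      obtain ⟨x, hx, hxy, hxn⟩ := h2 (k + 1 + m)
      rcases D_subset _ _ hx with rfl | ⟨k', y', hy', rfl⟩
      · exfalso
        have := hxn k (by omega)
        rw [pre_self] at this
        exact absurd this (by simp [zero])
      · have : k' = k := pre_near (m := k + 1 + m) (by omega) hxn
        subst this
        refine ⟨y', ih.1 hx, fun h => hxy (by rw [h]), pre_near_iff.1 hxn⟩
    · rintro ⟨h1, h2⟩
      refine ⟨ih.2 h1, fun m => ?_⟩
      obtain ⟨y', hy', hne, hn⟩ := h2 m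
      refine ⟨pre k y', ih.2 hy', fun h => hne (pre_injective k h), fun i hi => ?_⟩
      exact pre_near_iff.2 hn i (by omega)

lemma zero_mem_D {G : ℕ → Set Z} {n : ℕ} : zero ∈ D (star G) (n + 1) ↔
    ∀ N, ∃ k ≥ N, (D (G k) n).Nonempty := by
  induction n with
  | zero =>
    constructor
    · rintro ⟨h1, h2⟩ N
      obtain ⟨x, hx, hxz, hxn⟩ := h2 N
      rcases hx with rfl | ⟨k, y, hy, rfl⟩
      · exact absurd rfl hxz
      · exact ⟨k, pre_near_zero.1 hxn, y, hy⟩
    · intro h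
      refine ⟨zero_mem_star G, fun m => ?_⟩
      obtain ⟨k, hk, y, hy⟩ := h m
      exact ⟨pre k y, pre_mem_star.2 hy, pre_ne_zero _ _, pre_near_zero.2 hk⟩
  | succ n ih =>
    constructor
    · rintro ⟨h1, h2⟩ N
      obtain ⟨x, hx, hxz, hxn⟩ := h2 N
      rcases D_subset _ _ hx with rfl | ⟨k, y, hy, rfl⟩
      · exact absurd rfl hxz
      · exact ⟨k, pre_near_zero.1 hxn, y, pre_mem_D.1 hx⟩
    · intro h
      refine ⟨ih.2 fun N => ?_, fun m => ?_⟩
      · obtain ⟨k, hk, y, hy⟩ := h N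
        exact ⟨k, hk, y, D_succ_subset _ _ hy⟩
      · obtain ⟨k, hk, y, hy⟩ := h m
        exact ⟨pre k y, pre_mem_D.2 hy, pre_ne_zero _ _, pre_near_zero.2 hk⟩

lemma pre_mem_P {G : ℕ → Set Z} {k : ℕ} {y : Z} : pre k y ∈ P (star G) ↔ y ∈ P (G k) :=
  ⟨fun h n => pre_mem_D.1 (h n), fun h n => pre_mem_D.2 (h n)⟩

lemma pre_mem_cl {G : ℕ → Set Z} {n k : ℕ} {y : Z} :
    pre k y ∈ cl (D (star G) n \ P (star G)) ↔ y ∈ cl (D (G k) n \ P (G k)) := by
  constructor
  · intro h m
    obtain ⟨x, ⟨hx, hxP⟩, hxn⟩ := h (k + 1 + m)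
    rcases D_subset _ _ hx with rfl | ⟨k', y', hy', rfl⟩
    · exfalso
      have := hxn k (by omega)
      rw [pre_self] at this
      exact absurd this (by simp [zero])
    · have : k' = k := pre_near (m := k + 1 + m) (by omega) hxn
      subst this
      exact ⟨y', ⟨pre_mem_D.1 hx, fun h => hxP (pre_mem_P.2 h)⟩, pre_near_iff.1 hxn⟩
  · intro h m
    obtain ⟨y', ⟨hy', hyP⟩, hn⟩ := h m
    refine ⟨pre k y', ⟨pre_mem_D.2 hy', fun h => hyP (pre_mem_P.1 h)⟩, fun i hi => ?_⟩
    exact pre_near_iff.2 hn i (by omega)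

lemma zero_mem_cl {G : ℕ → Set Z} {n : ℕ} (hz : zero ∈ P (star G)) :
    zero ∈ cl (D (star G) n \ P (star G)) ↔ ∀ N, ∃ k ≥ N, (D (G k) n \ P (G k)).Nonempty := by
  constructor
  · intro h N
    obtain ⟨x, ⟨hx, hxP⟩, hxn⟩ := h N
    rcases D_subset _ _ hx with rfl | ⟨k, y, hy, rfl⟩
    · exact absurd hz hxP
    · exact ⟨k, pre_near_zero.1 hxn, y, pre_mem_D.1 hx, fun h => hxP (pre_mem_P.2 h)⟩
  · intro h m
    obtain ⟨k, hk, y, hy, hyP⟩ := h m
    exact ⟨pre k y, ⟨pre_mem_D.2 hy, fun h => hyP (pre_mem_P.1 h)⟩, pre_near_zero.2 hk⟩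

lemma mem_Inv_star {G : ℕ → Set Z} {n : ℕ} : n ∈ Inv (star G) ↔ (∃ k, n ∈ Inv (G k)) ∨
    (zero ∈ P (star G) ∧ (∀ N, ∃ k ≥ N, (D (G k) n \ P (G k)).Nonempty) ∧
      ¬ ∀ N, ∃ k ≥ N, (D (G k) (n + 1) \ P (G k)).Nonempty) := by
  constructor
  · rintro ⟨x, hx, h1, h2⟩
    rcases hx 0 with rfl | ⟨k, y, hy, rfl⟩
    · right
      exact ⟨hx, (zero_mem_cl hx).1 h1, fun h => h2 ((zero_mem_cl hx).2 h)⟩
    · left
      exact ⟨k, y, pre_mem_P.1 hx, pre_mem_cl.1 h1, fun h => h2 (pre_mem_cl.2 h)⟩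
  · rintro (⟨k, y, hy, h1, h2⟩ | ⟨hz, h1, h2⟩)
    · exact ⟨pre k y, pre_mem_P.2 hy, pre_mem_cl.2 h1, fun h => h2 (pre_mem_cl.1 h)⟩
    · exact ⟨zero, hz, (zero_mem_cl hz).2 h1, fun h => h2 ((zero_mem_cl hz).1 h)⟩

/-! ### the building blocks -/

/-- a countable compact set of rank `n` -/
def U : ℕ → Set Z
  | 0 => {zero}
  | n + 1 => star (fun _ => U n)

lemma zero_mem_D_U {m n : ℕ} (h : m ≤ n) : zero ∈ D (U n) m := by
  induction n generalizing m with
  | zero =>
    have : m = 0 := by omega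
    subst this
    exact rfl
  | succ n ih =>
    cases m with
    | zero => exact zero_mem_star _
    | succ m => exact zero_mem_D.2 fun N => ⟨N, le_rfl, zero, ih (by omega)⟩

lemma D_U_eq_empty (n : ℕ) : D (U n) (n + 1) = ∅ := by
  induction n with
  | zero =>
    rw [eq_empty_iff_forall_notMem]
    rintro x ⟨h1, h2⟩
    obtain ⟨y, hy, hne, -⟩ := h2 0
    exact hne (hy.trans h1.symm)
  | succ n ih =>
    rw [eq_empty_iff_forall_notMem]
    intro x hx
    rcases D_subset _ _ hx with rfl | ⟨k, y, hy, rfl⟩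
    · obtain ⟨k, -, y, hy⟩ := zero_mem_D.1 hx 0
      rw [ih] at hy
      exact hy
    · have h1 := pre_mem_D.1 hx
      have h2 := D_succ_subset _ _ h1
      rw [ih] at h2
      exact h2

lemma P_U_eq_empty (n : ℕ) : P (U n) = ∅ := by
  rw [eq_empty_iff_forall_notMem]
  intro x hx
  have := hx (n + 1)
  rw [D_U_eq_empty] at this
  exact this

lemma D_univ (n : ℕ) : D univ n = univ := by
  induction n with
  | zero => rfl
  | succ n ih =>
    rw [eq_univ_iff_forall]
    intro x
    refine ⟨by rw [ih]; trivial, fun m => ⟨Function.update x m (!x m), by rw [ih]; trivial, ?_, ?_⟩⟩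
    · intro h
      have := congrFun h m
      simp at this
    · intro i hi
      rw [Function.update_of_ne (by omega)]

lemma P_univ : P univ = univ := by
  rw [eq_univ_iff_forall]
  intro x n
  rw [D_univ]; trivial

lemma D_empty (n : ℕ) : D ∅ n = ∅ := by
  rw [eq_empty_iff_forall_notMem]
  intro x hx
  exact D_subset _ _ hx

lemma Inv_of_P_empty {C : Set Z} (h : P C = ∅) : Inv C = ∅ := by
  rw [eq_empty_iff_forall_notMem]
  rintro n ⟨x, hx, -⟩
  rw [h] at hx
  exact hx

lemma Inv_univ : Inv univ = ∅ := by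
  rw [eq_empty_iff_forall_notMem]
  rintro n ⟨x, -, hx, -⟩
  obtain ⟨y, ⟨-, hy⟩, -⟩ := hx 0
  exact hy (by rw [P_univ]; trivial)

/-- a block whose invariant is `{n}` -/
def T (n : ℕ) : Set Z := star (fun k => if k % 2 = 0 then U n else univ)

lemma diff_T {m n : ℕ} (h : m ≤ n) : (D (T n) m \ P (T n)).Nonempty := by
  refine ⟨pre 0 zero, pre_mem_D.2 ?_, fun hP => ?_⟩
  · simp only [Nat.zero_mod, if_true]
    exact zero_mem_D_U h
  · have := pre_mem_P.1 hP
    simp only [Nat.zero_mod, if_true, P_U_eq_empty] at this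
    exact this

lemma Inv_T (n : ℕ) : Inv (T n) = {n} := by
  ext m
  rw [T, mem_Inv_star, mem_singleton_iff]
  constructor
  · rintro (⟨k, hk⟩ | ⟨-, h1, h2⟩)
    · exfalso
      by_cases hk2 : k % 2 = 0
      · rw [if_pos hk2, Inv_of_P_empty (P_U_eq_empty n)] at hk
        exact hk
      · rw [if_neg hk2, Inv_univ] at hk
        exact hk
    · obtain ⟨k, -, hk⟩ := h1 0
      have hmn : m ≤ n := by
        by_cases hk2 : k % 2 = 0
        · rw [if_pos hk2] at hk
          obtain ⟨y, hy, -⟩ := hk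
          by_contra hcon
          have := D_anti (U n) (m := n + 1) (n := m) (by omega) hy
          rw [D_U_eq_empty] at this
          exact this
        · rw [if_neg hk2, P_univ] at hk
          obtain ⟨y, -, hy⟩ := hk
          exact absurd (mem_univ _) hy
      have hnm : ¬ m + 1 ≤ n := by
        intro hmn'
        apply h2
        intro N
        refine ⟨2 * N, by omega, ?_⟩
        rw [if_pos (by omega)]
        exact ⟨zero, zero_mem_D_U hmn', by rw [P_U_eq_empty]; exact fun h => h⟩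
      omega
  · rintro rfl
    right
    refine ⟨?_, ?_, ?_⟩
    · intro j
      cases j with
      | zero => exact zero_mem_star _
      | succ j =>
        refine zero_mem_D.2 fun N => ⟨2 * N + 1, by omega, zero, ?_⟩
        rw [if_neg (by omega), D_univ]
        trivial
    · intro N
      refine ⟨2 * N, by omega, ?_⟩
      rw [if_pos (by omega)]
      exact ⟨zero, zero_mem_D_U le_rfl, by rw [P_U_eq_empty]; exact fun h => h⟩
    · intro h
      obtain ⟨k, -, y, hy, hy'⟩ := h 0
      by_cases hk2 : k % 2 = 0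
      · rw [if_pos hk2, D_U_eq_empty] at hy
        exact hy
      · rw [if_neg hk2, P_univ] at hy'
        exact hy' trivial

open Classical in
/-- the blocks of `CC σ` -/
noncomputable def GC (σ : ℕ → Bool) : ℕ → Set Z
  | 0 => U 0
  | n + 1 => if σ n = true then T n else ∅

/-- the closed set coding `σ` -/
noncomputable def CC (σ : ℕ → Bool) : Set Z := star (GC σ)

theorem Inv_CC (σ : ℕ → Bool) : Inv (CC σ) = {n | σ n = true} := by
  ext m
  rw [CC, mem_Inv_star]
  constructor
  · rintro (⟨k, hk⟩ | ⟨h0, h1, h2⟩)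
    · cases k with
      | zero =>
        rw [GC, Inv_of_P_empty (P_U_eq_empty 0)] at hk
        exact absurd hk (notMem_empty _)
      | succ k =>
        rw [GC] at hk
        by_cases hσ : σ k = true
        · rw [if_pos hσ, Inv_T, mem_singleton_iff] at hk
          rw [hk]; exact hσ
        · rw [if_neg hσ, Inv_of_P_empty] at hk
          · exact absurd hk (notMem_empty _)
          · rw [eq_empty_iff_forall_notMem]
            intro x hx
            exact hx 0
    · exfalso
      apply h2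
      intro N
      obtain ⟨k, hk, y, hy⟩ := zero_mem_D.1 (h0 (m + 1)) (max N (m + 2))
      refine ⟨k, le_trans (le_max_left _ _) hk, ?_⟩
      have hk2 : m + 2 ≤ k := le_trans (le_max_right _ _) hk
      obtain ⟨j, rfl⟩ : ∃ j, k = j + 1 := ⟨k - 1, by omega⟩
      rw [GC] at hy ⊢
      by_cases hσ : σ j = true
      · rw [if_pos hσ]
        exact diff_T (by omega)
      · rw [if_neg hσ, D_empty] at hy
        exact absurd hy (notMem_empty _)
  · intro hm
    left
    refine ⟨m + 1, ?_⟩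
    rw [GC, if_pos (show σ m = true from hm), Inv_T]
    rfl

end CB

end Pool.Agent.H71
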