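import Pool.Agent.H71.GF4

/-!
Exchange, and the family of graphs attached to a nontrivial algebraic dependence.
-/

set_option autoImplicit false

open Set

namespace Pool.Agent.H71

namespace Cl

open GG0

section

variable {G : Subgroup (Equiv.Perm ℕ)}

lemma orb_map {g : Equiv.Perm ℕ} (hg : g ∈ G) (F : Finset ℕ) (a : ℕ) :
    g '' (orb G F a) ⊆ orb G (F.image g) (g a) := by
  rintro _ ⟨_, ⟨h, ⟨hh, hh'⟩, rfl⟩, rfl⟩
  refine ⟨g * h * g⁻¹, ⟨G.mul_mem (G.mul_mem hg hh) (G.inv_mem hg), ?_⟩, by simp⟩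
  intro b hb
  obtain ⟨c, hc, rfl⟩ := Finset.mem_image.1 hb
  simp [hh' c hc]

lemma acl_map {g : Equiv.Perm ℕ} (hg : g ∈ G) {F : Finset ℕ} {a : ℕ} (ha : a ∈ acl G F) :
    g a ∈ acl G (F.image g) := by
  have h1 : orb G (F.image g) (g a) ⊆ g '' (orb G F a) := by
    intro b hb
    have h2 := orb_map (G.inv_mem hg) (F.image g) (g a) (mem_image_of_mem _ hb)
    have h3 : (F.image g).image (g⁻¹ : Equiv.Perm ℕ) = F := by
      rw [Finset.image_image]
      have : ((g⁻¹ : Equiv.Perm ℕ) : ℕ → ℕ) ∘ (g : ℕ → ℕ) = id := by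
        funext x; simp
      rw [this, Finset.image_id]
    rw [h3] at h2
    refine ⟨g⁻¹ b, ?_, by simp⟩
    simpa using h2
  exact (Set.Finite.image g ha).subset h1

/-- the exchange property -/
theorem exchange
    (h3 : ∀ (F : Finset ℕ) (a b : ℕ), a ∉ acl G F → b ∉ acl G F → b ∈ orb G ∅ a → b ∈ orb G F a)
    (h1 : ∀ F : Finset ℕ, (acl G F).Finite)
    {F : Finset ℕ} {a b : ℕ} (hb : b ∈ acl G (insert a F)) (hb' : b ∉ acl G F) :
    a ∈ acl G (insert b F) := by
  classical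
  by_contra ha
  have hfin : (orb G (insert a F) b).Finite := hb
  have hinf : (orb G F b).Infinite := hb'
  -- the infinite orbit of `a`
  have haO : (orb G ∅ a).Infinite := by
    intro h
    exact ha (acl_mono (Finset.empty_subset _) h)
  obtain ⟨B, hB1, hB2⟩ := hinf.exists_subset_card_eq (hfin.toFinset.card + 1)
  -- the bad sets
  let P : ℕ → Set ℕ := fun b' => {x | ∃ g ∈ Fx G F, g a = x ∧ g b = b'}
  have hP : ∀ b' ∈ orb G F b, (orb G ∅ a \ P b').Finite := by
    rintro b' ⟨h, hh, rfl⟩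
    have h2 : (orb G ∅ a \ P b).Finite := by
      refine (h1 (insert b F)).subset ?_
      rintro x ⟨hx, hx'⟩
      by_contra hcon
      obtain ⟨g, hg, hgx⟩ := h3 (insert b F) a x ha hcon hx
      exact hx' ⟨g, ⟨hg.1, fun c hc => hg.2 c (Finset.mem_insert_of_mem hc)⟩, hgx,
        hg.2 b (Finset.mem_insert_self _ _)⟩
    refine (h2.image h).subset ?_
    rintro x ⟨hx, hx'⟩
    refine ⟨h⁻¹ x, ⟨?_, ?_⟩, by simp⟩
    · obtain ⟨g, hg, hgx⟩ := hx
      exact ⟨h⁻¹ * g, ⟨G.mul_mem (G.inv_mem hh.1) hg.1, fun c hc => absurd hc (Finset.notMem_empty c)⟩,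
        by rw [Equiv.Perm.mul_apply, hgx]⟩
    · rintro ⟨g, hg, hg1, hg2⟩
      apply hx'
      exact ⟨h * g, (Fx G F).mul_mem hh hg, by rw [Equiv.Perm.mul_apply, hg1]; simp,
        by rw [Equiv.Perm.mul_apply, hg2]⟩
  have hbad : (⋃ b' ∈ B, (orb G ∅ a \ P b')).Finite :=
    (Finset.finite_toSet B).biUnion fun b' hb' => hP b' (hB1 hb')
  obtain ⟨x, hx, hx'⟩ := (haO.sdiff hbad).nonempty
  have hxP : ∀ b' ∈ B, x ∈ P b' := by
    intro b' hb'
    by_contra hcon
    exact hx' (mem_biUnion hb' ⟨hx, hcon⟩)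
  have hBne : B.Nonempty := by
    rw [← Finset.card_pos, hB2]; omega
  obtain ⟨b0, hb0⟩ := hBne
  obtain ⟨g0, hg0, hg0a, -⟩ := hxP b0 hb0
  have hle : B.card ≤ hfin.toFinset.card := by
    refine Finset.card_le_card_of_injOn (fun b' => g0⁻¹ b') ?_ ?_
    · intro b' hb'
      obtain ⟨g, hg, hga, hgb⟩ := hxP b' hb'
      have : g0⁻¹ b' ∈ orb G (insert a F) b := by
        refine ⟨g0⁻¹ * g, ⟨G.mul_mem (G.inv_mem hg0.1) hg.1, ?_⟩, by
          rw [Equiv.Perm.mul_apply, hgb]⟩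
        intro c hc
        rcases Finset.mem_insert.1 hc with rfl | hc
        · rw [Equiv.Perm.mul_apply, hga, ← hg0a]; simp
        · rw [Equiv.Perm.mul_apply, hg.2 c hc]
          have := hg0.2 c hc
          conv_lhs => rw [← this]
          simp
      simpa using this
    · intro x _ y _ h
      exact (g0⁻¹).injective h
  omega

end

section

variable {G : Subgroup (Equiv.Perm ℕ)}
  (h1 : ∀ F : Finset ℕ, (acl G F).Finite)
  (h3 : ∀ (F : Finset ℕ) (a b : ℕ), a ∉ acl G F → b ∉ acl G F → b ∈ orb G ∅ a → b ∈ orb G F a)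
  {bd : ℕ} (hbd : ∀ x y : ℕ, (acl G {x, y}).ncard ≤ bd)
  {a b c : ℕ} (hc : c ∈ acl G {a, b}) (hca : c ∉ acl G {a}) (hcb : c ∉ acl G {b})

/-- the orbit of the triple -/
def TT (G : Subgroup (Equiv.Perm ℕ)) (a b c : ℕ) (x y v : ℕ) : Prop :=
  ∃ g ∈ G, g a = x ∧ g b = y ∧ g c = v

/-- the graph with index `v` -/
def Gam (G : Subgroup (Equiv.Perm ℕ)) (a b c : ℕ) (v x y : ℕ) : Prop :=
  TT G a b c x y v ∨ TT G a b c y x v

lemma Gam_symm {v x y : ℕ} (h : Gam G a b c v x y) : Gam G a b c v y x := Or.symm h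

include h1 h3 hc hca hcb in
lemma acl_facts : a ∈ acl G {b, c} ∧ b ∈ acl G {a, c} ∧ a ∉ acl G {c} ∧ a ≠ b := by
  have e1 : a ∈ acl G {b, c} := by
    have := exchange h3 h1 (F := {b}) (a := a) (b := c) hc hcb
    rwa [Finset.pair_comm] at this
  have e2 : b ∈ acl G {a, c} := by
    have hc' : c ∈ acl G (insert b {a}) := by rwa [Finset.pair_comm] at hc
    have := exchange h3 h1 (F := {a}) (a := b) (b := c) hc' hca
    rwa [Finset.pair_comm] at this
  refine ⟨e1, e2, ?_, ?_⟩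
  · intro ha
    have ha0 : a ∉ acl G ∅ := by
      intro h
      apply hcb
      refine acl_subset_acl ?_ hc
      intro x hx
      simp only [Finset.coe_insert, Finset.coe_singleton, mem_insert_iff, mem_singleton_iff] at hx
      rcases hx with rfl | rfl
      · exact acl_mono (Finset.empty_subset _) h
      · exact subset_acl G _ (by simp)
    exact hca (exchange h3 h1 (F := ∅) (a := c) (b := a) ha ha0)
  · rintro rfl
    apply hca
    simpa using hc

include h1 h3 hc hca hcb in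
lemma Gam_acl {v x y : ℕ} (h : Gam G a b c v x y) :
    x ∈ acl G {y, v} ∧ y ∈ acl G {x, v} ∧ v ∈ acl G {x, y} ∧ x ≠ y := by
  obtain ⟨e1, e2, -, hne⟩ := acl_facts h1 h3 hc hca hcb
  have key : ∀ {x y v : ℕ}, TT G a b c x y v →
      x ∈ acl G {y, v} ∧ y ∈ acl G {x, v} ∧ v ∈ acl G {x, y} ∧ x ≠ y := by
    rintro x y v ⟨g, hg, rfl, rfl, rfl⟩
    have f1 := acl_map hg e1
    have f2 := acl_map hg e2
    have f3 := acl_map hg hc
    simp only [Finset.image_insert, Finset.image_singleton] at f1 f2 f3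
    exact ⟨f1, f2, f3, fun h => hne (g.injective h)⟩
  rcases h with h | h
  · exact key h
  · obtain ⟨f1, f2, f3, f4⟩ := key h
    exact ⟨f2, f1, by rwa [Finset.pair_comm], f4.symm⟩

lemma pair_sub {x y : ℕ} {S : Set ℕ} (hx : x ∈ S) (hy : y ∈ S) :
    ((({x, y} : Finset ℕ)) : Set ℕ) ⊆ S := by
  intro z hz
  simp only [Finset.coe_insert, Finset.coe_singleton, mem_insert_iff, mem_singleton_iff] at hz
  rcases hz with rfl | rfl
  · exact hx
  · exact hy

lemma left_mem_acl (x y : ℕ) : x ∈ acl G {x, y} := subset_acl G _ (by simp)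

lemma right_mem_acl (x y : ℕ) : y ∈ acl G {x, y} := subset_acl G _ (by simp)

include h1 h3 hc hca hcb in
lemma Gam_two {i j x y : ℕ} (hij : j ∉ acl G {i}) (hi : Gam G a b c i x y)
    (hj : Gam G a b c j x y) : x ∈ acl G {i, j} ∧ y ∈ acl G {i, j} := by
  obtain ⟨i1, i2, i3, -⟩ := Gam_acl h1 h3 hc hca hcb hi
  obtain ⟨j1, j2, j3, -⟩ := Gam_acl h1 h3 hc hca hcb hj
  have k1 : j ∈ acl G (insert x {i}) := acl_subset_acl (pair_sub (left_mem_acl x i) i2) j3
  have k2 : j ∈ acl G (insert y {i}) := acl_subset_acl (pair_sub i1 (left_mem_acl y i)) j3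
  have l1 := exchange h3 h1 (F := {i}) (a := x) (b := j) k1 hij
  have l2 := exchange h3 h1 (F := {i}) (a := y) (b := j) k2 hij
  rw [Finset.pair_comm]
  exact ⟨l1, l2⟩

/-- the equivalence relation on the indices -/
def Ecl (h1 : ∀ F : Finset ℕ, (acl G F).Finite)
    (h3 : ∀ (F : Finset ℕ) (a b : ℕ), a ∉ acl G F → b ∉ acl G F → b ∈ orb G ∅ a → b ∈ orb G F a)
    (hc0 : c ∉ acl G ∅) : Setoid {v : ℕ // v ∈ orb G ∅ c} where
  r := fun v w => w.1 ∈ acl G {v.1}
  iseqv :=
    { refl := fun v => subset_acl G _ (by simp)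
      symm := by
        rintro ⟨v, hv⟩ ⟨w, hw⟩ h
        have hw0 : w ∉ acl G ∅ := fun h => hc0 (mem_acl_of_mem_orb (orb_symm hw) h)
        exact exchange h3 h1 (F := ∅) (a := v) (b := w) h hw0
      trans := by
        rintro ⟨u, hu⟩ ⟨v, hv⟩ ⟨w, hw⟩ h h'
        refine acl_subset_acl ?_ h'
        intro z hz
        simp only [Finset.coe_singleton, mem_singleton_iff] at hz
        rw [hz]; exact h }

lemma Ecl_infinite (h1 : ∀ F : Finset ℕ, (acl G F).Finite)
    (h3 : ∀ (F : Finset ℕ) (a b : ℕ), a ∉ acl G F → b ∉ acl G F → b ∈ orb G ∅ a → b ∈ orb G F a)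
    (hc0 : c ∉ acl G ∅) : Infinite (Quotient (Ecl h1 h3 hc0)) := by
  by_contra hcon
  rw [not_infinite_iff_finite] at hcon
  apply hc0
  change (orb G ∅ c).Finite
  rw [← Set.finite_coe_iff]
  have : (Set.univ : Set {v : ℕ // v ∈ orb G ∅ c}).Finite := by
    have h2 : (Set.univ : Set {v : ℕ // v ∈ orb G ∅ c}) ⊆ ⋃ q : Quotient (Ecl h1 h3 hc0),
        {w : {v : ℕ // v ∈ orb G ∅ c} | w.1 ∈ acl G {(@Quotient.out _ (Ecl h1 h3 hc0) q).1}} := by
      intro w _
      rw [mem_iUnion]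
      exact ⟨Quotient.mk _ w, @Quotient.mk_out _ (Ecl h1 h3 hc0) w⟩
    refine Set.Finite.subset (Set.finite_iUnion fun q => ?_) h2
    exact (h1 _).preimage Subtype.val_injective.injOn
  exact Set.finite_univ_iff.1 this

/-- the family of graphs -/
noncomputable def gfam : GF G where
  I := {v : ℕ // v ∈ orb G ∅ c}
  Γ v x y := Gam G a b c v.1 x y
  sym _ _ _ h := Gam_symm h
  irr _ _ h := (Gam_acl h1 h3 hc hca hcb h).2.2.2 rfl
  E := Ecl h1 h3 (fun h => hca (acl_mono (Finset.empty_subset _) h))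
  inf := Ecl_infinite h1 h3 _
  J v := ((h1 {v.1}).preimage (f := (Subtype.val : {v : ℕ // v ∈ orb G ∅ c} → ℕ))
    Subtype.val_injective.injOn).toFinset
  hJ := by
    rintro ⟨v, hv⟩ ⟨w, hw⟩ h
    have h' : w ∈ acl G {v} := by simpa using h
    have hc0 : c ∉ acl G ∅ := fun h => hca (acl_mono (Finset.empty_subset _) h)
    have hw0 : w ∉ acl G ∅ := fun h => hc0 (mem_acl_of_mem_orb (orb_symm hw) h)
    exact exchange h3 h1 (F := ∅) (a := v) (b := w) h' hw0
  b := bd
  G1 := by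
    classical
    intro F S
    have hfin : ((S : Set ℕ) ∪ ⋃ j ∈ F, ⋃ s ∈ S, acl G {s, j.1}).Finite := by
      refine (Finset.finite_toSet S).union ?_
      refine (Finset.finite_toSet F).biUnion fun j _ => ?_
      exact (Finset.finite_toSet S).biUnion fun s _ => h1 _
    obtain ⟨z, hz⟩ := hfin.exists_notMem
    refine ⟨z, fun h => hz (Or.inl h), fun j hj s hs hΓ => hz (Or.inr ?_)⟩
    exact mem_biUnion hj (mem_biUnion hs (Gam_acl h1 h3 hc hca hcb hΓ).2.1)
  G2 := by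
    classical
    rintro ⟨i, hi⟩ F S hF
    obtain ⟨-, -, hac, hne⟩ := acl_facts h1 h3 hc hca hcb
    let Fs : Finset ℕ := S ∪ insert i (F.image Subtype.val)
    obtain ⟨g0, hg0, rfl⟩ := hi
    have hinf : (orb G {c} a).Infinite := hac
    have hW : (g0 ⁻¹' (acl G Fs)).Finite := (h1 Fs).preimage g0.injective.injOn
    obtain ⟨_, ⟨h, hh, rfl⟩, hx⟩ := (hinf.sdiff hW).nonempty
    have hT : Gam G a b c (g0 c) (g0 (h a)) (g0 (h b)) := by
      left
      exact ⟨g0 * h, G.mul_mem hg0.1 hh.1, rfl, rfl, by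
        rw [Equiv.Perm.mul_apply, hh.2 c (by simp)]⟩
    obtain ⟨k1, k2, k3, k4⟩ := Gam_acl h1 h3 hc hca hcb hT
    have hxW : g0 (h a) ∉ acl G Fs := hx
    have hiFs : g0 c ∈ acl G Fs := subset_acl G _ (by simp [Fs])
    have hyW : g0 (h b) ∉ acl G Fs := fun hy => hxW (acl_subset_acl (pair_sub hy hiFs) k1)
    have hS : ∀ s ∈ S, s ∈ acl G Fs := fun s hs => subset_acl G _ (by simp [Fs, hs])
    have hFj : ∀ j ∈ F, j.1 ∈ acl G Fs := fun j hj => subset_acl G _ (by
      simp only [Fs, Finset.coe_union, Finset.coe_insert, Finset.coe_image, mem_union, mem_insert_iff,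
        mem_image, Finset.mem_coe]
      exact Or.inr (Or.inr ⟨j, hj, rfl⟩))
    refine ⟨g0 (h a), g0 (h b), k4, fun hm => hxW (hS _ hm), fun hm => hyW (hS _ hm), hT, ?_⟩
    intro j hj
    refine ⟨fun hΓ => ?_, fun s hs => ⟨fun hΓ => ?_, fun hΓ => ?_⟩⟩
    · have hij : j.1 ∉ acl G {g0 c} := by
        intro hmem
        apply hF j hj
        -- symmetry
        have hc0 : c ∉ acl G ∅ := fun h => hca (acl_mono (Finset.empty_subset _) h)
        have hj0 : j.1 ∉ acl G ∅ := fun h => hc0 (mem_acl_of_mem_orb (orb_symm j.2) h)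
        exact exchange h3 h1 (F := ∅) (a := g0 c) (b := j.1) hmem hj0
      have := (Gam_two h1 h3 hc hca hcb hij hT hΓ).1
      exact hxW (acl_subset_acl (pair_sub hiFs (hFj j hj)) this)
    · exact hxW (acl_subset_acl (pair_sub (hS s hs) (hFj j hj)) (Gam_acl h1 h3 hc hca hcb hΓ).2.1)
    · exact hyW (acl_subset_acl (pair_sub (hS s hs) (hFj j hj)) (Gam_acl h1 h3 hc hca hcb hΓ).2.1)
  G3 := by
    classical
    rintro ⟨i, hi⟩ ⟨j, hj⟩ hij ⟨M, hM1, hM2, hM3⟩
    have hij' : j ∉ acl G {i} := hij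
    have hle : M.card ≤ (h1 {i, j}).toFinset.card := by
      refine card_le_of_meet hM3 _ (fun e he => Or.inl ?_)
      obtain ⟨-, -, k1, k2⟩ := hM2 e he
      rw [Set.Finite.mem_toFinset]
      exact (Gam_two h1 h3 hc hca hcb hij' k1 k2).1
    have := hbd i j
    rw [Set.ncard_eq_toFinset_card _ (h1 {i, j})] at this
    omega
  G4 := by
    classical
    rintro ⟨i, hi⟩ ⟨j, hj⟩ hij
    have hc0 : c ∉ acl G ∅ := fun h => hca (acl_mono (Finset.empty_subset _) h)
    have hi0 : i ∉ acl G ∅ := fun h => hc0 (mem_acl_of_mem_orb (orb_symm hi) h)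
    have hji : j ∈ acl G {i} := exchange h3 h1 (F := ∅) (a := j) (b := i) hij hi0
    refine ⟨⟨j, hj⟩, by simpa using hji, ?_⟩
    rintro ⟨M, hM1, hM2, -⟩
    have hne : M.Nonempty := by
      rw [← Finset.card_pos]; omega
    obtain ⟨e, he⟩ := hne
    exact (hM2 e he).2.2.2 (hM2 e he).2.2.1
  G5 := by
    intro k hk
    have hmap : ∀ {k : Equiv.Perm ℕ}, k ∈ G → ∀ {v : ℕ}, v ∈ orb G ∅ c → k v ∈ orb G ∅ c := by
      rintro k hk v ⟨g, hg, rfl⟩
      exact ⟨k * g, ⟨G.mul_mem hk hg.1, fun x hx => absurd hx (Finset.notMem_empty x)⟩, rfl⟩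
    refine ⟨{ toFun := fun v => ⟨k v.1, hmap hk v.2⟩
              invFun := fun v => ⟨k⁻¹ v.1, hmap (G.inv_mem hk) v.2⟩
              left_inv := fun v => Subtype.ext (by simp)
              right_inv := fun v => Subtype.ext (by simp) }, ?_, ?_⟩
    · rintro ⟨v, hv⟩ x y
      have key : ∀ {k : Equiv.Perm ℕ}, k ∈ G → ∀ x y v, TT G a b c x y v →
          TT G a b c (k x) (k y) (k v) := by
        rintro k hk x y v ⟨g, hg, rfl, rfl, rfl⟩
        exact ⟨k * g, G.mul_mem hk hg, rfl, rfl, rfl⟩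
      have key2 : ∀ {k : Equiv.Perm ℕ}, k ∈ G → ∀ x y v, Gam G a b c v x y →
          Gam G a b c (k v) (k x) (k y) := by
        rintro k hk x y v (h | h)
        · exact Or.inl (key hk _ _ _ h)
        · exact Or.inr (key hk _ _ _ h)
      change Gam G a b c (k v) (k x) (k y) ↔ Gam G a b c v x y
      refine ⟨fun h => ?_, key2 hk x y v⟩
      have := key2 (G.inv_mem hk) _ _ _ h
      simpa using this
    · rintro ⟨v, hv⟩ ⟨w, hw⟩
      change k w ∈ acl G {k v} ↔ w ∈ acl G {v}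
      constructor
      · intro h
        have := acl_map (G.inv_mem hk) h
        simpa using this
      · intro h
        have := acl_map hk h
        simpa using this

end

end Cl

end Pool.Agent.H71
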