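import Pool.Agent.H71.GF4

/-!
The family of graphs attached to an invariant family of sets that are pairwise close or almost
disjoint.
-/

set_option autoImplicit false

open Set

namespace Pool.Agent.H71

namespace Cl

open GG0

section

variable {K : Subgroup (Equiv.Perm ℕ)} (DD : Set (Set ℕ))

/-- closeness -/
def Eclose : Setoid DD where
  r := fun S S' => (symmDiff S.1 S'.1).Finite
  iseqv :=
    { refl := fun S => by simp
      symm := fun {S S'} h => by rwa [symmDiff_comm]
      trans := fun {S S' S''} h h' => by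
        refine (h.union h').subset ?_
        exact symmDiff_triangle _ _ _ }

lemma Eclose_infinite
    (hcl : ∀ T : Set DD, T.Finite → ∃ S : DD, ∀ S' ∈ T, ¬ (symmDiff S.1 S'.1).Finite) :
    Infinite (Quotient (Eclose DD)) := by
  by_contra hcon
  rw [not_infinite_iff_finite] at hcon
  obtain ⟨S, hS⟩ := hcl (range (fun q : Quotient (Eclose DD) => @Quotient.out _ (Eclose DD) q))
    (Set.finite_range _)
  refine hS (@Quotient.out _ (Eclose DD) (Quotient.mk _ S)) ⟨_, rfl⟩ ?_
  have := @Quotient.mk_out _ (Eclose DD) S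
  exact (Eclose DD).symm this

/-- the family of graphs -/
noncomputable def gfam2 (hinv : ∀ k ∈ K, ∀ S ∈ DD, k '' S ∈ DD) (hinf : ∀ S ∈ DD, S.Infinite)
    (bd : ℕ) (hb : ∀ S ∈ DD, ∀ S' ∈ DD, ((S ∩ S').Finite ∧ (S ∩ S').ncard ≤ bd) ∨
      ((symmDiff S S').Finite ∧ (symmDiff S S').ncard ≤ bd))
    (hcl : ∀ T : Set DD, T.Finite → ∃ S : DD, ∀ S' ∈ T, ¬ (symmDiff S.1 S'.1).Finite) : GF K where
  I := DD
  Γ S x y := x ≠ y ∧ x ∈ S.1 ∧ y ∈ S.1
  sym _ _ _ h := ⟨h.1.symm, h.2.2, h.2.1⟩
  irr _ _ h := h.1 rfl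
  E := Eclose DD
  inf := Eclose_infinite DD hcl
  J S := {S}
  hJ := by
    intro S S' h
    rw [Finset.mem_singleton] at h
    subst h
    exact @Setoid.refl _ (Eclose DD) S'
  b := bd
  G1 := by
    classical
    intro F S
    obtain ⟨S0, hS0⟩ := hcl (F : Set DD) (Finset.finite_toSet F)
    have hfin : ((S : Set ℕ) ∪ ⋃ j ∈ F, (S0.1 ∩ j.1)).Finite := by
      refine (Finset.finite_toSet S).union ((Finset.finite_toSet F).biUnion fun j hj => ?_)
      rcases hb S0.1 S0.2 j.1 j.2 with h | h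
      · exact h.1
      · exact absurd h.1 (hS0 j hj)
    obtain ⟨z, hz, hz'⟩ := ((hinf S0.1 S0.2).sdiff hfin).nonempty
    refine ⟨z, fun h => hz' (Or.inl h), fun j hj s _ hΓ => hz' (Or.inr ?_)⟩
    exact mem_biUnion hj ⟨hz, hΓ.2.2⟩
  G2 := by
    classical
    intro i F S hF
    have hfin : ((S : Set ℕ) ∪ ⋃ j ∈ F, (i.1 ∩ j.1)).Finite := by
      refine (Finset.finite_toSet S).union ((Finset.finite_toSet F).biUnion fun j hj => ?_)
      rcases hb i.1 i.2 j.1 j.2 with h | h
      · exact h.1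
      · exact absurd (@Setoid.symm _ (Eclose DD) i j h.1) (hF j hj)
    have hinf' := (hinf i.1 i.2).sdiff hfin
    obtain ⟨x, hx, hx'⟩ := hinf'.nonempty
    obtain ⟨y, ⟨hy, hy'⟩, hyx⟩ := (hinf'.sdiff (Set.finite_singleton x)).nonempty
    refine ⟨x, y, fun h => hyx h.symm, fun h => hx' (Or.inl h), fun h => hy' (Or.inl h),
      ⟨fun h => hyx h.symm, hx, hy⟩, fun j hj => ⟨fun hΓ => ?_, fun s _ => ⟨fun hΓ => ?_, fun hΓ => ?_⟩⟩⟩
    · exact hx' (Or.inr (mem_biUnion hj ⟨hx, hΓ.2.1⟩))
    · exact hx' (Or.inr (mem_biUnion hj ⟨hx, hΓ.2.2⟩))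
    · exact hy' (Or.inr (mem_biUnion hj ⟨hy, hΓ.2.2⟩))
  G3 := by
    classical
    rintro i j hij ⟨M, hM1, hM2, hM3⟩
    rcases hb i.1 i.2 j.1 j.2 with h | h
    · have hle : M.card ≤ h.1.toFinset.card := by
        refine card_le_of_meet hM3 _ (fun e he => Or.inl ?_)
        obtain ⟨-, -, k1, k2⟩ := hM2 e he
        rw [Set.Finite.mem_toFinset]
        exact ⟨k1.2.1, k2.2.1⟩
      have := h.2
      rw [Set.ncard_eq_toFinset_card _ h.1] at this
      omega
    · exact absurd h.1 hij
  G4 := by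
    classical
    intro i j hij
    refine ⟨i, Finset.mem_singleton_self _, ?_⟩
    rintro ⟨M, hM1, hM2, hM3⟩
    have hji : (symmDiff j.1 i.1).Finite := hij
    have hcard : (symmDiff j.1 i.1).ncard ≤ bd := by
      rcases hb j.1 j.2 i.1 i.2 with h | h
      · exfalso
        apply hinf j.1 j.2
        refine (h.1.union hji).subset ?_
        intro x hx
        by_cases hxi : x ∈ i.1
        · exact Or.inl ⟨hx, hxi⟩
        · exact Or.inr (Or.inl ⟨hx, hxi⟩)
      · exact h.2
    have hle : M.card ≤ hji.toFinset.card := by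
      refine card_le_of_meet hM3 _ (fun e he => ?_)
      obtain ⟨-, -, k1, k2⟩ := hM2 e he
      rw [Set.Finite.mem_toFinset, Set.Finite.mem_toFinset]
      by_cases h1 : e.1 ∈ i.1
      · right
        left
        exact ⟨k1.2.2, fun h2 => k2 ⟨k1.1, h1, h2⟩⟩
      · left
        left
        exact ⟨k1.2.1, h1⟩
    rw [Set.ncard_eq_toFinset_card _ hji] at hcard
    omega
  G5 := by
    intro k hk
    refine ⟨{ toFun := fun S => ⟨k '' S.1, hinv k hk S.1 S.2⟩
              invFun := fun S => ⟨(k⁻¹ : Equiv.Perm ℕ) '' S.1, hinv _ (K.inv_mem hk) S.1 S.2⟩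
              left_inv := fun S => Subtype.ext (by
                change (k⁻¹ : Equiv.Perm ℕ) '' (k '' S.1) = S.1
                rw [← Set.image_comp]
                convert Set.image_id _ using 2
                funext x; simp)
              right_inv := fun S => Subtype.ext (by
                change k '' ((k⁻¹ : Equiv.Perm ℕ) '' S.1) = S.1
                rw [← Set.image_comp]
                convert Set.image_id _ using 2
                funext x; simp) }, ?_, ?_⟩
    · intro S x y
      change (k x ≠ k y ∧ k x ∈ k '' S.1 ∧ k y ∈ k '' S.1) ↔ (x ≠ y ∧ x ∈ S.1 ∧ y ∈ S.1)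
      rw [k.injective.mem_set_image, k.injective.mem_set_image, k.injective.ne_iff]
    · intro S S'
      change (symmDiff (k '' S.1) (k '' S'.1)).Finite ↔ (symmDiff S.1 S'.1).Finite
      rw [← Set.image_symmDiff k.injective]
      exact Set.finite_image_iff k.injective.injOn

end

end Cl

end Pool.Agent.H71
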