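import Pool.Agent.H71.Tri

/-!
Groups all of whose pointwise stabilisers of finite sets have finitely many orbits: finitely many
orbits on tuples, uniformly bounded algebraic closures.
-/

set_option autoImplicit false

open Set

namespace Pool.Agent.H71

lemma exists_orb_reps {K : Subgroup (Equiv.Perm ℕ)}
    (hO : ∀ F : Finset ℕ, (Set.range (orb K F)).Finite) (F : Finset ℕ) :
    ∃ P : Finset ℕ, ∀ a : ℕ, ∃ k ∈ Fx K F, k a ∈ P := by
  classical
  have hch : ∀ O : Set ℕ, ∃ p : ℕ, O ∈ Set.range (orb K F) → p ∈ O := by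
    intro O
    by_cases h : O ∈ Set.range (orb K F)
    · obtain ⟨a, rfl⟩ := h
      exact ⟨a, fun _ => self_mem_orb K F a⟩
    · exact ⟨0, fun h' => absurd h' h⟩
  choose p hp using hch
  refine ⟨(hO F).toFinset.image p, fun a => ?_⟩
  obtain ⟨k, hk, hka⟩ := hp (orb K F a) ⟨a, rfl⟩
  refine ⟨k, hk, ?_⟩
  rw [hka]
  exact Finset.mem_image_of_mem _ (by simp)

theorem finite_reps {K : Subgroup (Equiv.Perm ℕ)}
    (hO : ∀ F : Finset ℕ, (Set.range (orb K F)).Finite) (n : ℕ) :
    ∃ R : Finset (Fin n → ℕ), ∀ t : Fin n → ℕ, ∃ g ∈ K, (fun i => g (t i)) ∈ R := by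
  classical
  induction n with
  | zero => exact ⟨{fun i => i.elim0}, fun t => ⟨1, K.one_mem, by
      rw [Finset.mem_singleton]; funext i; exact i.elim0⟩⟩
  | succ n ih =>
    obtain ⟨R, hR⟩ := ih
    choose P hP using exists_orb_reps hO
    refine ⟨R.biUnion fun r => (P (Finset.univ.image r)).image fun p => (Fin.snoc r p : Fin (n + 1) → ℕ),
      fun t => ?_⟩
    obtain ⟨g, hg, hgR⟩ := hR (fun i : Fin n => t i.castSucc)
    obtain ⟨k, hk, hkP⟩ := hP (Finset.univ.image fun i : Fin n => g (t i.castSucc)) (g (t (Fin.last n)))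
    refine ⟨k * g, K.mul_mem hk.1 hg, ?_⟩
    rw [Finset.mem_biUnion]
    refine ⟨_, hgR, ?_⟩
    rw [Finset.mem_image]
    refine ⟨_, hkP, ?_⟩
    funext i
    refine Fin.lastCases ?_ (fun i => ?_) i
    · rw [Fin.snoc_last]; rfl
    · rw [Fin.snoc_castSucc]
      exact (hk.2 _ (Finset.mem_image_of_mem _ (Finset.mem_univ i))).symm

lemma acl_finite_of {K : Subgroup (Equiv.Perm ℕ)}
    (hO : ∀ F : Finset ℕ, (Set.range (orb K F)).Finite) (F : Finset ℕ) : (acl K F).Finite := by
  have h : acl K F ⊆ ⋃ O ∈ {O : Set ℕ | O ∈ Set.range (orb K F) ∧ O.Finite}, O := by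
    intro a ha
    exact mem_biUnion (show orb K F a ∈ {O : Set ℕ | O ∈ Set.range (orb K F) ∧ O.Finite} from
      ⟨⟨a, rfl⟩, ha⟩) (self_mem_orb K F a)
  refine Set.Finite.subset (Set.Finite.biUnion ((hO F).subset fun O hO => hO.1) fun O hO => hO.2) h

lemma acl_image_sub {K : Subgroup (Equiv.Perm ℕ)} {g : Equiv.Perm ℕ} (hg : g ∈ K) (F : Finset ℕ) :
    g '' acl K F ⊆ acl K (F.image g) := by
  classical
  rintro _ ⟨a, ha, rfl⟩
  have h1 : orb K (F.image g) (g a) ⊆ g '' orb K F a := by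
    rintro _ ⟨h, hh, rfl⟩
    refine ⟨(g⁻¹ * h * g) a, ⟨g⁻¹ * h * g, ⟨K.mul_mem (K.mul_mem (K.inv_mem hg) hh.1) hg, ?_⟩, rfl⟩,
      by simp⟩
    intro b hb
    have := hh.2 (g b) (Finset.mem_image_of_mem _ hb)
    simp [this]
  exact (Set.Finite.image g ha).subset h1

theorem bounded_acl {K : Subgroup (Equiv.Perm ℕ)}
    (hO : ∀ F : Finset ℕ, (Set.range (orb K F)).Finite) (m : ℕ) :
    ∃ b : ℕ, ∀ F : Finset ℕ, F.card ≤ m → (acl K F).Finite ∧ (acl K F).ncard ≤ b := by
  classical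
  obtain ⟨R, hR⟩ := finite_reps hO m
  refine ⟨max (acl K ∅).ncard (R.sup fun r => (acl K (Finset.univ.image r)).ncard), fun F hF => ?_⟩
  refine ⟨acl_finite_of hO F, ?_⟩
  rcases F.eq_empty_or_nonempty with rfl | hne
  · exact le_max_left _ _
  · obtain ⟨a0, ha0⟩ := hne
    -- a tuple with range F
    have hex : ∃ t : Fin m → ℕ, Finset.univ.image t = F := by
      refine ⟨fun i => if h : i.1 < F.card then (F.equivFin.symm ⟨i.1, h⟩).1 else a0, ?_⟩
      ext x
      rw [Finset.mem_image]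
      constructor
      · rintro ⟨i, -, rfl⟩
        split_ifs with h
        · exact (F.equivFin.symm ⟨i.1, h⟩).2
        · exact ha0
      · intro hx
        let j := F.equivFin ⟨x, hx⟩
        refine ⟨⟨j.1, lt_of_lt_of_le j.2 hF⟩, Finset.mem_univ _, ?_⟩
        have hj : j.1 < F.card := j.2
        simp only [hj, dif_pos]
        have : F.equivFin.symm ⟨j.1, hj⟩ = ⟨x, hx⟩ := by
          rw [Equiv.symm_apply_eq]
        rw [this]
    obtain ⟨t, rfl⟩ := hex
    obtain ⟨g, hg, hgR⟩ := hR t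
    have h1 := acl_image_sub hg (Finset.univ.image t)
    have h2 : (Finset.univ.image t).image g = Finset.univ.image (fun i => g (t i)) := by
      rw [Finset.image_image]; rfl
    rw [h2] at h1
    have h3 := Set.ncard_le_ncard h1 (acl_finite_of hO _)
    rw [Set.ncard_image_of_injective _ g.injective] at h3
    refine h3.trans ((Finset.le_sup (f := fun r => (acl K (Finset.univ.image r)).ncard) hgR).trans
      (le_max_right _ _))

end Pool.Agent.H71
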