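import Pool.Agent.H71.Inst3

/-!
If there are only countably many ultrafilters without finite sets, then there are minimal infinite
members of the algebra of invariant sets.
-/

set_option autoImplicit false

open Set

namespace Pool.Agent.H71

/-- minimal infinite members of the algebra -/
def Minl (H : Subgroup (Equiv.Perm ℕ)) (C : Set ℕ) : Prop :=
  C ∈ invAlg H ∧ C.Infinite ∧ ∀ S ∈ invAlg H, (C ∩ S).Finite ∨ (C \ S).Finite

lemma invAlg_inter' {K : Subgroup (Equiv.Perm ℕ)} {S T : Set ℕ} (hS : S ∈ invAlg K)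
    (hT : T ∈ invAlg K) : S ∩ T ∈ invAlg K := by
  classical
  obtain ⟨F, hF⟩ := hS
  obtain ⟨F', hF'⟩ := hT
  refine ⟨F ∪ F', fun h hh hfix a => ?_⟩
  have h1 := hF h hh (fun a ha => hfix a (Finset.mem_union_left _ ha)) a
  have h2 := hF' h hh (fun a ha => hfix a (Finset.mem_union_right _ ha)) a
  simp only [mem_inter_iff, h1, h2]

lemma invAlg_compl' {K : Subgroup (Equiv.Perm ℕ)} {S : Set ℕ} (hS : S ∈ invAlg K) :
    Sᶜ ∈ invAlg K := by
  obtain ⟨F, hF⟩ := hS
  exact ⟨F, fun h hh hfix a => not_congr (hF h hh hfix a)⟩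

/-- the branch -/
def br (x : ℕ → Bool) : ℕ → List Bool
  | 0 => []
  | n + 1 => x n :: br x n

lemma br_eq {x y : ℕ → Bool} {n : ℕ} (h : ∀ i < n, x i = y i) : br x n = br y n := by
  induction n with
  | zero => rfl
  | succ n ih =>
    change x n :: br x n = y n :: br y n
    rw [h n (by omega), ih fun i hi => h i (by omega)]

theorem exists_minimal {H : Subgroup (Equiv.Perm ℕ)} (hc : (freeUlt H).Countable)
    {B : Set ℕ} (hB : B ∈ invAlg H) (hBi : B.Infinite) : ∃ C ⊆ B, Minl H C := by
  classical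
  by_contra hcon
  push Not at hcon
  -- splitting
  have hspl : ∀ C : {C : Set ℕ // C ∈ invAlg H ∧ C.Infinite ∧ C ⊆ B}, ∃ S ∈ invAlg H,
      (C.1 ∩ S).Infinite ∧ (C.1 \ S).Infinite := by
    rintro ⟨C, hC, hCi, hCB⟩
    have := hcon C hCB
    by_contra hno
    apply this
    refine ⟨hC, hCi, fun S hS => ?_⟩
    by_contra h
    push Not at h
    exact hno ⟨S, hS, h.1, h.2⟩
  choose S hS hS1 hS2 using hspl
  let P : Bool → {C : Set ℕ // C ∈ invAlg H ∧ C.Infinite ∧ C ⊆ B} →
      {C : Set ℕ // C ∈ invAlg H ∧ C.Infinite ∧ C ⊆ B} := fun b C =>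
    if b = true then ⟨C.1 ∩ S C, invAlg_inter' C.2.1 (hS C), hS1 C, fun x hx => C.2.2.2 hx.1⟩
    else ⟨C.1 \ S C, invAlg_inter' C.2.1 (invAlg_compl' (hS C)), hS2 C, fun x hx => C.2.2.2 hx.1⟩
  have hPs : ∀ b C, (P b C).1 ⊆ C.1 := by
    intro b C x hx
    cases b
    · exact hx.1
    · exact hx.1
  have hPd : ∀ b b' C, b ≠ b' → Disjoint (P b C).1 (P b' C).1 := by
    intro b b' C hbb
    rw [Set.disjoint_left]
    cases b <;> cases b'
    · exact absurd rfl hbb
    · intro x hx hx'
      exact hx.2 hx'.2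
    · intro x hx hx'
      exact hx'.2 hx.2
    · exact absurd rfl hbb
  let T : List Bool → {C : Set ℕ // C ∈ invAlg H ∧ C.Infinite ∧ C ⊆ B} := fun l =>
    List.rec ⟨B, hB, hBi, subset_rfl⟩ (fun b _ C => P b C) l
  have hT : ∀ b l, T (b :: l) = P b (T l) := fun b l => rfl
  have hanti : ∀ x : ℕ → Bool, Antitone fun n => (T (br x n)).1 := by
    intro x
    refine antitone_nat_of_succ_le fun n => ?_
    change (T (x n :: br x n)).1 ⊆ _
    rw [hT]
    exact hPs _ _
  -- the ultrafilters
  have hU : ∀ x : ℕ → Bool, ∃ U : Ultrafilter ℕ, (U : Filter ℕ) ≤ Filter.cofinite ∧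
      ∀ n, (T (br x n)).1 ∈ U := by
    intro x
    have hne : ((⨅ n, Filter.principal (T (br x n)).1) ⊓ Filter.cofinite).NeBot := by
      have hdir : Directed (fun a b => a ≥ b) fun n => Filter.principal (T (br x n)).1 := by
        intro i j
        refine ⟨max i j, ?_, ?_⟩
        · exact Filter.principal_mono.2 (hanti x (le_max_left i j))
        · exact Filter.principal_mono.2 (hanti x (le_max_right i j))
      rw [Filter.inf_neBot_iff]
      intro s hs t ht
      rw [Filter.mem_iInf_of_directed hdir] at hs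
      obtain ⟨n, hn⟩ := hs
      rw [Filter.mem_principal] at hn
      rw [Filter.mem_cofinite] at ht
      obtain ⟨a, ha, ha'⟩ := ((T (br x n)).2.2.1.sdiff ht).nonempty
      exact ⟨a, hn ha, not_not.1 ha'⟩
    refine ⟨Ultrafilter.of ((⨅ n, Filter.principal (T (br x n)).1) ⊓ Filter.cofinite), ?_,
      fun n => ?_⟩
    · exact (Ultrafilter.of_le _).trans inf_le_right
    · apply (Ultrafilter.of_le _).trans (inf_le_left.trans (iInf_le _ n))
      exact Filter.mem_principal_self _
  choose U hU1 hU2 using hU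
  let p : (ℕ → Bool) → Set (Set ℕ) := fun x => {A | A ∈ invAlg H ∧ A ∈ U x}
  have hp : ∀ x, p x ∈ freeUlt H := by
    intro x
    refine ⟨fun A hA => hA.1, fun A hA => ?_, fun q hq hqf => ?_⟩
    · rcases (U x).mem_or_compl_mem A with h | h
      · exact Or.inl ⟨hA, h⟩
      · exact Or.inr ⟨invAlg_compl' hA, h⟩
    · have h1 : ⋂₀ q ∈ U x := by
        have := (Filter.sInter_mem (f := (U x : Filter ℕ)) hqf).2 fun A hA => (hq hA).2
        exact this
      intro hfin
      have h2 : (⋂₀ q)ᶜ ∈ Filter.cofinite (α := ℕ) := by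
        rw [Filter.mem_cofinite, compl_compl]
        exact hfin
      have h3 : (⋂₀ q)ᶜ ∈ U x := hU1 x h2
      have h4 := Filter.inter_mem (f := (U x : Filter ℕ)) h1 h3
      rw [Set.inter_compl_self] at h4
      exact Filter.empty_notMem (U x : Filter ℕ) h4
  have hinj : Function.Injective p := by
    intro x y hxy
    by_contra hne
    have hex : ∃ n, x n ≠ y n := by
      by_contra h
      push Not at h
      exact hne (funext h)
    have h1 := Nat.find_spec hex
    have h2 : br x (Nat.find hex) = br y (Nat.find hex) := br_eq fun i hi => by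
      have := Nat.find_min hex hi
      exact not_not.1 this
    have h3 : (T (br x (Nat.find hex + 1))).1 ∈ p y := by
      rw [← hxy]
      exact ⟨(T (br x (Nat.find hex + 1))).2.1, hU2 x (Nat.find hex + 1)⟩
    have h4 := Filter.inter_mem (f := (U y : Filter ℕ)) h3.2 (hU2 y (Nat.find hex + 1))
    have h5 : (T (br x (Nat.find hex + 1))).1 ∩ (T (br y (Nat.find hex + 1))).1 = ∅ := by
      rw [← Set.disjoint_iff_inter_eq_empty]
      change Disjoint (T (x (Nat.find hex) :: br x (Nat.find hex))).1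
        (T (y (Nat.find hex) :: br y (Nat.find hex))).1
      rw [hT, hT, h2]
      exact hPd _ _ _ h1
    rw [h5] at h4
    exact Filter.empty_notMem (U y : Filter ℕ) h4
  -- cardinality
  have hcount : Countable (ℕ → Bool) := by
    have : Countable (freeUlt H) := hc.to_subtype
    exact Function.Injective.countable (f := fun x => (⟨p x, hp x⟩ : freeUlt H))
      (fun x y h => hinj (congrArg Subtype.val h))
  obtain ⟨g, hg⟩ := exists_surjective_nat (ℕ → Bool)
  refine Function.cantor_surjective (fun n => {i | g n i = true}) (fun S => ?_)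
  obtain ⟨n, hn⟩ := hg (fun i => decide (i ∈ S))
  refine ⟨n, ?_⟩
  ext i
  simp [hn]

end Pool.Agent.H71
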