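import Pool.Agent.H71.Class1
import Pool.Agent.H71.Class2
import Pool.Agent.H71.AI
import Pool.Agent.H71.SA
import Pool.Agent.H71.FinOrb

/-!
Classification: a group with finitely many orbits over every finite set, with countably many types,
and with no family of graphs, is cellular over a finite set.
-/

set_option autoImplicit false

open Set

namespace Pool.Agent.H71

namespace Cl

open GG0

section alg

variable {K : Subgroup (Equiv.Perm ℕ)}

lemma invAlg_inter {S T : Set ℕ} (hS : S ∈ invAlg K) (hT : T ∈ invAlg K) : S ∩ T ∈ invAlg K := by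
  classical
  obtain ⟨F, hF⟩ := hS
  obtain ⟨F', hF'⟩ := hT
  refine ⟨F ∪ F', fun h hh hfix a => ?_⟩
  have h1 := hF h hh (fun a ha => hfix a (Finset.mem_union_left _ ha)) a
  have h2 := hF' h hh (fun a ha => hfix a (Finset.mem_union_right _ ha)) a
  simp only [mem_inter_iff, h1, h2]

lemma invAlg_compl {S : Set ℕ} (hS : S ∈ invAlg K) : Sᶜ ∈ invAlg K := by
  obtain ⟨F, hF⟩ := hS
  exact ⟨F, fun h hh hfix a => not_congr (hF h hh hfix a)⟩

lemma invAlg_diff {S T : Set ℕ} (hS : S ∈ invAlg K) (hT : T ∈ invAlg K) : S \ T ∈ invAlg K :=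
  invAlg_inter hS (invAlg_compl hT)

lemma invAlg_union {S T : Set ℕ} (hS : S ∈ invAlg K) (hT : T ∈ invAlg K) : S ∪ T ∈ invAlg K := by
  have := invAlg_compl (invAlg_inter (invAlg_compl hS) (invAlg_compl hT))
  rwa [Set.compl_inter, compl_compl, compl_compl] at this

lemma invAlg_sUnion {T : Set (Set ℕ)} (hT : T.Finite) (h : ∀ S ∈ T, S ∈ invAlg K) :
    ⋃₀ T ∈ invAlg K := by
  induction T, hT using Set.Finite.induction_on with
  | empty => exact ⟨∅, fun _ _ _ a => by simp⟩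
  | insert _ _ ih =>
    rw [Set.sUnion_insert]
    exact invAlg_union (h _ (mem_insert _ _)) (ih fun S hS => h S (mem_insert_of_mem _ hS))

lemma invAlg_image {k : Equiv.Perm ℕ} (hk : k ∈ K) {S : Set ℕ} (hS : S ∈ invAlg K) :
    k '' S ∈ invAlg K := by
  classical
  obtain ⟨F, hF⟩ := hS
  refine ⟨F.image k, fun h hh hfix a => ?_⟩
  have h1 := hF (k⁻¹ * h * k) (K.mul_mem (K.mul_mem (K.inv_mem hk) hh) hk) (by
    intro b hb
    have := hfix (k b) (Finset.mem_image_of_mem _ hb)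
    rw [Equiv.Perm.mul_apply, Equiv.Perm.mul_apply, this]
    simp) (k⁻¹ a)
  have key : ∀ x, x ∈ k '' S ↔ k⁻¹ x ∈ S := by
    intro x
    constructor
    · rintro ⟨y, hy, rfl⟩
      simpa using hy
    · intro hx
      exact ⟨k⁻¹ x, hx, by simp⟩
  rw [key, key]
  simpa [Equiv.Perm.mul_apply] using h1

lemma invAlg_finite {S : Set ℕ} (hS : S.Finite) : S ∈ invAlg K := by
  refine ⟨hS.toFinset, fun h hh hfix a => ?_⟩
  constructor
  · intro ha
    have h1 : h (h a) = h a := hfix _ (by simpa using ha)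
    have h2 : h a = a := h.injective h1
    rwa [h2] at ha
  · intro ha
    rw [hfix a (by simpa using ha)]
    exact ha

lemma Minl_image {k : Equiv.Perm ℕ} (hk : k ∈ K) {D : Set ℕ} (hD : Minl K D) :
    Minl K (k '' D) := by
  refine ⟨invAlg_image hk hD.1, (Set.infinite_image_iff k.injective.injOn).2 hD.2.1, ?_⟩
  intro S hS
  have h1 : S = k '' ((k⁻¹ : Equiv.Perm ℕ) '' S) := by
    rw [← Set.image_comp]
    have : ((k : ℕ → ℕ) ∘ (k⁻¹ : Equiv.Perm ℕ)) = id := by funext x; simp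
    rw [this, Set.image_id]
  rcases hD.2.2 _ (invAlg_image (K.inv_mem hk) hS) with h | h
  · left
    rw [h1, ← Set.image_inter k.injective]
    exact h.image _
  · right
    rw [h1, ← Set.image_sdiff k.injective]
    exact h.image _

lemma Minl_close {D D' : Set ℕ} (hD : Minl K D) (hD' : Minl K D') (h : (D ∩ D').Infinite) :
    (symmDiff D D').Finite := by
  have h1 : (D \ D').Finite := (hD.2.2 D' hD'.1).resolve_left h
  have h2 : (D' \ D).Finite := (hD'.2.2 D hD.1).resolve_left (by rwa [inter_comm])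
  exact h1.union h2

/-- a set is closed under the group iff it is fixed -/
lemma image_eq_of_inv {G : Subgroup (Equiv.Perm ℕ)} {S : Set ℕ}
    (h : ∀ g ∈ G, ∀ a, g a ∈ S ↔ a ∈ S) {g : Equiv.Perm ℕ} (hg : g ∈ G) : g '' S = S := by
  ext x
  constructor
  · rintro ⟨y, hy, rfl⟩
    exact (h g hg y).2 hy
  · intro hx
    exact ⟨g⁻¹ x, (h _ (G.inv_mem hg) x).2 hx, by simp⟩

/-- uniform bounds along the translates of a member of the algebra -/
lemma exists_bound (hO : ∀ F : Finset ℕ, (range (orb K F)).Finite) {D : Set ℕ}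
    (hD : D ∈ invAlg K) : ∃ bd : ℕ, ∀ k ∈ K, ∀ l ∈ K,
      (k '' D ∩ l '' D).ncard ≤ bd ∧ (symmDiff (k '' D) (l '' D)).ncard ≤ bd := by
  classical
  obtain ⟨F, hF⟩ := hD
  obtain ⟨R, hR⟩ := finite_reps hO (F.card + F.card)
  let u : Fin F.card → ℕ := fun i => (F.equivFin.symm i).1
  have hu : ∀ k ∈ K, ∀ l ∈ K, (∀ i, k (u i) = l (u i)) → k '' D = l '' D := by
    intro k hk l hl h
    have h1 : ∀ g ∈ Fx K F, g '' D = D := fun g hg =>
      image_eq_of_inv (G := Fx K F) (fun g hg => hF g hg.1 hg.2) hg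
    have h2 : l⁻¹ * k ∈ Fx K F := by
      refine ⟨K.mul_mem (K.inv_mem hl) hk, fun a ha => ?_⟩
      have := h (F.equivFin ⟨a, ha⟩)
      simp only [u, Equiv.symm_apply_apply] at this
      rw [Equiv.Perm.mul_apply, this]
      simp
    have h3 := h1 _ h2
    conv_rhs => rw [← h3]
    rw [← Set.image_comp]
    congr 1
    funext x
    simp
  let T : (K × K) → (Fin (F.card + F.card) → ℕ) := fun p =>
    Fin.append (fun i => p.1.1 (u i)) (fun i => p.2.1 (u i))
  have hch : ∀ r : Fin (F.card + F.card) → ℕ, ∃ p : K × K, (∃ p, T p = r) → T p = r := by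
    intro r
    by_cases h : ∃ p, T p = r
    · obtain ⟨p, hp⟩ := h
      exact ⟨p, fun _ => hp⟩
    · exact ⟨1, fun h' => absurd h' h⟩
  choose P hP using hch
  refine ⟨R.sup (fun r => max ((P r).1.1 '' D ∩ (P r).2.1 '' D).ncard
    (symmDiff ((P r).1.1 '' D) ((P r).2.1 '' D)).ncard), ?_⟩
  intro k hk l hl
  obtain ⟨g, hg, hgR⟩ := hR (T (⟨k, hk⟩, ⟨l, hl⟩))
  have hTg : T (⟨g * k, K.mul_mem hg hk⟩, ⟨g * l, K.mul_mem hg hl⟩) =
      fun i => g (T (⟨k, hk⟩, ⟨l, hl⟩) i) := by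
    funext i
    refine Fin.addCases (fun i => ?_) (fun i => ?_) i
    · simp only [T, Fin.append_left]
      rfl
    · simp only [T, Fin.append_right]
      rfl
  have hP' := hP _ ⟨_, hTg⟩
  rw [← hTg] at hP'
  have e1 : (P (fun i => g (T (⟨k, hk⟩, ⟨l, hl⟩) i))).1.1 '' D = g '' (k '' D) := by
    rw [← Set.image_comp]
    refine hu _ (Subtype.mem _) (g * k) (K.mul_mem hg hk) (fun i => ?_)
    have := congrFun hP' (Fin.castAdd _ i)
    simp only [T, Fin.append_left] at this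
    rw [← hTg]
    exact this
  have e2 : (P (fun i => g (T (⟨k, hk⟩, ⟨l, hl⟩) i))).2.1 '' D = g '' (l '' D) := by
    rw [← Set.image_comp]
    refine hu _ (Subtype.mem _) (g * l) (K.mul_mem hg hl) (fun i => ?_)
    have := congrFun hP' (Fin.natAdd _ i)
    simp only [T, Fin.append_right] at this
    rw [← hTg]
    exact this
  have hle := Finset.le_sup (f := fun r => max ((P r).1.1 '' D ∩ (P r).2.1 '' D).ncard
    (symmDiff ((P r).1.1 '' D) ((P r).2.1 '' D)).ncard) hgR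
  rw [e1, e2, ← Set.image_inter g.injective, ← Set.image_symmDiff g.injective,
    Set.ncard_image_of_injective _ g.injective, Set.ncard_image_of_injective _ g.injective] at hle
  exact ⟨(le_max_left _ _).trans hle, (le_max_right _ _).trans hle⟩

lemma invAlg_countable (hO : ∀ F : Finset ℕ, (range (orb K F)).Finite) :
    (invAlg K).Countable := by
  have hfin : ∀ F : Finset ℕ, {S : Set ℕ | ∀ g ∈ Fx K F, ∀ a, g a ∈ S ↔ a ∈ S}.Finite := by
    intro F
    let φ : Set ℕ → Set (Set ℕ) := fun S => {O | O ∈ range (orb K F) ∧ O ⊆ S}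
    have hφ : Set.InjOn φ {S : Set ℕ | ∀ g ∈ Fx K F, ∀ a, g a ∈ S ↔ a ∈ S} := by
      have key : ∀ S ∈ {S : Set ℕ | ∀ g ∈ Fx K F, ∀ a, g a ∈ S ↔ a ∈ S}, ∀ a,
          a ∈ S ↔ orb K F a ∈ φ S := by
        intro S hS a
        constructor
        · intro ha
          refine ⟨⟨a, rfl⟩, ?_⟩
          rintro b ⟨g, hg, rfl⟩
          exact (hS g hg a).2 ha
        · rintro ⟨-, h2⟩
          exact h2 (self_mem_orb K F a)
      intro S hS S' hS' heq
      ext a
      rw [key S hS, key S' hS', heq]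
    refine Set.Finite.of_finite_image ?_ hφ
    refine ((hO F).powerset).subset ?_
    rintro _ ⟨S, -, rfl⟩
    exact fun O hO => hO.1
  have : invAlg K = ⋃ F : Finset ℕ, {S : Set ℕ | ∀ g ∈ Fx K F, ∀ a, g a ∈ S ↔ a ∈ S} := by
    ext S
    simp only [invAlg, mem_ofPred_eq, mem_iUnion]
    constructor
    · rintro ⟨F, hF⟩
      exact ⟨F, fun g hg => hF g hg.1 hg.2⟩
    · rintro ⟨F, hF⟩
      exact ⟨F, fun g hg hgF => hF g ⟨hg, hgF⟩⟩
  rw [this]
  exact Set.countable_iUnion fun F => (hfin F).countable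

/-- finitely many invariant sets -/
lemma finite_invariant (hO : ∀ F : Finset ℕ, (range (orb K F)).Finite) :
    {V : Set ℕ | ∀ g ∈ K, g '' V = V}.Finite := by
  let φ : Set ℕ → Set (Set ℕ) := fun S => {O | O ∈ range (orb K ∅) ∧ O ⊆ S}
  have hφ : Set.InjOn φ {V : Set ℕ | ∀ g ∈ K, g '' V = V} := by
    have key : ∀ S ∈ {V : Set ℕ | ∀ g ∈ K, g '' V = V}, ∀ a,
        a ∈ S ↔ orb K ∅ a ∈ φ S := by
      intro S hS a
      constructor
      · intro ha
        refine ⟨⟨a, rfl⟩, ?_⟩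
        rintro b ⟨g, hg, rfl⟩
        rw [← hS g hg.1]
        exact mem_image_of_mem _ ha
      · rintro ⟨-, h2⟩
        exact h2 (self_mem_orb K ∅ a)
    intro S hS S' hS' heq
    ext a
    rw [key S hS, key S' hS', heq]
  refine Set.Finite.of_finite_image ?_ hφ
  refine ((hO ∅).powerset).subset ?_
  rintro _ ⟨S, -, rfl⟩
  exact fun O hO => hO.1

end alg

section

variable {K : Subgroup (Equiv.Perm ℕ)}

/-- the translates -/
def Tr (K : Subgroup (Equiv.Perm ℕ)) (D : Set ℕ) : Set (Set ℕ) := {S | ∃ k ∈ K, k '' D = S}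

/-- without families of graphs, a minimal set has finitely many translates up to finite sets -/
lemma finite_translates (hO : ∀ F : Finset ℕ, (range (orb K F)).Finite)
    (hno : IsEmpty (GF K)) {D : Set ℕ} (hD : Minl K D) :
    ∃ T : Set (Set ℕ), T.Finite ∧ T ⊆ Tr K D ∧ ∀ S ∈ Tr K D, ∃ S' ∈ T, (symmDiff S S').Finite := by
  classical
  by_contra hcon
  push Not at hcon
  obtain ⟨bd, hbd⟩ := exists_bound hO hD.1
  refine hno.false (gfam2 (Tr K D) ?_ ?_ bd ?_ ?_)
  · rintro k hk _ ⟨l, hl, rfl⟩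
    refine ⟨k * l, K.mul_mem hk hl, ?_⟩
    rw [← Set.image_comp]; rfl
  · rintro _ ⟨k, hk, rfl⟩
    exact (Minl_image hk hD).2.1
  · rintro _ ⟨k, hk, rfl⟩ _ ⟨l, hl, rfl⟩
    obtain ⟨h1, h2⟩ := hbd k hk l hl
    by_cases h : (k '' D ∩ l '' D).Finite
    · exact Or.inl ⟨h, h1⟩
    · exact Or.inr ⟨Minl_close (Minl_image hk hD) (Minl_image hl hD) h, h2⟩
  · intro T hT
    obtain ⟨S, hS, hS'⟩ := hcon (Subtype.val '' T) (hT.image _) (by
      rintro _ ⟨S, -, rfl⟩
      exact S.2)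
    exact ⟨⟨S, hS⟩, fun S' hS'T => hS' S'.1 ⟨S', hS'T, rfl⟩⟩

/-- finitely many minimal sets up to finite sets -/
lemma finite_minimal (hO : ∀ F : Finset ℕ, (range (orb K F)).Finite) (hno : IsEmpty (GF K)) :
    ∃ 𝒞 : Set (Set ℕ), 𝒞.Finite ∧ (∀ C ∈ 𝒞, Minl K C) ∧
      ∀ D, Minl K D → ∃ C ∈ 𝒞, (symmDiff D C).Finite := by
  classical
  -- an invariant set attached to every minimal set
  have hV : ∀ D : Set ℕ, ∃ V : Set ℕ, ∃ T : Set (Set ℕ), Minl K D →
      (∀ g ∈ K, g '' V = V) ∧ T.Finite ∧ T ⊆ Tr K D ∧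
        (∀ S ∈ Tr K D, ∃ S' ∈ T, (symmDiff S S').Finite) ∧ (symmDiff V (⋃₀ T)).Finite := by
    intro D
    by_cases hD : Minl K D
    · obtain ⟨T, hT, hT', hT2⟩ := finite_translates hO hno hD
      obtain ⟨bd, hbd⟩ := exists_bound hO hD.1
      have key : ∀ g ∈ K, (g '' (⋃₀ T) \ ⋃₀ T).encard ≤ (T.ncard * bd : ℕ) := by
        intro g hg
        have h1 : ∀ S : Set ℕ, ∃ S' : Set ℕ, S ∈ T → S' ∈ T ∧ (g '' S \ S').encard ≤ bd := by
          intro S
          by_cases hS : S ∈ T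
          · obtain ⟨k, hk, rfl⟩ := hT' hS
            obtain ⟨S', hS', hfin⟩ := hT2 (g '' (k '' D)) ⟨g * k, K.mul_mem hg hk, by
              rw [← Set.image_comp]; rfl⟩
            refine ⟨S', fun _ => ⟨hS', ?_⟩⟩
            obtain ⟨l, hl, rfl⟩ := hT' hS'
            have h2 := (hbd (g * k) (K.mul_mem hg hk) l hl).2
            have h3 : ((g * k : Equiv.Perm ℕ) : ℕ → ℕ) '' D = g '' (k '' D) := by
              rw [← Set.image_comp]; rfl
            rw [h3] at h2
            have h4 : (g '' (k '' D) \ l '' D) ⊆ symmDiff (g '' (k '' D)) (l '' D) :=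
              fun x hx => Or.inl hx
            refine (Set.encard_le_encard h4).trans ?_
            rw [← hfin.cast_ncard_eq]
            exact_mod_cast h2
          · exact ⟨∅, fun h => absurd h hS⟩
        choose s hs using h1
        have h5 : g '' (⋃₀ T) \ ⋃₀ T ⊆ ⋃ S ∈ hT.toFinset, (g '' S \ s S) := by
          rintro _ ⟨⟨x, ⟨S, hS, hx⟩, rfl⟩, hx'⟩
          refine mem_biUnion (show S ∈ (hT.toFinset : Set (Set ℕ)) by simpa using hS)
            ⟨mem_image_of_mem _ hx, fun hxs => hx' ⟨s S, (hs S hS).1, hxs⟩⟩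
        have h6 : ∀ S ∈ hT.toFinset, (g '' S \ s S).Finite ∧ (g '' S \ s S).ncard ≤ bd := by
          intro S hS
          have h7 := (hs S (by simpa using hS)).2
          have h8 : (g '' S \ s S).Finite := Set.finite_of_encard_le_coe h7
          refine ⟨h8, ?_⟩
          rw [← h8.cast_ncard_eq] at h7
          exact_mod_cast h7
        have h9 : (⋃ S ∈ hT.toFinset, (g '' S \ s S)).Finite :=
          (Finset.finite_toSet _).biUnion fun S hS => (h6 S hS).1
        refine (Set.encard_le_encard h5).trans ?_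
        rw [← h9.cast_ncard_eq]
        have h10 : (⋃ S ∈ hT.toFinset, (g '' S \ s S)).ncard ≤ T.ncard * bd := by
          refine (Finset.set_ncard_biUnion_le _ _).trans ?_
          rw [Set.ncard_eq_toFinset_card _ hT, ← smul_eq_mul]
          exact Finset.sum_le_card_nsmul _ _ _ fun S hS => (h6 S hS).2
        exact_mod_cast h10
      obtain ⟨V, hV1, hV2⟩ := exists_invariant_of_almost K (⋃₀ T) (T.ncard * bd + T.ncard * bd) (by
        intro g hg
        have h1 := key g hg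
        have h2 := key g⁻¹ (K.inv_mem hg)
        have h3 : (⋃₀ T \ g '' (⋃₀ T)).encard ≤ (T.ncard * bd : ℕ) := by
          have : ⋃₀ T \ g '' (⋃₀ T) = g '' ((g⁻¹ : Equiv.Perm ℕ) '' (⋃₀ T) \ ⋃₀ T) := by
            rw [Set.image_sdiff g.injective, ← Set.image_comp]
            have : ((g : ℕ → ℕ) ∘ (g⁻¹ : Equiv.Perm ℕ)) = id := by funext x; simp
            rw [this, Set.image_id]
          rw [this, g.injective.encard_image]
          exact h2
        refine (Set.encard_union_le _ _).trans ?_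
        push_cast
        push_cast at h1 h3
        exact add_le_add h1 h3)
      exact ⟨V, T, fun _ => ⟨hV1, hT, hT', hT2, hV2⟩⟩
    · exact ⟨∅, ∅, fun h => absurd h hD⟩
  choose V T hVT using hV
  -- representatives
  have hfin := finite_invariant hO
  have hrep : ∀ W : Set ℕ, ∃ D : Set ℕ, (∃ D, Minl K D ∧ V D = W) → Minl K D ∧ V D = W := by
    intro W
    by_cases h : ∃ D, Minl K D ∧ V D = W
    · obtain ⟨D, hD⟩ := h
      exact ⟨D, fun _ => hD⟩
    · exact ⟨∅, fun h' => absurd h' h⟩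
  choose R hR using hrep
  let 𝒲 : Set (Set ℕ) := {W | (∀ g ∈ K, g '' W = W) ∧ ∃ D, Minl K D ∧ V D = W}
  have h𝒲 : 𝒲.Finite := hfin.subset fun W hW => hW.1
  refine ⟨⋃ W ∈ 𝒲, T (R W), ?_, ?_, ?_⟩
  · exact h𝒲.biUnion fun W hW => (hVT _ (hR W hW.2).1).2.1
  · intro C hC
    rw [mem_iUnion₂] at hC
    obtain ⟨W, hW, hC⟩ := hC
    obtain ⟨hm, hV⟩ := hR W hW.2
    obtain ⟨k, hk, rfl⟩ := (hVT _ hm).2.2.1 hC
    exact Minl_image hk hm
  · intro D hD
    obtain ⟨h1, h2, h3, h4, h5⟩ := hVT D hD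
    have hW : V D ∈ 𝒲 := ⟨h1, D, hD, rfl⟩
    obtain ⟨hm, hVR⟩ := hR (V D) hW.2
    obtain ⟨g1, g2, g3, g4, g5⟩ := hVT _ hm
    -- D is almost contained in the union of T (R (V D))
    obtain ⟨S0, hS0, hDS0⟩ := h4 D ⟨1, K.one_mem, by simp⟩
    have hsub : (D \ ⋃₀ T (R (V D))).Finite := by
      rw [hVR] at g5
      refine ((hDS0.union h5).union g5).subset ?_
      rintro x ⟨hx, hx'⟩
      by_cases hxS : x ∈ S0
      · by_cases hxV : x ∈ V D
        · exact Or.inr (Or.inl ⟨hxV, hx'⟩)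
        · exact Or.inl (Or.inr (Or.inr ⟨⟨S0, hS0, hxS⟩, hxV⟩))
      · exact Or.inl (Or.inl (Or.inl ⟨hx, hxS⟩))
    -- so it meets one of them in an infinite set
    have hmeet : ∃ S ∈ T (R (V D)), (D ∩ S).Infinite := by
      by_contra hcon
      push Not at hcon
      apply hD.2.1
      refine (hsub.union (g2.biUnion fun S hS => hcon S hS)).subset ?_
      intro x hx
      by_cases hx' : x ∈ ⋃₀ T (R (V D))
      · obtain ⟨S, hS, hxS⟩ := hx'
        exact Or.inr (mem_biUnion hS ⟨hx, hxS⟩)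
      · exact Or.inl ⟨hx, hx'⟩
    obtain ⟨S, hS, hinf⟩ := hmeet
    obtain ⟨k, hk, rfl⟩ := g3 hS
    exact ⟨_, mem_biUnion hW hS, Minl_close hD (Minl_image hk hm) hinf⟩

lemma Fx_Fx [DecidableEq ℕ] (K : Subgroup (Equiv.Perm ℕ)) (F F' : Finset ℕ) :
    Fx (Fx K F) F' = Fx K (F ∪ F') := by
  ext g
  constructor
  · rintro ⟨⟨h1, h2⟩, h3⟩
    refine ⟨h1, fun a ha => ?_⟩
    rcases Finset.mem_union.1 ha with ha | ha
    · exact h2 a ha
    · exact h3 a ha
  · rintro ⟨h1, h2⟩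
    exact ⟨⟨h1, fun a ha => h2 a (Finset.mem_union_left _ ha)⟩,
      fun a ha => h2 a (Finset.mem_union_right _ ha)⟩

lemma orb_Fx [DecidableEq ℕ] (K : Subgroup (Equiv.Perm ℕ)) (F F' : Finset ℕ) (a : ℕ) :
    orb (Fx K F) F' a = orb K (F ∪ F') a := by
  unfold orb
  rw [Fx_Fx]

lemma acl_Fx [DecidableEq ℕ] (K : Subgroup (Equiv.Perm ℕ)) (F F' : Finset ℕ) :
    acl (Fx K F) F' = acl K (F ∪ F') := by
  unfold acl
  simp only [orb_Fx]

lemma orb_mem_invAlg (K : Subgroup (Equiv.Perm ℕ)) (F : Finset ℕ) (a : ℕ) :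
    orb K F a ∈ invAlg K := by
  refine ⟨F, fun h hh hfix b => ?_⟩
  constructor
  · intro hb
    exact orb_trans hb (orb_symm ⟨h, ⟨hh, hfix⟩, rfl⟩)
  · intro hb
    exact orb_trans hb ⟨h, ⟨hh, hfix⟩, rfl⟩

/-- **Classification.** -/
theorem exists_F0 (hO : ∀ F : Finset ℕ, (range (orb K F)).Finite)
    (hU : (freeUlt K).Countable) (hno : ∀ F : Finset ℕ, IsEmpty (GF (Fx K F))) :
    ∃ F0 : Finset ℕ,
      (∀ F : Finset ℕ, (acl (Fx K F0) F).Finite) ∧
      (∀ (F : Finset ℕ) (a : ℕ), a ∈ acl (Fx K F0) F →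
        a ∈ acl (Fx K F0) ∅ ∨ ∃ b ∈ F, a ∈ acl (Fx K F0) {b}) ∧
      (∀ (F : Finset ℕ) (a b : ℕ), a ∉ acl (Fx K F0) F → b ∉ acl (Fx K F0) F →
        b ∈ orb (Fx K F0) ∅ a → b ∈ orb (Fx K F0) F a) ∧
      (range (orb (Fx K F0) ∅)).Finite := by
  classical
  have hno' : IsEmpty (GF K) := by
    have h := hno ∅
    have : Fx K ∅ = K := by
      ext g
      exact ⟨fun h => h.1, fun h => ⟨h, fun a ha => absurd ha (Finset.notMem_empty a)⟩⟩
    rwa [this] at h
  obtain ⟨𝒞, h𝒞1, h𝒞2, h𝒞3⟩ := finite_minimal hO hno'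
  -- the complement of the union is finite
  have hcomp : ((⋃₀ 𝒞)ᶜ).Finite := by
    by_contra hinf
    obtain ⟨D, hDs, hD⟩ := exists_minimal hU
      (invAlg_compl (invAlg_sUnion h𝒞1 fun C hC => (h𝒞2 C hC).1)) hinf
    obtain ⟨C, hC, hDC⟩ := h𝒞3 D hD
    apply hD.2.1
    refine hDC.subset ?_
    intro x hx
    exact Or.inl ⟨hx, fun hxC => hDs hx ⟨C, hC, hxC⟩⟩
  -- a common support
  have hsupp : ∃ F0 : Finset ℕ, ∀ C ∈ 𝒞, ∀ h ∈ Fx K F0, ∀ a, h a ∈ C ↔ a ∈ C := by
    have hch : ∀ C : Set ℕ, ∃ F : Finset ℕ, C ∈ 𝒞 → ∀ h ∈ Fx K F, ∀ a, h a ∈ C ↔ a ∈ C := by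
      intro C
      by_cases hC : C ∈ 𝒞
      · obtain ⟨F, hF⟩ := (h𝒞2 C hC).1
        exact ⟨F, fun _ h hh => hF h hh.1 hh.2⟩
      · exact ⟨∅, fun h => absurd h hC⟩
    choose s hs using hch
    refine ⟨h𝒞1.toFinset.biUnion s, fun C hC h hh => hs C hC h ?_⟩
    exact Fx_anti (Finset.subset_biUnion_of_mem s (by simpa using hC)) hh
  obtain ⟨F0, hF0⟩ := hsupp
  have hOG : ∀ F F' : Finset ℕ, (range (orb (Fx K F) F')).Finite := by
    intro F F'
    have : orb (Fx K F) F' = orb K (F ∪ F') := by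
      funext a; exact orb_Fx K F F' a
    rw [this]
    exact hO _
  have h1 : ∀ F F' : Finset ℕ, (acl (Fx K F) F').Finite := by
    intro F F'
    obtain ⟨b, hb⟩ := bounded_acl (hOG F) F'.card
    exact (hb F' le_rfl).1
  have h3 : ∀ (F : Finset ℕ) (a b : ℕ), a ∉ acl (Fx K F0) F → b ∉ acl (Fx K F0) F →
        b ∈ orb (Fx K F0) ∅ a → b ∈ orb (Fx K F0) F a := by
    intro F a b ha hb hab
    have ha' : (orb (Fx K F0) F a).Infinite := ha
    have hb' : (orb (Fx K F0) F b).Infinite := hb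
    obtain ⟨x, hx, hx'⟩ := (ha'.sdiff hcomp).nonempty
    rw [notMem_compl_iff] at hx'
    obtain ⟨C, hC, hxC⟩ := hx'
    have haC : a ∈ C := by
      obtain ⟨g, hg, rfl⟩ := hx
      exact (hF0 C hC g hg.1 a).1 hxC
    have hbC : b ∈ C := by
      obtain ⟨g, hg, rfl⟩ := hab
      exact (hF0 C hC g hg.1 a).2 haC
    have hsub : ∀ y ∈ C, orb (Fx K F0) F y ⊆ C := by
      rintro y hy _ ⟨g, hg, rfl⟩
      exact (hF0 C hC g hg.1 y).2 hy
    have hdiff : (C \ orb (Fx K F0) F a).Finite := by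
      refine ((h𝒞2 C hC).2.2 (orb (Fx K F0) F a) ?_).resolve_left ?_
      · rw [orb_Fx]; exact orb_mem_invAlg K _ a
      · rw [inter_eq_right.2 (hsub a haC)]; exact ha'
    obtain ⟨z, hz, hz'⟩ := (hb'.sdiff hdiff).nonempty
    have hz2 : z ∈ orb (Fx K F0) F a := by
      by_contra hcon
      exact hz' ⟨hsub b hbC hz, hcon⟩
    exact orb_trans hz2 (orb_symm hz)
  refine ⟨F0, h1 F0, ?_, h3, hOG F0 ∅⟩
  -- triviality
  by_contra hcon
  push Not at hcon
  -- a counterexample of minimal cardinality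
  have hex : ∃ n : ℕ, ∃ (F : Finset ℕ) (a : ℕ), F.card = n ∧ a ∈ acl (Fx K F0) F ∧
      a ∉ acl (Fx K F0) ∅ ∧ ∀ b ∈ F, a ∉ acl (Fx K F0) {b} := by
    obtain ⟨F, a, h⟩ := hcon
    exact ⟨F.card, F, a, rfl, h⟩
  obtain ⟨F, c, hn, hcF, hc0, hcb⟩ := Nat.find_spec hex
  have hmin := fun m (hm : m < Nat.find hex) => Nat.find_min hex hm
  rw [← hn] at hmin
  have hFne : F.Nonempty := by
    rw [Finset.nonempty_iff_ne_empty]
    rintro rfl
    exact hc0 hcF
  obtain ⟨b1, hb1⟩ := hFne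
  have hF1 : (F.erase b1).Nonempty := by
    rw [Finset.nonempty_iff_ne_empty]
    intro h
    have : F = {b1} := by
      rw [← Finset.insert_erase hb1, h]; rfl
    apply hcb b1 hb1
    rwa [← this]
  obtain ⟨b2, hb2⟩ := hF1
  have hb2F : b2 ∈ F := Finset.mem_of_mem_erase hb2
  have hb21 : b2 ≠ b1 := Finset.ne_of_mem_erase hb2
  let F' : Finset ℕ := (F.erase b1).erase b2
  have hFF' : F' ∪ {b1, b2} = F := by
    ext x
    simp only [F', Finset.mem_union, Finset.mem_erase, Finset.mem_insert, Finset.mem_singleton]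
    constructor
    · rintro (h | rfl | rfl)
      · exact h.2.2
      · exact hb1
      · exact hb2F
    · intro hx
      by_cases h1 : x = b1
      · exact Or.inr (Or.inl h1)
      · by_cases h2 : x = b2
        · exact Or.inr (Or.inr h2)
        · exact Or.inl ⟨h2, h1, hx⟩
  have hsmall : ∀ b ∈ F, c ∉ acl (Fx K F0) (F.erase b) := by
    intro b hb h
    refine hmin (F.erase b).card ?_ ⟨F.erase b, c, rfl, h, hc0, fun b' hb' => hcb b'
      (Finset.mem_of_mem_erase hb')⟩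
    exact Finset.card_erase_lt_of_mem hb
  have hkey : ∀ E : Finset ℕ, acl (Fx K (F0 ∪ F')) E = acl (Fx K F0) (F' ∪ E) := by
    intro E
    rw [acl_Fx, acl_Fx, Finset.union_assoc]
  have hkeyo : ∀ (E : Finset ℕ) (a : ℕ), orb (Fx K (F0 ∪ F')) E a = orb (Fx K F0) (F' ∪ E) a := by
    intro E a
    rw [orb_Fx, orb_Fx, Finset.union_assoc]
  obtain ⟨bd, hbd⟩ := bounded_acl (hOG (F0 ∪ F')) 2
  refine (hno (F0 ∪ F')).false (gfam (G := Fx K (F0 ∪ F')) (a := b1) (b := b2) (c := c) (bd := bd)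
    (h1 _) ?_ ?_ ?_ ?_ ?_)
  · intro E a b ha hb hab
    rw [hkeyo]
    rw [hkey] at ha hb
    refine h3 _ a b ha hb ?_
    rw [hkeyo] at hab
    exact orb_anti (Finset.empty_subset _) _ hab
  · intro x y
    exact (hbd {x, y} (Finset.card_le_two)).2
  · rw [hkey, hFF']; exact hcF
  · rw [hkey]
    intro h
    apply hsmall b2 hb2F
    refine acl_mono ?_ h
    intro x hx
    simp only [F', Finset.mem_union, Finset.mem_erase, Finset.mem_singleton] at hx ⊢
    rcases hx with h | rfl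
    · exact ⟨h.1, h.2.2⟩
    · exact ⟨hb21.symm, hb1⟩
  · rw [hkey]
    intro h
    apply hsmall b1 hb1
    refine acl_mono ?_ h
    intro x hx
    simp only [F', Finset.mem_union, Finset.mem_erase, Finset.mem_singleton] at hx ⊢
    rcases hx with h | rfl
    · exact ⟨h.2.1, h.2.2⟩
    · exact ⟨hb21, hb2F⟩

end

end Cl

end Pool.Agent.H71
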