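import Mathlib

/-!
Coding `σ : ℕ → Bool` by subsets and by partitions into `r`-element sets of a countable set with
a total preorder (given by a map `ρ` to a linear order) with infinitely many classes.
-/

set_option autoImplicit false

open Set

namespace Pool.Agent.H71

namespace Weak

lemma strictMono_nat_id {m : ℕ → ℕ} (h : StrictMono m) (hs : Function.Surjective m) :
    ∀ n, m n = n := by
  intro n
  induction n using Nat.strong_induction_on with
  | _ n ih =>
    have h1 : n ≤ m n := h.le_apply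
    obtain ⟨k, hk⟩ := hs n
    rcases lt_trichotomy k n with h2 | h2 | h2
    · have := ih k h2
      omega
    · rw [← h2, hk, h2]
    · have := h h2
      omega

/-- `π` preserves the strict part of the preorder -/
def OP {L Λ : Type*} [LinearOrder Λ] (ρ : L → Λ) (π : L ≃ L) : Prop :=
  ∀ s t, ρ (π s) < ρ (π t) ↔ ρ s < ρ t

section

variable {L Λ : Type*} [LinearOrder Λ] {ρ : L → Λ} {π : L ≃ L}

lemma OP.le (h : OP ρ π) (s t : L) : ρ (π s) ≤ ρ (π t) ↔ ρ s ≤ ρ t := by
  rw [← not_lt, ← not_lt, h]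

lemma OP.eq (h : OP ρ π) (s t : L) : ρ (π s) = ρ (π t) ↔ ρ s = ρ t := by
  rw [le_antisymm_iff, le_antisymm_iff, h.le, h.le]

lemma OP.symm (h : OP ρ π) : OP ρ π.symm := by
  intro s t
  rw [← h, π.apply_symm_apply, π.apply_symm_apply]

/-- rigidity of increasing sequences of classes -/
lemma rigid (hπ : OP ρ π) (p : ℕ → L) (hp : StrictMono (ρ ∘ p))
    (h : ∀ t, ρ (π t) ∈ range (ρ ∘ p) ↔ ρ t ∈ range (ρ ∘ p)) (n : ℕ) : ρ (π (p n)) = ρ (p n) := by
  choose m hm using fun n => (h (p n)).2 ⟨n, rfl⟩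
  simp only [Function.comp] at hm
  have hmono : StrictMono m := by
    intro a b hab
    have := (hπ (p a) (p b)).2 (hp hab)
    rw [← hm, ← hm] at this
    exact hp.lt_iff_lt.1 this
  have hsurj : Function.Surjective m := by
    intro k
    obtain ⟨j, hj⟩ := (h (π.symm (p k))).1 (by rw [π.apply_symm_apply]; exact ⟨k, rfl⟩)
    refine ⟨j, hp.injective ?_⟩
    simp only [Function.comp] at hj ⊢
    rw [hm, ← π.apply_symm_apply (p k), hπ.eq, hj]
  rw [← hm, strictMono_nat_id hmono hsurj]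

/-- rigidity of sequences of elements -/
lemma rigid' (hπ : OP ρ π) (p : ℕ → L) (hp : StrictMono (ρ ∘ p))
    (h : ∀ t, π t ∈ range p ↔ t ∈ range p) (n : ℕ) : π (p n) = p n := by
  choose m hm using fun n => (h (p n)).2 ⟨n, rfl⟩
  have hmono : StrictMono m := by
    intro a b hab
    have := (hπ (p a) (p b)).2 (hp hab)
    rw [← hm, ← hm] at this
    exact hp.lt_iff_lt.1 this
  have hsurj : Function.Surjective m := by
    intro k
    obtain ⟨j, hj⟩ := (h (π.symm (p k))).1 (by rw [π.apply_symm_apply]; exact ⟨k, rfl⟩)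
    refine ⟨j, hp.injective ?_⟩
    simp only [Function.comp]
    rw [hm, hj, π.apply_symm_apply]
  rw [← hm, strictMono_nat_id hmono hsurj]

end

/-- a map with infinite range has an increasing or a decreasing sequence of values -/
lemma exists_seq {L Λ : Type*} [LinearOrder Λ] {ρ : L → Λ} (h : (range ρ).Infinite) :
    (∃ p : ℕ → L, StrictMono (ρ ∘ p)) ∨
      ∃ p : ℕ → L, StrictMono ((fun t => OrderDual.toDual (ρ t)) ∘ p) := by
  have : Infinite (range ρ) := h.to_subtype
  let f := Infinite.natEmbedding (range ρ)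
  choose s hs using fun n => (f n).2
  obtain ⟨g, hg⟩ := exists_increasing_or_nonincreasing_subseq (fun a b : range ρ => a.1 < b.1) f
  rcases hg with hg | hg
  · refine Or.inl ⟨fun n => s (g n), fun m n hmn => ?_⟩
    simp only [Function.comp, hs]
    exact hg m n hmn
  · refine Or.inr ⟨fun n => s (g n), fun m n hmn => ?_⟩
    have h1 := hg m n hmn
    have h2 : (f (g m)).1 ≠ (f (g n)).1 := fun h => hmn.ne (g.injective (f.injective (Subtype.ext h)))
    simp only [Function.comp, hs]
    change (f (g n)).1 < (f (g m)).1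
    exact lt_of_le_of_ne (not_lt.1 h1) h2.symm

/-! ### coding by subsets -/

/-- the coding statement for subsets -/
def CodeSet {L Λ : Type*} [LinearOrder Λ] (ρ : L → Λ) : Prop :=
  ∃ A : (ℕ → Bool) → Set L, (∀ σ, (A σ).Infinite) ∧ (∀ σ, (A σ)ᶜ.Infinite) ∧
    (∀ t, MeasurableSet {σ | t ∈ A σ}) ∧
    ∀ σ τ, ∀ π : L ≃ L, OP ρ π → (∀ t, π t ∈ A τ ↔ t ∈ A σ) → σ = τ

lemma OP.dual {L Λ : Type*} [LinearOrder Λ] {ρ : L → Λ} {π : L ≃ L} (h : OP ρ π) :
    OP (fun t => OrderDual.toDual (ρ t)) π := fun s t => h t s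

lemma CodeSet.dual {L Λ : Type*} [LinearOrder Λ] {ρ : L → Λ}
    (h : CodeSet (fun t => OrderDual.toDual (ρ t))) : CodeSet ρ := by
  obtain ⟨A, h1, h2, h3, h4⟩ := h
  exact ⟨A, h1, h2, h3, fun σ τ π hπ hA => h4 σ τ π hπ.dual hA⟩

/-- left ends of the convex components -/
def lefts {L Λ : Type*} [LinearOrder Λ] (ρ : L → Λ) (A : Set L) : Set L :=
  {x | x ∈ A ∧ ∀ y ∈ A, ρ y < ρ x → ∃ z, z ∉ A ∧ ρ y < ρ z ∧ ρ z < ρ x}

lemma lefts_map' {L Λ : Type*} [LinearOrder Λ] {ρ : L → Λ} {π : L ≃ L} (hπ : OP ρ π) {A B : Set L}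
    (h : ∀ t, π t ∈ B ↔ t ∈ A) (t : L) (ht : t ∈ lefts ρ A) : π t ∈ lefts ρ B := by
  obtain ⟨h1, h2⟩ := ht
  refine ⟨(h t).2 h1, fun y hy hyt => ?_⟩
  obtain ⟨z, hz, hyz, hzt⟩ := h2 (π.symm y) ((h _).1 (by rwa [π.apply_symm_apply]))
    (by rwa [← hπ, π.apply_symm_apply])
  refine ⟨π z, fun hmem => hz ((h z).1 hmem), ?_, (hπ _ _).2 hzt⟩
  rwa [← hπ, π.apply_symm_apply] at hyz

lemma lefts_map {L Λ : Type*} [LinearOrder Λ] {ρ : L → Λ} {π : L ≃ L} (hπ : OP ρ π) {A B : Set L}
    (h : ∀ t, π t ∈ B ↔ t ∈ A) (t : L) : π t ∈ lefts ρ B ↔ t ∈ lefts ρ A := by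
  refine ⟨fun ht => ?_, lefts_map' hπ h t⟩
  have := lefts_map' hπ.symm (A := B) (B := A) (fun t => by rw [← h, π.apply_symm_apply]) _ ht
  rwa [π.symm_apply_apply] at this

theorem codeSet_of_seq {L Λ : Type*} [LinearOrder Λ] {ρ : L → Λ} {p : ℕ → L}
    (hp : StrictMono (ρ ∘ p)) : CodeSet ρ := by
  let A : (ℕ → Bool) → Set L := fun σ =>
    {t | ∃ n, ρ (p (3 * n)) ≤ ρ t ∧ ρ t ≤ ρ (p (3 * n + 1)) ∧ (ρ t = ρ (p (3 * n)) ∨ σ n = true)}
  have hlt : ∀ {a b : ℕ}, ρ (p a) < ρ (p b) ↔ a < b := fun {a b} => hp.lt_iff_lt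
  have hle : ∀ {a b : ℕ}, ρ (p a) ≤ ρ (p b) ↔ a ≤ b := fun {a b} => hp.le_iff_le
  have hpinj : Function.Injective p := fun a b hab => hp.injective (congrArg ρ hab)
  have hmem : ∀ σ n, p (3 * n) ∈ A σ := fun σ n => ⟨n, le_rfl, hle.2 (by omega), Or.inl rfl⟩
  have hnot : ∀ σ n, p (3 * n + 2) ∉ A σ := by
    rintro σ n ⟨m, h1, h2, -⟩
    rw [hle] at h1 h2
    omega
  have hlefts : ∀ σ x, x ∈ lefts ρ (A σ) ↔ ρ x ∈ range (ρ ∘ fun n : ℕ => p (3 * n)) := by
    intro σ x
    constructor
    · rintro ⟨⟨n, h1, h2, h3⟩, h4⟩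
      by_contra hne
      have hx : ρ (p (3 * n)) ≠ ρ x := fun h => hne ⟨n, h⟩
      have hσ : σ n = true := by
        rcases h3 with h3 | h3
        · exact absurd h3.symm hx
        · exact h3
      obtain ⟨z, hz, hyz, hzx⟩ := h4 _ (hmem σ n) (lt_of_le_of_ne h1 hx)
      exact hz ⟨n, hyz.le, hzx.le.trans h2, Or.inr hσ⟩
    · rintro ⟨n, hn⟩
      simp only [Function.comp] at hn
      refine ⟨⟨n, hn.le, ?_, Or.inl hn.symm⟩, ?_⟩
      · rw [← hn, hle]; omega
      rintro y ⟨m, h1, h2, -⟩ hy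
      rw [← hn] at hy ⊢
      have hmn : m < n := by
        by_contra hcon
        have : ρ (p (3 * n)) ≤ ρ (p (3 * m)) := hle.2 (by omega)
        exact absurd hy (not_lt.2 (this.trans h1))
      exact ⟨p (3 * m + 2), hnot σ m, lt_of_le_of_lt h2 (hlt.2 (by omega)), hlt.2 (by omega)⟩
  refine ⟨A, ?_, ?_, ?_, ?_⟩
  · intro σ
    have : range (fun n : ℕ => p (3 * n)) ⊆ A σ := by
      rintro _ ⟨n, rfl⟩
      exact hmem σ n
    refine Set.Infinite.mono this (Set.infinite_range_of_injective ?_)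
    intro a b hab
    have := hpinj hab
    omega
  · intro σ
    have : range (fun n : ℕ => p (3 * n + 2)) ⊆ (A σ)ᶜ := by
      rintro _ ⟨n, rfl⟩
      exact hnot σ n
    refine Set.Infinite.mono this (Set.infinite_range_of_injective ?_)
    intro a b hab
    have := hpinj hab
    omega
  · intro t
    have : {σ | t ∈ A σ} = ⋃ n, {σ : ℕ → Bool | ρ (p (3 * n)) ≤ ρ t ∧ ρ t ≤ ρ (p (3 * n + 1)) ∧
        (ρ t = ρ (p (3 * n)) ∨ σ n = true)} := by
      ext σ
      simp only [A, mem_ofPred_eq, mem_iUnion]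
    rw [this]
    refine MeasurableSet.iUnion fun n => ?_
    have : {σ : ℕ → Bool | ρ (p (3 * n)) ≤ ρ t ∧ ρ t ≤ ρ (p (3 * n + 1)) ∧
        (ρ t = ρ (p (3 * n)) ∨ σ n = true)} =
        (fun σ : ℕ → Bool => σ n) ⁻¹' {b | ρ (p (3 * n)) ≤ ρ t ∧ ρ t ≤ ρ (p (3 * n + 1)) ∧
          (ρ t = ρ (p (3 * n)) ∨ b = true)} := rfl
    rw [this]
    exact (measurable_pi_apply n) (Set.to_countable _).measurableSet
  · intro σ τ π hπ hA
    have hfix : ∀ n, ρ (π (p (3 * n))) = ρ (p (3 * n)) := by
      intro n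
      refine rigid hπ (fun n : ℕ => p (3 * n)) (fun a b hab => hlt.2 (by omega)) ?_ n
      intro t
      have := lefts_map hπ hA t
      rwa [hlefts, hlefts] at this
    have key : ∀ (ρ' : ℕ → Bool) (n : ℕ), ρ' n = true ↔
        ∃ y ∈ A ρ', ρ (p (3 * n)) < ρ y ∧ ρ y < ρ (p (3 * (n + 1))) := by
      intro ρ' n
      constructor
      · intro hρ
        exact ⟨p (3 * n + 1), ⟨n, hle.2 (by omega), le_rfl, Or.inr hρ⟩, hlt.2 (by omega),
          hlt.2 (by omega)⟩
      · rintro ⟨y, ⟨m, h1, h2, h3⟩, h4, h5⟩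
        have h6 : m < n + 1 := by
          have := lt_of_le_of_lt h1 h5
          rw [hlt] at this
          omega
        have h7 : n ≤ m := by
          have := lt_of_lt_of_le h4 h2
          rw [hlt] at this
          omega
        have : m = n := by omega
        subst this
        rcases h3 with h3 | h3
        · exact absurd h3 h4.ne'
        · exact h3
    funext n
    have : σ n = true ↔ τ n = true := by
      rw [key σ n, key τ n]
      constructor
      · rintro ⟨y, hy, h1, h2⟩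
        refine ⟨π y, (hA y).2 hy, ?_, ?_⟩
        · rw [← hfix n]; exact (hπ _ _).2 h1
        · rw [← hfix (n + 1)]; exact (hπ _ _).2 h2
      · rintro ⟨y, hy, h1, h2⟩
        refine ⟨π.symm y, (hA _).1 (by rwa [π.apply_symm_apply]), ?_, ?_⟩
        · rw [← hπ, π.apply_symm_apply, hfix n]; exact h1
        · rw [← hπ, π.apply_symm_apply, hfix (n + 1)]; exact h2
    exact Bool.eq_iff_iff.2 this

theorem codeSet {L Λ : Type*} [LinearOrder Λ] {ρ : L → Λ} (h : (range ρ).Infinite) :
    CodeSet ρ := by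
  rcases exists_seq h with ⟨p, hp⟩ | ⟨p, hp⟩
  · exact codeSet_of_seq hp
  · exact CodeSet.dual (codeSet_of_seq hp)

/-! ### partitions of a countable set into `r`-sets each satisfying a property -/

/-- greedy partition -/
theorem greedy {U : Type*} [Countable U] [Infinite U] {r : ℕ} (good : Finset U → Prop)
    (hgood : ∀ (S : Finset U) (u : U), u ∉ S → ∃ c : Finset U, u ∈ c ∧ c.card = r ∧
      Disjoint c S ∧ good c) :
    ∃ c : ℕ → Finset U, (∀ n, (c n).card = r) ∧ (∀ n, good (c n)) ∧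
      (∀ m n, m ≠ n → Disjoint (c m) (c n)) ∧ ∀ u, ∃ n, u ∈ c n := by
  classical
  obtain ⟨e⟩ : Nonempty (U ≃ ℕ) := nonempty_equiv_of_countable
  -- least unused element
  have hun : ∀ S : Finset U, ∃ u : U, u ∉ S ∧ ∀ v, v ∉ S → e u ≤ e v := by
    intro S
    have hex : ∃ n, e.symm n ∉ S := by
      obtain ⟨u, hu⟩ := Infinite.exists_notMem_finset S
      exact ⟨e u, by simpa using hu⟩
    refine ⟨e.symm (Nat.find hex), Nat.find_spec hex, fun v hv => ?_⟩
    rw [e.apply_symm_apply]
    exact Nat.find_min' hex (by simpa using hv)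
  choose nxt hn1 hn2 using hun
  have hcl : ∀ S : Finset U, ∃ c : Finset U, nxt S ∈ c ∧ c.card = r ∧ Disjoint c S ∧ good c :=
    fun S => hgood S (nxt S) (hn1 S)
  choose cl hc1 hc2 hc3 hc4 using hcl
  let St : ℕ → Finset U := fun n => Nat.rec ∅ (fun _ S => S ∪ cl S) n
  have hSt : ∀ n, St (n + 1) = St n ∪ cl (St n) := fun n => rfl
  have hmono : ∀ m n, m ≤ n → St m ⊆ St n := by
    intro m n hmn
    induction n with
    | zero =>
      have : m = 0 := by omega
      subst this; exact subset_rfl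
    | succ n ih =>
      rcases Nat.lt_or_ge n m with h | h
      · have : m = n + 1 := by omega
        subst this; exact subset_rfl
      · exact (ih h).trans (by rw [hSt]; exact Finset.subset_union_left)
  refine ⟨fun n => cl (St n), fun n => hc2 _, fun n => hc4 _, ?_, ?_⟩
  · have key : ∀ m n, m < n → Disjoint (cl (St m)) (cl (St n)) := by
      intro m n hmn
      have h1 : cl (St m) ⊆ St n := by
        refine Finset.Subset.trans ?_ (hmono (m + 1) n hmn)
        rw [hSt]; exact Finset.subset_union_right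
      exact (Finset.disjoint_of_subset_right h1 (hc3 (St n))).symm
    intro m n hne
    rcases lt_or_gt_of_ne hne with h | h
    · exact key m n h
    · exact (key n m h).symm
  · -- every element is used
    have huse : ∀ k : ℕ, ∀ u, e u < k → ∃ n, u ∈ St n := by
      intro k
      induction k with
      | zero => intro u hu; omega
      | succ k ih =>
        intro u hu
        by_cases hk : e u < k
        · exact ih u hk
        · have huk : e u = k := by omega
          -- all smaller elements are in some St n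
          have hN : ∃ N, ∀ v, e v < k → v ∈ St N := by
            have hfin : {v : U | e v < k}.Finite := (Set.finite_Iio k).preimage e.injective.injOn
            choose! ν hν using ih
            refine ⟨hfin.toFinset.sup ν, fun v hv => ?_⟩
            exact hmono (ν v) _ (Finset.le_sup (by simpa using hv)) (hν v hv)
          obtain ⟨N, hN⟩ := hN
          rcases Classical.em (u ∈ St N) with hu' | hu'
          · exact ⟨N, hu'⟩
          · have h1 : nxt (St N) = u := by
              apply e.injective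
              apply le_antisymm (hn2 _ u hu')
              by_contra hlt
              exact hn1 (St N) (hN _ (by omega))
            refine ⟨N + 1, ?_⟩
            rw [hSt]
            exact Finset.mem_union_right _ (h1 ▸ hc1 (St N))
    have hback : ∀ n u, u ∈ St n → ∃ m, u ∈ cl (St m) := by
      intro n
      induction n with
      | zero => intro u hu; exact absurd hu (Finset.notMem_empty u)
      | succ n ih =>
        intro u hu
        rw [hSt, Finset.mem_union] at hu
        rcases hu with hu | hu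
        · exact ih u hu
        · exact ⟨n, hu⟩
    intro u
    obtain ⟨n, hn⟩ := huse (e u + 1) u (by omega)
    exact hback n u hn

/-! ### coding by partitions into `r`-element sets -/

/-- if all fibres of `f` have `r` elements then the fibration is trivial -/
lemma exists_equiv_prod {α ι : Type*} (f : α → ι) {r : ℕ}
    (hfib : ∀ i, Nonempty ({a // f a = i} ≃ Fin r)) :
    ∃ β : α ≃ Fin r × ι, ∀ a, (β a).2 = f a := by
  have hfib' := fun q => (hfib q).some
  exact ⟨((Equiv.sigmaFiberEquiv f).symm.trans (Equiv.sigmaCongrRight hfib')).trans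
      ((Equiv.sigmaEquivProd _ _).trans (Equiv.prodComm _ _)), fun a => rfl⟩

/-- split a block of `2r` elements into two classes: the first and the second half (`false`) or
the even and the odd elements (`true`) -/
def split {r : ℕ} (hr : 2 ≤ r) (b : Bool) : Fin (2 * r) ≃ Fin r × Fin 2 :=
  match b with
  | false =>
    { toFun := fun j => (⟨j % r, Nat.mod_lt _ (by omega)⟩, ⟨j / r, by
        have := j.2
        rw [Nat.div_lt_iff_lt_mul (by omega)]; exact this⟩)
      invFun := fun x => ⟨x.1 + r * x.2, by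
        have h1 := x.1.2
        have h2 : (x.2 : ℕ) ≤ 1 := by omega
        have h3 : r * x.2 ≤ r * 1 := Nat.mul_le_mul_left r h2
        omega⟩
      left_inv := fun j => Fin.ext (Nat.mod_add_div _ _)
      right_inv := fun x => by
        have h1 := x.1.2
        refine Prod.ext (Fin.ext ?_) (Fin.ext ?_)
        · change ((x.1 : ℕ) + r * x.2) % r = x.1
          rw [Nat.add_mul_mod_self_left, Nat.mod_eq_of_lt h1]
        · change ((x.1 : ℕ) + r * x.2) / r = x.2
          rw [Nat.add_mul_div_left _ _ (by omega), Nat.div_eq_of_lt h1, Nat.zero_add] }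
  | true =>
    { toFun := fun j => (⟨j / 2, by have := j.2; omega⟩, ⟨j % 2, by omega⟩)
      invFun := fun x => ⟨2 * x.1 + x.2, by have := x.1.2; have := x.2.2; omega⟩
      left_inv := fun j => Fin.ext (by
        change 2 * ((j : ℕ) / 2) + (j : ℕ) % 2 = j
        omega)
      right_inv := fun x => by
        have h2 := x.2.2
        refine Prod.ext (Fin.ext ?_) (Fin.ext ?_)
        · change (2 * (x.1 : ℕ) + x.2) / 2 = x.1
          omega
        · change (2 * (x.1 : ℕ) + x.2) % 2 = x.2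
          omega }

/-- classes of natural numbers -/
def blk {r : ℕ} (hr : 2 ≤ r) (σ : ℕ → Bool) : ℕ ≃ Fin r × (ℕ × Fin 2) :=
  have : NeZero (2 * r) := ⟨by omega⟩
  ((Nat.divModEquiv (2 * r)).trans
    { toFun := fun x => (x.1, split hr (σ x.1) x.2)
      invFun := fun x => (x.1, (split hr (σ x.1)).symm x.2)
      left_inv := fun x => by simp
      right_inv := fun x => by simp }).trans
    { toFun := fun x => (x.2.1, (x.1, x.2.2))
      invFun := fun x => (x.2.1, (x.1, x.2.2))
      left_inv := fun x => rfl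
      right_inv := fun x => rfl }

lemma blk_snd {r : ℕ} (hr : 2 ≤ r) (σ : ℕ → Bool) (n : ℕ) :
    (blk hr σ n).2 = (n / (2 * r), (split hr (σ (n / (2 * r))) ⟨n % (2 * r), Nat.mod_lt _ (by omega)⟩).2) := rfl

lemma blk_eq {r : ℕ} (hr : 2 ≤ r) (σ : ℕ → Bool) (n : ℕ) :
    blk hr σ n = ((split hr (σ (n / (2 * r))) ⟨n % (2 * r), Nat.mod_lt _ (by omega)⟩).1,
      (n / (2 * r), (split hr (σ (n / (2 * r))) ⟨n % (2 * r), Nat.mod_lt _ (by omega)⟩).2)) := rfl

lemma split_zero {r : ℕ} (hr : 2 ≤ r) (b : Bool) (j : Fin (2 * r)) (hj : (j : ℕ) = 0) :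
    (split hr b j).2 = 0 := by
  apply Fin.ext
  cases b
  · change (j : ℕ) / r = 0
    rw [hj, Nat.zero_div]
  · change (j : ℕ) % 2 = 0
    omega

lemma split_last {r : ℕ} (hr : 2 ≤ r) (b : Bool) (j : Fin (2 * r)) (hj : (j : ℕ) = 2 * r - 1) :
    (split hr b j).2 = 1 := by
  apply Fin.ext
  cases b
  · change (j : ℕ) / r = 1
    rw [hj]
    have h : (2 * r - 1) = (r - 1) + r * 1 := by omega
    rw [h, Nat.add_mul_div_left _ _ (by omega), Nat.div_eq_of_lt (by omega)]
  · change (j : ℕ) % 2 = 1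
    omega

lemma split_one {r : ℕ} (hr : 2 ≤ r) (b : Bool) (j : Fin (2 * r)) (hj : (j : ℕ) = 1) :
    (split hr b j).2 = 0 ↔ b = false := by
  cases b
  · simp only [iff_true]
    apply Fin.ext
    change (j : ℕ) / r = 0
    rw [hj]
    exact Nat.div_eq_of_lt (by omega)
  · simp only [Bool.true_eq_false, iff_false]
    intro h
    have h1 : (j : ℕ) % 2 = 0 := congrArg Fin.val h
    omega

/-- index type of classes -/
abbrev QQ : Type := (ℕ × Fin 2) ⊕ ℕ

/-- the coding statement for partitions -/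
def CodePart {L Λ : Type*} [LinearOrder Λ] (ρ : L → Λ) (r : ℕ) : Prop :=
  ∃ β : (ℕ → Bool) → (L ≃ Fin r × QQ), (∀ t s, MeasurableSet {σ | β σ t = s}) ∧
    ∀ σ τ, ∀ π : L ≃ L, OP ρ π →
      (∀ s t, (β τ (π s)).2 = (β τ (π t)).2 ↔ (β σ s).2 = (β σ t).2) → σ = τ

lemma CodePart.dual {L Λ : Type*} [LinearOrder Λ] {ρ : L → Λ} {r : ℕ}
    (h : CodePart (fun t => OrderDual.toDual (ρ t)) r) : CodePart ρ r := by
  obtain ⟨β, h1, h2⟩ := h
  exact ⟨β, h1, fun σ τ π hπ hE => h2 σ τ π hπ.dual hE⟩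

/-- `t` is special: no other class lies inside the convex hull of the class of `t` -/
def Special {L Λ : Type*} [LinearOrder Λ] (ρ : L → Λ) (E : L → L → Prop) (t : L) : Prop :=
  ∀ s, ¬ E s t → ∃ s', E s' s ∧ ¬ ∃ a b, E a t ∧ E b t ∧ ρ a ≤ ρ s' ∧ ρ s' ≤ ρ b

lemma special_map' {L Λ : Type*} [LinearOrder Λ] {ρ : L → Λ} {π : L ≃ L} (hπ : OP ρ π)
    {E E' : L → L → Prop}
    (h : ∀ s t, E' (π s) (π t) ↔ E s t) (t : L) (H : Special ρ E t) : Special ρ E' (π t) := by
  intro s hs
  obtain ⟨s', h1, h2⟩ := H (π.symm s) (by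
    rw [← h, π.apply_symm_apply]; exact hs)
  refine ⟨π s', ?_, ?_⟩
  · rw [← π.apply_symm_apply s, h]; exact h1
  · rintro ⟨a, b, ha, hb, h3, h4⟩
    refine h2 ⟨π.symm a, π.symm b, ?_, ?_, ?_, ?_⟩
    · rw [← h, π.apply_symm_apply]; exact ha
    · rw [← h, π.apply_symm_apply]; exact hb
    · rw [← hπ.le, π.apply_symm_apply]; exact h3
    · rw [← hπ.le, π.apply_symm_apply]; exact h4

lemma special_map {L Λ : Type*} [LinearOrder Λ] {ρ : L → Λ} {π : L ≃ L} (hπ : OP ρ π)
    {E E' : L → L → Prop}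
    (h : ∀ s t, E' (π s) (π t) ↔ E s t) (t : L) : Special ρ E' (π t) ↔ Special ρ E t := by
  refine ⟨fun H => ?_, special_map' hπ h t⟩
  have := special_map' hπ.symm (E := E') (E' := E)
    (fun s t => by rw [← h, π.apply_symm_apply, π.apply_symm_apply]) _ H
  rwa [π.symm_apply_apply] at this

theorem codePart_of_seq {L Λ : Type*} [LinearOrder Λ] [Countable L] {ρ : L → Λ} {p : ℕ → L}
    (hp : StrictMono (ρ ∘ p)) {r : ℕ} (hr : 2 ≤ r) : CodePart ρ r := by
  classical
  let q : ℕ → L := fun n => p (2 * n)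
  let w : ℕ → L := fun n => p (2 * n + 1)
  have hq : StrictMono (ρ ∘ q) := fun a b hab => hp (by omega)
  have hlt : ∀ {a b : ℕ}, ρ (p a) < ρ (p b) ↔ a < b := fun {a b} => hp.lt_iff_lt
  have hqlt : ∀ {a b : ℕ}, ρ (q a) < ρ (q b) ↔ a < b := fun {a b} => hq.lt_iff_lt
  have hqle : ∀ {a b : ℕ}, ρ (q a) ≤ ρ (q b) ↔ a ≤ b := fun {a b} => hq.le_iff_le
  have hpinj : Function.Injective p := fun a b hab => hp.injective (congrArg ρ hab)
  have hqinj : Function.Injective q := fun a b hab => hq.injective (congrArg ρ hab)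
  have hwq : ∀ n, w n ∉ range q := by
    rintro n ⟨m, hm⟩
    have : 2 * m = 2 * n + 1 := hpinj hm
    omega
  let U := {t : L // t ∉ range q}
  let wU : ℕ → U := fun n => ⟨w n, hwq n⟩
  have hwinj : Function.Injective wU := by
    intro a b hab
    have h1 : w a = w b := congrArg Subtype.val hab
    have : 2 * a + 1 = 2 * b + 1 := hpinj h1
    omega
  have : Infinite U := Infinite.of_injective wU hwinj
  let good : Finset U → Prop := fun c =>
    ∃ k : ℕ, (∃ x ∈ c, ρ (x : L) < ρ (q (2 * r * k))) ∧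
      ∃ y ∈ c, ρ (q (2 * r * k + 2 * r - 1)) < ρ (y : L)
  have hgood : ∀ (S : Finset U) (u : U), u ∉ S → ∃ c : Finset U, u ∈ c ∧ c.card = r ∧
      Disjoint c S ∧ good c := by
    intro S u hu
    -- the partner
    have hpart : ∃ v : U, v ∉ S ∧ v ≠ u ∧ ∀ c : Finset U, u ∈ c → v ∈ c → good c := by
      have hbig : ∀ N, ∃ j, N ≤ j ∧ wU j ∉ S ∧ wU j ≠ u := by
        intro N
        have hfin : {j : ℕ | wU j ∈ insert u S}.Finite :=
          (Finset.finite_toSet (insert u S)).preimage hwinj.injOn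
        obtain ⟨M', hM'⟩ := hfin.bddAbove
        have hj' : wU (max N (M' + 1)) ∉ insert u S := by
          intro hmem
          have h1 : max N (M' + 1) ≤ M' := hM' hmem
          omega
        refine ⟨max N (M' + 1), le_max_left _ _, ?_, ?_⟩
        · intro hmem
          exact hj' (by simp [hmem])
        · intro hmem
          exact hj' (by simp [hmem])
      by_cases hcase : ∃ n, ρ (u : L) < ρ (q n)
      · obtain ⟨n, hn⟩ := hcase
        obtain ⟨j, hj, hj1, hj2⟩ := hbig (2 * r * n + 2 * r)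
        refine ⟨wU j, hj1, hj2, fun c huc hvc => ⟨n, ⟨u, huc, ?_⟩, ⟨wU j, hvc, ?_⟩⟩⟩
        · have : n ≤ 2 * r * n := by nlinarith
          exact lt_of_lt_of_le hn (hqle.2 this)
        · change ρ (p (2 * (2 * r * n + 2 * r - 1))) < ρ (p (2 * j + 1))
          rw [hlt]; omega
      · push Not at hcase
        have hgt : ∀ n, ρ (q n) < ρ (u : L) := fun n =>
          lt_of_lt_of_le (hqlt.2 (Nat.lt_succ_self n)) (hcase (n + 1))
        obtain ⟨j, hj, hj1, hj2⟩ := hbig 0
        refine ⟨wU j, hj1, hj2, fun c huc hvc => ⟨j + 1, ⟨wU j, hvc, ?_⟩, ⟨u, huc, hgt _⟩⟩⟩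
        change ρ (p (2 * j + 1)) < ρ (p (2 * (2 * r * (j + 1))))
        rw [hlt]
        nlinarith
    obtain ⟨v, hv1, hv2, hv3⟩ := hpart
    obtain ⟨t, ht1, ht2⟩ := Infinite.exists_superset_card_eq (insert u (insert v S)) (S.card + r) (by
      rw [Finset.card_insert_of_notMem (by
        simp only [Finset.mem_insert, not_or]; exact ⟨hv2.symm, hu⟩),
        Finset.card_insert_of_notMem hv1]
      omega)
    have hSt : S ⊆ t := fun x hx => ht1 (by simp [hx])
    have hut : u ∈ t \ S := Finset.mem_sdiff.2 ⟨ht1 (by simp), hu⟩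
    have hvt : v ∈ t \ S := Finset.mem_sdiff.2 ⟨ht1 (by simp), hv1⟩
    refine ⟨t \ S, hut, ?_, Finset.sdiff_disjoint, hv3 _ hut hvt⟩
    rw [Finset.card_sdiff_of_subset hSt, ht2]
    omega
  obtain ⟨c, hc1, hc2, hc3, hc4⟩ := greedy good hgood
  choose ix hix using hc4
  have hix' : ∀ u n, u ∈ c n → ix u = n := by
    intro u n hun
    by_contra hne
    exact Finset.disjoint_left.1 (hc3 _ _ hne) (hix u) hun
  obtain ⟨γ, hγ⟩ := exists_equiv_prod ix (r := r) (by
    intro n
    have e : {u // ix u = n} ≃ c n :=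
      { toFun := fun u => ⟨u.1, by have := hix u.1; rwa [u.2] at this⟩
        invFun := fun u => ⟨u.1, hix' u.1 n u.2⟩
        left_inv := fun u => rfl
        right_inv := fun u => rfl }
    exact ⟨e.trans (Finset.equivFinOfCardEq (hc1 n))⟩)
  let eR : ℕ ≃ {t : L // t ∈ range q} := Equiv.ofInjective q hqinj
  let β : (ℕ → Bool) → (L ≃ Fin r × QQ) := fun σ =>
    ((Equiv.sumCompl (fun t : L => t ∈ range q)).symm.trans
      (Equiv.sumCongr (eR.symm.trans (blk hr σ)) γ)).trans (Equiv.prodSumDistrib _ _ _).symm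
  have hβq : ∀ σ n, β σ (q n) = ((blk hr σ n).1, Sum.inl (blk hr σ n).2) := by
    intro σ n
    change (Equiv.prodSumDistrib _ _ _).symm ((Equiv.sumCongr (eR.symm.trans (blk hr σ)) γ)
      ((Equiv.sumCompl (fun t : L => t ∈ range q)).symm (q n))) = _
    rw [Equiv.sumCompl_symm_apply_of_pos (p := fun t : L => t ∈ range q) (a := q n) ⟨n, rfl⟩]
    change (Equiv.prodSumDistrib _ _ _).symm (Sum.inl (blk hr σ (eR.symm ⟨q n, ⟨n, rfl⟩⟩))) = _
    have : eR.symm ⟨q n, ⟨n, rfl⟩⟩ = n := eR.symm_apply_apply n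
    rw [this]
    rfl
  have hβU : ∀ σ (u : U), β σ u = ((γ u).1, Sum.inr (γ u).2) := by
    intro σ u
    change (Equiv.prodSumDistrib _ _ _).symm ((Equiv.sumCongr (eR.symm.trans (blk hr σ)) γ)
      ((Equiv.sumCompl (fun t : L => t ∈ range q)).symm u)) = _
    rw [Equiv.sumCompl_symm_apply_of_neg (p := fun t : L => t ∈ range q) (a := u) u.2]
    rfl
  have hEqq : ∀ σ i j, (β σ (q i)).2 = (β σ (q j)).2 ↔ (blk hr σ i).2 = (blk hr σ j).2 := by
    intro σ i j
    rw [hβq, hβq]
    exact Sum.inl_injective.eq_iff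
  have hEqU : ∀ σ i (u : U), (β σ (q i)).2 ≠ (β σ u).2 := by
    intro σ i u
    rw [hβq, hβU]
    exact Sum.inl_ne_inr
  have hEUU : ∀ σ (u v : U), (β σ u).2 = (β σ v).2 ↔ ix u = ix v := by
    intro σ u v
    rw [hβU, hβU, ← hγ, ← hγ]
    exact Sum.inr_injective.eq_iff
  have hblkdiv : ∀ σ i j, (blk hr σ i).2 = (blk hr σ j).2 → i / (2 * r) = j / (2 * r) := by
    intro σ i j h
    exact congrArg Prod.fst h
  -- positions inside a block
  have hpos : ∀ i m, i / (2 * r) = m → 2 * r * m ≤ i ∧ i ≤ 2 * r * m + 2 * r - 1 := by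
    intro i m him
    have h1 := Nat.div_add_mod i (2 * r)
    have h2 : i % (2 * r) < 2 * r := Nat.mod_lt _ (by omega)
    rw [him] at h1
    omega
  have hfirst : ∀ σ m, (blk hr σ (2 * r * m)).2 = (m, 0) := by
    intro σ m
    have h1 : 2 * r * m / (2 * r) = m := Nat.mul_div_cancel_left _ (by omega)
    have h2 : 2 * r * m % (2 * r) = 0 := Nat.mul_mod_right _ _
    rw [blk_snd]
    refine Prod.ext h1 ?_
    exact split_zero hr _ _ h2
  have hlast : ∀ σ m, (blk hr σ (2 * r * m + 2 * r - 1)).2 = (m, 1) := by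
    intro σ m
    have h0 : 2 * r * m + 2 * r - 1 = (2 * r - 1) + 2 * r * m := by omega
    have h1 : (2 * r * m + 2 * r - 1) / (2 * r) = m := by
      rw [h0, Nat.add_mul_div_left _ _ (by omega), Nat.div_eq_of_lt (by omega), Nat.zero_add]
    have h2 : (2 * r * m + 2 * r - 1) % (2 * r) = 2 * r - 1 := by
      rw [h0, Nat.add_mul_mod_self_left, Nat.mod_eq_of_lt (by omega)]
    rw [blk_snd]
    refine Prod.ext h1 ?_
    exact split_last hr _ _ h2
  have hspec : ∀ σ t, Special ρ (fun s t => (β σ s).2 = (β σ t).2) t ↔ t ∈ range q := by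
    intro σ t
    constructor
    · intro H
      by_contra ht
      let u : U := ⟨t, ht⟩
      obtain ⟨k, ⟨x, hx, hx'⟩, y, hy, hy'⟩ := hc2 (ix u)
      obtain ⟨s', h1, h2⟩ := H (q (2 * r * k)) (hEqU σ _ u)
      by_cases hs' : s' ∈ range q
      · obtain ⟨j, rfl⟩ := hs'
        have h3 := hblkdiv σ _ _ ((hEqq σ _ _).1 h1)
        rw [Nat.mul_div_cancel_left _ (by omega)] at h3
        obtain ⟨h4, h5⟩ := hpos j k h3
        refine h2 ⟨x, y, (hEUU σ x u).2 (hix' x _ hx), (hEUU σ y u).2 (hix' y _ hy), ?_, ?_⟩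
        · exact hx'.le.trans (hqle.2 h4)
        · exact (hqle.2 h5).trans hy'.le
      · exact hEqU σ _ ⟨s', hs'⟩ h1.symm
    · rintro ⟨j, rfl⟩ s hs
      -- bounds for members of the class of `q j`
      have hcls : ∀ a, (β σ a).2 = (β σ (q j)).2 → ∃ i, q i = a ∧ i / (2 * r) = j / (2 * r) ∧
          (blk hr σ i).2 = (blk hr σ j).2 := by
        intro a ha
        by_cases har : a ∈ range q
        · obtain ⟨i, rfl⟩ := har
          exact ⟨i, rfl, hblkdiv σ _ _ ((hEqq σ _ _).1 ha), (hEqq σ _ _).1 ha⟩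
        · exact absurd ha.symm (hEqU σ j ⟨a, har⟩)
      by_cases hsr : s ∈ range q
      · obtain ⟨i, rfl⟩ := hsr
        by_cases him : i / (2 * r) = j / (2 * r)
        · -- same block
          have hne : (blk hr σ i).2 ≠ (blk hr σ j).2 := fun h => hs ((hEqq σ _ _).2 h)
          have hi2 : (blk hr σ i).2 = (j / (2 * r), (blk hr σ i).2.2) := Prod.ext him rfl
          have hj2 : (blk hr σ j).2 = (j / (2 * r), (blk hr σ j).2.2) := Prod.ext rfl rfl
          have hne2 : (blk hr σ i).2.2 ≠ (blk hr σ j).2.2 := by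
            intro h; exact hne (by rw [hi2, hj2, h])
          by_cases hi0 : (blk hr σ i).2.2 = 0
          · refine ⟨q (2 * r * (j / (2 * r))), (hEqq σ _ _).2 (by rw [hfirst, hi2, hi0]), ?_⟩
            rintro ⟨a, b, ha, hb, h3, h4⟩
            obtain ⟨a', rfl, h5, h6⟩ := hcls a ha
            obtain ⟨h7, h8⟩ := hpos a' _ h5
            have h9 : a' = 2 * r * (j / (2 * r)) := le_antisymm (hqle.1 h3) h7
            rw [h9, hfirst, hj2] at h6
            have h10 := congrArg Prod.snd h6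
            simp only at h10
            exact hne2 (by rw [hi0, ← h10])
          · have hi1 : (blk hr σ i).2.2 = 1 := by
              have h1 : ((blk hr σ i).2.2 : ℕ) ≠ 0 := fun h => hi0 (Fin.ext h)
              have h2 := (blk hr σ i).2.2.2
              apply Fin.ext
              change ((blk hr σ i).2.2 : ℕ) = 1
              omega
            refine ⟨q (2 * r * (j / (2 * r)) + 2 * r - 1), (hEqq σ _ _).2 (by rw [hlast, hi2, hi1]), ?_⟩
            rintro ⟨a, b, ha, hb, h3, h4⟩
            obtain ⟨b', rfl, h5, h6⟩ := hcls b hb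
            obtain ⟨h7, h8⟩ := hpos b' _ h5
            have h9 : b' = 2 * r * (j / (2 * r)) + 2 * r - 1 := le_antisymm h8 (hqle.1 h4)
            rw [h9, hlast, hj2] at h6
            have h10 := congrArg Prod.snd h6
            simp only at h10
            exact hne2 (by rw [hi1, ← h10])
        · refine ⟨q i, rfl, ?_⟩
          rintro ⟨a, b, ha, hb, h3, h4⟩
          obtain ⟨a', rfl, h5, -⟩ := hcls a ha
          obtain ⟨b', rfl, h5', -⟩ := hcls b hb
          have h6 := Nat.div_le_div_right (c := 2 * r) (hqle.1 h3)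
          have h7 := Nat.div_le_div_right (c := 2 * r) (hqle.1 h4)
          omega
      · let u : U := ⟨s, hsr⟩
        obtain ⟨k, ⟨x, hx, hx'⟩, y, hy, hy'⟩ := hc2 (ix u)
        by_cases hkm : j / (2 * r) < k
        · refine ⟨y, (hEUU σ y u).2 (hix' y _ hy), ?_⟩
          rintro ⟨a, b, ha, hb, h3, h4⟩
          obtain ⟨b', rfl, h5, -⟩ := hcls b hb
          obtain ⟨h7, h8⟩ := hpos b' _ h5
          have h9 := hqlt.1 (lt_of_lt_of_le hy' h4)
          have h10 : 2 * r * (j / (2 * r)) ≤ 2 * r * k := Nat.mul_le_mul_left _ hkm.le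
          omega
        · refine ⟨x, (hEUU σ x u).2 (hix' x _ hx), ?_⟩
          rintro ⟨a, b, ha, hb, h3, h4⟩
          obtain ⟨a', rfl, h5, -⟩ := hcls a ha
          obtain ⟨h7, h8⟩ := hpos a' _ h5
          have h9 := hqlt.1 (lt_of_le_of_lt h3 hx')
          have h10 : 2 * r * k ≤ 2 * r * (j / (2 * r)) := Nat.mul_le_mul_left _ (by omega)
          omega
  refine ⟨β, ?_, ?_⟩
  · intro t s
    by_cases ht : t ∈ range q
    · obtain ⟨n, rfl⟩ := ht
      have : {σ | β σ (q n) = s} = (fun σ : ℕ → Bool => σ (n / (2 * r))) ⁻¹' {b |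
          ((split hr b ⟨n % (2 * r), Nat.mod_lt _ (by omega)⟩).1, (Sum.inl
            (n / (2 * r), (split hr b ⟨n % (2 * r), Nat.mod_lt _ (by omega)⟩).2) : QQ)) = s} := by
        ext σ
        simp only [mem_ofPred_eq, mem_preimage, hβq, blk_eq]
      rw [this]
      exact (measurable_pi_apply _) (Set.to_countable _).measurableSet
    · have : {σ | β σ t = s} = {σ | ((γ ⟨t, ht⟩).1, (Sum.inr (γ ⟨t, ht⟩).2 : QQ)) = s} := by
        ext σ
        simp only [mem_ofPred_eq]
        rw [hβU σ ⟨t, ht⟩]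
      rw [this]
      exact MeasurableSet.const _
  · intro σ τ π hπ hE
    have hfix : ∀ n, π (q n) = q n := by
      intro n
      refine rigid' hπ q hq (fun t => ?_) n
      rw [← hspec τ, ← hspec σ]
      exact special_map hπ hE t
    funext m
    have key : ∀ ρ : ℕ → Bool, ρ m = false ↔ (β ρ (q (2 * r * m + 1))).2 = (β ρ (q (2 * r * m))).2 := by
      intro ρ
      have h0 : 2 * r * m + 1 = 1 + 2 * r * m := by omega
      have h1 : (2 * r * m + 1) / (2 * r) = m := by
        rw [h0, Nat.add_mul_div_left _ _ (by omega), Nat.div_eq_of_lt (by omega), Nat.zero_add]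
      have h2 : (2 * r * m + 1) % (2 * r) = 1 := by
        rw [h0, Nat.add_mul_mod_self_left, Nat.mod_eq_of_lt (by omega)]
      rw [hEqq, hfirst, blk_snd, Prod.ext_iff]
      simp only
      rw [split_one hr _ _ h2, h1]
      simp
    have h1 : σ m = false ↔ τ m = false := by
      rw [key σ, key τ, ← hE, hfix, hfix]
    cases hσ : σ m with
    | false => exact (h1.1 hσ).symm
    | true =>
      cases hτ : τ m with
      | false => rw [h1.2 hτ] at hσ; exact absurd hσ (by simp)
      | true => rfl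

theorem codePart {L Λ : Type*} [LinearOrder Λ] [Countable L] {ρ : L → Λ}
    (h : (range ρ).Infinite) {r : ℕ} (hr : 2 ≤ r) : CodePart ρ r := by
  rcases exists_seq h with ⟨p, hp⟩ | ⟨p, hp⟩
  · exact codePart_of_seq hp hr
  · exact CodePart.dual (codePart_of_seq hp hr)

end Weak

end Pool.Agent.H71
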