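import Pool.Agent.H71.Tri
import Pool.Agent.H71.Weak

/-!
Families of graphs on `ℕ`, almost disjoint up to an equivalence relation, and a greedy
construction of partitions and subsets coding `σ : ℕ → Bool`.
-/

set_option autoImplicit false

open Set

namespace Pool.Agent.H71

namespace GG0

/-- pairwise disjoint pairs -/
def PD (M : Finset (ℕ × ℕ)) : Prop :=
  ∀ e ∈ M, ∀ e' ∈ M, e ≠ e' → e.1 ≠ e'.1 ∧ e.1 ≠ e'.2 ∧ e.2 ≠ e'.1 ∧ e.2 ≠ e'.2

lemma PD.mono {M M' : Finset (ℕ × ℕ)} (h : PD M) (h' : M' ⊆ M) : PD M' :=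
  fun e he e' he' hne => h e (h' he) e' (h' he') hne

/-- `A` contains `n` pairwise disjoint edges of `R` -/
def HasM (R : ℕ → ℕ → Prop) (A : Set ℕ) (n : ℕ) : Prop :=
  ∃ M : Finset (ℕ × ℕ), n ≤ M.card ∧ (∀ e ∈ M, e.1 ∈ A ∧ e.2 ∈ A ∧ R e.1 e.2) ∧ PD M

/-- disjoint pairs all meeting a finite set -/
lemma card_le_of_meet {M : Finset (ℕ × ℕ)} (hM : PD M) (W : Finset ℕ)
    (h : ∀ e ∈ M, e.1 ∈ W ∨ e.2 ∈ W) : M.card ≤ W.card := by
  classical
  let φ : ℕ × ℕ → ℕ := fun e => if e.1 ∈ W then e.1 else e.2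
  refine Finset.card_le_card_of_injOn φ ?_ ?_
  · intro e he
    simp only [φ]
    by_cases h1 : e.1 ∈ W
    · rw [if_pos h1]; exact h1
    · rw [if_neg h1]; exact (h e he).resolve_left h1
  · intro e he e' he' heq
    by_contra hne
    obtain ⟨h1, h2, h3, h4⟩ := hM e he e' he' hne
    simp only [φ] at heq
    by_cases g1 : e.1 ∈ W
    · by_cases g2 : e'.1 ∈ W
      · rw [if_pos g1, if_pos g2] at heq; exact h1 heq
      · rw [if_pos g1, if_neg g2] at heq; exact h2 heq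
    · by_cases g2 : e'.1 ∈ W
      · rw [if_neg g1, if_pos g2] at heq; exact h3 heq
      · rw [if_neg g1, if_neg g2] at heq; exact h4 heq

/-- families of graphs -/
structure GF (K : Subgroup (Equiv.Perm ℕ)) where
  I : Type
  Γ : I → ℕ → ℕ → Prop
  sym : ∀ i x y, Γ i x y → Γ i y x
  irr : ∀ i x, ¬ Γ i x x
  E : Setoid I
  inf : Infinite (Quotient E)
  J : I → Finset I
  hJ : ∀ i, ∀ j ∈ J i, E.r j i
  b : ℕ
  G1 : ∀ (F : Finset I) (S : Finset ℕ), ∃ z, z ∉ S ∧ ∀ j ∈ F, ∀ s ∈ S, ¬ Γ j s z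
  G2 : ∀ (i : I) (F : Finset I) (S : Finset ℕ), (∀ j ∈ F, ¬ E.r j i) →
    ∃ x y, x ≠ y ∧ x ∉ S ∧ y ∉ S ∧ Γ i x y ∧
      ∀ j ∈ F, ¬ Γ j x y ∧ ∀ s ∈ S, ¬ Γ j s x ∧ ¬ Γ j s y
  G3 : ∀ i j, ¬ E.r i j → ¬ HasM (fun x y => Γ i x y ∧ Γ j x y) univ (b + 1)
  G4 : ∀ i j, E.r j i → ∃ j' ∈ J i, ¬ HasM (fun x y => Γ j x y ∧ ¬ Γ j' x y) univ (b + 1)
  G5 : ∀ k ∈ K, ∃ π : I ≃ I, (∀ i x y, Γ (π i) (k x) (k y) ↔ Γ i x y) ∧
    ∀ i j, E.r (π i) (π j) ↔ E.r i j

/-- dependent choice along finite initial segments -/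
lemma exists_seq_local {M : Type*} [Nonempty M] (P : ℕ → (ℕ → M) → M → Prop)
    (hloc : ∀ n f f' x, (∀ m < n, f m = f' m) → P n f x → P n f' x)
    (h : ∀ n f, (∀ m < n, P m f (f m)) → ∃ x, P n f x) : ∃ f : ℕ → M, ∀ n, P n f (f n) := by
  classical
  have hch : ∀ (n : ℕ) (f : ℕ → M), ∃ x, (∀ m < n, P m f (f m)) → P n f x := by
    intro n f
    by_cases hf : ∀ m < n, P m f (f m)
    · obtain ⟨x, hx⟩ := h n f hf
      exact ⟨x, fun _ => hx⟩
    · exact ⟨Classical.arbitrary M, fun h' => absurd h' hf⟩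
  choose ch hch using hch
  let g : ℕ → ℕ → M := fun n => Nat.rec (fun _ => Classical.arbitrary M)
    (fun n f => Function.update f n (ch n f)) n
  have hg : ∀ n, g (n + 1) = Function.update (g n) n (ch n (g n)) := fun n => rfl
  have hstab : ∀ n m, m < n → g n m = g (m + 1) m := by
    intro n m hmn
    induction n with
    | zero => omega
    | succ n ih =>
      rcases Nat.lt_or_ge m n with h1 | h1
      · rw [hg, Function.update_of_ne (by omega)]
        exact ih h1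
      · have : m = n := by omega
        rw [this]
  let f : ℕ → M := fun n => g (n + 1) n
  have hfg : ∀ n m, m < n → g n m = f m := hstab
  have hP : ∀ n, P n f (f n) := by
    intro n
    induction n using Nat.strong_induction_on with
    | _ n ih =>
      have h1 : ∀ m < n, P m (g n) (g n m) := by
        intro m hm
        rw [hfg n m hm]
        exact hloc m f (g n) (f m) (fun l hl => (hfg n l (by omega)).symm) (ih m hm)
      have h2 := hch n (g n) h1
      have h3 : f n = ch n (g n) := by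
        change g (n + 1) n = _
        rw [hg, Function.update_self]
      rw [h3]
      exact hloc n (g n) f _ (fun l hl => hfg n l hl) h2
  exact ⟨f, hP⟩

section

variable {K : Subgroup (Equiv.Perm ℕ)} (G : GF K)

/-- canonical finite sets of indices -/
noncomputable def Jr (j : G.I) : Finset G.I := G.J (@Quotient.out _ G.E (Quotient.mk G.E j))

lemma out_rel (j : G.I) : G.E.r (@Quotient.out _ G.E (Quotient.mk G.E j)) j :=
  @Quotient.mk_out _ G.E j

lemma Jr_eq {i j : G.I} (h : G.E.r i j) : Jr G i = Jr G j := by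
  unfold Jr
  rw [Quotient.sound (s := G.E) h]

lemma Jr_rel {i j : G.I} (h : j ∈ Jr G i) : G.E.r j i :=
  G.E.trans (G.hJ _ _ h) (out_rel G i)

lemma Jr_G4 {i j : G.I} (h : G.E.r j i) :
    ∃ j' ∈ Jr G i, ¬ HasM (fun x y => G.Γ j x y ∧ ¬ G.Γ j' x y) univ (G.b + 1) :=
  G.G4 _ _ (G.E.trans h (G.E.symm (out_rel G i)))

/-- dangerous indices -/
def Danger (U : Set ℕ) (j : G.I) : Prop := ∃ j1, G.E.r j1 j ∧ HasM (G.Γ j1) U (G.b + 1)

lemma finite_danger (U : Finset ℕ) :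
    {q : Quotient G.E | ∃ j, Quotient.mk G.E j = q ∧ Danger G (U : Set ℕ) j}.Finite := by
  classical
  -- each dangerous class owns a set of pairs
  have hch : ∀ q : Quotient G.E, ∃ M : Finset (ℕ × ℕ),
      (∃ j, Quotient.mk G.E j = q ∧ Danger G (U : Set ℕ) j) →
      (G.b + 1 ≤ M.card ∧ M ⊆ U ×ˢ U ∧ PD M ∧ ∃ j1, Quotient.mk G.E j1 = q ∧
        ∀ e ∈ M, G.Γ j1 e.1 e.2) := by
    intro q
    by_cases hq : ∃ j, Quotient.mk G.E j = q ∧ Danger G (U : Set ℕ) j
    · obtain ⟨j, hj, j1, hj1, M, hM1, hM2, hM3⟩ := hq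
      refine ⟨M, fun _ => ⟨hM1, ?_, hM3, j1, ?_, fun e he => (hM2 e he).2.2⟩⟩
      · intro e he
        obtain ⟨h1, h2, -⟩ := hM2 e he
        exact Finset.mem_product.2 ⟨by simpa using h1, by simpa using h2⟩
      · rw [← hj]
        exact Quotient.sound (s := G.E) hj1
    · exact ⟨∅, fun h => absurd h hq⟩
  choose M hM using hch
  have hinj : Set.InjOn M {q : Quotient G.E | ∃ j, Quotient.mk G.E j = q ∧ Danger G (U : Set ℕ) j} := by
    intro q hq q' hq' heq
    obtain ⟨h1, h2, h3, j1, hj1, h4⟩ := hM q hq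
    obtain ⟨h1', h2', h3', j1', hj1', h4'⟩ := hM q' hq'
    by_contra hne
    have hrel : ¬ G.E.r j1 j1' := by
      intro hr
      apply hne
      rw [← hj1, ← hj1']
      exact Quotient.sound (s := G.E) hr
    exact G.G3 j1 j1' hrel ⟨M q, h1, fun e he => ⟨trivial, trivial, h4 e he,
      h4' e (by rw [← heq]; exact he)⟩, h3⟩
  refine Set.Finite.of_finite_image ?_ hinj
  refine Set.Finite.subset (Finset.finite_toSet (U ×ˢ U).powerset) ?_
  rintro _ ⟨q, hq, rfl⟩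
  exact Finset.mem_coe.2 (Finset.mem_powerset.2 (hM q hq).2.1)

end

end GG0

end Pool.Agent.H71
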