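import Pool.Agent.H71.GF

/-!
The greedy construction for families of graphs.
-/

set_option autoImplicit false

open Set

namespace Pool.Agent.H71

namespace GG0

/-- data added at one stage -/
structure Stage (I : Type) (r : ℕ) where
  i : I
  v : Fin r × Fin 2 → ℕ
  c : Fin r → ℕ

section

variable {I : Type} {r : ℕ}

open Classical in
/-- elements used before stage `n` -/
noncomputable def Used (F₀ : Finset ℕ) (f : ℕ → Stage I r) (n : ℕ) : Finset ℕ :=
  F₀ ∪ (Finset.range n).biUnion (fun m => Finset.univ.image (f m).v ∪ Finset.univ.image (f m).c)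

lemma mem_Used {F₀ : Finset ℕ} {f : ℕ → Stage I r} {n a : ℕ} : a ∈ Used F₀ f n ↔
    a ∈ F₀ ∨ ∃ m < n, (∃ s, (f m).v s = a) ∨ ∃ t, (f m).c t = a := by
  simp [Used]

lemma Used_congr {F₀ : Finset ℕ} {f f' : ℕ → Stage I r} {n : ℕ} (h : ∀ m < n, f m = f' m) :
    Used F₀ f n = Used F₀ f' n := by
  ext a
  rw [mem_Used, mem_Used]
  constructor
  · rintro (h1 | ⟨m, hm, h1⟩)
    · exact Or.inl h1
    · exact Or.inr ⟨m, hm, by rw [← h m hm]; exact h1⟩
  · rintro (h1 | ⟨m, hm, h1⟩)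
    · exact Or.inl h1
    · exact Or.inr ⟨m, hm, by rw [h m hm]; exact h1⟩

lemma Used_mono {F₀ : Finset ℕ} {f : ℕ → Stage I r} {m n : ℕ} (h : m ≤ n) :
    Used F₀ f m ⊆ Used F₀ f n := by
  intro a
  rw [mem_Used, mem_Used]
  rintro (h1 | ⟨l, hl, h1⟩)
  · exact Or.inl h1
  · exact Or.inr ⟨l, by omega, h1⟩

end

section

variable {K : Subgroup (Equiv.Perm ℕ)} (G : GF K)

/-- a class which is dangerous or has been designated -/
def tagged (F₀ : Finset ℕ) {r : ℕ} (f : ℕ → Stage G.I r) (n : ℕ) (j : G.I) : Prop :=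
  Danger G (Used F₀ f n : Set ℕ) j ∨ ∃ m < n, G.E.r (f m).i j

lemma tagged_congr {F₀ : Finset ℕ} {r : ℕ} {f f' : ℕ → Stage G.I r} {n : ℕ}
    (h : ∀ m < n, f m = f' m) {j : G.I} (hj : tagged G F₀ f n j) : tagged G F₀ f' n j := by
  rcases hj with hj | ⟨m, hm, hj⟩
  · left
    rwa [← Used_congr h]
  · exact Or.inr ⟨m, hm, by rw [← h m hm]; exact hj⟩

lemma Danger_mono {U V : Set ℕ} (h : U ⊆ V) {j : G.I} (hj : Danger G U j) : Danger G V j := by
  obtain ⟨j1, h1, M, h2, h3, h4⟩ := hj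
  exact ⟨j1, h1, M, h2, fun e he => ⟨h (h3 e he).1, h (h3 e he).2.1, (h3 e he).2.2⟩, h4⟩

lemma tagged_mono {F₀ : Finset ℕ} {r : ℕ} {f : ℕ → Stage G.I r} {m n : ℕ} (h : m ≤ n) {j : G.I}
    (hj : tagged G F₀ f m j) : tagged G F₀ f n j := by
  rcases hj with hj | ⟨l, hl, hj⟩
  · exact Or.inl (Danger_mono G (by exact_mod_cast Used_mono h) hj)
  · exact Or.inr ⟨l, by omega, hj⟩

lemma tagged_rel {F₀ : Finset ℕ} {r : ℕ} {f : ℕ → Stage G.I r} {n : ℕ} {j j' : G.I}
    (h : G.E.r j j') (hj : tagged G F₀ f n j) : tagged G F₀ f n j' := by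
  rcases hj with ⟨j1, h1, h2⟩ | ⟨m, hm, hj⟩
  · exact Or.inl ⟨j1, G.E.trans h1 h, h2⟩
  · exact Or.inr ⟨m, hm, G.E.trans hj h⟩

/-- the requirements on one stage -/
structure Ok (κ : ℕ → ℕ) (F₀ : Finset ℕ) {r : ℕ} (i0 i1 : Fin r) (n : ℕ) (f : ℕ → Stage G.I r)
    (x : Stage G.I r) : Prop where
  vinj : Function.Injective x.v
  cinj : Function.Injective x.c
  vc : ∀ s t, x.v s ≠ x.c t
  vU : ∀ s, x.v s ∉ Used F₀ f n
  cU : ∀ t, x.c t ∉ Used F₀ f n
  edge : G.Γ x.i (x.v (i0, 0)) (x.v (i1, 1))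
  same : ∀ m < n, κ m = κ n → x.i = (f m).i
  fresh : (∀ m < n, κ m ≠ κ n) → ¬ tagged G F₀ f n x.i
  cross : ∀ j, tagged G F₀ f n j → ¬ G.E.r j x.i → ∀ j' ∈ Jr G j,
    ¬ G.Γ j' (x.v (i0, 0)) (x.v (i1, 1)) ∧
    ∀ s ∈ Used F₀ f n, ¬ G.Γ j' s (x.v (i0, 0)) ∧ ¬ G.Γ j' s (x.v (i1, 1))
  blk : ∀ j, (tagged G F₀ f n j ∨ G.E.r j x.i) → ∀ j' ∈ Jr G j,
    (∀ s t, ¬ (s = (i0, 0) ∧ t = (i1, 1)) → ¬ (s = (i1, 1) ∧ t = (i0, 0)) →
      ¬ G.Γ j' (x.v s) (x.v t)) ∧ ∀ s t, ¬ G.Γ j' (x.c s) (x.c t)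
  cov : ∀ a < x.c i0, a ∈ Used F₀ f n ∨ ∃ s, x.v s = a

/-- generic sequences -/
lemma exists_gen (F : Finset G.I) (S : Finset ℕ) : ∃ z : ℕ → ℕ, (∀ n, z n ∉ S) ∧
    Function.Injective z ∧ (∀ n, ∀ j ∈ F, ∀ s ∈ S, ¬ G.Γ j s (z n)) ∧
    ∀ m n, m ≠ n → ∀ j ∈ F, ¬ G.Γ j (z m) (z n) := by
  classical
  obtain ⟨z, hz1, hz2⟩ := exists_seq_of_forall_finset_exists
    (P := fun y => y ∉ S ∧ ∀ j ∈ F, ∀ s ∈ S, ¬ G.Γ j s y)
    (r := fun x y => x ≠ y ∧ ∀ j ∈ F, ¬ G.Γ j x y) (by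
      intro s _
      obtain ⟨y, hy, hy'⟩ := G.G1 F (S ∪ s)
      rw [Finset.mem_union, not_or] at hy
      exact ⟨y, ⟨hy.1, fun j hj t ht => hy' j hj t (Finset.mem_union_left _ ht)⟩, fun x hx =>
        ⟨fun h => hy.2 (h ▸ hx), fun j hj => hy' j hj x (Finset.mem_union_right _ hx)⟩⟩)
  refine ⟨z, fun n => (hz1 n).1, ?_, fun n => (hz1 n).2, ?_⟩
  · intro m n hmn
    by_contra hne
    rcases lt_or_gt_of_ne hne with h | h
    · exact (hz2 m n h).1 hmn
    · exact (hz2 n m h).1 hmn.symm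
  · intro m n hne j hj hΓ
    rcases lt_or_gt_of_ne hne with h | h
    · exact (hz2 m n h).2 j hj hΓ
    · exact (hz2 n m h).2 j hj (G.sym _ _ _ hΓ)

lemma finite_tagged (F₀ : Finset ℕ) {r : ℕ} (f : ℕ → Stage G.I r) (n : ℕ) :
    {q : Quotient G.E | ∃ j, Quotient.mk G.E j = q ∧ tagged G F₀ f n j}.Finite := by
  have h1 := (finite_danger G (Used F₀ f n)).union
    ((Set.finite_Iio n).image (fun m => Quotient.mk G.E (f m).i))
  refine h1.subset ?_
  rintro q ⟨j, hj, h | ⟨m, hm, h⟩⟩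
  · exact Or.inl ⟨j, hj, h⟩
  · refine Or.inr ⟨m, hm, ?_⟩
    rw [← hj]
    exact Quotient.sound (s := G.E) h

theorem exists_ok (κ : ℕ → ℕ) (F₀ : Finset ℕ) {r : ℕ} (i0 i1 : Fin r) (h01 : i0 ≠ i1) (n : ℕ)
    (f : ℕ → Stage G.I r) (hf : ∀ m < n, Ok G κ F₀ i0 i1 m f (f m)) :
    ∃ x, Ok G κ F₀ i0 i1 n f x := by
  classical
  have hT := finite_tagged G F₀ f n
  have hInf := G.inf
  -- the index
  obtain ⟨i, hi1, hi2⟩ : ∃ i, (∀ m < n, κ m = κ n → i = (f m).i) ∧
      ((∀ m < n, κ m ≠ κ n) → ¬ tagged G F₀ f n i) := by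
    by_cases h : ∃ m < n, κ m = κ n
    · obtain ⟨m, hm, hκ⟩ := h
      refine ⟨(f m).i, fun m' hm' hκ' => ?_, fun h' => absurd hκ (h' m hm)⟩
      rcases lt_trichotomy m m' with h1 | h1 | h1
      · exact ((hf m' hm').same m h1 (by rw [hκ, hκ'])).symm
      · rw [h1]
      · exact (hf m hm).same m' h1 (by rw [hκ, hκ'])
    · push Not at h
      obtain ⟨q, hq⟩ := hT.exists_notMem
      refine ⟨@Quotient.out _ G.E q, fun m hm hκ => absurd hκ (h m hm), fun _ ht => hq ?_⟩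
      exact ⟨_, @Quotient.out_eq _ G.E q, ht⟩
  -- finite sets of indices
  let Jq : Quotient G.E → Finset G.I := fun q => G.J (@Quotient.out _ G.E q)
  let JJ : Finset G.I := (hT.toFinset.filter (fun q => q ≠ Quotient.mk G.E i)).biUnion Jq
  let JP : Finset G.I := (insert (Quotient.mk G.E i) hT.toFinset).biUnion Jq
  have hJJ : ∀ j, tagged G F₀ f n j → ¬ G.E.r j i → ∀ j' ∈ Jr G j, j' ∈ JJ := by
    intro j hj hji j' hj'
    refine Finset.mem_biUnion.2 ⟨Quotient.mk G.E j, Finset.mem_filter.2 ⟨?_, ?_⟩, hj'⟩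
    · exact (Set.Finite.mem_toFinset _).2 ⟨j, rfl, hj⟩
    · exact fun h => hji (Quotient.exact h)
  have hJJi : ∀ j ∈ JJ, ¬ G.E.r j i := by
    intro j hj hji
    obtain ⟨q, hq, hjq⟩ := Finset.mem_biUnion.1 hj
    apply (Finset.mem_filter.1 hq).2
    rw [← @Quotient.out_eq _ G.E q]
    exact Quotient.sound (s := G.E) (G.E.trans (G.E.symm (G.hJ _ _ hjq)) hji)
  have hJP : ∀ j, (tagged G F₀ f n j ∨ G.E.r j i) → ∀ j' ∈ Jr G j, j' ∈ JP := by
    rintro j (hj | hj) j' hj'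
    · exact Finset.mem_biUnion.2 ⟨Quotient.mk G.E j, Finset.mem_insert_of_mem
        ((Set.Finite.mem_toFinset _).2 ⟨j, rfl, hj⟩), hj'⟩
    · refine Finset.mem_biUnion.2 ⟨Quotient.mk G.E i, Finset.mem_insert_self _ _, ?_⟩
      rw [← Quotient.sound (s := G.E) hj]
      exact hj'
  obtain ⟨x0, y0, hxy, hx0, hy0, hedge, hcr⟩ := G.G2 i JJ (Used F₀ f n) hJJi
  obtain ⟨z, hz1, hz2, hz3, hz4⟩ := exists_gen G JP (insert x0 (insert y0 (Used F₀ f n)))
  let enc : Fin r × Fin 2 → ℕ := fun s => 2 * (s.1 : ℕ) + (s.2 : ℕ)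
  have henc : Function.Injective enc := by
    intro s t h
    have h1 := s.2.2
    have h2 := t.2.2
    simp only [enc] at h
    exact Prod.ext (Fin.ext (by omega)) (Fin.ext (by omega))
  let v : Fin r × Fin 2 → ℕ := fun s =>
    if s = (i0, 0) then x0 else if s = (i1, 1) then y0 else z (enc s)
  have hs01 : ((i1, 1) : Fin r × Fin 2) ≠ (i0, 0) := fun h => h01 (congrArg Prod.fst h).symm
  have hv0 : v (i0, 0) = x0 := if_pos rfl
  have hv1 : v (i1, 1) = y0 := (if_neg hs01).trans (if_pos rfl)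
  have hv2 : ∀ s, s ≠ (i0, 0) → s ≠ (i1, 1) → v s = z (enc s) := fun s h1 h2 =>
    (if_neg h1).trans (if_neg h2)
  have hzx : ∀ m, z m ≠ x0 := fun m h => hz1 m (by rw [h]; simp)
  have hzy : ∀ m, z m ≠ y0 := fun m h => hz1 m (by rw [h]; simp)
  have hzU : ∀ m, z m ∉ Used F₀ f n := fun m h => hz1 m (by simp [h])
  have hvinj : Function.Injective v := by
    intro s t hst
    by_cases s0 : s = (i0, 0)
    · by_cases t0 : t = (i0, 0)
      · rw [s0, t0]
      · by_cases t1 : t = (i1, 1)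
        · rw [s0, t1, hv0, hv1] at hst; exact absurd hst hxy
        · rw [s0, hv0, hv2 t t0 t1] at hst; exact absurd hst.symm (hzx _)
    · by_cases s1 : s = (i1, 1)
      · by_cases t0 : t = (i0, 0)
        · rw [s1, t0, hv0, hv1] at hst; exact absurd hst.symm hxy
        · by_cases t1 : t = (i1, 1)
          · rw [s1, t1]
          · rw [s1, hv1, hv2 t t0 t1] at hst; exact absurd hst.symm (hzy _)
      · by_cases t0 : t = (i0, 0)
        · rw [t0, hv0, hv2 s s0 s1] at hst; exact absurd hst (hzx _)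
        · by_cases t1 : t = (i1, 1)
          · rw [t1, hv1, hv2 s s0 s1] at hst; exact absurd hst (hzy _)
          · rw [hv2 s s0 s1, hv2 t t0 t1] at hst
            exact henc (hz2 hst)
  have hvU : ∀ s, v s ∉ Used F₀ f n := by
    intro s
    by_cases s0 : s = (i0, 0)
    · rw [s0, hv0]; exact hx0
    · by_cases s1 : s = (i1, 1)
      · rw [s1, hv1]; exact hy0
      · rw [hv2 s s0 s1]; exact hzU _
  -- the least unused element
  have hex : ∃ a, a ∉ Used F₀ f n ∪ Finset.univ.image v :=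
    Infinite.exists_notMem_finset _
  let u := Nat.find hex
  have hu : u ∉ Used F₀ f n ∪ Finset.univ.image v := Nat.find_spec hex
  have hu' : ∀ a < u, a ∈ Used F₀ f n ∪ Finset.univ.image v := fun a ha => by
    by_contra hcon
    exact Nat.find_min hex ha hcon
  obtain ⟨w, hw1, hw2, hw3, hw4⟩ := exists_gen G JP (insert u (Used F₀ f n ∪ Finset.univ.image v))
  let c : Fin r → ℕ := fun t => if t = i0 then u else w t
  have hc0 : c i0 = u := if_pos rfl
  have hc1 : ∀ t, t ≠ i0 → c t = w t := fun t ht => if_neg ht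
  have hwu : ∀ m, w m ≠ u := fun m h => hw1 m (by rw [h]; simp)
  have hcN : ∀ t, c t ∉ Used F₀ f n ∪ Finset.univ.image v := by
    intro t
    by_cases t0 : t = i0
    · rw [t0, hc0]; exact hu
    · rw [hc1 t t0]
      exact fun h => hw1 _ (Finset.mem_insert_of_mem h)
  refine ⟨⟨i, v, c⟩, ?_⟩
  refine
    { vinj := hvinj
      cinj := ?_
      vc := ?_
      vU := hvU
      cU := ?_
      edge := ?_
      same := hi1
      fresh := hi2
      cross := ?_
      blk := ?_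
      cov := ?_ }
  · intro s t hst
    change c s = c t at hst
    by_cases s0 : s = i0
    · by_cases t0 : t = i0
      · rw [s0, t0]
      · rw [s0, hc0, hc1 t t0] at hst; exact absurd hst.symm (hwu _)
    · by_cases t0 : t = i0
      · rw [t0, hc0, hc1 s s0] at hst; exact absurd hst (hwu _)
      · rw [hc1 s s0, hc1 t t0] at hst
        exact Fin.ext (hw2 hst)
  · intro s t hst
    change v s = c t at hst
    exact hcN t (Finset.mem_union_right _ (Finset.mem_image.2 ⟨s, Finset.mem_univ _, hst⟩))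
  · intro t h
    exact hcN t (Finset.mem_union_left _ h)
  · change G.Γ i (v (i0, 0)) (v (i1, 1))
    rw [hv0, hv1]; exact hedge
  · intro j hj hji j' hj'
    have h1 := hcr j' (hJJ j hj hji j' hj')
    change ¬ G.Γ j' (v (i0, 0)) (v (i1, 1)) ∧
      ∀ s ∈ Used F₀ f n, ¬ G.Γ j' s (v (i0, 0)) ∧ ¬ G.Γ j' s (v (i1, 1))
    rw [hv0, hv1]
    exact h1
  · intro j hj j' hj'
    have hjP := hJP j hj j' hj'
    constructor
    · intro s t h1 h2
      change ¬ G.Γ j' (v s) (v t)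
      -- the generic elements have no edges to the other ones
      have key : ∀ s t, t ≠ (i0, 0) → t ≠ (i1, 1) → ¬ G.Γ j' (v s) (v t) := by
        intro s t t0 t1
        rw [hv2 t t0 t1]
        by_cases s0 : s = (i0, 0)
        · rw [s0, hv0]; exact hz3 _ j' hjP x0 (by simp)
        · by_cases s1 : s = (i1, 1)
          · rw [s1, hv1]; exact hz3 _ j' hjP y0 (by simp)
          · rw [hv2 s s0 s1]
            by_cases hst : s = t
            · rw [hst]; exact G.irr _ _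
            · exact hz4 _ _ (fun h => hst (henc h)) j' hjP
      by_cases t0 : t = (i0, 0)
      · by_cases s0 : s = (i0, 0)
        · rw [s0, t0]; exact G.irr _ _
        · by_cases s1 : s = (i1, 1)
          · exact absurd ⟨s1, t0⟩ h2
          · exact fun h => key t s s0 s1 (G.sym _ _ _ h)
      · by_cases t1 : t = (i1, 1)
        · by_cases s0 : s = (i0, 0)
          · exact absurd ⟨s0, t1⟩ h1
          · by_cases s1 : s = (i1, 1)
            · rw [s1, t1]; exact G.irr _ _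
            · exact fun h => key t s s0 s1 (G.sym _ _ _ h)
        · exact key s t t0 t1
    · intro s t
      change ¬ G.Γ j' (c s) (c t)
      by_cases s0 : s = i0
      · by_cases t0 : t = i0
        · rw [s0, t0]; exact G.irr _ _
        · rw [s0, hc0, hc1 t t0]
          exact hw3 _ j' hjP u (by simp)
      · by_cases t0 : t = i0
        · rw [t0, hc0, hc1 s s0]
          exact fun h => hw3 _ j' hjP u (by simp) (G.sym _ _ _ h)
        · rw [hc1 s s0, hc1 t t0]
          by_cases hst : s = t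
          · rw [hst]; exact G.irr _ _
          · exact hw4 _ _ (fun h => hst (Fin.ext h)) j' hjP
  · intro a ha
    change a < c i0 at ha
    rw [hc0] at ha
    rcases Finset.mem_union.1 (hu' a ha) with h | h
    · exact Or.inl h
    · obtain ⟨s, -, hs⟩ := Finset.mem_image.1 h
      exact Or.inr ⟨s, hs⟩

/-- the greedy construction -/
theorem exists_construction (κ : ℕ → ℕ) (F₀ : Finset ℕ) {r : ℕ} (i0 i1 : Fin r) (h01 : i0 ≠ i1) :
    ∃ f : ℕ → Stage G.I r, ∀ n, Ok G κ F₀ i0 i1 n f (f n) := by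
  have : Nonempty (Quotient G.E) := by
    have := G.inf
    infer_instance
  have : Nonempty (Stage G.I r) :=
    ⟨⟨@Quotient.out _ G.E (Classical.arbitrary _), fun _ => 0, fun _ => 0⟩⟩
  refine exists_seq_local _ ?_ (fun n f hf => exists_ok G κ F₀ i0 i1 h01 n f hf)
  intro n f f' x h hx
  have hU : Used F₀ f n = Used F₀ f' n := Used_congr h
  exact
    { vinj := hx.vinj
      cinj := hx.cinj
      vc := hx.vc
      vU := by rw [← hU]; exact hx.vU
      cU := by rw [← hU]; exact hx.cU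
      edge := hx.edge
      same := fun m hm hκ => by rw [← h m hm]; exact hx.same m hm hκ
      fresh := fun hm ht => hx.fresh hm (tagged_congr G (fun m hm => (h m hm).symm) ht)
      cross := fun j hj hji j' hj' => by
        rw [← hU]
        exact hx.cross j (tagged_congr G (fun m hm => (h m hm).symm) hj) hji j' hj'
      blk := fun j hj => hx.blk j (hj.imp (tagged_congr G (fun m hm => (h m hm).symm)) id)
      cov := by rw [← hU]; exact hx.cov }

end

end GG0

end Pool.Agent.H71
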