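import Pool.Agent.H71.GF2

/-!
Counting edges in the greedy construction, and decoding.
-/

set_option autoImplicit false

open Set

namespace Pool.Agent.H71

namespace GG0

section

variable {K : Subgroup (Equiv.Perm ℕ)} {G : GF K} {κ : ℕ → ℕ} {F₀ : Finset ℕ} {r : ℕ}
  {i0 i1 : Fin r} {f : ℕ → Stage G.I r}

lemma v_mem_Used {m n : ℕ} (h : m < n) (s : Fin r × Fin 2) : (f m).v s ∈ Used F₀ f n :=
  mem_Used.2 (Or.inr ⟨m, h, Or.inl ⟨s, rfl⟩⟩)

lemma c_mem_Used {m n : ℕ} (h : m < n) (t : Fin r) : (f m).c t ∈ Used F₀ f n :=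
  mem_Used.2 (Or.inr ⟨m, h, Or.inr ⟨t, rfl⟩⟩)

lemma v_inj (hf : ∀ n, Ok G κ F₀ i0 i1 n f (f n)) {m n : ℕ} {s t : Fin r × Fin 2}
    (h : (f m).v s = (f n).v t) : m = n ∧ s = t := by
  rcases lt_trichotomy m n with h1 | h1 | h1
  · exact absurd (h ▸ v_mem_Used h1 s) ((hf n).vU t)
  · subst h1
    exact ⟨rfl, (hf m).vinj h⟩
  · exact absurd (h.symm ▸ v_mem_Used h1 t) ((hf m).vU s)

lemma c_inj (hf : ∀ n, Ok G κ F₀ i0 i1 n f (f n)) {m n : ℕ} {s t : Fin r}
    (h : (f m).c s = (f n).c t) : m = n ∧ s = t := by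
  rcases lt_trichotomy m n with h1 | h1 | h1
  · exact absurd (h ▸ c_mem_Used h1 s) ((hf n).cU t)
  · subst h1
    exact ⟨rfl, (hf m).cinj h⟩
  · exact absurd (h.symm ▸ c_mem_Used h1 t) ((hf m).cU s)

lemma v_ne_c (hf : ∀ n, Ok G κ F₀ i0 i1 n f (f n)) {m n : ℕ} {s : Fin r × Fin 2} {t : Fin r} :
    (f m).v s ≠ (f n).c t := by
  intro h
  rcases lt_trichotomy m n with h1 | h1 | h1
  · exact absurd (h ▸ v_mem_Used h1 s) ((hf n).cU t)
  · subst h1
    exact (hf m).vc s t h
  · exact absurd (h.symm ▸ c_mem_Used h1 t) ((hf m).vU s)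

lemma F_sub_Used (n : ℕ) : F₀ ⊆ Used F₀ f n := fun _ ha => mem_Used.2 (Or.inl ha)

lemma v_notMem (hf : ∀ n, Ok G κ F₀ i0 i1 n f (f n)) (n : ℕ) (s : Fin r × Fin 2) :
    (f n).v s ∉ F₀ := fun h => (hf n).vU s (F_sub_Used n h)

lemma c_notMem (hf : ∀ n, Ok G κ F₀ i0 i1 n f (f n)) (n : ℕ) (t : Fin r) :
    (f n).c t ∉ F₀ := fun h => (hf n).cU t (F_sub_Used n h)

lemma exists_mem_Used (hf : ∀ n, Ok G κ F₀ i0 i1 n f (f n)) (a : ℕ) : ∃ n, a ∈ Used F₀ f n := by
  have hinj : Function.Injective (fun n => (f n).c i0) := fun m n h => (c_inj hf h).1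
  obtain ⟨n, hn⟩ : ∃ n, a < (f n).c i0 := by
    by_contra hcon
    push Not at hcon
    exact (Set.infinite_range_of_injective hinj) ((Set.finite_Iic a).subset (by
      rintro _ ⟨n, rfl⟩
      exact hcon n))
  rcases (hf n).cov a hn with h | ⟨s, hs⟩
  · exact ⟨n, h⟩
  · exact ⟨n + 1, hs ▸ v_mem_Used (Nat.lt_succ_self n) s⟩

lemma exists_Used_finset (hf : ∀ n, Ok G κ F₀ i0 i1 n f (f n)) (S : Finset ℕ) :
    ∃ n, S ⊆ Used F₀ f n := by
  classical
  induction S using Finset.induction_on with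
  | empty => exact ⟨0, Finset.empty_subset _⟩
  | insert a S _ ih =>
    obtain ⟨n, hn⟩ := ih
    obtain ⟨m, hm⟩ := exists_mem_Used hf a
    refine ⟨max m n, Finset.insert_subset ?_ (hn.trans (Used_mono (le_max_right _ _)))⟩
    exact Used_mono (le_max_left _ _) hm

lemma kappa_eq (hf : ∀ n, Ok G κ F₀ i0 i1 n f (f n)) {m n : ℕ}
    (h : G.E.r (f m).i (f n).i) : κ m = κ n := by
  classical
  -- first stages
  have hex : ∀ m, ∃ l, κ l = κ m := fun m => ⟨m, rfl⟩
  have hfirst : ∀ m, (f (Nat.find (hex m))).i = (f m).i := by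
    intro m
    have h1 : Nat.find (hex m) ≤ m := Nat.find_le rfl
    rcases h1.lt_or_eq with h2 | h2
    · exact ((hf m).same _ h2 (Nat.find_spec (hex m))).symm
    · rw [h2]
  by_contra hne
  have key : ∀ m n, κ m ≠ κ n → G.E.r (f m).i (f n).i → ¬ Nat.find (hex m) < Nat.find (hex n) := by
    intro m n _ h hlt
    refine (hf (Nat.find (hex n))).fresh ?_ ?_
    · intro l hl hκ
      exact Nat.find_min (hex n) hl (by rw [hκ, Nat.find_spec (hex n)])
    · right
      refine ⟨_, hlt, ?_⟩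
      rw [hfirst m, hfirst n]
      exact h
  have h1 := key m n hne h
  have h2 := key n m (Ne.symm hne) (G.E.symm h)
  have h3 : Nat.find (hex m) = Nat.find (hex n) := by omega
  apply hne
  rw [← Nat.find_spec (hex m), ← Nat.find_spec (hex n), h3]

/-- the key property of admissible pairs -/
def KP (G : GF K) (κ : ℕ → ℕ) (F₀ : Finset ℕ) (i0 i1 : Fin r) (f : ℕ → Stage G.I r)
    (σ : ℕ → Bool) (Adm : ℕ → ℕ → Prop) : Prop :=
  (∀ x y, Adm x y → x ∉ F₀) ∧
  ∀ j, ∀ j' ∈ Jr G j, ∀ x y, Adm x y → G.Γ j' x y → ∀ n, tagged G F₀ f n j →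
    (x ∈ Used F₀ f n ∧ y ∈ Used F₀ f n) ∨ ∃ m, G.E.r (f m).i j ∧ σ (κ m) = true ∧
      ((x = (f m).v (i0, 0) ∨ x = (f m).v (i1, 1)) ∨ (y = (f m).v (i0, 0) ∨ y = (f m).v (i1, 1)))

theorem bound (hf : ∀ n, Ok G κ F₀ i0 i1 n f (f n)) {N : ℕ → ℕ}
    (hN : ∀ k, ∃ S : Finset ℕ, S.card = N k ∧ ∀ n, κ n = k → n ∈ S)
    {σ : ℕ → Bool} {Adm : ℕ → ℕ → Prop} (hKP : KP G κ F₀ i0 i1 f σ Adm) (j : G.I)
    (M : Finset (ℕ × ℕ)) (hM : PD M) (hMe : ∀ e ∈ M, Adm e.1 e.2 ∧ G.Γ j e.1 e.2) :
    M.card ≤ 2 * G.b + 3 * r ∨ ∃ m, G.E.r (f m).i j ∧ σ (κ m) = true ∧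
      M.card ≤ 2 * G.b + 3 * r + 2 * N (κ m) := by
  classical
  by_cases ht : ∃ n, tagged G F₀ f n j
  · -- the first tagged stage
    let n0 := Nat.find ht
    have hn0 : tagged G F₀ f n0 j := Nat.find_spec ht
    obtain ⟨j', hj', hG4⟩ := Jr_G4 G (G.E.refl j)
    have hjj' : G.E.r j' j := Jr_rel G hj'
    -- the finite set `W`
    obtain ⟨W, hW, hWc⟩ : ∃ W : Finset ℕ, (∀ m, G.E.r (f m).i j → σ (κ m) = true →
        (f m).v (i0, 0) ∈ W ∧ (f m).v (i1, 1) ∈ W) ∧
        (W = ∅ ∨ ∃ m, G.E.r (f m).i j ∧ σ (κ m) = true ∧ W.card ≤ 2 * N (κ m)) := by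
      by_cases hm : ∃ m, G.E.r (f m).i j ∧ σ (κ m) = true
      · obtain ⟨m, hm1, hm2⟩ := hm
        obtain ⟨S, hS1, hS2⟩ := hN (κ m)
        refine ⟨S.image (fun n => (f n).v (i0, 0)) ∪ S.image (fun n => (f n).v (i1, 1)), ?_,
          Or.inr ⟨m, hm1, hm2, ?_⟩⟩
        · intro m' hm' _
          have h1 : κ m' = κ m := kappa_eq hf (G.E.trans hm' (G.E.symm hm1))
          have h2 := hS2 m' h1
          exact ⟨Finset.mem_union_left _ (Finset.mem_image.2 ⟨m', h2, rfl⟩),
            Finset.mem_union_right _ (Finset.mem_image.2 ⟨m', h2, rfl⟩)⟩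
        · refine (Finset.card_union_le _ _).trans ?_
          have h1 := Finset.card_image_le (s := S) (f := fun n => (f n).v (i0, 0))
          have h2 := Finset.card_image_le (s := S) (f := fun n => (f n).v (i1, 1))
          omega
      · exact ⟨∅, fun m h1 h2 => absurd ⟨m, h1, h2⟩ hm, Or.inl rfl⟩
    -- splitting `M`
    let M1 := M.filter (fun e => ¬ G.Γ j' e.1 e.2)
    let M2 := M.filter (fun e => G.Γ j' e.1 e.2)
    let M3 := M2.filter (fun e => e.1 ∈ Used F₀ f n0 ∧ e.2 ∈ Used F₀ f n0)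
    let M4 := M2.filter (fun e => ¬ (e.1 ∈ Used F₀ f n0 ∧ e.2 ∈ Used F₀ f n0))
    have hc1 : M1.card ≤ G.b := by
      by_contra hcon
      refine hG4 ⟨M1, by omega, fun e he => ?_, hM.mono (Finset.filter_subset _ _)⟩
      obtain ⟨h1, h2⟩ := Finset.mem_filter.1 he
      exact ⟨trivial, trivial, (hMe e h1).2, h2⟩
    have hc12 : M.card = M1.card + M2.card := by
      rw [add_comm]
      exact (Finset.card_filter_add_card_filter_not _).symm
    have hc34 : M2.card = M3.card + M4.card := (Finset.card_filter_add_card_filter_not _).symm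
    have hc4 : M4.card ≤ W.card := by
      refine card_le_of_meet (hM.mono ((Finset.filter_subset _ _).trans (Finset.filter_subset _ _)))
        W (fun e he => ?_)
      obtain ⟨h1, h2⟩ := Finset.mem_filter.1 he
      obtain ⟨h3, h4⟩ := Finset.mem_filter.1 h1
      rcases hKP.2 j j' hj' e.1 e.2 (hMe e h3).1 h4 n0 hn0 with h5 | ⟨m, h5, h6, h7⟩
      · exact absurd h5 h2
      · obtain ⟨h8, h9⟩ := hW m h5 h6
        rcases h7 with (h7 | h7) | (h7 | h7)
        · left; rw [h7]; exact h8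
        · left; rw [h7]; exact h9
        · right; rw [h7]; exact h8
        · right; rw [h7]; exact h9
    have hc3 : M3.card ≤ G.b + 3 * r := by
      rcases Nat.eq_zero_or_pos n0 with h0 | h0
      · have : M3 = ∅ := by
          rw [Finset.eq_empty_iff_forall_notMem]
          intro e he
          obtain ⟨h1, h2, -⟩ := Finset.mem_filter.1 he
          obtain ⟨h3, h4⟩ := Finset.mem_filter.1 h1
          rw [h0, mem_Used] at h2
          rcases h2 with h2 | ⟨m, hm, -⟩
          · exact hKP.1 _ _ (hMe e h3).1 h2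
          · omega
        rw [this]
        simp
      · obtain ⟨n, hn⟩ : ∃ n, n0 = n + 1 := ⟨n0 - 1, by omega⟩
        have hnt : ¬ tagged G F₀ f n j := Nat.find_min ht (by
          change n < n0
          omega)
        let New : Finset ℕ := Finset.univ.image (f n).v ∪ Finset.univ.image (f n).c
        have hNew : New.card ≤ 3 * r := by
          refine (Finset.card_union_le _ _).trans ?_
          have h1 := Finset.card_image_le (s := (Finset.univ : Finset (Fin r × Fin 2))) (f := (f n).v)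
          have h2 := Finset.card_image_le (s := (Finset.univ : Finset (Fin r))) (f := (f n).c)
          rw [Finset.card_univ, Fintype.card_prod, Fintype.card_fin, Fintype.card_fin] at h1
          rw [Finset.card_univ, Fintype.card_fin] at h2
          omega
        let M5 := M3.filter (fun e => e.1 ∈ New ∨ e.2 ∈ New)
        let M6 := M3.filter (fun e => ¬ (e.1 ∈ New ∨ e.2 ∈ New))
        have hc56 : M3.card = M5.card + M6.card := (Finset.card_filter_add_card_filter_not _).symm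
        have hM3 : M3 ⊆ M := (Finset.filter_subset _ _).trans (Finset.filter_subset _ _)
        have hc5 : M5.card ≤ New.card :=
          card_le_of_meet (hM.mono ((Finset.filter_subset _ _).trans hM3)) New
            (fun e he => (Finset.mem_filter.1 he).2)
        have hUsed : ∀ a, a ∈ Used F₀ f n0 → a ∉ New → a ∈ Used F₀ f n := by
          intro a ha ha'
          rw [hn, mem_Used] at ha
          rw [mem_Used]
          rcases ha with ha | ⟨m, hm, ha⟩
          · exact Or.inl ha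
          · rcases Nat.lt_or_ge m n with h1 | h1
            · exact Or.inr ⟨m, h1, ha⟩
            · exfalso
              have : m = n := by omega
              subst this
              apply ha'
              rcases ha with ⟨s, hs⟩ | ⟨t, ht⟩
              · exact Finset.mem_union_left _ (Finset.mem_image.2 ⟨s, Finset.mem_univ _, hs⟩)
              · exact Finset.mem_union_right _ (Finset.mem_image.2 ⟨t, Finset.mem_univ _, ht⟩)
        have hc6 : M6.card ≤ G.b := by
          by_contra hcon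
          apply hnt
          left
          refine ⟨j', hjj', M6, by omega, fun e he => ?_,
            hM.mono ((Finset.filter_subset _ _).trans hM3)⟩
          obtain ⟨h1, h2⟩ := Finset.mem_filter.1 he
          obtain ⟨h3, h4, h5⟩ := Finset.mem_filter.1 h1
          rw [not_or] at h2
          exact ⟨Finset.mem_coe.2 (hUsed _ h4 h2.1), Finset.mem_coe.2 (hUsed _ h5 h2.2),
            (Finset.mem_filter.1 h3).2⟩
        omega
    rcases hWc with h0 | ⟨m, h1, h2, h3⟩
    · left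
      rw [h0, Finset.card_empty] at hc4
      omega
    · right
      exact ⟨m, h1, h2, by omega⟩
  · left
    push Not at ht
    obtain ⟨n, hn⟩ := exists_Used_finset hf (M.image Prod.fst ∪ M.image Prod.snd)
    by_contra hcon
    apply ht n
    left
    refine ⟨j, G.E.refl j, M, by omega, fun e he => ⟨?_, ?_, (hMe e he).2⟩, hM⟩
    · exact Finset.mem_coe.2 (hn (Finset.mem_union_left _ (Finset.mem_image_of_mem _ he)))
    · exact Finset.mem_coe.2 (hn (Finset.mem_union_right _ (Finset.mem_image_of_mem _ he)))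

/-- some member of the class of `j` has `n` disjoint admissible edges -/
def Big (G : GF K) (Adm : ℕ → ℕ → Prop) (j : G.I) (n : ℕ) : Prop :=
  ∃ j1, G.E.r j1 j ∧ HasM (fun x y => Adm x y ∧ G.Γ j1 x y) univ n

lemma Big_mono {Adm : ℕ → ℕ → Prop} {j : G.I} {m n : ℕ} (h : m ≤ n) (hn : Big G Adm j n) :
    Big G Adm j m := by
  obtain ⟨j1, h1, M, h2, h3, h4⟩ := hn
  exact ⟨j1, h1, M, h.trans h2, h3, h4⟩

theorem decode (hf : ∀ n, Ok G κ F₀ i0 i1 n f (f n)) {N : ℕ → ℕ}
    (hN : ∀ k, ∃ S : Finset ℕ, S.card = N k ∧ ∀ n, κ n = k ↔ n ∈ S)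
    (hN0 : ∀ k, 2 * G.b + 3 * r + 1 ≤ N k) (hN1 : ∀ k, 2 * G.b + 3 * r + 2 * N k + 1 ≤ N (k + 1))
    {σ : ℕ → Bool} {Adm : ℕ → ℕ → Prop} (hKP : KP G κ F₀ i0 i1 f σ Adm)
    (hlow : ∀ n, σ (κ n) = true → Adm ((f n).v (i0, 0)) ((f n).v (i1, 1))) (k : ℕ) :
    σ k = true ↔ ∃ j, Big G Adm j (N k) ∧ ¬ Big G Adm j (N (k + 1)) := by
  classical
  have hN' : ∀ k, ∃ S : Finset ℕ, S.card = N k ∧ ∀ n, κ n = k → n ∈ S := fun k => by
    obtain ⟨S, h1, h2⟩ := hN k
    exact ⟨S, h1, fun n hn => (h2 n).1 hn⟩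
  have hmono : StrictMono N := strictMono_nat_of_lt_succ (fun k => by have := hN1 k; omega)
  have hup : ∀ j n, Big G Adm j n → n ≤ 2 * G.b + 3 * r ∨ ∃ m, G.E.r (f m).i j ∧ σ (κ m) = true ∧
      n ≤ 2 * G.b + 3 * r + 2 * N (κ m) := by
    rintro j n ⟨j1, hj1, M, h1, h2, h3⟩
    rcases bound hf hN' hKP j1 M h3 (fun e he => (h2 e he).2.2) with h4 | ⟨m, h4, h5, h6⟩
    · left; omega
    · right
      exact ⟨m, G.E.trans h4 hj1, h5, by omega⟩
  have hlow' : ∀ n, σ (κ n) = true → Big G Adm (f n).i (N (κ n)) := by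
    intro n hn
    obtain ⟨S, hS1, hS2⟩ := hN (κ n)
    have hinj : Set.InjOn (fun m => ((f m).v (i0, 0), (f m).v (i1, 1))) (S : Set ℕ) := by
      intro a _ b _ h
      exact (v_inj hf (Prod.ext_iff.1 h).1).1
    refine ⟨(f n).i, G.E.refl _, S.image (fun m => ((f m).v (i0, 0), (f m).v (i1, 1))), ?_, ?_, ?_⟩
    · rw [Finset.card_image_of_injOn hinj, hS1]
    · intro e he
      obtain ⟨m, hm, rfl⟩ := Finset.mem_image.1 he
      have hκ : κ m = κ n := (hS2 m).2 hm
      refine ⟨trivial, trivial, hlow m (by rw [hκ]; exact hn), ?_⟩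
      have h1 : (f m).i = (f n).i := by
        rcases lt_trichotomy m n with h2 | h2 | h2
        · exact ((hf n).same m h2 hκ).symm
        · rw [h2]
        · exact (hf m).same n h2 hκ.symm
      rw [← h1]
      exact (hf m).edge
    · intro e he e' he' hne
      obtain ⟨m, hm, rfl⟩ := Finset.mem_image.1 he
      obtain ⟨m', hm', rfl⟩ := Finset.mem_image.1 he'
      have hmm : m ≠ m' := fun h => hne (by rw [h])
      exact ⟨fun h => hmm (v_inj hf h).1, fun h => hmm (v_inj hf h).1, fun h => hmm (v_inj hf h).1,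
        fun h => hmm (v_inj hf h).1⟩
  constructor
  · intro hσ
    obtain ⟨S, hS1, hS2⟩ := hN k
    have hSne : S.Nonempty := by
      rw [← Finset.card_pos, hS1]
      have := hN0 k
      omega
    obtain ⟨n, hn⟩ := hSne
    have hκ : κ n = k := (hS2 n).2 hn
    refine ⟨(f n).i, ?_, fun hbig => ?_⟩
    · have := hlow' n (by rw [hκ]; exact hσ)
      rwa [hκ] at this
    · rcases hup _ _ hbig with h1 | ⟨m, h1, -, h2⟩
      · have := hN0 (k + 1)
        omega
      · have h3 : κ m = κ n := kappa_eq hf h1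
        rw [h3, hκ] at h2
        have := hN1 k
        omega
  · rintro ⟨j, h1, h2⟩
    rcases hup _ _ h1 with h3 | ⟨m, h3, h4, h5⟩
    · have := hN0 k
      omega
    · have h6 : Big G Adm j (N (κ m)) := by
        obtain ⟨j1, h7, h8⟩ := hlow' m h4
        exact ⟨j1, G.E.trans h7 h3, h8⟩
      have h7 : N k < N (κ m + 1) := by
        have := hN1 (κ m)
        omega
      have h8 : k < κ m + 1 := hmono.lt_iff_lt.1 h7
      have h9 : κ m < k + 1 := by
        by_contra hcon
        exact h2 (Big_mono (hmono.monotone (by omega : k + 1 ≤ κ m)) h6)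
      have h10 : k = κ m := by omega
      rw [h10]
      exact h4

end

/-- schedules -/
lemma exists_schedule (N : ℕ → ℕ) (hN : ∀ k, 1 ≤ N k) : ∃ κ : ℕ → ℕ,
    ∀ k, ∃ S : Finset ℕ, S.card = N k ∧ ∀ n, κ n = k ↔ n ∈ S := by
  classical
  have : Infinite (Σ k : ℕ, Fin (N k)) :=
    Infinite.of_injective (fun k => ⟨k, ⟨0, hN k⟩⟩) (fun a b h => congrArg Sigma.fst h)
  obtain ⟨e⟩ : Nonempty (ℕ ≃ Σ k : ℕ, Fin (N k)) := nonempty_equiv_of_countable
  refine ⟨fun n => (e n).1, fun k => ⟨(Finset.univ : Finset (Fin (N k))).image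
    (fun i => e.symm ⟨k, i⟩), ?_, fun n => ?_⟩⟩
  · rw [Finset.card_image_of_injective, Finset.card_univ, Fintype.card_fin]
    intro i j h
    have := e.symm.injective h
    simpa using this
  · rw [Finset.mem_image]
    constructor
    · rintro rfl
      exact ⟨(e n).2, Finset.mem_univ _, by simp⟩
    · rintro ⟨i, -, rfl⟩
      simp

end GG0

end Pool.Agent.H71
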