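import Pool.Agent.H71.Inst3

/-!
From codings by moieties and partitions to the hypotheses of the general theorem.
-/

set_option autoImplicit false

open Set Topology Filter MeasureTheory

namespace Pool.Agent.H71

attribute [local instance] permTop polishSpace_perm isTopologicalGroup_perm permMeas borelSpace_perm

lemma pmdc_moiety_of {K : Subgroup (Equiv.Perm ℕ)}
    (B : (ℕ → Bool) → Set ℕ) (hB1 : ∀ σ, (B σ).Infinite) (hB2 : ∀ σ, (B σ)ᶜ.Infinite)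
    (hB3 : ∀ t, MeasurableSet {σ | t ∈ B σ})
    (hB4 : ∀ σ τ, ∀ k ∈ K, (∀ t, k t ∈ B τ ↔ t ∈ B σ) → σ = τ)
    {A : Set ℕ} (hA : A.Infinite) (hA' : Aᶜ.Infinite) :
    PMDC K (fun h => ∀ a, h a ∈ A ↔ a ∈ A) := by
  obtain ⟨g, hg, hg'⟩ := exists_perm_moiety hA hA' B hB1 hB2 hB3
  refine ⟨g, hg, fun σ τ hne k hk h hh heq => hne ?_⟩
  refine hB4 σ τ k hk (fun t => ?_)
  have h1 : ∀ a, k (g σ a) = g τ (h a) := fun a => by
    rw [← Equiv.Perm.mul_apply, heq, Equiv.Perm.mul_apply]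
  have h2 := h1 ((g σ).symm t)
  rw [Equiv.apply_symm_apply] at h2
  have h4 := hg' σ ((g σ).symm t)
  rw [Equiv.apply_symm_apply] at h4
  rw [h2, hg' τ, hh, h4]

lemma pmdc_partition_of {K : Subgroup (Equiv.Perm ℕ)} {Q : Type} [Countable Q] [Infinite Q]
    (F₀ : Finset ℕ) (r : ℕ) (C : ℕ → Set ℕ)
    (β : (ℕ → Bool) → ({a : ℕ // a ∉ F₀} ≃ Fin r × Q))
    (hβ1 : ∀ t s, MeasurableSet {σ | β σ t = s})
    (hβ2 : ∀ σ τ, ∀ k ∈ K, ∀ hk : ∀ a, k a ∉ F₀ ↔ a ∉ F₀,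
      (∀ a b : {a : ℕ // a ∉ F₀}, (β τ ⟨k a, (hk a).2 a.2⟩).2 = (β τ ⟨k b, (hk b).2 b.2⟩).2 ↔
        (β σ a).2 = (β σ b).2) → σ = τ)
    (hC : ∀ a, a ∉ F₀ → a ∈ C a ∧ (C a).Finite ∧ (C a).ncard = r ∧ ∀ b ∈ C a, b ∉ F₀ ∧ C b = C a) :
    PMDC K (fun h => (∀ a, h a ∈ F₀ ↔ a ∈ F₀) ∧ ∀ a, a ∉ F₀ → C (h a) = h '' (C a)) := by
  classical
  obtain ⟨β₀, hβ₀⟩ := exists_beta' Q hC
  let Ω := {a : ℕ // a ∉ F₀}
  let gΩ : (ℕ → Bool) → Equiv.Perm Ω := fun σ => β₀.trans (β σ).symm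
  have hgΩ : ∀ σ a, β σ (gΩ σ a) = β₀ a := fun σ a => (β σ).apply_symm_apply _
  let g : (ℕ → Bool) → Equiv.Perm ℕ := fun σ => Equiv.Perm.ofSubtype (gΩ σ)
  refine ⟨g, ?_, ?_⟩
  · refine measurable_to_perm fun a b => ?_
    by_cases ha : a ∉ F₀
    · by_cases hb : b ∉ F₀
      · have : {σ | g σ a = b} = {σ | β σ ⟨b, hb⟩ = β₀ ⟨a, ha⟩} := by
          ext σ
          simp only [mem_ofPred_eq, g]
          rw [Equiv.Perm.ofSubtype_apply_of_mem (gΩ σ) ha]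
          have e1 : ((gΩ σ ⟨a, ha⟩ : Ω) : ℕ) = b ↔ gΩ σ ⟨a, ha⟩ = ⟨b, hb⟩ :=
            ⟨fun h => Subtype.ext h, fun h => by rw [h]⟩
          rw [e1, ← (β σ).injective.eq_iff, hgΩ]
          exact eq_comm
        rw [this]
        exact hβ1 _ _
      · have : {σ | g σ a = b} = ∅ := by
          ext σ
          simp only [mem_ofPred_eq, mem_empty_iff_false, iff_false]
          intro h
          apply hb
          rw [← h]
          exact (Equiv.Perm.ofSubtype_apply_mem_iff_mem (gΩ σ) a).2 ha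
        rw [this]
        exact MeasurableSet.empty
    · have : {σ | g σ a = b} = {σ | a = b} := by
        ext σ
        simp only [mem_ofPred_eq, g]
        rw [Equiv.Perm.ofSubtype_apply_of_not_mem (gΩ σ) ha]
      rw [this]
      exact MeasurableSet.const _
  · intro σ τ hne k hk h hh heq
    obtain ⟨hh1, hh2⟩ := hh
    apply hne
    have happ : ∀ a, k (g σ a) = g τ (h a) := fun a => by
      rw [← Equiv.Perm.mul_apply, heq, Equiv.Perm.mul_apply]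
    have hgmem : ∀ ρ a, g ρ a ∉ F₀ ↔ a ∉ F₀ := fun ρ a =>
      Equiv.Perm.ofSubtype_apply_mem_iff_mem (gΩ ρ) a
    have hkmem : ∀ a, k a ∉ F₀ ↔ a ∉ F₀ := by
      intro a
      have h1 := happ ((g σ).symm a)
      rw [Equiv.apply_symm_apply] at h1
      have h2 := hgmem σ ((g σ).symm a)
      rw [Equiv.apply_symm_apply] at h2
      rw [h1, hgmem, hh1]
      exact h2.symm
    have hhmem : ∀ a, a ∉ F₀ ↔ h a ∉ F₀ := fun a => by rw [hh1]
    let hΩ : Ω ≃ Ω := h.subtypePerm (fun a => (hhmem a).symm)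
    have hhΩ : ∀ a : Ω, ((hΩ a : Ω) : ℕ) = h a := fun a => rfl
    have hcomm : ∀ a : Ω, (⟨k (gΩ σ a).1, (hkmem _).2 (gΩ σ a).2⟩ : Ω) = gΩ τ (hΩ a) := by
      intro a
      apply Subtype.ext
      have h2 := happ a.1
      have h3 : g σ a.1 = ((gΩ σ a : Ω) : ℕ) := Equiv.Perm.ofSubtype_apply_coe (gΩ σ) a
      have h4 : g τ (h a.1) = ((gΩ τ (hΩ a) : Ω) : ℕ) :=
        Equiv.Perm.ofSubtype_apply_coe (gΩ τ) (hΩ a)
      rw [h3, h4] at h2
      exact h2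
    refine hβ2 σ τ k hk hkmem (fun s t => ?_)
    obtain ⟨a, rfl⟩ := (gΩ σ).surjective s
    obtain ⟨b, rfl⟩ := (gΩ σ).surjective t
    rw [hcomm, hcomm, hgΩ, hgΩ, hgΩ, hgΩ, hβ₀, hβ₀, hhΩ, hhΩ, hh2 _ a.2, hh2 _ b.2,
      (Set.image_injective.2 h.injective).eq_iff]

end Pool.Agent.H71
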