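import Pool.Agent.H71.GF3
import Pool.Agent.H71.Pm

/-!
A family of graphs gives the two hypotheses of the general theorem.
-/

set_option autoImplicit false

open Set

namespace Pool.Agent.H71

attribute [local instance] permTop polishSpace_perm isTopologicalGroup_perm permMeas borelSpace_perm

namespace GG0

section

variable {K : Subgroup (Equiv.Perm ℕ)} {G : GF K} {κ : ℕ → ℕ} {F₀ : Finset ℕ} {r : ℕ}
  {i0 i1 : Fin r} {f : ℕ → Stage G.I r}

/-- invariance of `Big` -/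
lemma Big_map {k : Equiv.Perm ℕ} {π : G.I ≃ G.I}
    (hπ1 : ∀ i x y, G.Γ (π i) (k x) (k y) ↔ G.Γ i x y) (hπ2 : ∀ i j, G.E.r (π i) (π j) ↔ G.E.r i j)
    {Adm Adm' : ℕ → ℕ → Prop} (hA : ∀ x y, Adm x y → Adm' (k x) (k y)) {j : G.I} {n : ℕ}
    (h : Big G Adm j n) : Big G Adm' (π j) n := by
  classical
  obtain ⟨j1, h1, M, h2, h3, h4⟩ := h
  have hinj : Function.Injective (fun e : ℕ × ℕ => (k e.1, k e.2)) := by
    intro a b hab
    simp only [Prod.mk.injEq, EmbeddingLike.apply_eq_iff_eq] at hab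
    exact Prod.ext hab.1 hab.2
  refine ⟨π j1, (hπ2 _ _).2 h1, M.image (fun e => (k e.1, k e.2)), ?_, ?_, ?_⟩
  · rw [Finset.card_image_of_injective _ hinj]; exact h2
  · intro e he
    obtain ⟨e', he', rfl⟩ := Finset.mem_image.1 he
    obtain ⟨-, -, h5, h6⟩ := h3 e' he'
    exact ⟨trivial, trivial, hA _ _ h5, (hπ1 _ _ _).2 h6⟩
  · intro e he e' he' hne
    obtain ⟨a, ha, rfl⟩ := Finset.mem_image.1 he
    obtain ⟨b, hb, rfl⟩ := Finset.mem_image.1 he'
    have hab : a ≠ b := fun h => hne (by rw [h])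
    obtain ⟨g1, g2, g3, g4⟩ := h4 a ha b hb hab
    exact ⟨fun h => g1 (k.injective h), fun h => g2 (k.injective h), fun h => g3 (k.injective h),
      fun h => g4 (k.injective h)⟩

lemma Big_iff (hK : ∀ k ∈ K, ∃ π : G.I ≃ G.I, (∀ i x y, G.Γ (π i) (k x) (k y) ↔ G.Γ i x y) ∧
    ∀ i j, G.E.r (π i) (π j) ↔ G.E.r i j) {k : Equiv.Perm ℕ} (hk : k ∈ K)
    {Adm Adm' : ℕ → ℕ → Prop} (hA : ∀ x y, Adm x y ↔ Adm' (k x) (k y)) {m n : ℕ} :
    (∃ j, Big G Adm j m ∧ ¬ Big G Adm j n) ↔ ∃ j, Big G Adm' j m ∧ ¬ Big G Adm' j n := by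
  obtain ⟨π, hπ1, hπ2⟩ := hK k hk
  have hπ1' : ∀ i x y, G.Γ (π.symm i) (k⁻¹ x) (k⁻¹ y) ↔ G.Γ i x y := fun i x y => by
    rw [← hπ1]; simp
  have hπ2' : ∀ i j, G.E.r (π.symm i) (π.symm j) ↔ G.E.r i j := fun i j => by
    rw [← hπ2]; simp
  have hA' : ∀ x y, Adm' x y → Adm (k⁻¹ x) (k⁻¹ y) := fun x y h => by
    rw [hA]; simpa using h
  have key : ∀ j l, Big G Adm' (π j) l ↔ Big G Adm j l := by
    intro j l
    constructor
    · intro h
      have := Big_map hπ1' hπ2' hA' h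
      rwa [π.symm_apply_apply] at this
    · exact Big_map hπ1 hπ2 (fun x y => (hA x y).1)
  constructor
  · rintro ⟨j, h1, h2⟩
    exact ⟨π j, (key _ _).2 h1, fun h => h2 ((key _ _).1 h)⟩
  · rintro ⟨j, h1, h2⟩
    refine ⟨π.symm j, ?_, ?_⟩
    · rw [← key, π.apply_symm_apply]; exact h1
    · rw [← key, π.apply_symm_apply]; exact h2

/-- the coding set -/
def AA (G : GF K) (κ : ℕ → ℕ) (i0 i1 : Fin r) (f : ℕ → Stage G.I r) (σ : ℕ → Bool) : Set ℕ :=
  {a | ∃ n, σ (κ n) = true ∧ (a = (f n).v (i0, 0) ∨ a = (f n).v (i1, 1))}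

lemma KP_AA (hf : ∀ n, Ok G κ F₀ i0 i1 n f (f n)) (σ : ℕ → Bool) :
    KP G κ F₀ i0 i1 f σ (fun x y => x ∈ AA G κ i0 i1 f σ ∧ y ∈ AA G κ i0 i1 f σ) := by
  refine ⟨?_, ?_⟩
  · rintro x y ⟨⟨n, -, h⟩, -⟩
    rcases h with rfl | rfl
    · exact v_notMem hf n _
    · exact v_notMem hf n _
  · intro j j' hj' x y hxy hΓ n hn
    obtain ⟨⟨m1, hσ1, hx⟩, ⟨m2, hσ2, hy⟩⟩ := hxy
    -- the symmetric core
    have core : ∀ (m1 m2 : ℕ) (x y : ℕ), m2 ≤ m1 → n ≤ m1 → G.Γ j' x y →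
        (x = (f m1).v (i0, 0) ∨ x = (f m1).v (i1, 1)) →
        (y = (f m2).v (i0, 0) ∨ y = (f m2).v (i1, 1)) → G.E.r (f m1).i j := by
      intro m1 m2 x y h21 hn1 hΓ hx hy
      by_contra hcon
      have ht : tagged G F₀ f m1 j := tagged_mono G hn1 hn
      obtain ⟨h1, h2⟩ := (hf m1).cross j ht (fun h => hcon (G.E.symm h)) j' hj'
      rcases h21.lt_or_eq with h3 | h3
      · have hyU : y ∈ Used F₀ f m1 := by
          rcases hy with rfl | rfl
          · exact v_mem_Used h3 _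
          · exact v_mem_Used h3 _
        obtain ⟨h4, h5⟩ := h2 y hyU
        rcases hx with rfl | rfl
        · exact h4 (G.sym _ _ _ hΓ)
        · exact h5 (G.sym _ _ _ hΓ)
      · subst h3
        rcases hx with rfl | rfl
        · rcases hy with rfl | rfl
          · exact G.irr _ _ hΓ
          · exact h1 hΓ
        · rcases hy with rfl | rfl
          · exact h1 (G.sym _ _ _ hΓ)
          · exact G.irr _ _ hΓ
    have hmem : ∀ m x, m < n → (x = (f m).v (i0, 0) ∨ x = (f m).v (i1, 1)) →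
        x ∈ Used F₀ f n := by
      intro m x hm hx
      rcases hx with rfl | rfl
      · exact v_mem_Used hm _
      · exact v_mem_Used hm _
    rcases le_total m2 m1 with h21 | h12
    · rcases Nat.lt_or_ge m1 n with h1 | h1
      · exact Or.inl ⟨hmem m1 x h1 hx, hmem m2 y (by omega) hy⟩
      · exact Or.inr ⟨m1, core m1 m2 x y h21 h1 hΓ hx hy, hσ1, Or.inl hx⟩
    · rcases Nat.lt_or_ge m2 n with h1 | h1
      · exact Or.inl ⟨hmem m1 x (by omega) hx, hmem m2 y h1 hy⟩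
      · exact Or.inr ⟨m2, core m2 m1 y x h12 h1 (G.sym _ _ _ hΓ) hy hx, hσ2, Or.inr hy⟩

end

/-- the numbers of stages -/
def NN (b r : ℕ) (k : ℕ) : ℕ := (2 * b + 3 * r + 1) * 4 ^ k

lemma NN_ge (b r k : ℕ) : 2 * b + 3 * r + 1 ≤ NN b r k :=
  Nat.le_mul_of_pos_right _ (by positivity)

lemma NN_succ (b r k : ℕ) : 2 * b + 3 * r + 2 * NN b r k + 1 ≤ NN b r (k + 1) := by
  have h := NN_ge b r k
  have : NN b r (k + 1) = 4 * NN b r k := by
    unfold NN
    rw [pow_succ]; ring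
  rw [this]
  omega

/-- doubling the code so that infinitely many values are true -/
def dbl (σ : ℕ → Bool) (n : ℕ) : Bool := if n % 2 = 0 then true else σ (n / 2)

theorem pmdc_moiety_GF {K : Subgroup (Equiv.Perm ℕ)} (G : GF K) {A : Set ℕ} (hA : A.Infinite)
    (hA' : Aᶜ.Infinite) : PMDC K (fun h => ∀ a, h a ∈ A ↔ a ∈ A) := by
  classical
  obtain ⟨κ, hκ⟩ := exists_schedule (NN G.b 2) (fun k => by have := NN_ge G.b 2 k; omega)
  have h01 : (0 : Fin 2) ≠ 1 := by decide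
  obtain ⟨f, hf⟩ := exists_construction G κ ∅ (0 : Fin 2) 1 h01
  refine pmdc_moiety_of (fun σ => AA G κ 0 1 f (dbl σ)) ?_ ?_ ?_ ?_ hA hA'
  · -- infinite
    intro σ
    have hch : ∀ k : ℕ, ∃ n, κ n = 2 * k := by
      intro k
      obtain ⟨S, hS1, hS2⟩ := hκ (2 * k)
      have : S.Nonempty := by
        rw [← Finset.card_pos, hS1]
        have := NN_ge G.b 2 (2 * k)
        omega
      obtain ⟨n, hn⟩ := this
      exact ⟨n, (hS2 n).2 hn⟩
    choose n hn using hch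
    have hinj : Function.Injective (fun k => (f (n k)).v (0, 0)) := by
      intro a b h
      have h1 := (v_inj hf h).1
      have h2 : κ (n a) = κ (n b) := by rw [h1]
      rw [hn, hn] at h2
      omega
    refine (Set.infinite_range_of_injective hinj).mono ?_
    rintro _ ⟨k, rfl⟩
    refine ⟨n k, ?_, Or.inl rfl⟩
    rw [hn]
    simp [dbl]
  · intro σ
    have hinj : Function.Injective (fun k => (f k).c 0) := fun a b h => (c_inj hf h).1
    refine (Set.infinite_range_of_injective hinj).mono ?_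
    rintro _ ⟨k, rfl⟩ ⟨n, -, h⟩
    rcases h with h | h
    · exact v_ne_c hf h.symm
    · exact v_ne_c hf h.symm
  · intro t
    have : {σ : ℕ → Bool | t ∈ AA G κ 0 1 f (dbl σ)} =
        ⋃ n, ({σ : ℕ → Bool | dbl σ (κ n) = true} ∩
          {σ : ℕ → Bool | t = (f n).v (0, 0) ∨ t = (f n).v (1, 1)}) := by
      ext σ; simp [AA]
    rw [this]
    refine MeasurableSet.iUnion fun n => MeasurableSet.inter ?_ (MeasurableSet.const _)
    by_cases h : κ n % 2 = 0
    · have : {σ : ℕ → Bool | dbl σ (κ n) = true} = univ := by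
        ext σ; simp [dbl, h]
      rw [this]
      exact MeasurableSet.univ
    · have : {σ : ℕ → Bool | dbl σ (κ n) = true} = {σ : ℕ → Bool | σ (κ n / 2) = true} := by
        ext σ; simp [dbl, h]
      rw [this]
      exact (measurable_pi_apply (X := fun _ : ℕ => Bool) (κ n / 2)) (measurableSet_singleton true)
  · intro σ τ k hk h
    have hdec : ∀ ρ l, dbl ρ l = true ↔ _ := fun ρ l =>
      decode hf hκ (NN_ge G.b 2) (NN_succ G.b 2) (KP_AA hf (dbl ρ))
        (fun n hn => ⟨⟨n, hn, Or.inl rfl⟩, ⟨n, hn, Or.inr rfl⟩⟩) l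
    funext l
    have h1 : dbl σ (2 * l + 1) = true ↔ dbl τ (2 * l + 1) = true := by
      rw [hdec σ, hdec τ]
      refine Big_iff G.G5 hk (fun x y => ?_)
      rw [h, h]
    have h2 : ∀ ρ : ℕ → Bool, dbl ρ (2 * l + 1) = ρ l := by
      intro ρ
      unfold dbl
      rw [if_neg (by omega)]
      congr 1
      omega
    rw [h2, h2] at h1
    exact Bool.eq_iff_iff.2 h1

/-- splitting the blocks -/
def bsw (r : ℕ) (κ : ℕ → ℕ) (σ : ℕ → Bool) : ℕ × (Fin r × Fin 2) ≃ Fin r × (ℕ × Fin 2) where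
  toFun x := (x.2.1, (x.1, if (x.2.1 : ℕ) = 0 ∧ σ (κ x.1) = true then Fin.rev x.2.2 else x.2.2))
  invFun x := (x.2.1, x.1, if (x.1 : ℕ) = 0 ∧ σ (κ x.2.1) = true then Fin.rev x.2.2 else x.2.2)
  left_inv x := by
    by_cases h : (x.2.1 : ℕ) = 0 ∧ σ (κ x.1) = true
    · simp [h]
    · simp [h]
  right_inv x := by
    by_cases h : (x.1 : ℕ) = 0 ∧ σ (κ x.2.1) = true
    · simp [h]
    · simp [h]

/-- swapping a pair -/
def swp (r : ℕ) : ℕ × Fin r ≃ Fin r × ℕ := Equiv.prodComm _ _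

theorem pmdc_partition_GF {K : Subgroup (Equiv.Perm ℕ)} (G : GF K) (F₀ : Finset ℕ) (r : ℕ)
    (C : ℕ → Set ℕ) (hr : 2 ≤ r)
    (hC : ∀ a, a ∉ F₀ → a ∈ C a ∧ (C a).Finite ∧ (C a).ncard = r ∧ ∀ b ∈ C a, b ∉ F₀ ∧ C b = C a) :
    PMDC K (fun h => (∀ a, h a ∈ F₀ ↔ a ∈ F₀) ∧ ∀ a, a ∉ F₀ → C (h a) = h '' (C a)) := by
  classical
  obtain ⟨κ, hκ⟩ := exists_schedule (NN G.b r) (fun k => by have := NN_ge G.b r k; omega)
  let i0 : Fin r := ⟨0, by omega⟩
  let i1 : Fin r := ⟨1, by omega⟩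
  have h01 : i0 ≠ i1 := fun h => by
    have := congrArg Fin.val h
    simp [i0, i1] at this
  obtain ⟨f, hf⟩ := exists_construction G κ F₀ i0 i1 h01
  let Ω := {a : ℕ // a ∉ F₀}
  let φ : (ℕ × (Fin r × Fin 2)) ⊕ (ℕ × Fin r) → Ω :=
    Sum.elim (fun x => ⟨(f x.1).v x.2, v_notMem hf _ _⟩) (fun x => ⟨(f x.1).c x.2, c_notMem hf _ _⟩)
  have hφ : Function.Bijective φ := by
    constructor
    · rintro (⟨n, s⟩ | ⟨n, s⟩) (⟨m, t⟩ | ⟨m, t⟩) h
      · obtain ⟨h1, h2⟩ := v_inj hf (congrArg Subtype.val h)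
        simp only at h1 h2
        rw [h1, h2]
      · exact absurd (congrArg Subtype.val h) (v_ne_c hf)
      · exact absurd (congrArg Subtype.val h).symm (v_ne_c hf)
      · obtain ⟨h1, h2⟩ := c_inj hf (congrArg Subtype.val h)
        simp only at h1 h2
        rw [h1, h2]
    · rintro ⟨a, ha⟩
      obtain ⟨n, hn⟩ := exists_mem_Used hf a
      rcases mem_Used.1 hn with h | ⟨m, -, ⟨s, hs⟩ | ⟨t, ht⟩⟩
      · exact absurd h ha
      · exact ⟨Sum.inl (m, s), Subtype.ext hs⟩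
      · exact ⟨Sum.inr (m, t), Subtype.ext ht⟩
  let e0 : (ℕ × (Fin r × Fin 2)) ⊕ (ℕ × Fin r) ≃ Ω := Equiv.ofBijective φ hφ
  let β : (ℕ → Bool) → (Ω ≃ Fin r × ((ℕ × Fin 2) ⊕ ℕ)) := fun σ =>
    (e0.symm.trans (Equiv.sumCongr (bsw r κ σ) (swp r))).trans (Equiv.prodSumDistrib _ _ _).symm
  have hβv : ∀ σ n s, β σ ⟨(f n).v s, v_notMem hf _ _⟩ =
      ((bsw r κ σ (n, s)).1, Sum.inl (bsw r κ σ (n, s)).2) := by
    intro σ n s
    have h1 : e0.symm ⟨(f n).v s, v_notMem hf _ _⟩ = Sum.inl (n, s) := by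
      rw [Equiv.symm_apply_eq]; rfl
    change (Equiv.prodSumDistrib _ _ _).symm ((Equiv.sumCongr (bsw r κ σ) (swp r)) (e0.symm _)) = _
    rw [h1]; rfl
  have hβc : ∀ σ n s, β σ ⟨(f n).c s, c_notMem hf _ _⟩ = (s, Sum.inr n) := by
    intro σ n s
    have h1 : e0.symm ⟨(f n).c s, c_notMem hf _ _⟩ = Sum.inr (n, s) := by
      rw [Equiv.symm_apply_eq]; rfl
    change (Equiv.prodSumDistrib _ _ _).symm ((Equiv.sumCongr (bsw r κ σ) (swp r)) (e0.symm _)) = _
    rw [h1]; rfl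
  -- the relation
  let R : (ℕ → Bool) → ℕ → ℕ → Prop := fun σ a b =>
    ∃ (ha : a ∉ F₀) (hb : b ∉ F₀), (β σ ⟨a, ha⟩).2 = (β σ ⟨b, hb⟩).2
  have hKP : ∀ σ, KP G κ F₀ i0 i1 f σ (R σ) := by
    intro σ
    refine ⟨fun x y h => h.1, ?_⟩
    rintro j j' hj' x y ⟨hx, hy, hxy⟩ hΓ n hn
    obtain ⟨x', hx'⟩ := hφ.2 ⟨x, hx⟩
    obtain ⟨y', hy'⟩ := hφ.2 ⟨y, hy⟩
    rw [← hx', ← hy'] at hxy
    rcases x' with ⟨m, s⟩ | ⟨m, s⟩
    · rcases y' with ⟨l, t⟩ | ⟨l, t⟩
      · change (β σ ⟨(f m).v s, v_notMem hf _ _⟩).2 = (β σ ⟨(f l).v t, v_notMem hf _ _⟩).2 at hxy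
        rw [hβv, hβv] at hxy
        have h1 := Sum.inl_injective hxy
        have hml : m = l := congrArg Prod.fst h1
        subst hml
        have h2 : (if (s.1 : ℕ) = 0 ∧ σ (κ m) = true then Fin.rev s.2 else s.2) =
          (if (t.1 : ℕ) = 0 ∧ σ (κ m) = true then Fin.rev t.2 else t.2) := congrArg Prod.snd h1
        have hxe : x = (f m).v s := (congrArg Subtype.val hx').symm
        have hye : y = (f m).v t := (congrArg Subtype.val hy').symm
        rcases Nat.lt_or_ge m n with h3 | h3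
        · left
          rw [hxe, hye]
          exact ⟨v_mem_Used h3 _, v_mem_Used h3 _⟩
        · right
          have ht : tagged G F₀ f m j := tagged_mono G h3 hn
          have hb := ((hf m).blk j (Or.inl ht) j' hj').1 s t
          rw [hxe, hye] at hΓ
          have hst : (s = (i0, 0) ∧ t = (i1, 1)) ∨ (s = (i1, 1) ∧ t = (i0, 0)) := by
            by_contra hcon
            rw [not_or] at hcon
            exact hb hcon.1 hcon.2 hΓ
          have hrel : G.E.r (f m).i j := by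
            by_contra hcon
            obtain ⟨h4, -⟩ := (hf m).cross j ht (fun h => hcon (G.E.symm h)) j' hj'
            rcases hst with ⟨rfl, rfl⟩ | ⟨rfl, rfl⟩
            · exact h4 hΓ
            · exact h4 (G.sym _ _ _ hΓ)
          have hσ : σ (κ m) = true := by
            by_contra hcon
            rw [if_neg (fun h => hcon h.2), if_neg (fun h => hcon h.2)] at h2
            rcases hst with ⟨rfl, rfl⟩ | ⟨rfl, rfl⟩
            · simp at h2
            · simp at h2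
          refine ⟨m, hrel, hσ, Or.inl ?_⟩
          rw [hxe]
          rcases hst with ⟨h4, -⟩ | ⟨h4, -⟩
          · left; rw [h4]
          · right; rw [h4]
      · exfalso
        change (β σ ⟨(f m).v s, v_notMem hf _ _⟩).2 = (β σ ⟨(f l).c t, c_notMem hf _ _⟩).2 at hxy
        rw [hβv, hβc] at hxy
        exact Sum.inl_ne_inr hxy
    · rcases y' with ⟨l, t⟩ | ⟨l, t⟩
      · exfalso
        change (β σ ⟨(f m).c s, c_notMem hf _ _⟩).2 = (β σ ⟨(f l).v t, v_notMem hf _ _⟩).2 at hxy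
        rw [hβv, hβc] at hxy
        exact Sum.inr_ne_inl hxy
      · change (β σ ⟨(f m).c s, c_notMem hf _ _⟩).2 = (β σ ⟨(f l).c t, c_notMem hf _ _⟩).2 at hxy
        rw [hβc, hβc] at hxy
        have hml : m = l := Sum.inr_injective hxy
        subst hml
        have hxe : x = (f m).c s := (congrArg Subtype.val hx').symm
        have hye : y = (f m).c t := (congrArg Subtype.val hy').symm
        rcases Nat.lt_or_ge m n with h3 | h3
        · left
          rw [hxe, hye]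
          exact ⟨c_mem_Used h3 _, c_mem_Used h3 _⟩
        · exfalso
          have ht : tagged G F₀ f m j := tagged_mono G h3 hn
          rw [hxe, hye] at hΓ
          exact ((hf m).blk j (Or.inl ht) j' hj').2 s t hΓ
  have hlow : ∀ σ n, σ (κ n) = true → R σ ((f n).v (i0, 0)) ((f n).v (i1, 1)) := by
    intro σ n hσ
    refine ⟨v_notMem hf _ _, v_notMem hf _ _, ?_⟩
    rw [hβv, hβv]
    change Sum.inl (n, if (0 : ℕ) = 0 ∧ σ (κ n) = true then Fin.rev 0 else 0) =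
      Sum.inl (n, if (1 : ℕ) = 0 ∧ σ (κ n) = true then Fin.rev 1 else 1)
    rw [if_pos ⟨rfl, hσ⟩, if_neg (fun h => by omega)]
    rfl
  refine pmdc_partition_of (K := K) (Q := (ℕ × Fin 2) ⊕ ℕ) F₀ r C β ?_ ?_ hC
  · intro t s
    obtain ⟨x, rfl⟩ := hφ.2 t
    rcases x with ⟨n, x⟩ | ⟨n, x⟩
    · have hbm : MeasurableSet {σ : ℕ → Bool | σ (κ n) = true} :=
        (measurable_pi_apply (X := fun _ : ℕ => Bool) (κ n)) (measurableSet_singleton true)
      have : {σ | β σ (φ (Sum.inl (n, x))) = s} =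
          ({σ : ℕ → Bool | σ (κ n) = true} ∩ {σ | (x.1, (Sum.inl (n, if (x.1 : ℕ) = 0 then
            Fin.rev x.2 else x.2) : (ℕ × Fin 2) ⊕ ℕ)) = s}) ∪
          ({σ : ℕ → Bool | σ (κ n) = true}ᶜ ∩
            {σ | (x.1, (Sum.inl (n, x.2) : (ℕ × Fin 2) ⊕ ℕ)) = s}) := by
        ext σ
        have h1 : β σ (φ (Sum.inl (n, x))) = ((bsw r κ σ (n, x)).1, Sum.inl (bsw r κ σ (n, x)).2) :=
          hβv σ n x
        simp only [mem_ofPred_eq, mem_union, mem_inter_iff, mem_compl_iff, h1, bsw, Equiv.coe_fn_mk]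
        by_cases hb : σ (κ n) = true
        · simp [hb]
        · simp [hb]
      rw [this]
      exact (hbm.inter (MeasurableSet.const _)).union (hbm.compl.inter (MeasurableSet.const _))
    · have : {σ | β σ (φ (Sum.inr (n, x))) = s} =
          {σ : ℕ → Bool | (x, (Sum.inr n : (ℕ × Fin 2) ⊕ ℕ)) = s} := by
        ext σ
        have h1 : β σ (φ (Sum.inr (n, x))) = (x, Sum.inr n) := hβc σ n x
        simp only [mem_ofPred_eq, h1]
      rw [this]
      exact MeasurableSet.const _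
  · intro σ τ k hk hkF hE
    have hR : ∀ x y, R σ x y ↔ R τ (k x) (k y) := by
      intro x y
      constructor
      · rintro ⟨ha, hb, hab⟩
        exact ⟨(hkF x).2 ha, (hkF y).2 hb, (hE ⟨x, ha⟩ ⟨y, hb⟩).2 hab⟩
      · rintro ⟨ha, hb, hab⟩
        exact ⟨(hkF x).1 ha, (hkF y).1 hb, (hE ⟨x, (hkF x).1 ha⟩ ⟨y, (hkF y).1 hb⟩).1 hab⟩
    funext l
    have h1 : σ l = true ↔ τ l = true := by
      rw [decode hf hκ (NN_ge G.b r) (NN_succ G.b r) (hKP σ) (hlow σ) l,
        decode hf hκ (NN_ge G.b r) (NN_succ G.b r) (hKP τ) (hlow τ) l]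
      exact Big_iff G.G5 hk hR
    exact Bool.eq_iff_iff.2 h1

end GG0

end Pool.Agent.H71
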