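import Pool.Agent.H71.Inst
import Pool.Agent.H71.Weak

/-!
Automorphism groups of total preorders with infinitely many classes satisfy the two hypotheses of
the general theorem; passage to subgroups of countable index.
-/

set_option autoImplicit false

open Set Topology Filter MeasureTheory

namespace Pool.Agent.H71

attribute [local instance] permTop polishSpace_perm isTopologicalGroup_perm permMeas borelSpace_perm

open Weak (QQ OP)

/-- a partition into sets of size `r` is isomorphic to the standard one -/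
lemma exists_beta' (Q : Type) [Countable Q] [Infinite Q] {F₀ : Finset ℕ} {r : ℕ} {C : ℕ → Set ℕ}
    (hC : ∀ a, a ∉ F₀ → a ∈ C a ∧ (C a).Finite ∧ (C a).ncard = r ∧ ∀ b ∈ C a, b ∉ F₀ ∧ C b = C a) :
    ∃ β : {a : ℕ // a ∉ F₀} ≃ Fin r × Q, ∀ a b, (β a).2 = (β b).2 ↔ C a = C b := by
  classical
  let f : {a : ℕ // a ∉ F₀} → Set.range (fun a : {a : ℕ // a ∉ F₀} => C a) :=
    Set.rangeFactorization _
  have hf : ∀ a b, f a = f b ↔ C a = C b := fun a b => Subtype.ext_iff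
  have hfs : Function.Surjective f := Set.rangeFactorization_surjective
  have hfib : ∀ q, Nonempty ({a // f a = q} ≃ Fin r) := by
    intro q
    obtain ⟨a, rfl⟩ := hfs q
    obtain ⟨h1, h2, h3, h4⟩ := hC a a.2
    have e : {b // f b = f a} ≃ C a :=
      { toFun := fun b => ⟨b.1, by
          have := (hf _ _).1 b.2
          rw [← this]
          exact (hC b.1 b.1.2).1⟩
        invFun := fun b => ⟨⟨b.1, (h4 b.1 b.2).1⟩, (hf _ _).2 (h4 b.1 b.2).2⟩
        left_inv := fun b => rfl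
        right_inv := fun b => rfl }
    have : Finite (C a) := h2
    have hcard : Nat.card (C a) = r := h3
    exact ⟨e.trans (Finite.equivFinOfCardEq hcard)⟩
  have hfib' := fun q => (hfib q).some
  have hinf : Infinite {a : ℕ // a ∉ F₀} := by
    have : (↑F₀ : Set ℕ)ᶜ.Infinite := F₀.finite_toSet.infinite_compl
    exact this.to_subtype
  have hQinf : Infinite (Set.range (fun a : {a : ℕ // a ∉ F₀} => C a)) := by
    by_contra hcon
    rw [not_infinite_iff_finite] at hcon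
    have : Finite (Σ y, {x // f x = y}) := by
      have : ∀ y, Finite {x // f x = y} := fun y => Finite.of_equiv _ (hfib' y).symm
      infer_instance
    have := Finite.of_equiv _ (Equiv.sigmaFiberEquiv f)
    exact not_finite {a : ℕ // a ∉ F₀}
  have hQc : Countable (Set.range (fun a : {a : ℕ // a ∉ F₀} => C a)) :=
    (Set.countable_range _).to_subtype
  obtain ⟨eQ⟩ : Nonempty (Set.range (fun a : {a : ℕ // a ∉ F₀} => C a) ≃ Q) :=
    nonempty_equiv_of_countable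
  let β : {a : ℕ // a ∉ F₀} ≃ Fin r × Q :=
    ((Equiv.sigmaFiberEquiv f).symm.trans (Equiv.sigmaCongrRight hfib')).trans
      ((Equiv.sigmaEquivProd _ _).trans ((Equiv.prodCongr eQ (Equiv.refl _)).trans (Equiv.prodComm _ _)))
  refine ⟨β, fun a b => ?_⟩
  have hβ : ∀ a, (β a).2 = eQ (f a) := fun a => rfl
  rw [hβ, hβ, eQ.injective.eq_iff, hf]

section

variable {Λ : Type*} [LinearOrder Λ] {ρ : ℕ → Λ}

lemma pmdc_moiety' (hρ : (range ρ).Infinite) {A : Set ℕ} (hA : A.Infinite) (hA' : Aᶜ.Infinite) :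
    PMDC (relAut (fun a b => ρ a < ρ b)) (fun h => ∀ a, h a ∈ A ↔ a ∈ A) := by
  obtain ⟨B, hB1, hB2, hB3, hB4⟩ := Weak.codeSet hρ
  obtain ⟨g, hg, hg'⟩ := exists_perm_moiety hA hA' B hB1 hB2 hB3
  refine ⟨g, hg, fun σ τ hne k hk h hh heq => hne ?_⟩
  refine hB4 σ τ k (fun s t => hk s t) (fun t => ?_)
  have h1 : ∀ a, k (g σ a) = g τ (h a) := fun a => by
    rw [← Equiv.Perm.mul_apply, heq, Equiv.Perm.mul_apply]
  have h2 := h1 ((g σ).symm t)
  rw [Equiv.apply_symm_apply] at h2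
  have h4 := hg' σ ((g σ).symm t)
  rw [Equiv.apply_symm_apply] at h4
  rw [h2, hg' τ, hh, h4]

lemma pmdc_partition' (hρ : (range ρ).Infinite) (F₀ : Finset ℕ) (r : ℕ) (C : ℕ → Set ℕ)
    (hr : 2 ≤ r)
    (hC : ∀ a, a ∉ F₀ → a ∈ C a ∧ (C a).Finite ∧ (C a).ncard = r ∧ ∀ b ∈ C a, b ∉ F₀ ∧ C b = C a) :
    PMDC (relAut (fun a b => ρ a < ρ b))
      (fun h => (∀ a, h a ∈ F₀ ↔ a ∈ F₀) ∧ ∀ a, a ∉ F₀ → C (h a) = h '' (C a)) := by
  classical
  obtain ⟨β₀, hβ₀⟩ := exists_beta' QQ hC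
  let Ω := {a : ℕ // a ∉ F₀}
  have hρΩ : (range (fun a : Ω => ρ a)).Infinite := by
    have h1 : (range ρ \ (ρ '' (F₀ : Set ℕ))).Infinite :=
      hρ.sdiff (F₀.finite_toSet.image _)
    refine h1.mono ?_
    rintro _ ⟨⟨a, rfl⟩, ha⟩
    exact ⟨⟨a, fun h => ha ⟨a, h, rfl⟩⟩, rfl⟩
  obtain ⟨β, hβ1, hβ2⟩ := Weak.codePart hρΩ hr
  let gΩ : (ℕ → Bool) → Equiv.Perm Ω := fun σ => β₀.trans (β σ).symm
  have hgΩ : ∀ σ a, β σ (gΩ σ a) = β₀ a := fun σ a => (β σ).apply_symm_apply _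
  let g : (ℕ → Bool) → Equiv.Perm ℕ := fun σ => Equiv.Perm.ofSubtype (gΩ σ)
  refine ⟨g, ?_, ?_⟩
  · refine measurable_to_perm fun a b => ?_
    by_cases ha : a ∉ F₀
    · by_cases hb : b ∉ F₀
      · have : {σ | g σ a = b} = {σ | β σ ⟨b, hb⟩ = β₀ ⟨a, ha⟩} := by
          ext σ
          simp only [mem_ofPred_eq, g]
          rw [Equiv.Perm.ofSubtype_apply_of_mem (gΩ σ) ha]
          have e1 : ((gΩ σ ⟨a, ha⟩ : Ω) : ℕ) = b ↔ gΩ σ ⟨a, ha⟩ = ⟨b, hb⟩ :=
            ⟨fun h => Subtype.ext h, fun h => by rw [h]⟩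
          rw [e1, ← (β σ).injective.eq_iff, hgΩ]
          exact eq_comm
        rw [this]
        exact hβ1 _ _
      · have : {σ | g σ a = b} = ∅ := by
          ext σ
          simp only [mem_ofPred_eq, mem_empty_iff_false, iff_false]
          intro h
          apply hb
          rw [← h]
          exact (Equiv.Perm.ofSubtype_apply_mem_iff_mem (gΩ σ) a).2 ha
        rw [this]
        exact MeasurableSet.empty
    · have : {σ | g σ a = b} = {σ | a = b} := by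
        ext σ
        simp only [mem_ofPred_eq, g]
        rw [Equiv.Perm.ofSubtype_apply_of_not_mem (gΩ σ) ha]
      rw [this]
      exact MeasurableSet.const _
  · intro σ τ hne k hk h hh heq
    obtain ⟨hh1, hh2⟩ := hh
    apply hne
    have happ : ∀ a, k (g σ a) = g τ (h a) := fun a => by
      rw [← Equiv.Perm.mul_apply, heq, Equiv.Perm.mul_apply]
    have hgmem : ∀ ρ a, g ρ a ∉ F₀ ↔ a ∉ F₀ := fun ρ a =>
      Equiv.Perm.ofSubtype_apply_mem_iff_mem (gΩ ρ) a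
    have hkmem : ∀ a, a ∉ F₀ ↔ k a ∉ F₀ := by
      intro a
      have h1 := happ ((g σ).symm a)
      rw [Equiv.apply_symm_apply] at h1
      have h2 := hgmem σ ((g σ).symm a)
      rw [Equiv.apply_symm_apply] at h2
      rw [h1, hgmem, hh1]
      exact h2
    have hhmem : ∀ a, a ∉ F₀ ↔ h a ∉ F₀ := fun a => by rw [hh1]
    let kΩ : Ω ≃ Ω := k.subtypePerm (fun a => (hkmem a).symm)
    let hΩ : Ω ≃ Ω := h.subtypePerm (fun a => (hhmem a).symm)
    have hkΩ : ∀ a : Ω, ((kΩ a : Ω) : ℕ) = k a := fun a => rfl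
    have hhΩ : ∀ a : Ω, ((hΩ a : Ω) : ℕ) = h a := fun a => rfl
    have hcomm : ∀ a : Ω, kΩ (gΩ σ a) = gΩ τ (hΩ a) := by
      intro a
      apply Subtype.ext
      rw [hkΩ]
      have h2 := happ a.1
      have h3 : g σ a.1 = ((gΩ σ a : Ω) : ℕ) := Equiv.Perm.ofSubtype_apply_coe (gΩ σ) a
      have h4 : g τ (h a.1) = ((gΩ τ (hΩ a) : Ω) : ℕ) :=
        Equiv.Perm.ofSubtype_apply_coe (gΩ τ) (hΩ a)
      rw [h3, h4] at h2
      exact h2
    refine hβ2 σ τ kΩ (fun s t => hk s.1 t.1) (fun s t => ?_)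
    obtain ⟨a, rfl⟩ := (gΩ σ).surjective s
    obtain ⟨b, rfl⟩ := (gΩ σ).surjective t
    rw [hcomm, hcomm, hgΩ, hgΩ, hgΩ, hgΩ, hβ₀, hβ₀, hhΩ, hhΩ, hh2 _ a.2, hh2 _ b.2,
      (Set.image_injective.2 h.injective).eq_iff]

end

section

variable {X : Type*} [MeasurableSpace X] [StandardBorelSpace X] [MulAction (Equiv.Perm ℕ) X]

/-- passage to a larger group in which the given one has countable index -/
lemma perfect_of_countable_index (hact : Measurable fun p : Equiv.Perm ℕ × X => p.1 • p.2)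
    {K K₀ : Subgroup (Equiv.Perm ℕ)} (hK : MeasurableSet (K : Set (Equiv.Perm ℕ)))
    (hidx : Countable (K ⧸ K₀.subgroupOf K))
    (h : ∃ f : (ℕ → Bool) → X, Measurable f ∧ ∀ x y, x ≠ y → ∀ k ∈ K₀, k • f x ≠ f y) :
    ∃ f : (ℕ → Bool) → X, Measurable f ∧ ∀ x y, x ≠ y → ∀ k ∈ K, k • f x ≠ f y := by
  classical
  obtain ⟨f, hf, hf'⟩ := h
  refine perfect_of_countable hact hK f hf (fun σ => ?_)
  have hch : ∀ τ : ℕ → Bool, ∃ k : K, (∃ k ∈ K, k • f σ = f τ) → (k : Equiv.Perm ℕ) • f σ = f τ := by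
    intro τ
    by_cases h : ∃ k ∈ K, k • f σ = f τ
    · obtain ⟨k, hk, hk'⟩ := h
      exact ⟨⟨k, hk⟩, fun _ => hk'⟩
    · exact ⟨1, fun h' => absurd h' h⟩
  choose κ hκ using hch
  let φ : (ℕ → Bool) → K ⧸ K₀.subgroupOf K := fun τ => QuotientGroup.mk (κ τ)⁻¹
  have hinj : Set.InjOn φ {τ | ∃ k ∈ K, k • f σ = f τ} := by
    intro τ hτ τ' hτ' heq
    have h1 := hκ τ hτ
    have h2 := hκ τ' hτ'
    by_contra hne
    have h3 : (κ τ)⁻¹⁻¹ * (κ τ')⁻¹ ∈ K₀.subgroupOf K := QuotientGroup.eq.1 heq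
    rw [inv_inv] at h3
    have h4 : (κ τ : Equiv.Perm ℕ) * (κ τ' : Equiv.Perm ℕ)⁻¹ ∈ K₀ := h3
    refine hf' τ' τ (Ne.symm hne) _ h4 ?_
    rw [mul_smul, ← h2, inv_smul_smul, h1]
  exact Set.countable_of_injective_of_countable_image hinj (Set.to_countable _)

theorem perfect_of_weakOrder (hact : Measurable fun p : Equiv.Perm ℕ × X => p.1 • p.2)
    {Λ : Type*} [LinearOrder Λ] {ρ : ℕ → Λ} (hρ : (range ρ).Infinite)
    {K : Subgroup (Equiv.Perm ℕ)} (hK : MeasurableSet (K : Set (Equiv.Perm ℕ)))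
    (hidx : Countable (K ⧸ (relAut (fun a b => ρ a < ρ b)).subgroupOf K)) (hX : ¬ Countable X) :
    ∃ f : (ℕ → Bool) → X, Measurable f ∧ ∀ x y, x ≠ y → ∀ k ∈ K, k • f x ≠ f y := by
  refine perfect_of_countable_index hact hK hidx ?_
  exact general hact (isClosed_relAut _).measurableSet
    (fun A hA hA' => pmdc_moiety' hρ hA hA')
    (fun F₀ r C hr hC => pmdc_partition' hρ F₀ r C hr hC) hX

end

end Pool.Agent.H71
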