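import Pool.Agent.H71.Types2

/-!
The coding of `σ : ℕ → Bool` by partitions into `r`-sets, for the stabiliser of
a countable family with uncountably many nonprincipal types.
-/

set_option autoImplicit false

open Set Topology Filter

namespace Pool.Agent.H71

namespace Ty

open CB

/-- asymptotically homogeneous partition -/
lemma exists_homog {U : Type*} [Countable U] [Infinite U] (t : U → Z) {r : ℕ} (hr : 1 ≤ r) :
    ∃ c : ℕ → Finset U, (∀ n, (c n).card = r) ∧ (∀ m n, m ≠ n → Disjoint (c m) (c n)) ∧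
      (∀ u, ∃ n, u ∈ c n) ∧
      ∀ L : ℕ, {n | ∃ u ∈ c n, ∃ v ∈ c n, ∃ i < L, t u i ≠ t v i}.Finite := by
  classical
  obtain ⟨e⟩ : Nonempty (U ≃ ℕ) := nonempty_equiv_of_countable
  let l : U → ℕ := fun u => Nat.findGreatest (fun l => {v | ∀ i < l, t v i = t u i}.Infinite) (e u)
  have hl0 : ∀ u, {v | ∀ i < l u, t v i = t u i}.Infinite := by
    intro u
    have h0 : {v | ∀ i < 0, t v i = t u i}.Infinite := by
      have : {v | ∀ i < 0, t v i = t u i} = univ := by
        ext v; simp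
      rw [this]
      exact Set.infinite_univ
    exact Nat.findGreatest_spec (P := fun l => {v | ∀ i < l, t v i = t u i}.Infinite)
      (Nat.zero_le (e u)) h0
  have hlL : ∀ L, {u | l u < L}.Finite := by
    intro L
    have h1 : {u | l u < L} ⊆ {u | e u < L} ∪ {u | {v | ∀ i < L, t v i = t u i}.Finite} := by
      intro u hu
      by_contra hcon
      simp only [mem_union, mem_ofPred_eq, not_or, not_lt] at hcon
      obtain ⟨h2, h3⟩ := hcon
      have h4 := Nat.le_findGreatest (P := fun l => {v | ∀ i < l, t v i = t u i}.Infinite) h2 h3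
      have h5 : l u < L := hu
      have h6 : L ≤ l u := h4
      omega
    refine Set.Finite.subset (Set.Finite.union ?_ ?_) h1
    · exact (Set.finite_Iio L).preimage e.injective.injOn
    · have h2 : {u | {v | ∀ i < L, t v i = t u i}.Finite} ⊆
          ⋃ p : Fin L → Bool, {v | {w | ∀ i : Fin L, t w i = p i}.Finite ∧ ∀ i : Fin L, t v i = p i} := by
        intro u hu
        rw [mem_iUnion]
        refine ⟨fun i => t u i, ?_, fun i => rfl⟩
        refine Set.Finite.subset hu ?_
        intro w hw i hi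
        exact hw ⟨i, hi⟩
      refine Set.Finite.subset (Set.finite_iUnion fun p => ?_) h2
      by_cases hp : {w | ∀ i : Fin L, t w i = p i}.Finite
      · exact hp.subset fun v hv => hv.2
      · have : {v | {w | ∀ i : Fin L, t w i = p i}.Finite ∧ ∀ i : Fin L, t v i = p i} = ∅ := by
          ext v; simp [hp]
        rw [this]
        exact Set.finite_empty
  let good : Finset U → Prop := fun c => ∃ u ∈ c, ∀ v ∈ c, ∀ i < l u, t v i = t u i
  obtain ⟨c, hc1, hc2, hc3, hc4⟩ := Weak.greedy (r := r) good (by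
    intro S u hu
    have h1 : ({v | ∀ i < l u, t v i = t u i} \ ((insert u S : Finset U) : Set U)).Infinite :=
      (hl0 u).sdiff (Finset.finite_toSet _)
    obtain ⟨w, hw, hwc⟩ := h1.exists_subset_card_eq (r - 1)
    have hwS : ∀ x ∈ w, x ∉ (insert u S : Finset U) := fun x hx => by
      have := (hw (Finset.mem_coe.2 hx)).2
      simpa using this
    have huw : u ∉ w := fun h => hwS u h (Finset.mem_insert_self _ _)
    refine ⟨insert u w, Finset.mem_insert_self _ _, ?_, ?_, u, Finset.mem_insert_self _ _, ?_⟩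
    · rw [Finset.card_insert_of_notMem huw, hwc]; omega
    · rw [Finset.disjoint_left]
      intro x hx
      rcases Finset.mem_insert.1 hx with rfl | hx
      · exact hu
      · exact fun h => hwS x hx (Finset.mem_insert_of_mem h)
    · intro x hx
      rcases Finset.mem_insert.1 hx with rfl | hx
      · exact fun _ _ => rfl
      · exact (hw (Finset.mem_coe.2 hx)).1)
  refine ⟨c, hc1, hc3, hc4, fun L => ?_⟩
  choose g hg1 hg2 using hc2
  have hginj : Function.Injective g := by
    intro m n hmn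
    by_contra hne
    exact Finset.disjoint_left.1 (hc3 m n hne) (hg1 m) (by rw [hmn]; exact hg1 n)
  refine Set.Finite.subset ((hlL L).preimage hginj.injOn) ?_
  rintro n ⟨u, hu, v, hv, i, hi, hne⟩
  change l (g n) < L
  by_contra hcon
  apply hne
  rw [hg2 n u hu i (by omega), hg2 n v hv i (by omega)]

/-- index type of classes -/
abbrev QP : Type := (N0 × Fin 2) ⊕ ℕ

/-- the isolated point of `CC σ` -/
def z0 : Z := pre 0 zero

lemma z0_mem (σ : ℕ → Bool) : z0 ∈ CC σ := pre_mem_star.2 rfl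

/-- the indices which are mixed -/
def bb (σ : ℕ → Bool) (s : N0) : Prop := fs s.1 ∈ CC σ ∧ fs s.1 ≠ z0

open Classical in
/-- the two splittings of the blocks -/
noncomputable def bs (r : ℕ) (σ : ℕ → Bool) : N0 × Fin r × Fin 2 ≃ Fin r × (N0 × Fin 2) where
  toFun x := (x.2.1, (x.1, if (x.2.1 : ℕ) = 0 ∧ bb σ x.1 then Fin.rev x.2.2 else x.2.2))
  invFun x := (x.2.1, x.1, if (x.1 : ℕ) = 0 ∧ bb σ x.2.1 then Fin.rev x.2.2 else x.2.2)
  left_inv x := by
    by_cases h : (x.2.1 : ℕ) = 0 ∧ bb σ x.1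
    · simp [h]
    · simp [h]
  right_inv x := by
    by_cases h : (x.1 : ℕ) = 0 ∧ bb σ x.2.1
    · simp [h]
    · simp [h]

section

variable {E : ℕ → Set ℕ} {Ψ : Z → Z}

theorem codeP (E : ℕ → Set ℕ) (hΨ : Continuous Ψ) (hΨi : Function.Injective Ψ)
    (hΨr : range Ψ ⊆ Acc E univ) (F₀ : Finset ℕ) {r : ℕ} (hr : 2 ≤ r) :
    ∃ β : (ℕ → Bool) → ({a : ℕ // a ∉ F₀} ≃ Fin r × QP), (∀ t s, MeasurableSet {σ | β σ t = s}) ∧
    ∀ σ τ, ∀ k ∈ famStab E, ∀ hk : ∀ a, k a ∉ F₀ ↔ a ∉ F₀,
      (∀ a b : {a : ℕ // a ∉ F₀}, (β τ ⟨k a, (hk a).2 a.2⟩).2 = (β τ ⟨k b, (hk b).2 b.2⟩).2 ↔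
        (β σ a).2 = (β σ b).2) → σ = τ := by
  classical
  -- choice of the elements of the blocks
  obtain ⟨v, hv, hv'⟩ := exists_inj_choice (N := (N0 × Fin r × Fin 2) ⊕ ℕ) (α := ℕ)
    (Sum.elim (fun s => {a | a ∈ (univ : Set ℕ) ∧ ∀ i < cd s.1, tp E a i =
      Ψ (if s.2.2 = 0 then fs s.1.1 else z0) i} \ (F₀ : Set ℕ)) (fun _ => (F₀ : Set ℕ)ᶜ)) (by
      rintro (s | n)
      · exact (hΨr ⟨_, rfl⟩ (cd s.1)).sdiff F₀.finite_toSet
      · exact F₀.finite_toSet.infinite_compl)
  let Ω := {a : ℕ // a ∉ F₀}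
  let vb : N0 × Fin r × Fin 2 → Ω := fun s => ⟨v (Sum.inl s), (hv' (Sum.inl s)).2⟩
  let vr : ℕ → Ω := fun n => ⟨v (Sum.inr n), hv' (Sum.inr n)⟩
  have hvb : Function.Injective vb := fun s s' h => Sum.inl_injective (hv (congrArg Subtype.val h))
  have hvr : Function.Injective vr := fun s s' h => Sum.inr_injective (hv (congrArg Subtype.val h))
  have hvbr : ∀ n, vr n ∉ range vb := by
    rintro n ⟨s, hs⟩
    exact Sum.inl_ne_inr (hv (congrArg Subtype.val hs))
  have hvtp : ∀ s : N0 × Fin r × Fin 2, ∀ i < cd s.1, tp E (vb s).1 i =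
      Ψ (if s.2.2 = 0 then fs s.1.1 else z0) i := fun s => (hv' (Sum.inl s)).1.2
  let U := {a : Ω // a ∉ range vb}
  have hUinf : Infinite U := Infinite.of_injective (fun n => (⟨vr n, hvbr n⟩ : U))
    (fun a b h => hvr (congrArg Subtype.val h))
  obtain ⟨c, hc1, hc3, hc4, hc5⟩ := exists_homog (fun u : U => tp E u.1.1) (r := r) (by omega)
  choose ix hix using hc4
  have hix' : ∀ u n, u ∈ c n → ix u = n := by
    intro u n hun
    by_contra hne
    exact Finset.disjoint_left.1 (hc3 _ _ hne) (hix u) hun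
  obtain ⟨γ, hγ⟩ := Weak.exists_equiv_prod ix (r := r) (by
    intro n
    have e : {u // ix u = n} ≃ c n :=
      { toFun := fun u => ⟨u.1, by have := hix u.1; rwa [u.2] at this⟩
        invFun := fun u => ⟨u.1, hix' u.1 n u.2⟩
        left_inv := fun u => rfl
        right_inv := fun u => rfl }
    exact ⟨e.trans (Finset.equivFinOfCardEq (hc1 n))⟩)
  let eR : (N0 × Fin r × Fin 2) ≃ {a : Ω // a ∈ range vb} := Equiv.ofInjective vb hvb
  let β : (ℕ → Bool) → (Ω ≃ Fin r × QP) := fun σ =>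
    ((Equiv.sumCompl (fun t : Ω => t ∈ range vb)).symm.trans
      (Equiv.sumCongr (eR.symm.trans (bs r σ)) γ)).trans (Equiv.prodSumDistrib _ _ _).symm
  have hβb : ∀ σ s, β σ (vb s) = ((bs r σ s).1, Sum.inl (bs r σ s).2) := by
    intro σ s
    change (Equiv.prodSumDistrib _ _ _).symm ((Equiv.sumCongr (eR.symm.trans (bs r σ)) γ)
      ((Equiv.sumCompl (fun t : Ω => t ∈ range vb)).symm (vb s))) = _
    rw [Equiv.sumCompl_symm_apply_of_pos (p := fun t : Ω => t ∈ range vb) (a := vb s) ⟨s, rfl⟩]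
    change (Equiv.prodSumDistrib _ _ _).symm (Sum.inl (bs r σ (eR.symm ⟨vb s, ⟨s, rfl⟩⟩))) = _
    have : eR.symm ⟨vb s, ⟨s, rfl⟩⟩ = s := eR.symm_apply_apply s
    rw [this]
    rfl
  have hβU : ∀ σ (u : U), β σ u = ((γ u).1, Sum.inr (γ u).2) := by
    intro σ u
    change (Equiv.prodSumDistrib _ _ _).symm ((Equiv.sumCongr (eR.symm.trans (bs r σ)) γ)
      ((Equiv.sumCompl (fun t : Ω => t ∈ range vb)).symm u)) = _
    rw [Equiv.sumCompl_symm_apply_of_neg (p := fun t : Ω => t ∈ range vb) (a := u) u.2]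
    rfl
  -- the relation
  let R : (ℕ → Bool) → ℕ → ℕ → Prop := fun σ a b =>
    ∃ (ha : a ∉ F₀) (hb : b ∉ F₀), (β σ ⟨a, ha⟩).2 = (β σ ⟨b, hb⟩).2
  have hOff : ∀ σ, Off E (R σ) = Ψ '' (CC σ) := by
    intro σ
    apply Subset.antisymm
    · rintro F ⟨F', hne, hF⟩
      apply cl_image hΨ (closed_CC σ)
      intro m
      obtain ⟨l, hl⟩ : ∃ l, F' l ≠ F l := by
        by_contra hcon
        push Not at hcon
        exact hne (funext hcon)
      let M := max m (l + 1)
      -- the bad elements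
      let Bad : Set ℕ := (fun s => (vb s).1) '' {s | cd s.1 < M} ∪
        (fun u : U => u.1.1) '' {u | ix u ∈ {n | ∃ u ∈ c n, ∃ v ∈ c n, ∃ i < M,
          tp E u.1.1 i ≠ tp E v.1.1 i}}
      have hBad : Bad.Finite := by
        apply Set.Finite.union
        · apply Set.Finite.image
          have h1 : {s : N0 × Fin r × Fin 2 | cd s.1 < M} ⊆ {s : N0 | cd s < M} ×ˢ univ :=
            fun s hs => ⟨hs, trivial⟩
          exact ((finite_small M).prod Set.finite_univ).subset h1
        · apply Set.Finite.image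
          have h1 : {u | ix u ∈ {n | ∃ u ∈ c n, ∃ v ∈ c n, ∃ i < M,
              tp E u.1.1 i ≠ tp E v.1.1 i}} ⊆ ⋃ n ∈ {n | ∃ u ∈ c n, ∃ v ∈ c n, ∃ i < M,
              tp E u.1.1 i ≠ tp E v.1.1 i}, ((c n : Finset U) : Set U) := by
            intro u hu
            exact mem_biUnion hu (Finset.mem_coe.2 (hix u))
          exact ((hc5 M).biUnion fun n _ => Finset.finite_toSet _).subset h1
      obtain ⟨⟨a, b⟩, ⟨⟨ha, hb, hab⟩, hp⟩, hbad⟩ := ((hF M).sdiff (hBad.prod hBad)).nonempty
      have hne2 : tp E a l ≠ tp E b l := by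
        obtain ⟨h1, h2⟩ := hp l (lt_of_lt_of_le (Nat.lt_succ_self l) (le_max_right _ _))
        rw [h1, h2]; exact hl.symm
      by_cases haU : (⟨a, ha⟩ : Ω) ∈ range vb
      · obtain ⟨⟨s, i, ε⟩, hs⟩ := haU
        by_cases hbU : (⟨b, hb⟩ : Ω) ∈ range vb
        · obtain ⟨⟨s', i', ε'⟩, hs'⟩ := hbU
          rw [← hs, ← hs', hβb, hβb] at hab
          have h1 := Sum.inl_injective hab
          have hss : s = s' := congrArg Prod.fst h1
          subst hss
          have h2 : (if (i : ℕ) = 0 ∧ bb σ s then Fin.rev ε else ε) =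
            (if (i' : ℕ) = 0 ∧ bb σ s then Fin.rev ε' else ε') := congrArg Prod.snd h1
          have ha' : a = (vb (s, i, ε)).1 := (congrArg Subtype.val hs).symm
          have hb' : b = (vb (s, i', ε')).1 := (congrArg Subtype.val hs').symm
          have hcd : M ≤ cd s := by
            by_contra hcon
            refine hbad ⟨Or.inl ⟨(s, i, ε), ?_, ha'.symm⟩, Or.inl ⟨(s, i', ε'), ?_, hb'.symm⟩⟩
            · exact not_le.1 hcon
            · exact not_le.1 hcon
          have hbs : bb σ s := by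
            by_contra hcon
            rw [if_neg (fun h => hcon h.2), if_neg (fun h => hcon h.2)] at h2
            apply hne2
            rw [ha', hb', hvtp _ l (by simp only; omega), hvtp _ l (by simp only; omega)]
            simp only [h2]
          -- the type of `a`
          have hmem : (if ε = 0 then fs s.1 else z0) ∈ CC σ := by
            by_cases hε : ε = 0
            · rw [if_pos hε]; exact hbs.1
            · rw [if_neg hε]; exact z0_mem σ
          refine ⟨Ψ (if ε = 0 then fs s.1 else z0), mem_image_of_mem _ hmem, fun j hj => ?_⟩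
          have hj1 : j < M := lt_of_lt_of_le hj (le_max_left _ _)
          rw [← (hp j hj1).1, ha']
          exact (hvtp (s, i, ε) j (by simp only; omega)).symm
        · exfalso
          rw [← hs, hβb, hβU σ ⟨_, hbU⟩] at hab
          exact Sum.inl_ne_inr hab
      · by_cases hbU : (⟨b, hb⟩ : Ω) ∈ range vb
        · exfalso
          obtain ⟨s, hs⟩ := hbU
          rw [← hs, hβb, hβU σ ⟨_, haU⟩] at hab
          exact Sum.inr_ne_inl hab
        · exfalso
          rw [hβU σ ⟨_, haU⟩, hβU σ ⟨_, hbU⟩] at hab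
          have h1 := Sum.inr_injective hab
          rw [hγ, hγ] at h1
          apply hbad
          have h2 : ix ⟨⟨a, ha⟩, haU⟩ ∈ {n | ∃ u ∈ c n, ∃ v ∈ c n, ∃ i < M,
              tp E u.1.1 i ≠ tp E v.1.1 i} :=
            ⟨⟨⟨a, ha⟩, haU⟩, hix _, ⟨⟨b, hb⟩, hbU⟩, by rw [h1]; exact hix _, l,
              lt_of_lt_of_le (Nat.lt_succ_self l) (le_max_right _ _), hne2⟩
          refine ⟨Or.inr ⟨⟨⟨a, ha⟩, haU⟩, h2, rfl⟩, Or.inr ⟨⟨⟨b, hb⟩, hbU⟩, ?_, rfl⟩⟩
          have h3 : ix ⟨⟨b, hb⟩, hbU⟩ ∈ {n | ∃ u ∈ c n, ∃ v ∈ c n, ∃ i < M,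
              tp E u.1.1 i ≠ tp E v.1.1 i} := h1 ▸ h2
          exact h3
    · rintro _ ⟨x, hx, rfl⟩
      -- the mixed pairs
      have hi0 : 0 < r := by omega
      have hi1 : 1 < r := by omega
      by_cases hxz : x = z0
      · refine ⟨Ψ zero, ?_, fun m => ?_⟩
        · intro h
          have := hΨi h
          rw [hxz] at this
          exact pre_ne_zero _ _ this.symm
        · have hinj : Function.Injective (fun n : ℕ => ((vb ((∅, n), ⟨0, hi0⟩, 1)).1,
              (vb ((∅, n), ⟨1, hi1⟩, 0)).1)) := by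
            intro a b h
            have h1 := hvb (Subtype.ext (congrArg Prod.fst h))
            simpa using h1
          refine ((exists_large ∅ m).image hinj.injOn).mono ?_
          rintro _ ⟨n, hn, rfl⟩
          have hn' : m ≤ cd (∅, n) := hn
          have hbn : bb σ (∅, n) := by
            refine ⟨?_, ?_⟩
            · simp only [fs_empty]; exact zero_mem_star _
            · simp only [fs_empty]; exact fun h => pre_ne_zero _ _ h.symm
          refine ⟨⟨(vb _).2, (vb _).2, ?_⟩, fun i hi => ⟨?_, ?_⟩⟩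
          · change (β σ (vb _)).2 = (β σ (vb _)).2
            rw [hβb, hβb]
            change Sum.inl ((∅, n), if (0 : ℕ) = 0 ∧ bb σ (∅, n) then Fin.rev 1 else 1) =
              Sum.inl ((∅, n), if (1 : ℕ) = 0 ∧ bb σ (∅, n) then Fin.rev 0 else 0)
            rw [if_pos ⟨rfl, hbn⟩, if_neg (fun h => by omega)]
            rfl
          · have := hvtp ((∅, n), ⟨0, hi0⟩, 1) i (by simp only; omega)
            rw [this, hxz]
            simp
          · have := hvtp ((∅, n), ⟨1, hi1⟩, 0) i (by simp only; omega)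
            rw [this, ← fs_empty]
            simp
      · refine ⟨Ψ z0, fun h => hxz (hΨi h).symm, fun m => ?_⟩
        obtain ⟨M, hM⟩ := cyl_cont hΨ x m
        obtain ⟨l, hl⟩ : ∃ l, x l ≠ z0 l := by
          by_contra hcon
          push Not at hcon
          exact hxz (funext hcon)
        obtain ⟨t, ht, ht'⟩ := dense_CC σ x hx (max M (l + 1))
        have htz : fs t ≠ z0 := by
          intro h
          apply hl
          rw [← ht' l (lt_of_lt_of_le (Nat.lt_succ_self l) (le_max_right _ _)), h]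
        have hinj : Function.Injective (fun n : ℕ => ((vb ((t, n), ⟨0, hi0⟩, 0)).1,
            (vb ((t, n), ⟨1, hi1⟩, 1)).1)) := by
          intro a b h
          have h1 := hvb (Subtype.ext (congrArg Prod.fst h))
          simpa using h1
        refine ((exists_large t m).image hinj.injOn).mono ?_
        rintro _ ⟨n, hn, rfl⟩
        have hn' : m ≤ cd (t, n) := hn
        have hbn : bb σ (t, n) := ⟨ht, htz⟩
        refine ⟨⟨(vb _).2, (vb _).2, ?_⟩, fun i hi => ⟨?_, ?_⟩⟩
        · change (β σ (vb _)).2 = (β σ (vb _)).2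
          rw [hβb, hβb]
          change Sum.inl ((t, n), if (0 : ℕ) = 0 ∧ bb σ (t, n) then Fin.rev 0 else 0) =
            Sum.inl ((t, n), if (1 : ℕ) = 0 ∧ bb σ (t, n) then Fin.rev 1 else 1)
          rw [if_pos ⟨rfl, hbn⟩, if_neg (fun h => by omega)]
          rfl
        · have := hvtp ((t, n), ⟨0, hi0⟩, 0) i (by simp only; omega)
          rw [this]
          simp only [if_true]
          exact hM (fs t) (fun j hj => ht' j (lt_of_lt_of_le hj (le_max_left _ _))) i hi
        · have := hvtp ((t, n), ⟨1, hi1⟩, 1) i (by simp only; omega)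
          rw [this]
          simp
  refine ⟨β, ?_, ?_⟩
  · intro t s
    by_cases ht : t ∈ range vb
    · obtain ⟨x, rfl⟩ := ht
      have hbm : MeasurableSet {σ : ℕ → Bool | bb σ x.1} := by
        have : {σ : ℕ → Bool | bb σ x.1} = {σ | fs x.1.1 ∈ CC σ} ∩ {σ | fs x.1.1 ≠ z0} := rfl
        rw [this]
        exact (measurableSet_mem_CC _).inter (MeasurableSet.const _)
      have : {σ | β σ (vb x) = s} =
          ({σ | bb σ x.1} ∩ {σ | (x.2.1, (Sum.inl (x.1, if (x.2.1 : ℕ) = 0 then Fin.rev x.2.2 else x.2.2) : QP)) = s}) ∪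
          ({σ | bb σ x.1}ᶜ ∩ {σ | (x.2.1, (Sum.inl (x.1, x.2.2) : QP)) = s}) := by
        ext σ
        simp only [mem_ofPred_eq, mem_union, mem_inter_iff, mem_compl_iff, hβb, bs, Equiv.coe_fn_mk]
        by_cases hb : bb σ x.1
        · simp [hb]
        · simp [hb]
      rw [this]
      exact (hbm.inter (MeasurableSet.const _)).union (hbm.compl.inter (MeasurableSet.const _))
    · have : {σ | β σ t = s} = {σ | ((γ ⟨t, ht⟩).1, (Sum.inr (γ ⟨t, ht⟩).2 : QP)) = s} := by
        ext σ
        simp only [mem_ofPred_eq]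
        rw [hβU σ ⟨t, ht⟩]
      rw [this]
      exact MeasurableSet.const _
  · intro σ τ k hk hkF hE
    choose u hu using hk.1
    choose w hw using hk.2
    have hR1 : ∀ a b, R σ a b → R τ (k a) (k b) := by
      rintro a b ⟨ha, hb, hab⟩
      exact ⟨(hkF a).2 ha, (hkF b).2 hb, (hE ⟨a, ha⟩ ⟨b, hb⟩).2 hab⟩
    have hR2 : ∀ a b, R τ a b → R σ (k⁻¹ a) (k⁻¹ b) := by
      rintro a b ⟨ha, hb, hab⟩
      have ha' : k⁻¹ a ∉ F₀ := by rw [← hkF]; simpa using ha
      have hb' : k⁻¹ b ∉ F₀ := by rw [← hkF]; simpa using hb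
      refine ⟨ha', hb', (hE ⟨k⁻¹ a, ha'⟩ ⟨k⁻¹ b, hb'⟩).1 ?_⟩
      have e1 : (⟨k (k⁻¹ a), (hkF _).2 ha'⟩ : Ω) = ⟨a, ha⟩ := Subtype.ext (by simp)
      have e2 : (⟨k (k⁻¹ b), (hkF _).2 hb'⟩ : Ω) = ⟨b, hb⟩ := Subtype.ext (by simp)
      rw [e1, e2]
      exact hab
    have hu' : ∀ i a, k⁻¹ a ∈ E i ↔ a ∈ E (w i) := fun i a => by
      rw [← hw]; simp
    have hw' : ∀ i a, k⁻¹ a ∈ E (u i) ↔ a ∈ E i := fun i a => by
      rw [← hu]; simp
    obtain ⟨e⟩ := homeo_of_maps (S := Off E (R σ)) (S' := Off E (R τ)) hu hw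
      (Off_subset_Cons _ _) (Off_subset_Cons _ _) (fun F hF => Off_map hu hw hR1 hF)
      (fun F hF => Off_map hu' hw' hR2 hF)
    rw [hOff, hOff] at e
    have hemb : IsEmbedding Ψ := (hΨ.isClosedEmbedding hΨi).isEmbedding
    have e1 : CC σ ≃ₜ CC τ := (hemb.homeomorphImage (CC σ)).trans (e.trans (hemb.homeomorphImage (CC τ)).symm)
    have h := Inv_eq e1
    rw [Inv_CC, Inv_CC] at h
    funext n
    have h1 : σ n = true ↔ τ n = true := by
      have := Set.ext_iff.1 h n
      exact this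
    exact Bool.eq_iff_iff.2 h1

end

end Ty

end Pool.Agent.H71
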