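import Pool.Agent.H71.Inst2
import Pool.Agent.H71.Types3

/-!
Subgroups preserving a countable family of subsets of `ℕ` with uncountably many nonprincipal types.
-/

set_option autoImplicit false

open Set Topology Filter MeasureTheory

namespace Pool.Agent.H71

attribute [local instance] permTop polishSpace_perm isTopologicalGroup_perm permMeas borelSpace_perm

open Ty CB

lemma measurableSet_famStab (E : ℕ → Set ℕ) :
    MeasurableSet (famStab E : Set (Equiv.Perm ℕ)) := by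
  have hcl : ∀ i j, MeasurableSet {k : Equiv.Perm ℕ | ∀ a, k a ∈ E i ↔ a ∈ E j} := by
    intro i j
    have : {k : Equiv.Perm ℕ | ∀ a, k a ∈ E i ↔ a ∈ E j} =
        ⋂ a, {k : Equiv.Perm ℕ | k a ∈ E i ↔ a ∈ E j} := by
      ext k; simp
    rw [this]
    refine MeasurableSet.iInter fun a => ?_
    exact ((isOpen_discrete {b : ℕ | b ∈ E i ↔ a ∈ E j}).preimage
      (continuous_perm_apply a)).measurableSet
  have : (famStab E : Set (Equiv.Perm ℕ)) =
      (⋂ i, ⋃ j, {k : Equiv.Perm ℕ | ∀ a, k a ∈ E i ↔ a ∈ E j}) ∩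
      ⋂ i, ⋃ j, {k : Equiv.Perm ℕ | ∀ a, k a ∈ E j ↔ a ∈ E i} := by
    ext k
    simp only [SetLike.mem_coe, mem_famStab, mem_inter_iff, mem_iInter, mem_iUnion, mem_ofPred_eq]
  rw [this]
  exact (MeasurableSet.iInter fun i => MeasurableSet.iUnion fun j => hcl i j).inter
    (MeasurableSet.iInter fun i => MeasurableSet.iUnion fun j => hcl j i)

section

variable {E : ℕ → Set ℕ} {Ψ : Z → Z}

lemma pmdc_moiety_fam (hΨ : Continuous Ψ) (hΨi : Function.Injective Ψ)
    (hΨr : range Ψ ⊆ Acc E univ) {A : Set ℕ} (hA : A.Infinite) (hA' : Aᶜ.Infinite) :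
    PMDC (famStab E) (fun h => ∀ a, h a ∈ A ↔ a ∈ A) := by
  obtain ⟨B, hB1, hB2, hB3, hB4⟩ := Ty.codeA E hΨ hΨi hΨr
  obtain ⟨g, hg, hg'⟩ := exists_perm_moiety hA hA' B hB1 hB2 hB3
  refine ⟨g, hg, fun σ τ hne k hk h hh heq => hne ?_⟩
  refine hB4 σ τ k hk (fun t => ?_)
  have h1 : ∀ a, k (g σ a) = g τ (h a) := fun a => by
    rw [← Equiv.Perm.mul_apply, heq, Equiv.Perm.mul_apply]
  have h2 := h1 ((g σ).symm t)
  rw [Equiv.apply_symm_apply] at h2
  have h4 := hg' σ ((g σ).symm t)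
  rw [Equiv.apply_symm_apply] at h4
  rw [h2, hg' τ, hh, h4]

lemma pmdc_partition_fam (hΨ : Continuous Ψ) (hΨi : Function.Injective Ψ)
    (hΨr : range Ψ ⊆ Acc E univ) (F₀ : Finset ℕ) (r : ℕ) (C : ℕ → Set ℕ) (hr : 2 ≤ r)
    (hC : ∀ a, a ∉ F₀ → a ∈ C a ∧ (C a).Finite ∧ (C a).ncard = r ∧ ∀ b ∈ C a, b ∉ F₀ ∧ C b = C a) :
    PMDC (famStab E)
      (fun h => (∀ a, h a ∈ F₀ ↔ a ∈ F₀) ∧ ∀ a, a ∉ F₀ → C (h a) = h '' (C a)) := by
  classical
  obtain ⟨β₀, hβ₀⟩ := exists_beta' QP hC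
  let Ω := {a : ℕ // a ∉ F₀}
  obtain ⟨β, hβ1, hβ2⟩ := codeP E hΨ hΨi hΨr F₀ hr
  let gΩ : (ℕ → Bool) → Equiv.Perm Ω := fun σ => β₀.trans (β σ).symm
  have hgΩ : ∀ σ a, β σ (gΩ σ a) = β₀ a := fun σ a => (β σ).apply_symm_apply _
  let g : (ℕ → Bool) → Equiv.Perm ℕ := fun σ => Equiv.Perm.ofSubtype (gΩ σ)
  refine ⟨g, ?_, ?_⟩
  · refine measurable_to_perm fun a b => ?_
    by_cases ha : a ∉ F₀
    · by_cases hb : b ∉ F₀
      · have : {σ | g σ a = b} = {σ | β σ ⟨b, hb⟩ = β₀ ⟨a, ha⟩} := by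
          ext σ
          simp only [mem_ofPred_eq, g]
          rw [Equiv.Perm.ofSubtype_apply_of_mem (gΩ σ) ha]
          have e1 : ((gΩ σ ⟨a, ha⟩ : Ω) : ℕ) = b ↔ gΩ σ ⟨a, ha⟩ = ⟨b, hb⟩ :=
            ⟨fun h => Subtype.ext h, fun h => by rw [h]⟩
          rw [e1, ← (β σ).injective.eq_iff, hgΩ]
          exact eq_comm
        rw [this]
        exact hβ1 _ _
      · have : {σ | g σ a = b} = ∅ := by
          ext σ
          simp only [mem_ofPred_eq, mem_empty_iff_false, iff_false]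
          intro h
          apply hb
          rw [← h]
          exact (Equiv.Perm.ofSubtype_apply_mem_iff_mem (gΩ σ) a).2 ha
        rw [this]
        exact MeasurableSet.empty
    · have : {σ | g σ a = b} = {σ | a = b} := by
        ext σ
        simp only [mem_ofPred_eq, g]
        rw [Equiv.Perm.ofSubtype_apply_of_not_mem (gΩ σ) ha]
      rw [this]
      exact MeasurableSet.const _
  · intro σ τ hne k hk h hh heq
    obtain ⟨hh1, hh2⟩ := hh
    apply hne
    have happ : ∀ a, k (g σ a) = g τ (h a) := fun a => by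
      rw [← Equiv.Perm.mul_apply, heq, Equiv.Perm.mul_apply]
    have hgmem : ∀ ρ a, g ρ a ∉ F₀ ↔ a ∉ F₀ := fun ρ a =>
      Equiv.Perm.ofSubtype_apply_mem_iff_mem (gΩ ρ) a
    have hkmem : ∀ a, k a ∉ F₀ ↔ a ∉ F₀ := by
      intro a
      have h1 := happ ((g σ).symm a)
      rw [Equiv.apply_symm_apply] at h1
      have h2 := hgmem σ ((g σ).symm a)
      rw [Equiv.apply_symm_apply] at h2
      rw [h1, hgmem, hh1]
      exact h2.symm
    have hhmem : ∀ a, a ∉ F₀ ↔ h a ∉ F₀ := fun a => by rw [hh1]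
    let hΩ : Ω ≃ Ω := h.subtypePerm (fun a => (hhmem a).symm)
    have hhΩ : ∀ a : Ω, ((hΩ a : Ω) : ℕ) = h a := fun a => rfl
    have hcomm : ∀ a : Ω, (⟨k (gΩ σ a).1, (hkmem _).2 (gΩ σ a).2⟩ : Ω) = gΩ τ (hΩ a) := by
      intro a
      apply Subtype.ext
      have h2 := happ a.1
      have h3 : g σ a.1 = ((gΩ σ a : Ω) : ℕ) := Equiv.Perm.ofSubtype_apply_coe (gΩ σ) a
      have h4 : g τ (h a.1) = ((gΩ τ (hΩ a) : Ω) : ℕ) :=
        Equiv.Perm.ofSubtype_apply_coe (gΩ τ) (hΩ a)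
      rw [h3, h4] at h2
      exact h2
    refine hβ2 σ τ k hk hkmem (fun s t => ?_)
    obtain ⟨a, rfl⟩ := (gΩ σ).surjective s
    obtain ⟨b, rfl⟩ := (gΩ σ).surjective t
    rw [hcomm, hcomm, hgΩ, hgΩ, hgΩ, hgΩ, hβ₀, hβ₀, hhΩ, hhΩ, hh2 _ a.2, hh2 _ b.2,
      (Set.image_injective.2 h.injective).eq_iff]

end

section

variable {X : Type*} [MeasurableSpace X] [StandardBorelSpace X] [MulAction (Equiv.Perm ℕ) X]

theorem perfect_of_family (hact : Measurable fun p : Equiv.Perm ℕ × X => p.1 • p.2)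
    (E : ℕ → Set ℕ) (hE : ¬ (Acc E univ).Countable)
    {K : Subgroup (Equiv.Perm ℕ)} (hK : MeasurableSet (K : Set (Equiv.Perm ℕ)))
    (hidx : Countable (K ⧸ (famStab E).subgroupOf K)) (hX : ¬ Countable X) :
    ∃ f : (ℕ → Bool) → X, Measurable f ∧ ∀ x y, x ≠ y → ∀ k ∈ K, k • f x ≠ f y := by
  refine perfect_of_countable_index hact hK hidx ?_
  have hcl : IsClosed (Acc E univ) := by
    apply isClosed_of_closure_subset
    rw [← cl_eq_closure]
    exact cl_Acc E univ
  have : PolishSpace Z := DST.polishSpace_cantor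
  obtain ⟨Ψ, hΨr, hΨ, hΨi⟩ := hcl.exists_nat_bool_injection_of_not_countable hE
  exact general hact (measurableSet_famStab E)
    (fun A hA hA' => pmdc_moiety_fam hΨ hΨi hΨr hA hA')
    (fun F₀ r C hr hC => pmdc_partition_fam hΨ hΨi hΨr F₀ r C hr hC) hX

end

/-! ### the intrinsic formulation -/

/-- the Boolean algebra of subsets of `ℕ` that are invariant under the pointwise stabiliser in `H`
of some finite set -/
def invAlg (H : Subgroup (Equiv.Perm ℕ)) : Set (Set ℕ) :=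
  {S | ∃ F : Finset ℕ, ∀ h ∈ H, (∀ a ∈ F, h a = a) → ∀ a, h a ∈ S ↔ a ∈ S}

/-- ultrafilters of `invAlg H` containing no finite set -/
def freeUlt (H : Subgroup (Equiv.Perm ℕ)) : Set (Set (Set ℕ)) :=
  {p | p ⊆ invAlg H ∧ (∀ S ∈ invAlg H, S ∈ p ∨ Sᶜ ∈ p) ∧
    ∀ q ⊆ p, q.Finite → (⋂₀ q).Infinite}

lemma countable_Fx (K : Subgroup (Equiv.Perm ℕ)) (F : Finset ℕ) :
    Countable (K ⧸ (Fx K F).subgroupOf K) := by
  let φ : K ⧸ (Fx K F).subgroupOf K → (F → ℕ) := Quotient.lift (fun (k : K) (a : F) => k.1 a.1) (by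
    intro k l h
    have h1 : (k⁻¹ * l) ∈ (Fx K F).subgroupOf K := QuotientGroup.leftRel_apply.1 h
    have h2 : (k.1⁻¹ * l.1) ∈ Fx K F := h1
    funext a
    have h3 := h2.2 a.1 a.2
    rw [Equiv.Perm.mul_apply] at h3
    have h4 : k.1 a.1 = l.1 a.1 := by
      conv_lhs => rw [← h3]
      simp
    exact h4)
  have hφ : Function.Injective φ := by
    intro x y
    induction x using Quotient.inductionOn with
    | h k =>
      induction y using Quotient.inductionOn with
      | h l =>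
        intro h
        apply Quotient.sound
        apply QuotientGroup.leftRel_apply.2
        refine ⟨K.mul_mem (K.inv_mem k.2) l.2, fun a ha => ?_⟩
        have h1 : k.1 a = l.1 a := congrFun h ⟨a, ha⟩
        change (k.1⁻¹ * l.1) a = a
        rw [Equiv.Perm.mul_apply, ← h1]
        simp
  exact hφ.countable

/-- transitivity of countable index -/
lemma countable_index_trans {K K₀ K₁ : Subgroup (Equiv.Perm ℕ)}
    (h0 : Countable (K ⧸ K₀.subgroupOf K)) (h1 : Countable (K₀ ⧸ K₁.subgroupOf K₀))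
    {K₂ : Subgroup (Equiv.Perm ℕ)} (h12 : K₁ ≤ K₂) : Countable (K ⧸ K₂.subgroupOf K) := by
  classical
  -- representatives
  let φ : K → (K ⧸ K₀.subgroupOf K) × (K₀ ⧸ K₁.subgroupOf K₀) := fun k =>
    (QuotientGroup.mk k, QuotientGroup.mk ⟨((QuotientGroup.mk k : K ⧸ K₀.subgroupOf K).out.1)⁻¹ * k.1, by
      have h := QuotientGroup.mk_out_eq_mul (K₀.subgroupOf K) k
      obtain ⟨h, hh⟩ := h
      rw [hh]
      have h2 : (h.1.1 : Equiv.Perm ℕ) ∈ K₀ := h.2
      have : ((k * h.1 : K) : Equiv.Perm ℕ)⁻¹ * k.1 = (h.1.1 : Equiv.Perm ℕ)⁻¹ := by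
        simp
      rw [this]
      exact K₀.inv_mem h2⟩)
  have hφ : ∀ k l : K, φ k = φ l → (QuotientGroup.mk k : K ⧸ K₂.subgroupOf K) = QuotientGroup.mk l := by
    intro k l h
    have e1 : (QuotientGroup.mk k : K ⧸ K₀.subgroupOf K) = QuotientGroup.mk l := (Prod.ext_iff.1 h).1
    have e2 := (Prod.ext_iff.1 h).2
    have e3 := QuotientGroup.eq.1 e2
    apply QuotientGroup.eq.2
    have e4 : (((QuotientGroup.mk k : K ⧸ K₀.subgroupOf K).out.1)⁻¹ * k.1)⁻¹ *
      (((QuotientGroup.mk l : K ⧸ K₀.subgroupOf K).out.1)⁻¹ * l.1) ∈ K₁ := e3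
    rw [e1] at e4
    have e5 : (k.1)⁻¹ * l.1 ∈ K₁ := by
      have : (k.1)⁻¹ * l.1 = (((QuotientGroup.mk l : K ⧸ K₀.subgroupOf K).out.1)⁻¹ * k.1)⁻¹ *
      (((QuotientGroup.mk l : K ⧸ K₀.subgroupOf K).out.1)⁻¹ * l.1) := by group
      rw [this]
      exact e4
    exact h12 e5
  have hsurj : Function.Surjective (fun x : range φ =>
      (QuotientGroup.mk x.2.choose : K ⧸ K₂.subgroupOf K)) := by
    intro y
    obtain ⟨k, rfl⟩ := QuotientGroup.mk_surjective y
    refine ⟨⟨φ k, k, rfl⟩, ?_⟩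
    apply hφ
    exact (⟨k, rfl⟩ : ∃ l, φ l = φ k).choose_spec
  have : Countable (range φ) := inferInstance
  exact hsurj.countable

lemma countable_index_mono {K K₀ K₂ : Subgroup (Equiv.Perm ℕ)}
    (h0 : Countable (K ⧸ K₀.subgroupOf K)) (h : K₀ ≤ K₂) : Countable (K ⧸ K₂.subgroupOf K) := by
  have h1 : K₀.subgroupOf K ≤ K₂.subgroupOf K := fun x hx => h hx
  have hs : Function.Surjective (Subgroup.quotientMapOfLE h1) := by
    intro y
    obtain ⟨k, rfl⟩ := QuotientGroup.mk_surjective y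
    exact ⟨QuotientGroup.mk k, rfl⟩
  exact hs.countable

lemma Acc_orbits {H : Subgroup (Equiv.Perm ℕ)} (hH : (range (fun a => {b | ∃ h ∈ H, h a = b})).Infinite) :
    ∃ E : ℕ → Set ℕ, H ≤ famStab E ∧ ¬ (Acc E univ).Countable := by
  classical
  have : Infinite (range (fun a => {b | ∃ h ∈ H, h a = b})) := hH.to_subtype
  have : Countable (range (fun a => {b | ∃ h ∈ H, h a = b})) := (Set.countable_range _).to_subtype
  obtain ⟨e⟩ : Nonempty (range (fun a => {b | ∃ h ∈ H, h a = b}) ≃ Finset ℕ) :=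
    nonempty_equiv_of_countable
  let ρ : ℕ → Finset ℕ := fun a => e ⟨{b | ∃ h ∈ H, h a = b}, a, rfl⟩
  have hρs : Function.Surjective ρ := by
    intro s
    obtain ⟨⟨_, a, rfl⟩, ha⟩ := e.surjective s
    exact ⟨a, ha⟩
  have hρ : ∀ h ∈ H, ∀ a, ρ (h a) = ρ a := by
    intro h hh a
    have : ({b | ∃ g ∈ H, g (h a) = b} : Set ℕ) = {b | ∃ g ∈ H, g a = b} := by
      ext b
      constructor
      · rintro ⟨g, hg, rfl⟩
        exact ⟨g * h, H.mul_mem hg hh, rfl⟩
      · rintro ⟨g, hg, rfl⟩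
        exact ⟨g * h⁻¹, H.mul_mem hg (H.inv_mem hh), by simp⟩
    change e _ = e _
    congr 1
    exact Subtype.ext this
  refine ⟨fun n => {a | n ∈ ρ a}, ?_, ?_⟩
  · intro h hh
    exact ⟨fun i => ⟨i, fun a => by simp only [mem_ofPred_eq, hρ h hh]⟩,
      fun i => ⟨i, fun a => by simp only [mem_ofPred_eq, hρ h hh]⟩⟩
  · have : Acc (fun n => {a | n ∈ ρ a}) univ = univ := by
      rw [eq_univ_iff_forall]
      intro F m
      have hch : ∀ j : ℕ, ∃ a, ρ a = insert (m + j) ((Finset.range m).filter (fun i => F i = true)) :=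
        fun j => hρs _
      choose a ha using hch
      have hinj : Function.Injective a := by
        intro i j hij
        have h1 := ha i
        rw [hij, ha j] at h1
        have h2 : m + i ∈ insert (m + j) ((Finset.range m).filter (fun i => F i = true)) := by
          rw [h1]; exact Finset.mem_insert_self _ _
        rcases Finset.mem_insert.1 h2 with h2 | h2
        · omega
        · have := Finset.mem_range.1 (Finset.mem_filter.1 h2).1
          omega
      refine (Set.infinite_range_of_injective hinj).mono ?_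
      rintro _ ⟨j, rfl⟩
      refine ⟨trivial, fun i hi => ?_⟩
      unfold tp
      simp only [mem_ofPred_eq, ha]
      cases hF : F i
      · simp only [decide_eq_false_iff_not, Finset.mem_insert, Finset.mem_filter, not_or, not_and]
        exact ⟨by omega, fun _ => by rw [hF]; simp⟩
      · simp only [decide_eq_true_eq, Finset.mem_insert, Finset.mem_filter, Finset.mem_range]
        exact Or.inr ⟨hi, hF⟩
    rw [this]
    intro hc
    have hc' : Countable (ℕ → Bool) := Set.countable_univ_iff.1 hc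
    obtain ⟨g, hg⟩ := exists_surjective_nat (ℕ → Bool)
    refine Function.cantor_surjective (fun n => {i | g n i = true}) (fun S => ?_)
    obtain ⟨n, hn⟩ := hg (fun i => decide (i ∈ S))
    refine ⟨n, ?_⟩
    ext i
    simp [hn]

section

variable {X : Type*} [MeasurableSpace X] [StandardBorelSpace X] [MulAction (Equiv.Perm ℕ) X]

theorem perfect_of_freeUlt (hact : Measurable fun p : Equiv.Perm ℕ × X => p.1 • p.2)
    {K K₀ : Subgroup (Equiv.Perm ℕ)} (hK : MeasurableSet (K : Set (Equiv.Perm ℕ)))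
    (hidx : Countable (K ⧸ K₀.subgroupOf K)) (hU : ¬ (freeUlt K₀).Countable)
    (hX : ¬ Countable X) :
    ∃ f : (ℕ → Bool) → X, Measurable f ∧ ∀ x y, x ≠ y → ∀ k ∈ K, k • f x ≠ f y := by
  classical
  by_cases h : ∀ F : Finset ℕ, (range (fun a => {b | ∃ h ∈ Fx K₀ F, h a = b})).Finite
  · -- the algebra is countable
    have hfin : ∀ F : Finset ℕ, {S : Set ℕ | ∀ g ∈ Fx K₀ F, ∀ a, g a ∈ S ↔ a ∈ S}.Finite := by
      intro F
      let φ : Set ℕ → Set (Set ℕ) := fun S =>
        {O | O ∈ range (fun a => {b | ∃ h ∈ Fx K₀ F, h a = b}) ∧ O ⊆ S}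
      have hφ : Set.InjOn φ {S : Set ℕ | ∀ g ∈ Fx K₀ F, ∀ a, g a ∈ S ↔ a ∈ S} := by
        have key : ∀ S ∈ {S : Set ℕ | ∀ g ∈ Fx K₀ F, ∀ a, g a ∈ S ↔ a ∈ S}, ∀ a,
            a ∈ S ↔ {b | ∃ h ∈ Fx K₀ F, h a = b} ∈ φ S := by
          intro S hS a
          constructor
          · intro ha
            refine ⟨⟨a, rfl⟩, ?_⟩
            rintro b ⟨g, hg, rfl⟩
            exact (hS g hg a).2 ha
          · rintro ⟨-, h2⟩
            exact h2 ⟨1, (Fx K₀ F).one_mem, rfl⟩
        intro S hS S' hS' heq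
        ext a
        rw [key S hS, key S' hS', heq]
      refine Set.Finite.of_finite_image ?_ hφ
      refine ((h F).powerset).subset ?_
      rintro _ ⟨S, -, rfl⟩
      exact fun O hO => hO.1
    have hcount : (invAlg K₀).Countable := by
      have : invAlg K₀ = ⋃ F : Finset ℕ, {S : Set ℕ | ∀ g ∈ Fx K₀ F, ∀ a, g a ∈ S ↔ a ∈ S} := by
        ext S
        simp only [invAlg, mem_ofPred_eq, mem_iUnion]
        constructor
        · rintro ⟨F, hF⟩
          exact ⟨F, fun g hg => hF g hg.1 hg.2⟩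
        · rintro ⟨F, hF⟩
          exact ⟨F, fun g hg hgF => hF g ⟨hg, hgF⟩⟩
      rw [this]
      exact Set.countable_iUnion fun F => (hfin F).countable
    have hne : (invAlg K₀).Nonempty := ⟨∅, ∅, fun _ _ _ a => by simp⟩
    obtain ⟨E, hE⟩ := hcount.exists_eq_range hne
    have hle : K₀ ≤ famStab E := by
      have key : ∀ g ∈ K₀, ∀ i, ∃ j, ∀ a, g a ∈ E i ↔ a ∈ E j := by
        intro g hg i
        have h1 : E i ∈ invAlg K₀ := by rw [hE]; exact ⟨i, rfl⟩
        obtain ⟨F, hF⟩ := h1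
        have h2 : {a | g a ∈ E i} ∈ invAlg K₀ := by
          refine ⟨F.image (g⁻¹ : Equiv.Perm ℕ), fun h' hh' hfix a => ?_⟩
          have h3 := hF (g * h' * g⁻¹) (K₀.mul_mem (K₀.mul_mem hg hh') (K₀.inv_mem hg)) (by
            intro b hb
            have := hfix (g⁻¹ b) (Finset.mem_image_of_mem _ hb)
            rw [Equiv.Perm.mul_apply, Equiv.Perm.mul_apply, this]
            simp) (g a)
          simpa [Equiv.Perm.mul_apply] using h3
        rw [hE] at h2
        obtain ⟨j, hj⟩ := h2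
        exact ⟨j, fun a => by rw [hj]; rfl⟩
      intro g hg
      refine ⟨key g hg, fun i => ?_⟩
      obtain ⟨j, hj⟩ := key g⁻¹ (K₀.inv_mem hg) i
      exact ⟨j, fun a => by rw [← hj]; simp⟩
    refine perfect_of_family hact E ?_ hK (countable_index_mono hidx hle) hX
    intro hAcc
    apply hU
    let φ : Set (Set ℕ) → Z := fun p i => decide (E i ∈ p)
    have hφ : Set.InjOn φ (freeUlt K₀) := by
      intro p hp p' hp' heq
      ext S
      constructor
      · intro hS
        have h1 : S ∈ range E := by rw [← hE]; exact hp.1 hS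
        obtain ⟨i, rfl⟩ := h1
        have h2 := congrFun heq i
        exact (decide_eq_decide.1 h2).1 hS
      · intro hS
        have h1 : S ∈ range E := by rw [← hE]; exact hp'.1 hS
        obtain ⟨i, rfl⟩ := h1
        have h2 := congrFun heq i
        exact (decide_eq_decide.1 h2).2 hS
    refine Set.countable_of_injective_of_countable_image hφ (hAcc.mono ?_)
    rintro _ ⟨p, hp, rfl⟩ m
    obtain ⟨h1, h2, h3⟩ := hp
    let q : Set (Set ℕ) := (fun i => if E i ∈ p then E i else (E i)ᶜ) '' (Set.Iio m)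
    have hq : q ⊆ p := by
      rintro _ ⟨i, -, rfl⟩
      have h4 : E i ∈ invAlg K₀ := by rw [hE]; exact ⟨i, rfl⟩
      change (if E i ∈ p then E i else (E i)ᶜ) ∈ p
      by_cases h5 : E i ∈ p
      · rw [if_pos h5]; exact h5
      · rw [if_neg h5]
        exact (h2 _ h4).resolve_left h5
    refine (h3 q hq ((Set.finite_Iio m).image _)).mono ?_
    intro a ha
    refine ⟨trivial, fun i hi => ?_⟩
    have h4 : a ∈ (if E i ∈ p then E i else (E i)ᶜ) := ha _ ⟨i, hi, rfl⟩
    change decide _ = decide _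
    apply decide_eq_decide.2
    by_cases h5 : E i ∈ p
    · rw [if_pos h5] at h4
      exact iff_of_true h4 h5
    · rw [if_neg h5] at h4
      exact iff_of_false h4 h5
  · push Not at h
    obtain ⟨F, hF⟩ := h
    obtain ⟨E, hE1, hE2⟩ := Acc_orbits hF
    exact perfect_of_family hact E hE2 hK
      (countable_index_trans hidx (countable_Fx K₀ F) hE1) hX

end

end Pool.Agent.H71
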