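import Pool.Agent.H71.CB
import Pool.Agent.H71.Weak

/-!
Accumulation types of subsets of `ℕ` with respect to a countable family of subsets, and coding of
`σ : ℕ → Bool` by moieties and partitions through the closed sets `CC σ`.
-/

set_option autoImplicit false

open Set Topology Filter

namespace Pool.Agent.H71

namespace Ty

open CB

/-- a one-to-one choice from infinite sets -/
lemma exists_inj_choice {N α : Type*} [Countable N] (W : N → Set α) (hW : ∀ s, (W s).Infinite) :
    ∃ v : N → α, Function.Injective v ∧ ∀ s, v s ∈ W s := by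
  classical
  obtain ⟨c, hc⟩ := exists_injective_nat N
  have hpick : ∀ (s : N) (S : Finset α), ∃ a, a ∈ W s ∧ a ∉ S := fun s S => by
    obtain ⟨a, ha, ha'⟩ := (hW s).exists_notMem_finset S
    exact ⟨a, ha, ha'⟩
  by_cases hN : Nonempty N
  · obtain ⟨s0⟩ := hN
    -- a partial inverse of `c`
    have : Nonempty N := ⟨s0⟩
    let b : ℕ → N := Function.invFun c
    have hb : ∀ s, b (c s) = s := Function.leftInverse_invFun hc
    choose pick hp1 hp2 using hpick
    let St : ℕ → Finset α := fun n => Nat.rec ∅ (fun n S => insert (pick (b n) S) S) n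
    have hSt : ∀ n, St (n + 1) = insert (pick (b n) (St n)) (St n) := fun n => rfl
    have hmono : ∀ m n, m ≤ n → St m ⊆ St n := by
      intro m n hmn
      induction n with
      | zero =>
        have : m = 0 := by omega
        subst this; exact subset_rfl
      | succ n ih =>
        rcases Nat.lt_or_ge n m with h | h
        · have : m = n + 1 := by omega
          subst this; exact subset_rfl
        · exact (ih h).trans (by rw [hSt]; exact Finset.subset_insert _ _)
    refine ⟨fun s => pick s (St (c s)), ?_, fun s => hp1 _ _⟩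
    have key : ∀ s t : N, c s < c t → pick s (St (c s)) ≠ pick t (St (c t)) := by
      intro s t hst h
      have h1 : pick s (St (c s)) ∈ St (c s + 1) := by
        rw [hSt, hb]
        exact Finset.mem_insert_self _ _
      have h2 := hmono _ _ hst h1
      rw [h] at h2
      exact hp2 _ _ h2
    intro s t hst
    by_contra hne
    rcases lt_or_gt_of_ne (fun h => hne (hc h)) with h | h
    · exact key s t h hst
    · exact key t s h hst.symm
  · rw [not_nonempty_iff] at hN
    exact ⟨fun s => isEmptyElim s, fun s => isEmptyElim s, fun s => isEmptyElim s⟩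

open Classical in
/-- the type of `a` over the family `E` -/
noncomputable def tp (E : ℕ → Set ℕ) (a : ℕ) : Z := fun i => decide (a ∈ E i)

/-- accumulation types of `A` -/
def Acc (E : ℕ → Set ℕ) (A : Set ℕ) : Set Z :=
  {F | ∀ m, {a | a ∈ A ∧ ∀ i < m, tp E a i = F i}.Infinite}

/-- consistent types -/
def Cons (E : ℕ → Set ℕ) : Set Z := {F | ∀ m, ∃ a, ∀ i < m, tp E a i = F i}

lemma Acc_subset_Cons (E : ℕ → Set ℕ) (A : Set ℕ) : Acc E A ⊆ Cons E := by
  intro F hF m
  obtain ⟨a, -, ha⟩ := (hF m).nonempty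
  exact ⟨a, ha⟩

lemma cl_Acc (E : ℕ → Set ℕ) (A : Set ℕ) : cl (Acc E A) ⊆ Acc E A := by
  intro F hF m
  obtain ⟨G, hG, hGF⟩ := hF m
  have := hG m
  convert this using 4 with a
  constructor
  · intro h i hi
    rw [h i hi, hGF i hi]
  · intro h i hi
    rw [h i hi, hGF i hi]

/-- the accumulation types between equivalent elements, off the diagonal -/
def Off (E : ℕ → Set ℕ) (R : ℕ → ℕ → Prop) : Set Z :=
  {F | ∃ F', F' ≠ F ∧ ∀ m, {p : ℕ × ℕ | R p.1 p.2 ∧ ∀ i < m, tp E p.1 i = F i ∧
    tp E p.2 i = F' i}.Infinite}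

lemma Off_subset_Cons (E : ℕ → Set ℕ) (R : ℕ → ℕ → Prop) : Off E R ⊆ Cons E := by
  rintro F ⟨F', -, hF⟩ m
  obtain ⟨p, -, hp⟩ := (hF m).nonempty
  exact ⟨p.1, fun i hi => (hp i hi).1⟩

/-- the stabiliser of the family `E` -/
def famStab (E : ℕ → Set ℕ) : Subgroup (Equiv.Perm ℕ) where
  carrier := {k | (∀ i, ∃ j, ∀ a, k a ∈ E i ↔ a ∈ E j) ∧ ∀ i, ∃ j, ∀ a, k a ∈ E j ↔ a ∈ E i}
  mul_mem' := by
    rintro k l ⟨hk1, hk2⟩ ⟨hl1, hl2⟩
    constructor
    · intro i
      obtain ⟨j, hj⟩ := hk1 i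
      obtain ⟨j', hj'⟩ := hl1 j
      exact ⟨j', fun a => by rw [Equiv.Perm.mul_apply, hj, hj']⟩
    · intro i
      obtain ⟨j, hj⟩ := hl2 i
      obtain ⟨j', hj'⟩ := hk2 j
      exact ⟨j', fun a => by rw [Equiv.Perm.mul_apply, hj', hj]⟩
  one_mem' := ⟨fun i => ⟨i, fun _ => Iff.rfl⟩, fun i => ⟨i, fun _ => Iff.rfl⟩⟩
  inv_mem' := by
    rintro k ⟨hk1, hk2⟩
    constructor
    · intro i
      obtain ⟨j, hj⟩ := hk2 i
      exact ⟨j, fun a => by rw [← hj]; simp⟩
    · intro i
      obtain ⟨j, hj⟩ := hk1 i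
      exact ⟨j, fun a => by rw [← hj]; simp⟩

lemma mem_famStab {E : ℕ → Set ℕ} {k : Equiv.Perm ℕ} : k ∈ famStab E ↔
    (∀ i, ∃ j, ∀ a, k a ∈ E i ↔ a ∈ E j) ∧ ∀ i, ∃ j, ∀ a, k a ∈ E j ↔ a ∈ E i := Iff.rfl

section

variable {E : ℕ → Set ℕ} {k : Equiv.Perm ℕ}

lemma tp_apply {a i : ℕ} {b j : ℕ} (h : a ∈ E i ↔ b ∈ E j) : tp E a i = tp E b j := by
  unfold tp
  exact decide_eq_decide.2 h

lemma comp_mem_Cons {u : ℕ → ℕ} (hu : ∀ i a, k a ∈ E i ↔ a ∈ E (u i)) {F : Z} (hF : F ∈ Cons E) :
    F ∘ u ∈ Cons E := by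
  intro m
  obtain ⟨M, hM⟩ : ∃ M, ∀ i < m, u i < M :=
    ⟨(Finset.range m).sup u + 1, fun i hi =>
      Nat.lt_succ_of_le (Finset.le_sup (f := u) (Finset.mem_range.2 hi))⟩
  obtain ⟨a, ha⟩ := hF M
  refine ⟨k a, fun i hi => ?_⟩
  rw [Function.comp_apply, ← ha (u i) (hM i hi)]
  exact tp_apply (hu i a)

lemma comp_comp {u w : ℕ → ℕ} (hu : ∀ i a, k a ∈ E i ↔ a ∈ E (u i))
    (hw : ∀ i a, k a ∈ E (w i) ↔ a ∈ E i) {F : Z} (hF : F ∈ Cons E) : (F ∘ u) ∘ w = F := by
  funext i
  simp only [Function.comp_apply]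
  obtain ⟨a, ha⟩ := hF (max i (u (w i)) + 1)
  rw [← ha i (by omega), ← ha (u (w i)) (by omega)]
  exact tp_apply ((hu (w i) a).symm.trans (hw i a))

lemma comp_comp' {u w : ℕ → ℕ} (hu : ∀ i a, k a ∈ E i ↔ a ∈ E (u i))
    (hw : ∀ i a, k a ∈ E (w i) ↔ a ∈ E i) {F : Z} (hF : F ∈ Cons E) : (F ∘ w) ∘ u = F := by
  funext i
  simp only [Function.comp_apply]
  obtain ⟨a, ha⟩ := hF (max i (w (u i)) + 1)
  rw [← ha i (by omega), ← ha (w (u i)) (by omega)]
  have h := hw (u i) (k.symm a)
  have h' := hu i (k.symm a)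
  rw [Equiv.apply_symm_apply] at h h'
  exact tp_apply (h.trans h'.symm)

lemma homeo_of_maps {u w : ℕ → ℕ} (hu : ∀ i a, k a ∈ E i ↔ a ∈ E (u i))
    (hw : ∀ i a, k a ∈ E (w i) ↔ a ∈ E i) {S S' : Set Z} (hS : S ⊆ Cons E) (hS' : S' ⊆ Cons E)
    (h1 : ∀ F ∈ S, F ∘ u ∈ S') (h2 : ∀ F ∈ S', F ∘ w ∈ S) : Nonempty (S ≃ₜ S') := by
  refine ⟨{ toFun := fun F => ⟨F.1 ∘ u, h1 F.1 F.2⟩
            invFun := fun F => ⟨F.1 ∘ w, h2 F.1 F.2⟩
            left_inv := fun F => Subtype.ext (comp_comp hu hw (hS F.2))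
            right_inv := fun F => Subtype.ext (comp_comp' hu hw (hS' F.2))
            continuous_toFun := ?_
            continuous_invFun := ?_ }⟩
  · refine Continuous.subtype_mk ?_ _
    exact continuous_pi fun i => (continuous_apply (u i)).comp continuous_subtype_val
  · refine Continuous.subtype_mk ?_ _
    exact continuous_pi fun i => (continuous_apply (w i)).comp continuous_subtype_val

lemma Acc_map {u : ℕ → ℕ} (hu : ∀ i a, k a ∈ E i ↔ a ∈ E (u i)) {A B : Set ℕ}
    (hAB : ∀ a, a ∈ A → k a ∈ B) {F : Z} (hF : F ∈ Acc E A) : F ∘ u ∈ Acc E B := by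
  intro m
  obtain ⟨M, hM⟩ : ∃ M, ∀ i < m, u i < M :=
    ⟨(Finset.range m).sup u + 1, fun i hi =>
      Nat.lt_succ_of_le (Finset.le_sup (f := u) (Finset.mem_range.2 hi))⟩
  refine ((hF M).image (k.injective.injOn)).mono ?_
  rintro _ ⟨a, ⟨ha, ha'⟩, rfl⟩
  refine ⟨hAB a ha, fun i hi => ?_⟩
  rw [Function.comp_apply, ← ha' (u i) (hM i hi)]
  exact tp_apply (hu i a)

lemma Off_map {u w : ℕ → ℕ} (hu : ∀ i a, k a ∈ E i ↔ a ∈ E (u i))
    (hw : ∀ i a, k a ∈ E (w i) ↔ a ∈ E i) {R R' : ℕ → ℕ → Prop}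
    (hRR : ∀ a b, R a b → R' (k a) (k b)) {F : Z} (hF : F ∈ Off E R) : F ∘ u ∈ Off E R' := by
  obtain ⟨F', hne, hF⟩ := hF
  have hcF : F ∈ Cons E := fun m => by
    obtain ⟨p, -, hp⟩ := (hF m).nonempty
    exact ⟨p.1, fun i hi => (hp i hi).1⟩
  have hcF' : F' ∈ Cons E := fun m => by
    obtain ⟨p, -, hp⟩ := (hF m).nonempty
    exact ⟨p.2, fun i hi => (hp i hi).2⟩
  refine ⟨F' ∘ u, ?_, ?_⟩
  · intro h
    apply hne
    rw [← comp_comp hu hw hcF', h, comp_comp hu hw hcF]
  · intro m
    obtain ⟨M, hM⟩ : ∃ M, ∀ i < m, u i < M :=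
      ⟨(Finset.range m).sup u + 1, fun i hi =>
        Nat.lt_succ_of_le (Finset.le_sup (f := u) (Finset.mem_range.2 hi))⟩
    have hinj : Function.Injective (fun p : ℕ × ℕ => (k p.1, k p.2)) := by
      intro p q h
      simp only [Prod.mk.injEq, EmbeddingLike.apply_eq_iff_eq] at h
      exact Prod.ext h.1 h.2
    refine ((hF M).image hinj.injOn).mono ?_
    rintro _ ⟨p, ⟨hp, hp'⟩, rfl⟩
    refine ⟨hRR _ _ hp, fun i hi => ?_⟩
    obtain ⟨h1, h2⟩ := hp' (u i) (hM i hi)
    rw [Function.comp_apply, Function.comp_apply, ← h1, ← h2]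
    exact ⟨tp_apply (hu i _), tp_apply (hu i _)⟩

end

/-! ### the closed sets `CC σ` : density of finitely supported points, closedness, measurability -/

/-- the indicator of a finite set -/
def fs (s : Finset ℕ) : Z := fun i => decide (i ∈ s)

/-- the finitely supported elements of `C` are dense in `C` -/
def Dense' (C : Set Z) : Prop := ∀ x ∈ C, ∀ m : ℕ, ∃ s : Finset ℕ, fs s ∈ C ∧ ∀ i < m, fs s i = x i

lemma fs_empty : fs ∅ = zero := by
  funext i
  simp [fs, zero]

lemma pre_fs (k : ℕ) (s : Finset ℕ) :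
    pre k (fs s) = fs (insert k (s.map ⟨fun i => k + 1 + i, fun a b h => by simpa using h⟩)) := by
  funext i
  unfold pre fs
  by_cases h1 : i < k
  · rw [if_pos h1]
    symm
    simp only [Finset.mem_insert, Finset.mem_map, Function.Embedding.coeFn_mk,
      decide_eq_false_iff_not, not_or, not_exists, not_and]
    exact ⟨by omega, fun j _ => by omega⟩
  · rw [if_neg h1]
    by_cases h2 : i = k
    · rw [if_pos h2]
      simp [h2]
    · rw [if_neg h2]
      obtain ⟨j, rfl⟩ : ∃ j, i = k + 1 + j := ⟨i - (k + 1), by omega⟩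
      have e : k + 1 + j - (k + 1) = j := by omega
      rw [e]
      apply decide_eq_decide.2
      simp only [Finset.mem_insert, Finset.mem_map, Function.Embedding.coeFn_mk]
      constructor
      · intro h
        exact Or.inr ⟨j, h, rfl⟩
      · rintro (h | ⟨j', hj', h⟩)
        · omega
        · have : j' = j := by omega
          rwa [← this]

lemma dense_star {G : ℕ → Set Z} (h : ∀ k, Dense' (G k)) : Dense' (star G) := by
  intro x hx m
  rcases hx with rfl | ⟨k, y, hy, rfl⟩
  · exact ⟨∅, by rw [fs_empty]; exact zero_mem_star G, fun i _ => by rw [fs_empty]⟩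
  · obtain ⟨s, hs, hs'⟩ := h k y hy m
    refine ⟨_, by rw [← pre_fs]; exact pre_mem_star.2 hs, fun i hi => ?_⟩
    rw [← pre_fs]
    exact pre_near_iff.2 hs' i (by omega)

lemma dense_U (n : ℕ) : Dense' (U n) := by
  induction n with
  | zero =>
    intro x hx m
    refine ⟨∅, by rw [fs_empty]; exact rfl, fun i _ => ?_⟩
    rw [fs_empty, show x = zero from hx]
  | succ n ih => exact dense_star fun _ => ih

lemma dense_univ : Dense' univ := by
  intro x _ m
  refine ⟨(Finset.range m).filter (fun i => x i = true), trivial, fun i hi => ?_⟩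
  unfold fs
  cases hx : x i
  · simp [hx]
  · simp [hi, hx]

lemma dense_empty : Dense' ∅ := fun _ hx => absurd hx (notMem_empty _)

lemma dense_T (n : ℕ) : Dense' (T n) := by
  refine dense_star fun k => ?_
  by_cases h : k % 2 = 0
  · rw [if_pos h]; exact dense_U n
  · rw [if_neg h]; exact dense_univ

lemma dense_CC (σ : ℕ → Bool) : Dense' (CC σ) := by
  refine dense_star fun k => ?_
  cases k with
  | zero => exact dense_U 0
  | succ k =>
    rw [GC]
    by_cases h : σ k = true
    · rw [if_pos h]; exact dense_T k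
    · rw [if_neg h]; exact dense_empty

lemma closed_star {G : ℕ → Set Z} (h : ∀ k, cl (G k) ⊆ G k) : cl (star G) ⊆ star G := by
  intro x hx
  by_cases hz : x = zero
  · rw [hz]; exact zero_mem_star G
  · -- the first one of `x`
    have hex : ∃ i, x i = true := by
      by_contra hcon
      push Not at hcon
      exact hz (funext fun i => by simpa [zero] using hcon i)
    classical
    let k := Nat.find hex
    have hk : x k = true := Nat.find_spec hex
    have hk' : ∀ i < k, x i = false := fun i hi => by simpa using Nat.find_min hex hi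
    have hx' : x = pre k (fun i => x (k + 1 + i)) := by
      funext i
      by_cases h1 : i < k
      · rw [pre_lt _ h1, hk' i h1]
      · by_cases h2 : i = k
        · rw [h2, pre_self, hk]
        · obtain ⟨j, rfl⟩ : ∃ j, i = k + 1 + j := ⟨i - (k + 1), by omega⟩
          rw [pre_add]
    rw [hx'] at hx ⊢
    rw [pre_mem_star]
    apply h k
    intro m
    obtain ⟨y, hy, hym⟩ := hx (k + 1 + m)
    rcases hy with rfl | ⟨k', y', hy', rfl⟩
    · exfalso
      have := hym k (by omega)
      rw [pre_self] at this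
      exact absurd this (by simp [zero])
    · have : k' = k := pre_near (m := k + 1 + m) (by omega) hym
      subst this
      exact ⟨y', hy', pre_near_iff.1 hym⟩

lemma closed_U (n : ℕ) : cl (U n) ⊆ U n := by
  induction n with
  | zero =>
    intro x hx
    change x = zero
    funext i
    obtain ⟨y, hy, hyx⟩ := hx (i + 1)
    rw [← hyx i (by omega), show y = zero from hy]
  | succ n ih => exact closed_star fun _ => ih

lemma closed_T (n : ℕ) : cl (T n) ⊆ T n := by
  refine closed_star fun k => ?_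
  by_cases h : k % 2 = 0
  · rw [if_pos h]; exact closed_U n
  · rw [if_neg h]; exact subset_univ _

lemma closed_CC (σ : ℕ → Bool) : cl (CC σ) ⊆ CC σ := by
  refine closed_star fun k => ?_
  cases k with
  | zero => exact closed_U 0
  | succ k =>
    rw [GC]
    by_cases h : σ k = true
    · rw [if_pos h]; exact closed_T k
    · rw [if_neg h]
      intro x hx
      obtain ⟨y, hy, -⟩ := hx 0
      exact hy

lemma measurableSet_mem_CC (x : Z) : MeasurableSet {σ : ℕ → Bool | x ∈ CC σ} := by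
  have : {σ : ℕ → Bool | x ∈ CC σ} = {σ : ℕ → Bool | x = zero ∨ ∃ y ∈ U 0, x = pre 0 y} ∪
      ⋃ k, ({σ : ℕ → Bool | σ k = true} ∩ {σ : ℕ → Bool | ∃ y ∈ T k, x = pre (k + 1) y}) := by
    ext σ
    simp only [CC, CB.star, mem_ofPred_eq, mem_union, mem_iUnion, mem_inter_iff]
    constructor
    · rintro (h | ⟨k, y, hy, h⟩)
      · exact Or.inl (Or.inl h)
      · cases k with
        | zero => exact Or.inl (Or.inr ⟨y, hy, h⟩)
        | succ k =>
          rw [GC] at hy
          by_cases hσ : σ k = true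
          · rw [if_pos hσ] at hy
            exact Or.inr ⟨k, hσ, y, hy, h⟩
          · rw [if_neg hσ] at hy
            exact absurd hy (notMem_empty _)
    · rintro ((h | ⟨y, hy, h⟩) | ⟨k, hσ, y, hy, h⟩)
      · exact Or.inl h
      · exact Or.inr ⟨0, y, hy, h⟩
      · refine Or.inr ⟨k + 1, y, ?_, h⟩
        rw [GC, if_pos hσ]
        exact hy
  rw [this]
  refine (MeasurableSet.const _).union (MeasurableSet.iUnion fun k => ?_)
  refine MeasurableSet.inter ?_ (MeasurableSet.const _)
  exact (measurable_pi_apply (X := fun _ : ℕ => Bool) k) (measurableSet_singleton true)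

lemma cl_eq_closure (S : Set Z) : cl S = closure S := by
  ext x
  rw [mem_closure_iff]
  constructor
  · intro hx V hV hxV
    obtain ⟨_, ⟨τ, m, rfl⟩, hσ, hcyl⟩ :=
      (PiNat.isTopologicalBasis_cylinders (fun _ : ℕ => Bool)).exists_subset_of_mem_open hxV hV
    obtain ⟨y, hy, hyx⟩ := hx m
    exact ⟨y, hcyl (fun i hi => (hyx i hi).trans (hσ i hi)), hy⟩
  · intro h m
    have hV : IsOpen {y : Z | ∀ i < m, y i = x i} := by
      have : {y : Z | ∀ i < m, y i = x i} = ⋂ i ∈ Finset.range m, {y : Z | y i = x i} := by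
        ext y; simp
      rw [this]
      refine isOpen_biInter_finset fun i _ => ?_
      exact (isOpen_discrete {x i}).preimage (continuous_apply (A := fun _ : ℕ => Bool) i)
    obtain ⟨y, hy, hyS⟩ := h _ hV (fun i _ => rfl)
    exact ⟨y, hyS, hy⟩

end Ty

end Pool.Agent.H71
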