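import Pool.Agent.H71.Types

/-!
The coding of `σ : ℕ → Bool` by moieties and by partitions into `r`-sets, for the stabiliser of
a countable family with uncountably many nonprincipal types.
-/

set_option autoImplicit false

open Set Topology Filter

namespace Pool.Agent.H71

namespace Ty

open CB

/-- indices -/
abbrev N0 : Type := Finset ℕ × ℕ

/-- a code for indices -/
noncomputable def cd : N0 → ℕ := (exists_injective_nat N0).choose

lemma cd_inj : Function.Injective cd := (exists_injective_nat N0).choose_spec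

lemma exists_large (t : Finset ℕ) (m : ℕ) : {n : ℕ | m ≤ cd (t, n)}.Infinite := by
  have h1 : {n : ℕ | cd (t, n) < m}.Finite := by
    have h2 : Function.Injective (fun n : ℕ => cd (t, n)) := fun a b h => by
      have := cd_inj h
      simpa using this
    exact (Set.finite_Iio m).preimage h2.injOn
  have h3 : {n : ℕ | m ≤ cd (t, n)} = {n : ℕ | cd (t, n) < m}ᶜ := by
    ext n; simp
  rw [h3]
  exact h1.infinite_compl

lemma finite_small (m : ℕ) : {s : N0 | cd s < m}.Finite :=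
  (Set.finite_Iio m).preimage cd_inj.injOn

section

variable {E : ℕ → Set ℕ} {Ψ : Z → Z}

/-- continuity of `Ψ` in terms of initial segments -/
lemma cyl_cont (hΨ : Continuous Ψ) (x : Z) (n : ℕ) :
    ∃ m : ℕ, ∀ y : Z, (∀ i < m, y i = x i) → ∀ i < n, Ψ y i = Ψ x i := by
  have h : Continuous (fun y : (univ : Set Z) => (⟨Ψ y.1, trivial⟩ : (univ : Set Z))) :=
    Continuous.subtype_mk (hΨ.comp continuous_subtype_val) _
  obtain ⟨m, hm⟩ := cyl_of_continuous h ⟨x, trivial⟩ n
  exact ⟨m, fun y hy => hm ⟨y, trivial⟩ hy⟩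

lemma cl_image (hΨ : Continuous Ψ) {C : Set Z} (hC : cl C ⊆ C) : cl (Ψ '' C) ⊆ Ψ '' C := by
  rw [cl_eq_closure] at hC ⊢
  have h1 : IsClosed C := isClosed_of_closure_subset hC
  have h2 : IsClosed (Ψ '' C) := (h1.isCompact.image hΨ).isClosed
  exact h2.closure_subset

/-- the accumulation types of the coding set -/
lemma Acc_eq (hΨ : Continuous Ψ) {C : Set Z} (hC : cl C ⊆ C) (hd : Dense' C) (v : N0 → ℕ)
    (hv : Function.Injective v) (hv' : ∀ s : N0, ∀ i < cd s, tp E (v s) i = Ψ (fs s.1) i) :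
    Acc E {a | ∃ s : N0, fs s.1 ∈ C ∧ a = v s} = Ψ '' C := by
  apply Subset.antisymm
  · intro F hF
    apply cl_image hΨ hC
    intro m
    have h1 := hF m
    have h2 : (v '' {s : N0 | cd s < m}).Finite := (finite_small m).image v
    obtain ⟨a, ⟨⟨s, hs, rfl⟩, ha⟩, ha'⟩ := (h1.sdiff h2).nonempty
    have hsm : m ≤ cd s := by
      by_contra hcon
      exact ha' ⟨s, by simpa using hcon, rfl⟩
    refine ⟨Ψ (fs s.1), mem_image_of_mem _ hs, fun i hi => ?_⟩
    rw [← hv' s i (by omega), ha i hi]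
  · rintro _ ⟨x, hx, rfl⟩ m
    obtain ⟨M, hM⟩ := cyl_cont hΨ x m
    obtain ⟨t, ht, ht'⟩ := hd x hx M
    have hinj : Function.Injective (fun n : ℕ => v (t, n)) := fun a b h => by
      have := hv h
      simpa using this
    refine ((exists_large t m).image hinj.injOn).mono ?_
    rintro _ ⟨n, hn, rfl⟩
    refine ⟨⟨(t, n), ht, rfl⟩, fun i hi => ?_⟩
    have hn' : m ≤ cd (t, n) := hn
    rw [hv' (t, n) i (by omega)]
    exact hM (fs t) ht' i hi

/-- the coding statement for subsets -/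
theorem codeA (E : ℕ → Set ℕ) (hΨ : Continuous Ψ) (hΨi : Function.Injective Ψ)
    (hΨr : range Ψ ⊆ Acc E univ) :
    ∃ A : (ℕ → Bool) → Set ℕ, (∀ σ, (A σ).Infinite) ∧ (∀ σ, (A σ)ᶜ.Infinite) ∧
    (∀ t, MeasurableSet {σ | t ∈ A σ}) ∧
    ∀ σ τ, ∀ k ∈ famStab E, (∀ t, k t ∈ A τ ↔ t ∈ A σ) → σ = τ := by
  obtain ⟨v, hv, hv'⟩ := exists_inj_choice (N := N0 ⊕ ℕ) (α := ℕ)
    (Sum.elim (fun s => {a | a ∈ (univ : Set ℕ) ∧ ∀ i < cd s, tp E a i = Ψ (fs s.1) i})
      (fun _ => univ)) (by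
      rintro (s | n)
      · exact hΨr ⟨fs s.1, rfl⟩ (cd s)
      · exact Set.infinite_univ)
  let v1 : N0 → ℕ := fun s => v (Sum.inl s)
  have hv1 : Function.Injective v1 := hv.comp Sum.inl_injective
  have hv2 : ∀ s : N0, ∀ i < cd s, tp E (v1 s) i = Ψ (fs s.1) i := fun s => (hv' (Sum.inl s)).2
  have hzero : ∀ σ, fs ∅ ∈ CC σ := fun σ => by rw [fs_empty]; exact zero_mem_star _
  refine ⟨fun σ => {a | ∃ s : N0, fs s.1 ∈ CC σ ∧ a = v1 s}, ?_, ?_, ?_, ?_⟩
  · intro σ
    have hinj : Function.Injective (fun n : ℕ => v1 (∅, n)) := fun a b h => by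
      have := hv1 h
      simpa using this
    refine (Set.infinite_range_of_injective hinj).mono ?_
    rintro _ ⟨n, rfl⟩
    exact ⟨(∅, n), hzero σ, rfl⟩
  · intro σ
    have hinj : Function.Injective (fun n : ℕ => v (Sum.inr n)) := hv.comp Sum.inr_injective
    refine (Set.infinite_range_of_injective hinj).mono ?_
    rintro _ ⟨n, rfl⟩ ⟨s, -, hs⟩
    exact Sum.inr_ne_inl (hv hs)
  · intro t
    have : {σ : ℕ → Bool | t ∈ {a | ∃ s : N0, fs s.1 ∈ CC σ ∧ a = v1 s}} =
        ⋃ s : N0, ({σ : ℕ → Bool | fs s.1 ∈ CC σ} ∩ {σ : ℕ → Bool | t = v1 s}) := by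
      ext σ; simp
    rw [this]
    exact MeasurableSet.iUnion fun s => (measurableSet_mem_CC _).inter (MeasurableSet.const _)
  · intro σ τ k hk hA
    choose u hu using hk.1
    choose w hw using hk.2
    obtain ⟨e⟩ := homeo_of_maps (S := Acc E {a | ∃ s : N0, fs s.1 ∈ CC σ ∧ a = v1 s})
      (S' := Acc E {a | ∃ s : N0, fs s.1 ∈ CC τ ∧ a = v1 s}) hu hw (Acc_subset_Cons _ _)
      (Acc_subset_Cons _ _) (fun F hF => Acc_map hu (fun a ha => (hA a).2 ha) hF)
      (fun F hF => by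
        have hu' : ∀ i a, k⁻¹ a ∈ E i ↔ a ∈ E (w i) := fun i a => by
          rw [← hw]; simp
        exact Acc_map hu' (fun a ha => by
          rw [← hA]; simpa using ha) hF)
    rw [Acc_eq hΨ (closed_CC σ) (dense_CC σ) v1 hv1 hv2,
      Acc_eq hΨ (closed_CC τ) (dense_CC τ) v1 hv1 hv2] at e
    have hemb : IsEmbedding Ψ := (hΨ.isClosedEmbedding hΨi).isEmbedding
    have e1 : CC σ ≃ₜ CC τ := (hemb.homeomorphImage (CC σ)).trans (e.trans (hemb.homeomorphImage (CC τ)).symm)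
    have h := Inv_eq e1
    rw [Inv_CC, Inv_CC] at h
    funext n
    have h1 : σ n = true ↔ τ n = true := by
      have := Set.ext_iff.1 h n
      exact this
    exact Bool.eq_iff_iff.2 h1

end

end Ty

end Pool.Agent.H71
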